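import Pool.Agent.P.MP_8598be_al.Z.Defs2

/-!
Calculus of functions of a prime that are eventually constant modulo `p - 1`.
-/

namespace Pool.Agent.P.MP_8598be_al.Z

section Ev

variable {L L' : ℕ} {Q Q' : ∀ (p : ℕ) [Fact p.Prime], Prop}

theorem Ev.of_forall (h : ∀ (p : ℕ) [Fact p.Prime], Q p) : Ev L Q := ⟨0, fun p _ _ _ => h p⟩

theorem Ev.mono (h : Ev L Q) (h' : ∀ (p : ℕ) [Fact p.Prime], Q p → Q' p) : Ev L Q' := by
  obtain ⟨N, hN⟩ := h
  exact ⟨N, fun p _ a b => h' p (hN p a b)⟩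

theorem Ev.and (h : Ev L Q) (h' : Ev L Q') : Ev L fun p _ => Q p ∧ Q' p := by
  obtain ⟨N, hN⟩ := h
  obtain ⟨N', hN'⟩ := h'
  exact ⟨max N N', fun p _ a b =>
    ⟨hN p ((le_max_left _ _).trans_lt a) b, hN' p ((le_max_right _ _).trans_lt a) b⟩⟩

theorem Ev.of_dvd (h : Ev L Q) (hL : L ∣ L') : Ev L' Q := by
  obtain ⟨N, hN⟩ := h
  exact ⟨N, fun p _ a b => hN p a (hL.trans b)⟩

theorem Ev.gt (L N : ℕ) : Ev L fun p _ => N < p := ⟨N, fun _ _ a _ => a⟩

theorem Ev.dvd (L : ℕ) : Ev L fun p _ => L ∣ p - 1 := ⟨0, fun _ _ _ b => b⟩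

theorem Ev.all_finset {ι : Type} (s : Finset ι) {Q : ι → ∀ (p : ℕ) [Fact p.Prime], Prop}
    (h : ∀ i ∈ s, Ev L (Q i)) : Ev L fun p _ => ∀ i ∈ s, Q i p := by
  classical
  induction s using Finset.induction_on with
  | empty => exact Ev.of_forall fun p _ i hi => absurd hi (Finset.notMem_empty i)
  | insert a s _ ih =>
    refine ((h a (Finset.mem_insert_self a s)).and
      (ih fun i hi => h i (Finset.mem_insert_of_mem hi))).mono fun p _ hp i hi => ?_
    rcases Finset.mem_insert.1 hi with rfl | hi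
    · exact hp.1
    · exact hp.2 i hi

theorem Ev.all_finite {ι : Type} {s : Set ι} (hs : s.Finite)
    {Q : ι → ∀ (p : ℕ) [Fact p.Prime], Prop} (h : ∀ i ∈ s, Ev L (Q i)) :
    Ev L fun p _ => ∀ i ∈ s, Q i p :=
  (Ev.all_finset hs.toFinset fun i hi => h i (hs.mem_toFinset.1 hi)).mono
    fun _ _ hp i hi => hp i (hs.mem_toFinset.2 hi)

theorem Ev.all {ι : Type} [Finite ι] {Q : ι → ∀ (p : ℕ) [Fact p.Prime], Prop}
    (h : ∀ i, Ev L (Q i)) : Ev L fun p _ => ∀ i, Q i p :=
  (Ev.all_finite Set.finite_univ fun i _ => h i).mono fun _ _ hp i => hp i (Set.mem_univ i)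

/-- There are infinitely many primes congruent to one. -/
theorem Ev.exists (hL : L ≠ 0) (h : Ev L Q) : ∃ (p : ℕ) (_ : Fact p.Prime), Q p := by
  obtain ⟨N, hN⟩ := h
  obtain ⟨p, hp, h1, h2⟩ := Nat.exists_prime_gt_modEq_one N hL
  have : Fact p.Prime := ⟨hp⟩
  exact ⟨p, this, hN p h1 ((Nat.modEq_iff_dvd' hp.one_le).1 h2.symm)⟩

theorem Ev.cast_ne_zero (L : ℕ) {m : ℤ} (hm : m ≠ 0) : Ev L fun p _ => (m : ZMod p) ≠ 0 := by
  refine (Ev.gt L m.natAbs).mono fun p _ hp h0 => ?_
  rw [ZMod.intCast_zmod_eq_zero_iff_dvd] at h0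
  exact absurd (Nat.le_of_dvd (Int.natAbs_pos.2 hm) (Int.natCast_dvd.1 h0)) hp.not_ge

end Ev

section EC

variable {L L' l : ℕ} {f g : PF}

theorem EC.const (c : ℤ) : EC L fun _ _ => c := ⟨c, Ev.of_forall fun _ _ => by simp⟩

theorem EC.congr (h : EC L f) (e : Ev L fun p _ => f p = g p) : EC L g := by
  obtain ⟨c, hc⟩ := h
  exact ⟨c, (hc.and e).mono fun p _ hp => hp.2 ▸ hp.1⟩

theorem EC.of_mod (h : EC L f) (e : Ev L fun p _ => ((p : ℤ) - 1) ∣ f p - g p) : EC L g := by
  obtain ⟨c, hc⟩ := h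
  refine ⟨c, (hc.and e).mono fun p _ hp => ?_⟩
  have := dvd_sub hp.1 hp.2
  rwa [show f p - c - (f p - g p) = g p - c by ring] at this

theorem EC.of_dvd (h : EC L f) (hL : L ∣ L') : EC L' f := by
  obtain ⟨c, hc⟩ := h
  exact ⟨c, hc.of_dvd hL⟩

theorem EC.add (h : EC L f) (h' : EC L g) : EC L fun p _ => f p + g p := by
  obtain ⟨c, hc⟩ := h
  obtain ⟨d, hd⟩ := h'
  refine ⟨c + d, (hc.and hd).mono fun p _ hp => ?_⟩
  have := dvd_add hp.1 hp.2
  rwa [show f p - c + (g p - d) = f p + g p - (c + d) by ring] at this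

theorem EC.sub (h : EC L f) (h' : EC L g) : EC L fun p _ => f p - g p := by
  obtain ⟨c, hc⟩ := h
  obtain ⟨d, hd⟩ := h'
  refine ⟨c - d, (hc.and hd).mono fun p _ hp => ?_⟩
  have := dvd_sub hp.1 hp.2
  rwa [show f p - c - (g p - d) = f p - g p - (c - d) by ring] at this

theorem EC.neg (h : EC L f) : EC L fun p _ => -f p := by
  obtain ⟨c, hc⟩ := h
  refine ⟨-c, hc.mono fun p _ hp => ?_⟩
  have := dvd_neg.2 hp
  rwa [show -(f p - c) = -f p - -c by ring] at this

theorem EC.mul (h : EC L f) (h' : EC L g) : EC L fun p _ => f p * g p := by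
  obtain ⟨c, hc⟩ := h
  obtain ⟨d, hd⟩ := h'
  refine ⟨c * d, (hc.and hd).mono fun p _ hp => ?_⟩
  have := dvd_add (hp.1.mul_right (g p)) (hp.2.mul_left c)
  rwa [show (f p - c) * g p + c * (g p - d) = f p * g p - c * d by ring] at this

theorem EC.sum {ι : Type} (s : Finset ι) {f : ι → PF} (h : ∀ i ∈ s, EC L (f i)) :
    EC L fun p _ => ∑ i ∈ s, f i p := by
  classical
  induction s using Finset.induction_on with
  | empty => exact (EC.const 0).congr (Ev.of_forall fun p _ => by simp)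
  | insert a s ha ih =>
    exact ((h a (Finset.mem_insert_self a s)).add
      (ih fun i hi => h i (Finset.mem_insert_of_mem hi))).congr
      (Ev.of_forall fun p _ => by rw [Finset.sum_insert ha])

theorem EC.prod {ι : Type} (s : Finset ι) {f : ι → PF} (h : ∀ i ∈ s, EC L (f i)) :
    EC L fun p _ => ∏ i ∈ s, f i p := by
  classical
  induction s using Finset.induction_on with
  | empty => exact (EC.const 1).congr (Ev.of_forall fun p _ => by simp)
  | insert a s ha ih =>
    exact ((h a (Finset.mem_insert_self a s)).mul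
      (ih fun i hi => h i (Finset.mem_insert_of_mem hi))).congr
      (Ev.of_forall fun p _ => by rw [Finset.prod_insert ha])

theorem EC.prime : EC L fun p _ => (p : ℤ) := ⟨1, Ev.of_forall fun _ _ => dvd_rfl⟩

/-- Sums of functions that depend, modulo `p - 1`, on finitely many tests only. Sketch: group the
elements by the set of tests that hold; the number of elements with a given set of tests is an
alternating sum of the given numbers (induction on the number of tests, or Moebius inversion). -/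
theorem EC.pattern {I : Type} [Fintype I] {A : ∀ (p : ℕ) [Fact p.Prime], Type}
    (hA : ∀ (p : ℕ) [Fact p.Prime], Finite (A p)) (t : ∀ (p : ℕ) [Fact p.Prime], A p → I → Prop)
    (h : ∀ s : Set I, EC L fun p _ => Nat.card {x : A p // ∀ i ∈ s, t p x i})
    (w : ∀ (p : ℕ) [Fact p.Prime], A p → ℕ) (c : Set I → ℤ)
    (hw : Ev L fun p _ => ∀ x : A p, ((p : ℤ) - 1) ∣ w p x - c {i | t p x i}) :
    EC L fun p _ => ((∑ᶠ x : A p, w p x : ℕ) : ℤ) := by
  classical
  have key : ∀ (r : Finset I) (s : Set I), EC L fun p _ =>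
      Nat.card {x : A p // (∀ i ∈ s, t p x i) ∧ ∀ i ∈ r, ¬ t p x i} := by
    intro r
    induction r using Finset.induction_on with
    | empty => exact fun s => (h s).congr (Ev.of_forall fun p _ => by simp)
    | insert j r _ ih =>
      refine fun s => ((ih s).sub (ih (insert j s))).congr (Ev.of_forall fun p _ => ?_)
      have := hA p
      have := Fintype.ofFinite (A p)
      simp only [Nat.card_eq_fintype_card, Fintype.card_subtype]
      rw [sub_eq_iff_eq_add, ← Nat.cast_add, Nat.cast_inj, add_comm,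
        ← Finset.card_filter_add_card_filter_not (p := fun x => t p x j), Finset.filter_filter,
        Finset.filter_filter]
      congr 2 <;> ext x <;> simp <;> tauto
  have key2 : ∀ s : Set I, EC L fun p _ => Nat.card {x : A p // {i | t p x i} = s} := by
    intro s
    refine (key (Finset.univ.filter fun i => i ∉ s) s).congr (Ev.of_forall fun p _ => ?_)
    congr 1
    refine Nat.card_congr (Equiv.subtypeEquivRight fun x => ?_)
    simp only [Finset.mem_filter, Finset.mem_univ, true_and, Set.ext_iff, Set.mem_ofPred_eq]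
    constructor
    · exact fun hx i => ⟨fun hi => by_contra fun hs => hx.2 i hs hi, hx.1 i⟩
    · exact fun hx => ⟨fun i hi => (hx i).2 hi, fun i hi hi' => hi ((hx i).1 hi')⟩
  refine (EC.sum (Finset.univ : Finset (Set I)) fun s _ => (key2 s).mul (EC.const (c s))).of_mod
    (hw.mono fun p _ hp => ?_)
  have := hA p
  have := Fintype.ofFinite (A p)
  have e : ∑ s : Set I, (Nat.card {x : A p // {i | t p x i} = s} : ℤ) * c s =
      ∑ x : A p, c {i | t p x i} := by
    rw [← Finset.sum_fiberwise Finset.univ (fun x : A p => {i | t p x i})]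
    refine Finset.sum_congr rfl fun s _ => ?_
    rw [Finset.sum_congr rfl (g := fun _ => c s) fun x hx => by rw [(Finset.mem_filter.1 hx).2],
      Finset.sum_const, nsmul_eq_mul, Nat.card_eq_fintype_card, Fintype.card_subtype]
  rw [e, finsum_eq_sum_of_fintype, Nat.cast_sum, ← Finset.sum_sub_distrib]
  exact Finset.dvd_sum fun x _ => dvd_sub_comm.1 (hp x)

theorem Cst.of_dvd (h : Cst L l f) (hL : L ∣ L') : Cst L' l f := by
  obtain ⟨K, c, hc⟩ := h
  exact ⟨K, c, hc.of_dvd (Nat.mul_dvd_mul_right hL _)⟩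

theorem Sep.congr (h : Sep L l f) (e : Ev L fun p _ => f p = g p) : Sep L l g := by
  obtain ⟨N₀, e⟩ := e
  intro K N
  obtain ⟨p, p', i, i', a, a', b, b', hn⟩ := h K (max N N₀)
  refine ⟨p, p', i, i', (le_max_left _ _).trans_lt a, (le_max_left _ _).trans_lt a', b, b', ?_⟩
  rwa [← e p ((le_max_right _ _).trans_lt a) ((Dvd.intro _ rfl).trans b),
    ← e p' ((le_max_right _ _).trans_lt a') ((Dvd.intro _ rfl).trans b')]

theorem Sep.smul (hl : l.Prime) {m : ℤ} (hm : ¬ (l : ℤ) ∣ m) (h : Sep L l f) :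
    Sep L l fun p _ => m * f p := by
  intro K N
  obtain ⟨p, p', i, i', a, a', b, b', hn⟩ := h K N
  refine ⟨p, p', i, i', a, a', b, b', fun hd => ?_⟩
  rw [← mul_sub] at hd
  exact ((Nat.prime_iff_prime_int.1 hl).dvd_or_dvd hd).elim hm hn

theorem not_cst (h : EC L fun p _ => f p - g p) (hg : Sep L l g) : ¬ Cst L l f := by
  rintro ⟨K, c, N, hc⟩
  obtain ⟨d, N', hd⟩ := h
  obtain ⟨p, p', i, i', a, a', b, b', hn⟩ := hg (K + 1) (max N N')
  have key : ∀ (p : ℕ) [Fact p.Prime], max N N' < p → L * l ^ (K + 1) ∣ p - 1 →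
      (l : ℤ) ∣ g p - (c - d) := by
    intro p i a b
    have h1 := hc p ((le_max_left _ _).trans_lt a)
      ((Nat.mul_dvd_mul_left L (pow_dvd_pow l K.le_succ)).trans b)
    have h2 := hd p ((le_max_right _ _).trans_lt a) ((Dvd.intro _ rfl).trans b)
    have h3 : (l : ℤ) ∣ (p : ℤ) - 1 := by
      have : l ∣ p - 1 := ((dvd_pow_self l K.succ_ne_zero).mul_left L).trans b
      have := Int.natCast_dvd_natCast.2 this
      rwa [Nat.cast_sub i.out.one_le] at this
    have := dvd_sub h1 (h3.trans h2)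
    rwa [show f p - c - (f p - g p - d) = g p - (c - d) by ring] at this
  have := dvd_sub (key p a b) (key p' a' b')
  rw [show g p - (c - d) - (g p' - (c - d)) = g p - g p' by ring] at this
  exact hn this

end EC

end Pool.Agent.P.MP_8598be_al.Z
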