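import Pool.Agent.P.MP_8598be_al.Z.IntA
import Pool.Agent.P.MP_8598be_al.E.Model
import Pool.Agent.P.MP_8598be_al.E.LazB

/-!
The dimension of an integral family is constant for large primes.
-/

namespace Pool.Agent.P.MP_8598be_al.Z

open Module

variable {X : Type} {V W : ∀ (p : ℕ) [Fact p.Prime], Submodule (ZMod p) (FL (ZMod p) X)}

theorem span_image_Int {M M' F : Type} [AddCommGroup M] [AddCommGroup M'] [Ring F] [Module F M']
    (ρ : M →+ M') (S : Set M) :
    Submodule.span F (ρ '' (Submodule.span ℤ S : Set M)) = Submodule.span F (ρ '' S) := by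
  refine le_antisymm (Submodule.span_le.2 ?_)
    (Submodule.span_mono (Set.image_mono Submodule.subset_span))
  rintro _ ⟨u, hu, rfl⟩
  induction hu using Submodule.span_induction with
  | mem x hx => exact Submodule.subset_span ⟨x, hx, rfl⟩
  | zero => rw [map_zero]; exact zero_mem _
  | add a b _ _ ha hb => rw [map_add]; exact add_mem ha hb
  | smul c a _ ha => rw [map_zsmul]; exact zsmul_mem ha c

/-- Reduction of integral vectors. -/
def rho_Int (m F : Type) [Ring F] : (m → ℤ) →+ (m → F) where
  toFun v i := (v i : F)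
  map_zero' := by funext i; simp
  map_add' u v := by funext i; simp

theorem rho_indep_Int {m : Type} [Fintype m] (F : Type) [Field F] (b : Basis m ℤ (m → ℤ)) :
    LinearIndependent F fun i => rho_Int m F (b i) := by
  classical
  refine linearIndependent_of_top_le_span_of_card_eq_finrank ?_ (by simp)
  have h1 : Set.range (fun i => rho_Int m F (b i)) = rho_Int m F '' Set.range b := by
    rw [← Set.range_comp]; rfl
  rw [h1, ← span_image_Int, b.span_eq, ← (Pi.basisFun F m).span_eq]
  refine Submodule.span_mono ?_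
  rintro _ ⟨i, rfl⟩
  refine ⟨Pi.single i 1, trivial, funext fun j => ?_⟩
  rw [Pi.basisFun_apply]
  change (((Pi.single i 1 : m → ℤ) j : ℤ) : F) = _
  by_cases h : j = i
  · subst h; simp
  · simp [Pi.single_eq_of_ne h]

/-- The rank of an integral matrix modulo `p` is constant for large `p`. -/
theorem matrix_rank {m n : Type} [Fintype m] [Fintype n] (A : Matrix m n ℤ) :
    ∃ r, Ev 1 fun p _ => (A.map (Int.cast : ℤ → ZMod p)).rank = r := by
  obtain ⟨r, bM, bN, f, a, snf⟩ :=
    Submodule.smithNormalForm (Pi.basisFun ℤ m) (Submodule.span ℤ (Set.range A.col))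
  have ha : ∀ i, a i ≠ 0 := fun i h => by
    have h1 := snf i
    rw [h, zero_smul] at h1
    exact bN.ne_zero i (Subtype.ext h1)
  refine ⟨r, (Ev.all fun i => Ev.cast_ne_zero 1 (ha i)).mono fun p _ hp => ?_⟩
  have h1 : Set.range (A.map (Int.cast : ℤ → ZMod p)).col =
      rho_Int m (ZMod p) '' Set.range A.col := by
    rw [← Set.range_comp]; rfl
  have h2 : Submodule.span ℤ (Set.range A.col) =
      Submodule.span ℤ (Set.range fun i => (bN i : m → ℤ)) := by
    conv_lhs => rw [← Submodule.map_subtype_top (Submodule.span ℤ (Set.range A.col)), ← bN.span_eq,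
      Submodule.map_span, ← Set.range_comp]
    rfl
  have h3 : LinearIndependent (ZMod p) fun i => rho_Int m (ZMod p) (bN i) := by
    have h4 := ((rho_indep_Int (ZMod p) bM).comp f f.injective).units_smul
      fun i => Units.mk0 _ (hp i)
    convert h4 using 2 with i
    rw [snf, map_zsmul, ← Int.cast_smul_eq_zsmul (ZMod p)]
    rfl
  rw [Matrix.rank_eq_finrank_span_cols, h1, ← span_image_Int, h2, span_image_Int, ← Set.range_comp]
  exact (finrank_span_eq_card h3).trans (Fintype.card_fin r)

theorem ren_lieT_Int (R : Type) [CommRing R] {d : ℕ} (g : Fin d → X) (t : FreeMagma (Fin d)) :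
    ren R g (E.lieT R t) = lie R (FreeMagma.map g t) := by
  induction t using FreeMagma.rec with
  | of k => exact ren_gen g k
  | mul a b ha hb =>
    rw [E.lieT, LieHom.map_lie, ha, hb]
    rfl

theorem mem_span_Int (R : Type) [CommRing R] {d : ℕ} (u : FL R (Fin d)) :
    u ∈ Submodule.span R (Set.range (E.lieT R)) := by
  let K : LieSubalgebra R (FL R (Fin d)) :=
    { Submodule.span R (Set.range (E.lieT R)) with
      lie_mem' := fun {x y} hx hy => by
        change x ∈ Submodule.span R (Set.range (E.lieT R)) at hx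
        change y ∈ Submodule.span R (Set.range (E.lieT R)) at hy
        change ⁅x, y⁆ ∈ Submodule.span R (Set.range (E.lieT R))
        induction hx using Submodule.span_induction with
        | mem x hx =>
          induction hy using Submodule.span_induction with
          | mem y hy =>
            obtain ⟨s, rfl⟩ := hx
            obtain ⟨t, rfl⟩ := hy
            exact Submodule.subset_span ⟨.mul s t, rfl⟩
          | zero => rw [lie_zero]; exact zero_mem _
          | add a b _ _ ha hb => rw [lie_add]; exact add_mem ha hb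
          | smul c a _ ha => rw [lie_smul]; exact Submodule.smul_mem _ _ ha
        | zero => rw [zero_lie]; exact zero_mem _
        | add a b _ _ ha hb => rw [add_lie]; exact add_mem ha hb
        | smul c a _ ha => rw [smul_lie]; exact Submodule.smul_mem _ _ ha }
  have h : K.incl.comp (FreeLieAlgebra.lift R fun k =>
      (⟨gen R k, Submodule.subset_span ⟨.of k, rfl⟩⟩ : K)) = LieHom.id :=
    FreeLieAlgebra.hom_ext fun k => by
      rw [LieHom.comp_apply, FreeLieAlgebra.lift_of_apply]
      rfl
  have h1 := LieHom.congr_fun h u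
  rw [LieHom.comp_apply, LieHom.id_apply] at h1
  rw [← h1]
  exact Subtype.property _

theorem bounded_Int (R : Type) [CommRing R] {d : ℕ} (u : FL R (Fin d)) :
    ∃ c₀, ∀ c, c₀ ≤ c → u ∈ Submodule.span R (E.lieT R '' {t | t.length ≤ c}) := by
  have hu := mem_span_Int R u
  induction hu using Submodule.span_induction with
  | mem x hx =>
    obtain ⟨t, rfl⟩ := hx
    exact ⟨t.length, fun c hc => Submodule.subset_span ⟨t, hc, rfl⟩⟩
  | zero => exact ⟨0, fun _ _ => zero_mem _⟩
  | add a b _ _ ha hb =>
    obtain ⟨c₁, h1⟩ := ha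
    obtain ⟨c₂, h2⟩ := hb
    exact ⟨c₁ + c₂, fun c hc => add_mem (h1 c (by omega)) (h2 c (by omega))⟩
  | smul r a _ ha =>
    obtain ⟨c₁, h1⟩ := ha
    exact ⟨c₁, fun c hc => Submodule.smul_mem _ _ (h1 c hc)⟩

theorem span_le_Int {I : Type} {c d : ℕ} {τ : I → FreeMagma (Fin d)} (h : E.IsBasis c d τ)
    (R : Type) [CommRing R] : Submodule.span R (E.lieT R '' {t | t.length ≤ c}) ≤
      Submodule.span R (Set.range fun w => E.lieT R (τ w)) := by
  refine Submodule.span_le.2 ?_
  rintro _ ⟨t, ht, rfl⟩
  have h1 := E.laza_mem_piece (R := R) t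
  have h2 := FreeMagma.length_pos t
  have h3 : t.length ≤ c := ht
  rw [(h.2 R).1 _ (by omega)] at h1
  exact Submodule.span_mono (Set.image_subset_range _ _) h1

theorem coords_Int [Fintype X] (s : Finset (FL ℤ X)) :
    ∃ (r : ℕ) (σ : Fin r → FreeMagma X),
      (∀ (R : Type) [CommRing R], LinearIndependent R fun w => lie R (σ w)) ∧
      ∀ u ∈ s, ∃ a : Fin r → ℤ, ∀ (R : Type) [CommRing R],
        red R u = ∑ w, (a w : R) • lie R (σ w) := by
  let e := Fintype.equivFin X
  choose c hc using fun u : FL ℤ X => bounded_Int ℤ (ren ℤ e u)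
  obtain ⟨τ, hτ⟩ := E.exists_basis (s.sup c) (Fintype.card X)
  refine ⟨_, fun w => FreeMagma.map e.symm (τ w), fun R _ => ?_, fun u hu => ?_⟩
  · have h1 := (E.model_indep hτ R).map' (ren R e.symm : FL R _ →ₗ[R] FL R X)
      (LinearMap.ker_eq_bot.2 (ren_inj e.symm.injective))
    have h2 : (fun w => lie R (FreeMagma.map e.symm (τ w))) =
        (ren R e.symm : FL R _ →ₗ[R] FL R X) ∘ fun w => E.lieT R (τ w) :=
      funext fun w => (ren_lieT_Int R _ _).symm
    rw [h2]
    exact h1
  · obtain ⟨a, ha⟩ := (Submodule.mem_span_range_iff_exists_fun ℤ).1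
      (span_le_Int hτ ℤ (hc u _ (Finset.le_sup hu)))
    refine ⟨a, fun R _ => ?_⟩
    have h1 : u = ren ℤ e.symm (ren ℤ e u) := by
      rw [ren_ren, e.symm_comp_self, ren_id]
    rw [h1, ← ha, map_sum, map_sum]
    refine Finset.sum_congr rfl fun w _ => ?_
    rw [map_smul, ren_lieT_Int, Int.cast_smul_eq_zsmul, ← red_lie R, ← map_zsmul]

/-- The dimension is constant for large `p`. Sketch: rename the letters to `Fin d`; every element
of the free Lie ring is a finite sum of homogeneous elements, so for large `c` the finite set `s`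
lies in the integral span of a family `τ` with `E.IsBasis c d τ` (`E.exists_basis`), whose
monomials are linearly independent over every ring (`E.model_indep`); apply `matrix_rank`. -/
theorem IsInt.rank [Fintype X] (h : IsInt V) :
    ∃ r, Ev 1 fun p _ => finrank (ZMod p) (V p) = r := by
  obtain ⟨s, hs⟩ := h
  obtain ⟨n, σ, h1, h2⟩ := coords_Int s
  choose a ha using h2
  obtain ⟨r, hr⟩ := matrix_rank (Matrix.of fun (u : s) w => a u u.2 w)
  refine ⟨r, (hs.and hr).mono fun p _ hp => ?_⟩
  have h3 : red (ZMod p) '' (s : Set (FL ℤ X)) =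
      Fintype.linearCombination (ZMod p) (fun w => lie (ZMod p) (σ w)) '' Set.range
        ((Matrix.of fun (u : s) w => a u u.2 w).map (Int.cast : ℤ → ZMod p)).row := by
    ext x
    constructor
    · rintro ⟨u, hu, rfl⟩
      exact ⟨_, ⟨⟨u, hu⟩, rfl⟩, (ha u hu _).symm⟩
    · rintro ⟨_, ⟨u, rfl⟩, rfl⟩
      exact ⟨u, u.2, ha u u.2 _⟩
  rw [hp.1, ← hp.2, Matrix.rank_eq_finrank_span_row,
    (Submodule.equivMapOfInjective (Fintype.linearCombination (ZMod p) fun w => lie (ZMod p) (σ w))
      (h1 (ZMod p)).fintypeLinearCombination_injective _).finrank_eq, Submodule.map_span, h3]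

end Pool.Agent.P.MP_8598be_al.Z
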