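import Pool.Agent.P.MP_8598be_al.Z.AboveA
import Pool.Agent.P.MP_8598be_al.Z.Int

/-!
Flags above integral families of subspaces.
-/

namespace Pool.Agent.P.MP_8598be_al.Z

open Module

theorem card_sup_above {F W : Type} [Field F] [AddCommGroup W] [Module F W] (V : Submodule F W)
    (D : ℕ → Submodule F W) (g : ℕ → ℕ) :
    Nat.card (Above V D g) = Nat.card (Above V (fun j => ⨆ i ∈ Set.Iic j, D i) g) := by
  refine Nat.card_congr (Equiv.subtypeEquivRight fun G => ?_)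
  refine and_congr_right fun hG => ⟨fun h j => ⟨?_, (h j).2⟩, fun h j => ⟨?_, (h j).2⟩⟩
  · exact iSup₂_le fun i hi => (h i).1.trans (monotone_nat_of_le_succ hG hi)
  · exact (le_iSup₂_of_le (f := fun i (_ : i ∈ Set.Iic j) => D i) j (Set.mem_Iic.2 le_rfl)
      le_rfl).trans (h j).1

/-- The subspaces need not increase: replace `D j` by the sum of the `D i` for `i ≤ j`. -/
theorem above_ec {X : Type} [Fintype X] [DecidableEq X] (α : X → ℕ)
    (D : ℕ → ∀ (p : ℕ) [Fact p.Prime], Submodule (ZMod p) (FL (ZMod p) X))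
    (hD : ∀ j, IsInt (D j)) (hle : ∀ (p : ℕ) [Fact p.Prime] j, D j p ≤ mp (ZMod p) α)
    {g : ℕ → ℕ} {N : ℕ} (hg : ∀ j, N ≤ j → g j = 0) :
    EC 1 fun p _ => Nat.card (Above (mp (ZMod p) α) (fun j => D j p) g) := by
  have h1 : ∀ j : ℕ, ∃ r, Ev 1 fun p _ =>
      finrank (ZMod p) (⨆ i ∈ Set.Iic j, D i p : Submodule (ZMod p) (FL (ZMod p) X)) = r :=
    fun j => (IsInt.biSup (Set.finite_Iic j) fun i _ => hD i).rank
  choose r hr using h1
  obtain ⟨n, hn⟩ := (IsInt.mp α).rank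
  obtain ⟨c, hc⟩ := above_card N n r g hg
  refine ⟨c, (hn.and (Ev.all_finite (Set.finite_Iio N) fun j _ => hr j)).mono fun p _ hp => ?_⟩
  have := hc (ZMod p) (FL (ZMod p) X) (mp (ZMod p) α) (fun j => ⨆ i ∈ Set.Iic j, D i p) hp.1
    (fun j => biSup_mono fun i hi => Set.mem_Iic.2 ((Set.mem_Iic.1 hi).trans (Nat.le_succ j)))
    (fun j => iSup₂_le fun i _ => hle p i) (fun j hj => hp.2 j hj)
  rw [Nat.card_zmod, ← card_sup_above] at this
  exact this

theorem hyp_ec {X : Type} [Fintype X] [DecidableEq X] (α : X → ℕ)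
    (D : ∀ (p : ℕ) [Fact p.Prime], Submodule (ZMod p) (FL (ZMod p) X))
    (hD : IsInt D) (hle : ∀ (p : ℕ) [Fact p.Prime], D p ≤ mp (ZMod p) α) :
    EC 1 fun p _ => Nat.card {Q : Submodule (ZMod p) (FL (ZMod p) X) //
      Hyp (ZMod p) α Q ∧ D p ≤ Q} := by
  obtain ⟨r, hr⟩ := hD.rank
  obtain ⟨n, hn⟩ := (IsInt.mp α).rank
  rcases n with _ | n
  · refine ⟨0, hn.mono fun p _ hp => ?_⟩
    have : IsEmpty {Q : Submodule (ZMod p) (FL (ZMod p) X) // Hyp (ZMod p) α Q ∧ D p ≤ Q} :=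
      ⟨fun Q => by
        have := Q.2.1.2
        omega⟩
    simp
  · refine ⟨if r ≤ n then ((n + 1 - r).choose (n - r) : ℤ) else 0,
      (hn.and hr).mono fun p _ hp => ?_⟩
    have := between_card (ZMod p) (D p) (mp (ZMod p) α) (hle p) n
    rw [Nat.card_zmod, hp.1, hp.2] at this
    have e : Nat.card {Q : Submodule (ZMod p) (FL (ZMod p) X) // Hyp (ZMod p) α Q ∧ D p ≤ Q} =
        Nat.card {G : Submodule (ZMod p) (FL (ZMod p) X) //
          D p ≤ G ∧ G ≤ mp (ZMod p) α ∧ finrank (ZMod p) G = n} := by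
      refine Nat.card_congr (Equiv.subtypeEquivRight fun Q => ?_)
      have h1 := hp.1
      constructor
      · rintro ⟨⟨h2, h3⟩, h4⟩
        exact ⟨h4, h2, by omega⟩
      · rintro ⟨h2, h3, h4⟩
        exact ⟨⟨h3, by omega⟩, h2⟩
    change ((p : ℤ) - 1) ∣ (Nat.card {Q : Submodule (ZMod p) (FL (ZMod p) X) //
      Hyp (ZMod p) α Q ∧ D p ≤ Q} : ℤ) - _
    rw [e]
    exact this

end Pool.Agent.P.MP_8598be_al.Z
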