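import Pool.Agent.P.MP_8598be_al.Z.Defs

/-!
Counting flags above given subspaces.
-/

namespace Pool.Agent.P.MP_8598be_al.Z

open Module

section Aux

variable {F : Type} [Field F] {W : Type} [AddCommGroup W] [Module F W]

theorem sup_span_aboveA (D : Submodule F W) [Module.Finite F D] {v : W} (hv : v ∉ D) :
    finrank F (D ⊔ Submodule.span F {v} : Submodule F W) = finrank F D + 1 := by
  have h0 : v ≠ 0 := fun h => hv (h ▸ D.zero_mem)
  have h1 := Submodule.finrank_sup_add_finrank_inf_eq D (Submodule.span F {v})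
  have h2 : D ⊓ Submodule.span F {v} = ⊥ :=
    disjoint_iff.1 ((Submodule.disjoint_span_singleton' h0).2 hv)
  rwa [h2, finrank_bot, add_zero, finrank_span_singleton h0] at h1

theorem finite_le_aboveA [Finite F] (U : Submodule F W) [Module.Finite F U] :
    Finite {G : Submodule F W // G ≤ U} :=
  haveI : Finite U := Module.finite_of_finite F
  Finite.of_equiv _ (Submodule.MapSubtype.orderIso U).toEquiv

/-- The dilation along `v`. -/
def dil_aboveA (f : W →ₗ[F] F) (v : W) (t : Fˣ) : W →ₗ[F] W :=
  LinearMap.id + ((t : F) - 1) • f.smulRight v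

theorem dil_apply_aboveA (f : W →ₗ[F] F) (v : W) (t : Fˣ) (w : W) :
    dil_aboveA f v t w = w + (((t : F) - 1) * f w) • v := by
  simp [dil_aboveA, smul_smul]

theorem dil_one_aboveA (f : W →ₗ[F] F) (v : W) : dil_aboveA f v 1 = LinearMap.id := by
  simp [dil_aboveA]

theorem dil_mul_aboveA {f : W →ₗ[F] F} {v : W} (h : f v = 1) (s t : Fˣ) :
    dil_aboveA f v (s * t) = dil_aboveA f v s ∘ₗ dil_aboveA f v t := by
  refine LinearMap.ext fun w => ?_
  rw [LinearMap.comp_apply, dil_apply_aboveA, dil_apply_aboveA, dil_apply_aboveA, map_add,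
    map_smul, h, add_assoc, ← add_smul]
  congr 2
  rw [Units.val_mul, smul_eq_mul]
  ring

theorem f_dil_aboveA {f : W →ₗ[F] F} {v : W} (h : f v = 1) (t : Fˣ) (w : W) :
    f (dil_aboveA f v t w) = t * f w := by
  rw [dil_apply_aboveA, map_add, map_smul, h, smul_eq_mul]
  ring

theorem dil_inj_aboveA {f : W →ₗ[F] F} {v : W} (h : f v = 1) (t : Fˣ) :
    Function.Injective (dil_aboveA f v t) := by
  refine Function.LeftInverse.injective (g := dil_aboveA f v t⁻¹) fun w => ?_
  rw [← LinearMap.comp_apply, ← dil_mul_aboveA h, inv_mul_cancel, dil_one_aboveA,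
    LinearMap.id_apply]

theorem free_aboveA [Finite F] {D U : Submodule F W} {f : W →ₗ[F] F} {v : W} (h : f v = 1)
    (hD : D ≤ LinearMap.ker f) (hv : v ∈ U) (k : ℕ) :
    Nat.card F - 1 ∣ Nat.card {G : Submodule F W //
      (D ≤ G ∧ G ≤ U ∧ finrank F G = k) ∧ v ∉ G ∧ ¬ G ≤ LinearMap.ker f} := by
  have hmem : ∀ (t : Fˣ) (G : Submodule F W),
      (D ≤ G ∧ G ≤ U ∧ finrank F G = k) ∧ v ∉ G ∧ ¬ G ≤ LinearMap.ker f →
      (D ≤ G.map (dil_aboveA f v t) ∧ G.map (dil_aboveA f v t) ≤ U ∧
        finrank F (G.map (dil_aboveA f v t)) = k) ∧ v ∉ G.map (dil_aboveA f v t) ∧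
          ¬ G.map (dil_aboveA f v t) ≤ LinearMap.ker f := by
    rintro t G ⟨⟨h1, h2, h3⟩, h4, h5⟩
    refine ⟨⟨fun w hw => ⟨w, h1 hw, ?_⟩, ?_, ?_⟩, ?_, fun h6 => h5 fun w hw => ?_⟩
    · rw [dil_apply_aboveA, LinearMap.mem_ker.1 (hD hw), mul_zero, zero_smul, add_zero]
    · rintro _ ⟨w, hw, rfl⟩
      rw [dil_apply_aboveA]
      exact U.add_mem (h2 hw) (U.smul_mem _ hv)
    · rw [← h3]
      exact (Submodule.equivMapOfInjective _ (dil_inj_aboveA h t) G).finrank_eq.symm
    · rintro ⟨w, hw, e⟩
      apply h4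
      have e1 : dil_aboveA f v t ((t : F) • w) = dil_aboveA f v t v := by
        rw [map_smul, e, dil_apply_aboveA, h, mul_one, sub_smul, one_smul, add_sub_cancel]
      rw [← dil_inj_aboveA h t e1]
      exact G.smul_mem _ hw
    · have := LinearMap.mem_ker.1 (h6 ⟨w, hw, rfl⟩)
      rw [f_dil_aboveA h] at this
      exact LinearMap.mem_ker.2 ((mul_eq_zero.1 this).resolve_left t.ne_zero)
  let _ : MulAction Fˣ {G : Submodule F W //
      (D ≤ G ∧ G ≤ U ∧ finrank F G = k) ∧ v ∉ G ∧ ¬ G ≤ LinearMap.ker f} :=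
    { smul := fun t G => ⟨G.1.map (dil_aboveA f v t), hmem t G.1 G.2⟩
      one_smul := fun G => Subtype.ext (by
        change G.1.map (dil_aboveA f v 1) = G.1
        rw [dil_one_aboveA, Submodule.map_id])
      mul_smul := fun s t G => Subtype.ext (by
        change G.1.map (dil_aboveA f v (s * t)) =
          (G.1.map (dil_aboveA f v t)).map (dil_aboveA f v s)
        rw [dil_mul_aboveA h, Submodule.map_comp]) }
  rw [Nat.card_congr (MulAction.selfEquivOrbitsQuotientProd (G := Fˣ) (X := {G : Submodule F W //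
      (D ≤ G ∧ G ≤ U ∧ finrank F G = k) ∧ v ∉ G ∧ ¬ G ≤ LinearMap.ker f}) fun G => ?_),
    Nat.card_prod, Nat.card_units]
  · exact dvd_mul_left _ _
  · refine (Subgroup.eq_bot_iff_forall _).2 fun t ht => ?_
    have e : G.1.map (dil_aboveA f v t) = G.1 := congrArg Subtype.val ht
    obtain ⟨w, hw, hfw⟩ := SetLike.not_le_iff_exists.1 G.2.2.2
    have h1 : dil_aboveA f v t w ∈ G.1 := e ▸ ⟨w, hw, rfl⟩
    rw [dil_apply_aboveA, G.1.add_mem_iff_right hw] at h1
    by_contra ht1
    have h2 : ((t : F) - 1) * f w ≠ 0 :=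
      mul_ne_zero (sub_ne_zero.2 fun e => ht1 (Units.ext e)) hfw
    exact G.2.2.1 ((G.1.smul_mem_iff h2).1 h1)

theorem between_aboveA [Finite F] (k m : ℕ) : ∀ (D U : Submodule F W) [Module.Finite F U],
    D ≤ U → finrank F U = finrank F D + m →
    ((Nat.card F : ℤ) - 1) ∣ (Nat.card {G : Submodule F W // D ≤ G ∧ G ≤ U ∧ finrank F G = k} : ℤ) -
      if finrank F D ≤ k then (m.choose (k - finrank F D) : ℤ) else 0 := by
  induction m with
  | zero =>
    intro D U _ h hm
    obtain rfl : D = U := Submodule.eq_of_le_of_finrank_le h hm.le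
    have e : ∀ G : Submodule F W, (D ≤ G ∧ G ≤ D ∧ finrank F G = k) ↔
        (G = D ∧ finrank F D = k) := fun G =>
      ⟨fun h => by
        obtain rfl : G = D := le_antisymm h.2.1 h.1
        exact ⟨rfl, h.2.2⟩, fun h => by
        obtain ⟨rfl, h⟩ := h
        exact ⟨le_rfl, le_rfl, h⟩⟩
    simp only [e]
    by_cases hk : finrank F D = k
    · simp [hk]
    · simp only [hk, and_false]
      split_ifs with h1
      · rw [Nat.choose_eq_zero_of_lt (by omega)]
        simp
      · simp
  | succ m ih =>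
    intro D U _ h hm
    have := Submodule.finiteDimensional_of_le h
    obtain ⟨v, hvU, hvD⟩ : ∃ v ∈ U, v ∉ D := by
      by_contra hc
      have h1 : U ≤ D := fun v hv => by_contra fun h2 => hc ⟨v, hv, h2⟩
      have := Submodule.finrank_mono h1
      omega
    obtain ⟨f, hf, hD⟩ : ∃ f : W →ₗ[F] F, f v = 1 ∧ D ≤ LinearMap.ker f := by
      obtain ⟨f, h1, h2⟩ := Submodule.exists_le_ker_of_notMem hvD
      refine ⟨(f v)⁻¹ • f, by simp [h1], fun w hw => ?_⟩
      simp [LinearMap.mem_ker.1 (h2 hw)]
    have hv0 : v ∉ LinearMap.ker f := fun h1 => one_ne_zero (hf.symm.trans h1)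
    have := Submodule.finiteDimensional_of_le (inf_le_left : U ⊓ LinearMap.ker f ≤ U)
    have d1 := sup_span_aboveA D hvD
    have d2 := sup_span_aboveA (U ⊓ LinearMap.ker f) (v := v) fun h1 => hv0 h1.2
    have e2 : U ⊓ LinearMap.ker f ⊔ Submodule.span F {v} = U := by
      refine le_antisymm (sup_le inf_le_left ((Submodule.span_singleton_le_iff_mem _ _).2 hvU))
        fun w hw => Submodule.mem_sup.2 ⟨w - f w • v, ⟨U.sub_mem hw (U.smul_mem _ hvU), ?_⟩,
          f w • v, Submodule.smul_mem _ _ (Submodule.mem_span_singleton_self v),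
          sub_add_cancel _ _⟩
      simp [hf]
    rw [e2] at d2
    have i1 := ih (D ⊔ Submodule.span F {v}) U
      (sup_le h ((Submodule.span_singleton_le_iff_mem _ _).2 hvU)) (by omega)
    have i2 := ih D (U ⊓ LinearMap.ker f) (le_inf h hD) (by omega)
    have i3 := Int.natCast_dvd_natCast.2 (free_aboveA hf hD hvU k)
    rw [Nat.cast_sub Nat.card_pos, Nat.cast_one] at i3
    have hfin : {G : Submodule F W | G ≤ U}.Finite := finite_le_aboveA U
    have split : Nat.card {G : Submodule F W // D ≤ G ∧ G ≤ U ∧ finrank F G = k} =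
        Nat.card {G : Submodule F W // D ⊔ Submodule.span F {v} ≤ G ∧ G ≤ U ∧ finrank F G = k} +
        Nat.card {G : Submodule F W // D ≤ G ∧ G ≤ U ⊓ LinearMap.ker f ∧ finrank F G = k} +
        Nat.card {G : Submodule F W //
          (D ≤ G ∧ G ≤ U ∧ finrank F G = k) ∧ v ∉ G ∧ ¬ G ≤ LinearMap.ker f} := by
      change Set.ncard {G : Submodule F W | D ≤ G ∧ G ≤ U ∧ finrank F G = k} =
        Set.ncard {G : Submodule F W | D ⊔ Submodule.span F {v} ≤ G ∧ G ≤ U ∧ finrank F G = k} +
        Set.ncard {G : Submodule F W | D ≤ G ∧ G ≤ U ⊓ LinearMap.ker f ∧ finrank F G = k} +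
        Set.ncard {G : Submodule F W |
          (D ≤ G ∧ G ≤ U ∧ finrank F G = k) ∧ v ∉ G ∧ ¬ G ≤ LinearMap.ker f}
      rw [← Set.ncard_union_eq ?_ ?_ ?_, ← Set.ncard_union_eq ?_ ?_ ?_]
      · congr 1
        ext G
        simp only [Set.mem_union, Set.mem_ofPred_eq, sup_le_iff, le_inf_iff,
          Submodule.span_singleton_le_iff_mem]
        tauto
      · rw [Set.disjoint_left]
        rintro G (h1 | h1) h2
        · exact h2.2.1 ((Submodule.span_singleton_le_iff_mem _ _).1 (le_sup_right.trans h1.1))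
        · exact h2.2.2 (h1.2.1.trans inf_le_right)
      · exact hfin.subset (by
          rintro G (h1 | h1)
          · exact h1.2.1
          · exact h1.2.1.trans inf_le_left)
      · exact hfin.subset fun G h1 => h1.1.2.1
      · rw [Set.disjoint_left]
        intro G h1 h2
        exact hv0 ((h2.2.1 ((Submodule.span_singleton_le_iff_mem _ _).1
          (le_sup_right.trans h1.1))).2)
      · exact hfin.subset fun G h1 => h1.2.1
      · exact hfin.subset fun G h1 => h1.2.1.trans inf_le_left
    have pas : (if finrank F D ≤ k then ((m + 1).choose (k - finrank F D) : ℤ) else 0) =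
        (if finrank F D + 1 ≤ k then (m.choose (k - (finrank F D + 1)) : ℤ) else 0) +
          if finrank F D ≤ k then (m.choose (k - finrank F D) : ℤ) else 0 := by
      rcases lt_trichotomy (finrank F D) k with h1 | h1 | h1
      · rw [if_pos h1.le, if_pos h1.le, if_pos (Nat.succ_le_of_lt h1),
          show k - finrank F D = k - (finrank F D + 1) + 1 by omega, Nat.choose_succ_succ']
        push_cast
        rfl
      · simp [h1]
      · rw [if_neg (by omega), if_neg (by omega), if_neg (by omega), add_zero]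
    rw [d1] at i1
    rw [split, pas]
    have := (i1.add i2).add i3
    refine this.trans (dvd_of_eq ?_)
    push_cast
    ring

end Aux

/-- The number of subspaces between `D` and `U` of dimension `k` depends only on the dimensions and
on the size of the field, and is a binomial coefficient modulo `q - 1`. -/
theorem between_card (F : Type) [Field F] [Finite F] {W : Type} [AddCommGroup W] [Module F W]
    (D U : Submodule F W) [Module.Finite F U] (h : D ≤ U) (k : ℕ) :
    ((Nat.card F : ℤ) - 1) ∣ (Nat.card {G : Submodule F W // D ≤ G ∧ G ≤ U ∧ finrank F G = k} : ℤ) -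
      if finrank F D ≤ k then ((finrank F U - finrank F D).choose (k - finrank F D) : ℤ) else 0 := by
  exact between_aboveA k _ D U h (Nat.add_sub_cancel' (Submodule.finrank_mono h)).symm

theorem top_aboveA {F : Type} [Field F] {W : Type} [AddCommGroup W] [Module F W]
    {V : Submodule F W} [Module.Finite F V] {D : ℕ → Submodule F W} {g : ℕ → ℕ}
    (G : Above V D g) {j : ℕ} (hj : g j = 0) : G.1 j = V :=
  Submodule.eq_of_le_of_finrank_le (G.2.2 j).2.1 (Nat.sub_eq_zero_iff_le.1 ((G.2.2 j).2.2.trans hj))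

theorem finite_above (F : Type) [Field F] [Finite F] {W : Type} [AddCommGroup W] [Module F W]
    (V : Submodule F W) [Module.Finite F V] (D : ℕ → Submodule F W) {g : ℕ → ℕ} {N : ℕ}
    (hg : ∀ j, N ≤ j → g j = 0) : Finite (Above V D g) := by
  have := finite_le_aboveA V
  refine Finite.of_injective
    (fun (G : Above V D g) (j : Fin N) => (⟨G.1 j, (G.2.2 j).2.1⟩ : {G : Submodule F W // G ≤ V}))
    fun G G' e => Subtype.ext (funext fun j => ?_)
  by_cases hj : j < N
  · exact congrArg Subtype.val (congrFun e ⟨j, hj⟩)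
  · rw [top_aboveA G (hg j (not_lt.1 hj)), top_aboveA G' (hg j (not_lt.1 hj))]

theorem sigma_aboveA {F : Type} [Field F] {W : Type} [AddCommGroup W] [Module F W]
    (V : Submodule F W) [Module.Finite F V] (D : ℕ → Submodule F W) {g : ℕ → ℕ} {N n : ℕ}
    (hg : ∀ j, N + 1 ≤ j → g j = 0) (hn : finrank F V = n) (h1 : g N ≤ n)
    (h2 : ∀ j, j < N → g N ≤ g j) (hV : ∀ j, D j ≤ V) :
    Nat.card (Σ G : {G : Submodule F W // D N ≤ G ∧ G ≤ V ∧ finrank F G = n - g N},
      Above G.1 (fun j => D (min j N)) fun j => if j < N then g j - g N else 0) =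
      Nat.card (Above V D g) := by
  have fd : ∀ G : {G : Submodule F W // D N ≤ G ∧ G ≤ V ∧ finrank F G = n - g N},
      Module.Finite F G.1 := fun G => Submodule.finiteDimensional_of_le G.2.2.1
  have top : ∀ (G : {G : Submodule F W // D N ≤ G ∧ G ≤ V ∧ finrank F G = n - g N})
      (H : Above G.1 (fun j => D (min j N)) fun j => if j < N then g j - g N else 0) (j : ℕ),
      N ≤ j → H.1 j = G.1 := fun G H j hj => top_aboveA H (if_neg (not_lt.2 hj))
  refine Nat.card_eq_of_bijective (fun p => ⟨fun j => if j ≤ N then p.2.1 j else V,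
    fun j => ?_, fun j => ?_⟩) ⟨?_, fun G => ?_⟩
  · beta_reduce
    split_ifs with a b b
    · exact p.2.2.1 j
    · exact (p.2.2.2 j).2.1.trans p.1.2.2.1
    · omega
    · exact le_rfl
  · beta_reduce
    by_cases a : j ≤ N
    · have e := p.2.2.2 j
      rw [if_pos a]
      simp only [min_eq_left a] at e
      refine ⟨e.1, e.2.1.trans p.1.2.2.1, ?_⟩
      have e1 := Submodule.finrank_mono e.2.1
      have e2 := e.2.2
      have e3 := p.1.2.2.2
      rcases a.eq_or_lt with b | b
      · rw [if_neg b.not_lt] at e2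
        have e4 : g j = g N := congrArg g b
        omega
      · rw [if_pos b] at e2
        have := h2 j b
        omega
    · rw [if_neg a]
      exact ⟨hV j, le_rfl, by rw [Nat.sub_self, hg j (by omega)]⟩
  · rintro ⟨G, H⟩ ⟨G', H'⟩ e
    have e1 : ∀ j, j ≤ N → H.1 j = H'.1 j := fun j hj => by
      have := congrFun (congrArg Subtype.val e) j
      simpa only [if_pos hj] using this
    obtain rfl : G = G' :=
      Subtype.ext (by rw [← top G H N le_rfl, ← top G' H' N le_rfl, e1 N le_rfl])
    refine congrArg _ (Subtype.ext (funext fun j => ?_))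
    rcases le_total j N with a | a
    · exact e1 j a
    · rw [top G H j a, top G H' j a]
  · have hmono := monotone_nat_of_le_succ G.2.1
    have := Submodule.finiteDimensional_of_le (G.2.2 N).2.1
    have e0 := Submodule.finrank_mono (G.2.2 N).2.1
    have e1 := (G.2.2 N).2.2
    refine ⟨⟨⟨G.1 N, (G.2.2 N).1, (G.2.2 N).2.1, by omega⟩, fun j => G.1 (min j N),
      fun j => hmono (min_le_min_right N (Nat.le_succ j)), fun j =>
        ⟨(G.2.2 _).1, hmono (min_le_right j N), ?_⟩⟩, Subtype.ext (funext fun j => ?_)⟩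
    · change finrank F (G.1 N) - finrank F (G.1 (min j N)) = if j < N then g j - g N else 0
      split_ifs with a
      · have e2 := (G.2.2 j).2.2
        have e3 := Submodule.finrank_mono (hmono a.le)
        rw [min_eq_left a.le]
        omega
      · rw [min_eq_right (not_lt.1 a), Nat.sub_self]
    · change (if j ≤ N then G.1 (min j N) else V) = G.1 j
      split_ifs with a
      · rw [min_eq_left a]
      · exact (top_aboveA G (hg j (by omega))).symm

/-- The number of flags depends, modulo `q - 1`, only on the dimensions. Sketch: induction on `N`;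
choose `G (N - 1)` between `D (N - 1)` and `V`, then continue inside `G (N - 1)`. -/
theorem above_card (N n : ℕ) (r g : ℕ → ℕ) (hg : ∀ j, N ≤ j → g j = 0) :
    ∃ c : ℤ, ∀ (F : Type) [Field F] [Finite F] (W : Type) [AddCommGroup W] [Module F W]
      (V : Submodule F W) [Module.Finite F V] (D : ℕ → Submodule F W), finrank F V = n →
      (∀ j, D j ≤ D (j + 1)) → (∀ j, D j ≤ V) → (∀ j, j < N → finrank F (D j) = r j) →
      ((Nat.card F : ℤ) - 1) ∣ (Nat.card (Above V D g) : ℤ) - c := by
  induction N generalizing n g with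
  | zero =>
    refine ⟨1, fun F _ _ W _ _ V _ D _ _ hD _ => ?_⟩
    have : Unique (Above V D g) :=
      ⟨⟨⟨fun _ => V, fun _ => le_rfl, fun j => ⟨hD j, le_rfl, by
        rw [Nat.sub_self, hg j (Nat.zero_le j)]⟩⟩⟩, fun G =>
          Subtype.ext (funext fun j => top_aboveA G (hg j (Nat.zero_le j)))⟩
    simp
  | succ N ih =>
    by_cases h0 : g N ≤ n ∧ ∀ j, j < N → g N ≤ g j
    swap
    · refine ⟨0, fun F _ _ W _ _ V _ D hn _ _ _ => ?_⟩
      have : IsEmpty (Above V D g) := ⟨fun G => h0 ⟨by
        have := (G.2.2 N).2.2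
        omega, fun j hj => by
        have := Submodule.finiteDimensional_of_le (G.2.2 N).2.1
        have h1 := Submodule.finrank_mono (monotone_nat_of_le_succ G.2.1 hj.le)
        have h2 := (G.2.2 N).2.2
        have h3 := (G.2.2 j).2.2
        omega⟩⟩
      simp
    obtain ⟨c, hc⟩ := ih (n - g N) (fun j => if j < N then g j - g N else 0)
      fun j hj => if_neg (not_lt.2 hj)
    refine ⟨(if r N ≤ n - g N then ((n - r N).choose (n - g N - r N) : ℤ) else 0) * c,
      fun F _ _ W _ _ V _ D hn hD hV hr => ?_⟩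
    have hmono := monotone_nat_of_le_succ hD
    have b1 := between_card F (D N) V (hV N) (n - g N)
    rw [hn, hr N (Nat.lt_succ_self N)] at b1
    have := finite_le_aboveA V
    have : Finite {G : Submodule F W // D N ≤ G ∧ G ≤ V ∧ finrank F G = n - g N} :=
      Finite.of_injective (fun G => (⟨G.1, G.2.2.1⟩ : {G : Submodule F W // G ≤ V}))
        fun G G' e => Subtype.ext (Subtype.mk.inj e)
    let _ := Fintype.ofFinite {G : Submodule F W // D N ≤ G ∧ G ≤ V ∧ finrank F G = n - g N}
    have fd : ∀ G : {G : Submodule F W // D N ≤ G ∧ G ≤ V ∧ finrank F G = n - g N},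
        Module.Finite F G.1 := fun G => Submodule.finiteDimensional_of_le G.2.2.1
    have : ∀ G : {G : Submodule F W // D N ≤ G ∧ G ≤ V ∧ finrank F G = n - g N},
        Finite (Above G.1 (fun j => D (min j N)) fun j => if j < N then g j - g N else 0) :=
      fun G => finite_above F G.1 _ (N := N) fun j hj => if_neg (not_lt.2 hj)
    rw [← sigma_aboveA V D hg hn h0.1 h0.2 hV, Nat.card_sigma]
    have b2 : ((Nat.card F : ℤ) - 1) ∣
        ∑ G : {G : Submodule F W // D N ≤ G ∧ G ≤ V ∧ finrank F G = n - g N},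
          ((Nat.card (Above G.1 (fun j => D (min j N))
            fun j => if j < N then g j - g N else 0) : ℤ) - c) :=
      Finset.dvd_sum fun G _ => hc F W G.1 _ G.2.2.2
        (fun j => hmono (min_le_min_right N (Nat.le_succ j)))
        (fun j => (hmono (min_le_right j N)).trans G.2.1)
        fun j hj => by rw [min_eq_left hj.le, hr j (Nat.lt_succ_of_lt hj)]
    rw [Finset.sum_sub_distrib, Finset.sum_const, Finset.card_univ, nsmul_eq_mul,
      ← Nat.card_eq_fintype_card] at b2
    refine (b2.add (b1.mul_right c)).trans (dvd_of_eq ?_)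
    push_cast
    ring

end Pool.Agent.P.MP_8598be_al.Z
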