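import Pool.Agent.P.MP_8598be_al.Z.Cost

/-!
Admissible types.
-/

namespace Pool.Agent.P.MP_8598be_al.Z

section Adm

variable {X Y : Type} [Fintype X] [DecidableEq X] {S : Set (Equiv.Perm X)} {γ : Ty X}

theorem eq_one_adm {α : X → ℕ} {x : X} (hx : α x ≠ 0) (h2 : ¬ 2 ≤ tot α) : α = one x := by
  have h0 : tot α ≠ 0 := fun e => hx (by rw [tot_eq_zero.1 e]; rfl)
  obtain ⟨z, rfl⟩ := (tot_eq_one (α := α)).1 (by omega)
  by_cases e : x = z
  · rw [e]
  · simp [e] at hx

theorem wsum_adm (w α : X → ℕ) (y : X) :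
    ∑ z, w z * (α + one y : X → ℕ) z = ∑ z, w z * α z + w y := by
  simp [mul_add, Finset.sum_add_distrib, Pi.single_apply]

theorem Adm.anti' (h : Adm S γ) {i j : ℕ} (hij : i ≤ j) (α : X → ℕ) : γ j α ≤ γ i α := by
  induction hij with
  | refl => exact le_rfl
  | step _ ih => exact (h.anti _ α).trans ih

theorem Adm.alive_zero (h : Adm S γ) {j : ℕ} {α : X → ℕ} (hα : γ j α ≠ 0) : γ 0 α ≠ 0 := by
  have := h.anti' (Nat.zero_le j) α
  omega

theorem Adm.exists_pred (h : Adm S γ) {j : ℕ} {α : X → ℕ} {x : X} (hα : γ j α ≠ 0)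
    (h2 : 2 ≤ tot α) (hx : α x ≠ 0) : ∃ β y, α = β + one y ∧ β x ≠ 0 ∧ γ j β ≠ 0 := by
  have h1 := h.bd j α x h2 hx
  have h3 : below γ j α x ≠ 0 := by omega
  obtain ⟨y, -, hy⟩ := Finset.exists_ne_zero_of_sum_ne_zero h3
  split_ifs at hy with hc
  · exact ⟨α - one y, y, (sub_add_one hc.1).symm, hc.2, hy⟩
  · exact absurd rfl hy

theorem Adm.gen_alive (h : Adm S γ) {j : ℕ} {α : X → ℕ} {x : X} (hα : γ j α ≠ 0)
    (hx : α x ≠ 0) : γ j (one x) = 1 := by
  induction hm : tot α using Nat.strong_induction_on generalizing α with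
  | _ m ih =>
    by_cases h2 : 2 ≤ tot α
    · obtain ⟨β, y, rfl, hb, hβ⟩ := h.exists_pred hα h2 hx
      refine ih (tot β) ?_ hβ hb rfl
      rw [← hm, tot_add, tot_one]
      omega
    · have e := eq_one_adm hx h2
      have := h.gen j x
      rw [e] at hα
      omega

/-- Discrete continuity along a chain of living predecessors that contain the letter `x`. -/
theorem Adm.exists_mid (h : Adm S γ) (w : X → ℕ) (hw : ∀ y, w y ≤ 1) {j : ℕ} {α : X → ℕ} {x : X}
    (hα : γ j α ≠ 0) (hx : α x ≠ 0) {m : ℕ} (h1 : w x ≤ m) (h2 : m ≤ ∑ y, w y * α y) :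
    ∃ β, β ≤ α ∧ β x ≠ 0 ∧ γ j β ≠ 0 ∧ ∑ y, w y * β y = m := by
  induction hn : tot α using Nat.strong_induction_on generalizing α with
  | _ n ih =>
    rcases h2.eq_or_lt with e | hlt
    · exact ⟨α, le_rfl, hx, hα, e.symm⟩
    by_cases h3 : 2 ≤ tot α
    · obtain ⟨β, y, rfl, hb, hβ⟩ := h.exists_pred hα h3 hx
      rw [wsum_adm] at hlt
      have := hw y
      obtain ⟨δ, d1, d2⟩ := ih (tot β) (by rw [← hn, tot_add, tot_one]; omega) hβ hb
        (by omega) rfl
      exact ⟨δ, d1.trans le_self_add, d2⟩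
    · have e := eq_one_adm hx h3
      have e2 := wsum_adm w 0 x
      rw [zero_add, ← e] at e2
      simp only [Pi.zero_apply, mul_zero, Finset.sum_const_zero, zero_add] at e2
      omega

theorem Adm.exists_deg (h : Adm S γ) {j : ℕ} {α : X → ℕ} {x : X}
    (hα : γ j α ≠ 0) (hx : α x ≠ 0) {m : ℕ} (h1 : 1 ≤ m) (h2 : m ≤ tot α) :
    ∃ β, β ≤ α ∧ β x ≠ 0 ∧ γ j β ≠ 0 ∧ tot β = m := by
  have := h.exists_mid (fun _ => 1) (fun _ => le_rfl) hα hx h1 (by simpa [tot] using h2)
  simpa [tot] using this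

/-- Powers of one letter are dead. -/
theorem Adm.pow_dead (h : Adm S γ) {α : X → ℕ} {x : X} (hx : ∀ y, y ≠ x → α y = 0)
    (h2 : 2 ≤ tot α) (j : ℕ) : γ j α = 0 := by
  by_contra hα
  have hx0 : α x ≠ 0 := by
    intro e
    have : α = 0 := funext fun y => by
      by_cases hy : y = x
      · rw [hy, e]; rfl
      · exact hx y hy
    rw [tot_eq_zero.2 this] at h2
    omega
  obtain ⟨β, b1, -, b3, b4⟩ := h.exists_deg hα hx0 (m := 2) (by omega) h2
  obtain ⟨a, b, rfl⟩ := tot_eq_two.1 b4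
  have ha : a = x := by
    by_contra ha
    have := b1 a
    rw [hx a ha] at this
    simp at this
  have hb : b = x := by
    by_contra hb
    have := b1 b
    rw [hx b hb] at this
    simp at this
  rw [ha, hb] at b3
  exact b3 (h.sq j x)

theorem Adm.le_one (h : Adm S γ) {α : X → ℕ} (h2 : tot α ≤ 2) (j : ℕ) : γ j α ≤ 1 := by
  have h3 : tot α = 0 ∨ tot α = 1 ∨ tot α = 2 := by omega
  rcases h3 with h3 | h3 | h3
  · rw [tot_eq_zero.1 h3, h.zero]
    omega
  · obtain ⟨x, rfl⟩ := tot_eq_one.1 h3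
    exact h.gen j x
  · obtain ⟨x, y, rfl⟩ := tot_eq_two.1 h3
    by_cases e : x = y
    · rw [← e, h.sq]
      omega
    refine (h.bd j _ x h3.ge (by simp)).trans ?_
    unfold below
    rw [Finset.sum_eq_single y]
    · rw [add_sub_one]
      split_ifs
      · exact h.gen j x
      · omega
    · intro z _ hz
      rw [if_neg]
      rintro ⟨z1, z2⟩
      by_cases e' : z = x
      · subst e'
        simp [e] at z2
      · simp [e', hz] at z1
    · simp

theorem Adm.tot_le (h : Adm S γ) {n : ℕ} (hn : HasCost γ n) {j : ℕ} {α : X → ℕ}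
    (hα : γ j α ≠ 0) : tot α ≤ n ∧ j < n := by
  classical
  constructor
  · by_cases h0 : α = 0
    · rw [tot_eq_zero.2 h0]
      omega
    obtain ⟨x, hx⟩ := Function.ne_iff.1 h0
    have key : ∀ m : Fin (tot α), ∃ β, γ j β ≠ 0 ∧ tot β = m + 1 := fun m => by
      obtain ⟨β, -, -, b3, b4⟩ := h.exists_deg hα hx (m := m + 1) (by omega) m.2
      exact ⟨β, b3, b4⟩
    choose β b1 b2 using key
    have h1 := hn.sum_le (Finset.univ.image fun m => (j, β m))
    rw [Finset.sum_image] at h1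
    · refine le_trans ?_ h1
      have : ∑ _m : Fin (tot α), 1 ≤ ∑ m : Fin (tot α), γ j (β m) :=
        Finset.sum_le_sum fun m _ => Nat.one_le_iff_ne_zero.2 (b1 m)
      simpa using this
    · intro a _ b _ e
      have e1 : β a = β b := (Prod.ext_iff.1 e).2
      have := b2 a
      rw [e1, b2 b] at this
      exact Fin.ext (by omega)
  · have h1 := hn.sum_le ((Finset.range (j + 1)).image fun i => (i, α))
    rw [Finset.sum_image (fun a _ b _ e => (Prod.ext_iff.1 e).1)] at h1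
    refine lt_of_lt_of_le ?_ h1
    have : ∑ _i ∈ Finset.range (j + 1), 1 ≤ ∑ i ∈ Finset.range (j + 1), γ i α :=
      Finset.sum_le_sum fun i hi => by
        have := h.anti' (Nat.lt_succ_iff.1 (Finset.mem_range.1 hi)) α
        omega
    simpa using this

theorem Adm.mono_set (h : Adm S γ) {T : Set (Equiv.Perm X)} (hT : T ⊆ S) : Adm T γ := by
  exact ⟨h.zero, h.gen, h.sq, h.anti, h.bd, fun g hg => h.inv g (hT hg)⟩

theorem Adm.comap [Fintype Y] [DecidableEq Y] (h : Adm S γ) {g : Y → X}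
    (hg : Function.Injective g) {T : Set (Equiv.Perm Y)}
    (hT : ∀ t ∈ T, ∃ s ∈ S, ∀ y, s (g y) = g (t y)) : Adm T (γ.comap g) := by
  refine ⟨fun j => ?_, fun j x => ?_, fun j x => ?_, fun j α => h.anti j _, fun j α x h2 hx => ?_,
    fun t ht j α => ?_⟩
  · change γ j (push g 0) = 0
    rw [push_zero, h.zero]
  · change γ j (push g _) ≤ 1
    rw [push_one]
    exact h.gen j _
  · change γ j (push g _) = 0
    rw [push_add, push_one, h.sq]
  · change γ j (push g α) ≤ _
    refine (h.bd j (push g α) (g x) (by rwa [tot_push]) (by rwa [push_apply hg])).trans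
      (le_of_eq ?_)
    unfold below
    symm
    refine Fintype.sum_of_injective g hg _ _ (fun y hy => ?_) fun z => ?_
    · rw [if_neg]
      rintro ⟨y1, -⟩
      exact y1 (push_apply_of_not α fun x e => hy ⟨x, e⟩)
    · rw [push_apply hg]
      by_cases hz : α z = 0
      · simp [hz]
      have e : push g α - one (g z) = push g (α - one z) := by
        conv_lhs => rw [← sub_add_one hz, push_add_one, add_sub_one]
      rw [e, push_apply hg]
      rfl
  · obtain ⟨s, hs, e⟩ := hT t ht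
    change γ j (push g (push t α)) = γ j (push g α)
    rw [← h.inv s hs j (push g α), push_comp, push_comp]
    congr 2
    exact funext fun y => (e y).symm

theorem Cls.comap [Fintype Y] {c : ℕ} (h : Cls γ c) (g : Y → X) : Cls (γ.comap g) c := by
  intro j α hα
  exact h j _ (by rwa [tot_push])

theorem finite_tys (S : Set (Equiv.Perm X)) (n : ℕ) :
    {γ : Ty X | Adm S γ ∧ HasCost γ n}.Finite := by
  classical
  let s : Finset (ℕ × (X → ℕ)) :=
    Finset.range n ×ˢ Fintype.piFinset fun _ : X => Finset.range (n + 1)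
  have hs : ∀ γ : Ty X, Adm S γ ∧ HasCost γ n → ∀ j α, (j, α) ∉ s → γ j α = 0 := by
    intro γ hγ j α hj
    by_contra h0
    obtain ⟨h1, h2⟩ := hγ.1.tot_le hγ.2 h0
    refine hj (Finset.mem_product.2 ⟨Finset.mem_range.2 h2, Fintype.mem_piFinset.2 fun y => ?_⟩)
    have : α y ≤ tot α :=
      Finset.single_le_sum (f := α) (fun _ _ => Nat.zero_le _) (Finset.mem_univ y)
    exact Finset.mem_range.2 (by change α y < n + 1; omega)
  refine Set.Finite.of_finite_image (f := fun (γ : Ty X) (q : s) => γ q.1.1 q.1.2) ?_ ?_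
  · refine (Set.Finite.pi' (t := fun _ : s => Set.Iic n) fun _ => Set.finite_Iic n).subset ?_
    rintro _ ⟨γ, hγ, rfl⟩ q
    have := hγ.2.sum_le {q.1}
    simpa using this
  · intro γ hγ γ' hγ' e
    funext j α
    by_cases hj : (j, α) ∈ s
    · exact congrFun e ⟨(j, α), hj⟩
    · rw [hs γ hγ j α hj, hs γ' hγ' j α hj]

theorem mem_tys {c n : ℕ} : γ ∈ tys S c n ↔ Adm S γ ∧ Cls γ c ∧ HasCost γ n := by
  have hf : {γ : Ty X | Adm S γ ∧ Cls γ c ∧ HasCost γ n}.Finite :=
    (finite_tys S n).subset fun _ h => ⟨h.1, h.2.2⟩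
  unfold tys
  rw [dif_pos hf, Set.Finite.mem_toFinset]
  rfl

theorem tys_zero (S : Set (Equiv.Perm X)) (c : ℕ) : tys S c 0 = {0} := by
  ext γ
  rw [mem_tys, hasCost_zero, Finset.mem_singleton]
  refine ⟨fun h => h.2.2, ?_⟩
  rintro rfl
  exact ⟨⟨fun _ => rfl, fun _ _ => Nat.zero_le _, fun _ _ => rfl, fun _ _ => le_rfl,
    fun _ _ _ _ _ => Nat.zero_le _, fun _ _ _ _ => rfl⟩, fun _ _ _ => rfl, rfl⟩

end Adm

end Pool.Agent.P.MP_8598be_al.Z
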