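import Pool.Agent.P.MP_8598be_al.Z.Defs2

/-!
Multihomogeneous parts of the free Lie algebra and chains of ideals: basic facts.
-/

namespace Pool.Agent.P.MP_8598be_al.Z

open Module

section Deg

variable {X : Type} [DecidableEq X]

theorem sub_add_one {α : X → ℕ} {y : X} (h : α y ≠ 0) : α - one y + one y = α := by
  funext z
  by_cases e : z = y
  · subst e
    simp only [Pi.add_apply, Pi.sub_apply, Pi.single_eq_same]
    omega
  · simp [e]

theorem add_sub_one (α : X → ℕ) (y : X) : α + one y - one y = α := by
  funext z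
  simp

variable [Fintype X]

omit [DecidableEq X] in
theorem tot_add (α β : X → ℕ) : tot (α + β) = tot α + tot β := by
  simp only [tot, Pi.add_apply, Finset.sum_add_distrib]

theorem tot_one (x : X) : tot (one x) = 1 := by
  simp [tot, Pi.single_apply]

omit [DecidableEq X] in
theorem tot_eq_zero {α : X → ℕ} : tot α = 0 ↔ α = 0 := by
  simp only [tot, Finset.sum_eq_zero_iff, Finset.mem_univ, forall_true_left]
  exact ⟨fun h => funext h, fun h y => congrFun h y⟩

theorem succ_basic {α : X → ℕ} {m : ℕ} (h : tot α = m + 1) :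
    ∃ β y, α = β + one y ∧ tot β = m := by
  have h0 : α ≠ 0 := fun e => by
    rw [tot_eq_zero.2 e] at h
    omega
  obtain ⟨y, hy⟩ := Function.ne_iff.1 h0
  refine ⟨α - one y, y, (sub_add_one hy).symm, ?_⟩
  rw [← sub_add_one hy, tot_add, tot_one] at h
  omega

theorem tot_eq_one {α : X → ℕ} : tot α = 1 ↔ ∃ x, α = one x := by
  refine ⟨fun h => ?_, fun ⟨x, e⟩ => e ▸ tot_one x⟩
  obtain ⟨β, y, e, h0⟩ := succ_basic (m := 0) h
  exact ⟨y, by rw [e, tot_eq_zero.1 h0, zero_add]⟩

theorem tot_eq_two {α : X → ℕ} : tot α = 2 ↔ ∃ x y, α = one x + one y := by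
  refine ⟨fun h => ?_, fun ⟨x, y, e⟩ => by rw [e, tot_add, tot_one, tot_one]⟩
  obtain ⟨β, y, e, h0⟩ := succ_basic (m := 1) h
  obtain ⟨x, rfl⟩ := tot_eq_one.1 h0
  exact ⟨x, y, e⟩

theorem tot_eq_succ {α : X → ℕ} {m : ℕ} (h : tot α = m + 1) :
    ∃ β y, α = β + one y ∧ tot β = m := by
  exact succ_basic h

end Deg

section Mp

variable {R : Type} [CommRing R] {X : Type} [DecidableEq X]

theorem lie_mem_mp (t : FreeMagma X) : lie R t ∈ mp R (wt t) := by
  exact Submodule.subset_span ⟨t, rfl, rfl⟩

theorem gen_mem_mp (x : X) : gen R x ∈ mp R (one x) := by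
  exact lie_mem_mp (.of x)

theorem mp_lie {α β : X → ℕ} {u v : FL R X} (hu : u ∈ mp R α) (hv : v ∈ mp R β) :
    ⁅u, v⁆ ∈ mp R (α + β) := by
  induction hu using Submodule.span_induction with
  | mem a ha =>
    obtain ⟨s, rfl, rfl⟩ := ha
    induction hv using Submodule.span_induction with
    | mem b hb =>
      obtain ⟨t, rfl, rfl⟩ := hb
      exact lie_mem_mp (.mul s t)
    | zero => rw [lie_zero]; exact zero_mem _
    | add a b _ _ ha hb => rw [lie_add]; exact add_mem ha hb
    | smul c a _ ha => rw [lie_smul]; exact Submodule.smul_mem _ _ ha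
  | zero => rw [zero_lie]; exact zero_mem _
  | add a b _ _ ha hb => rw [add_lie]; exact add_mem ha hb
  | smul c a _ ha => rw [smul_lie]; exact Submodule.smul_mem _ _ ha

theorem wt_ne_basic (t : FreeMagma X) : wt t ≠ 0 := by
  induction t using FreeMagma.rec with
  | of k => exact fun h => by simpa [wt] using congrFun h k
  | mul a b iha _ => exact fun h => iha (funext fun y => Nat.eq_zero_of_add_eq_zero_right (congrFun h y))

theorem wt_one_basic {t : FreeMagma X} {x : X} (h : wt t = one x) : t = .of x := by
  cases t with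
  | of k =>
    by_contra e
    have e' : k ≠ x := fun e' => e (e' ▸ rfl)
    simpa [wt, e'] using congrFun h k
  | mul a b =>
    obtain ⟨y, hy⟩ := Function.ne_iff.1 (wt_ne_basic a)
    obtain ⟨z, hz⟩ := Function.ne_iff.1 (wt_ne_basic b)
    have h1 : wt a y + wt b y = one x y := congrFun h y
    have h2 : wt a z + wt b z = one x z := congrFun h z
    have h3 : wt a x + wt b x = one x x := congrFun h x
    simp only [Pi.single_apply, Pi.zero_apply, if_true] at h1 h2 h3 hy hz
    split_ifs at h1 h2 with e1 e2
    · subst e1 e2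
      omega
    all_goals omega

omit [DecidableEq X] in
theorem jacobi_basic (u a b : FL R X) : ⁅⁅u, a⁆, b⁆ - ⁅⁅u, b⁆, a⁆ = ⁅u, ⁅a, b⁆⁆ := by
  rw [leibniz_lie, ← lie_skew a ⁅u, b⁆, sub_eq_add_neg]

theorem mp_zero : mp R (0 : X → ℕ) = ⊥ := by
  refine Submodule.span_eq_bot.2 ?_
  rintro _ ⟨t, ht, rfl⟩
  exact absurd ht (wt_ne_basic t)

theorem mp_one (x : X) : mp R (one x) = Submodule.span R {gen R x} := by
  refine le_antisymm (Submodule.span_mono ?_) (Submodule.span_le.2 ?_)
  · rintro _ ⟨t, ht, rfl⟩
    rw [wt_one_basic ht]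
    rfl
  · rintro _ rfl
    exact gen_mem_mp x

theorem mp_sq (x : X) : mp R (one x + one x) = ⊥ := by
  refine Submodule.span_eq_bot.2 ?_
  rintro _ ⟨t, ht, rfl⟩
  cases t with
  | of k =>
    have := congrFun (show one k = one x + one x from ht) x
    by_cases e : x = k
    · subst e
      simp at this
    · simp [e] at this
  | mul a b =>
    have h : wt a + wt b = one x + one x := ht
    have key : ∀ a b : FreeMagma X, wt a + wt b = one x + one x → wt a x ≠ 0 := fun a b h => by
      obtain ⟨y, hy⟩ := Function.ne_iff.1 (wt_ne_basic a)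
      have h1 := congrFun h y
      by_cases e : y = x
      · exact e ▸ hy
      · simp only [Pi.add_apply, Pi.single_eq_of_ne e] at h1
        exact absurd (show wt a y = 0 by omega) hy
    have key' : ∀ a b : FreeMagma X, wt a + wt b = one x + one x → wt a = one x := fun a b h => by
      have h2 := key a b h
      have h3 := key b a (by rw [add_comm, h])
      funext y
      have h1 := congrFun h y
      by_cases e : y = x
      · subst e
        simp only [Pi.add_apply, Pi.single_eq_same] at h1 ⊢
        omega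
      · simp only [Pi.add_apply, Pi.single_eq_of_ne e] at h1 ⊢
        omega
    rw [wt_one_basic (key' a b h), wt_one_basic (key' b a (by rw [add_comm, h]))]
    exact lie_self _

/-- Only finitely many bracketings have a given multidegree. -/
theorem finite_wt [Fintype X] (α : X → ℕ) : {t : FreeMagma X | wt t = α}.Finite := by
  have key : ∀ n, {t : FreeMagma X | tot (wt t) ≤ n}.Finite := by
    have pos : ∀ t : FreeMagma X, tot (wt t) ≠ 0 := fun t h => wt_ne_basic t (tot_eq_zero.1 h)
    intro n
    induction n with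
    | zero => exact Set.finite_empty.subset fun t ht => pos t (Nat.le_zero.1 ht)
    | succ n ih =>
      refine ((Set.finite_range FreeMagma.of).union (ih.image2 FreeMagma.mul ih)).subset
        fun t ht => ?_
      cases t with
      | of k => exact Or.inl ⟨k, rfl⟩
      | mul a b =>
        have h : tot (wt a + wt b) ≤ n + 1 := ht
        rw [tot_add] at h
        have ha := pos a
        have hb := pos b
        exact Or.inr ⟨a, show tot (wt a) ≤ n by omega, b, show tot (wt b) ≤ n by omega, rfl⟩
  exact (key (tot α)).subset fun t ht => (congrArg tot ht).le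

instance mp_finite [Fintype X] (α : X → ℕ) : Module.Finite R (mp R α) := by
  exact Module.Finite.span_of_finite R ((finite_wt α).image _)

theorem start_basic (x : X) (t : FreeMagma X) : ∀ (β : X → ℕ) (u : FL R X), u ∈ mp R β → β x ≠ 0 →
    ⁅u, lie R t⁆ ∈ ⨆ (y : X) (_ : (β + wt t) y ≠ 0 ∧ (β + wt t - one y : X → ℕ) x ≠ 0),
      (mp R (β + wt t - one y)).map (adr R y) := by
  induction t using FreeMagma.rec with
  | of k =>
    intro β u hu hx
    have e : β + wt (.of k) - one k = β := add_sub_one β k
    refine Submodule.mem_iSup_of_mem k (Submodule.mem_iSup_of_mem ⟨by simp [wt], e.symm ▸ hx⟩ ?_)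
    rw [e]
    exact ⟨u, hu, rfl⟩
  | mul a b iha ihb =>
    intro β u hu hx
    have h1 := ihb _ _ (mp_lie hu (lie_mem_mp a)) fun h => hx (Nat.eq_zero_of_add_eq_zero_right h)
    have h2 := iha _ _ (mp_lie hu (lie_mem_mp b)) fun h => hx (Nat.eq_zero_of_add_eq_zero_right h)
    rw [add_assoc] at h1
    rw [add_assoc, add_comm (wt b)] at h2
    exact jacobi_basic u (lie R a) (lie R b) ▸ sub_mem h1 h2

/-- Left normed brackets that start with the letter `x` span. Sketch: for `u ∈ mp R β` with
`β x ≠ 0` and a bracketing `t` the bracket `⁅u, lie R t⁆` lies in the right hand side for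
`β + wt t` (induction on `t`, Jacobi identity); use skew symmetry for a product `t₁ * t₂`. -/
theorem mp_start [Fintype X] {α : X → ℕ} {x : X} (hx : α x ≠ 0) (h2 : 2 ≤ tot α) :
    mp R α = ⨆ (y : X) (_ : α y ≠ 0 ∧ (α - one y : X → ℕ) x ≠ 0),
      (mp R (α - one y)).map (adr R y) := by
  refine le_antisymm (Submodule.span_le.2 ?_) (iSup₂_le fun y hy => ?_)
  · rintro _ ⟨t, rfl, rfl⟩
    cases t with
    | of k => exact absurd h2 (by rw [show wt (.of k) = one k from rfl, tot_one]; omega)
    | mul a b =>
      by_cases ha : wt a x = 0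
      · have hb : wt b x ≠ 0 := fun hb => hx (show wt a x + wt b x = 0 by omega)
        have h := neg_mem (start_basic x a _ _ (lie_mem_mp (R := R) b) hb)
        rw [lie_skew, add_comm] at h
        exact h
      · exact start_basic x b _ _ (lie_mem_mp (R := R) a) ha
  · rintro _ ⟨u, hu, rfl⟩
    have h := lie_gen_mem R _ y u hu
    rwa [sub_add_one hy.1] at h

theorem map_adr_le (α : X → ℕ) (y : X) : (mp R α).map (adr R y) ≤ mp R (α + one y) := by
  rintro _ ⟨u, hu, rfl⟩
  exact lie_gen_mem R α y u hu

end Mp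

section Chains

variable {F X : Type} [Field F] [DecidableEq X]

theorem compl_basic {W : Type} [AddCommGroup W] [Module F W] {U V : Submodule F W}
    [Module.Finite F V] (h : U ≤ V) : ∃ C : Submodule F W, U ⊔ C = V ∧
      finrank F U + finrank F C = finrank F V ∧ Module.Finite F C := by
  obtain ⟨U', hU⟩ := U.exists_isCompl
  have : Module.Finite F U := Submodule.finiteDimensional_of_le h
  have : Module.Finite F (U' ⊓ V : Submodule F W) := Submodule.finiteDimensional_of_le inf_le_right
  have e : U ⊔ U' ⊓ V = V := by rw [← sup_inf_assoc_of_le _ h, hU.sup_eq_top, top_inf_eq]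
  refine ⟨U' ⊓ V, e, ?_, inferInstance⟩
  rw [← Submodule.finrank_sup_add_finrank_inf_eq, e, ← inf_assoc, hU.inf_eq_bot, bot_inf_eq,
    finrank_bot, add_zero]

theorem sup_basic {W ι : Type} [AddCommGroup W] [Module F W] (s : Finset ι)
    (D : ι → Submodule F W) [∀ i, Module.Finite F (D i)] :
    finrank F (s.sup D : Submodule F W) ≤ ∑ i ∈ s, finrank F (D i) := by
  classical
  induction s using Finset.induction_on with
  | empty => simp
  | insert a s ha ih =>
    rw [Finset.sup_insert, Finset.sum_insert ha]
    exact (Submodule.finrank_add_le_finrank_add_finrank _ _).trans (Nat.add_le_add_left ih _)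

theorem rank_one_basic (x : X) : finrank F (mp F (one x)) ≤ 1 := by
  rw [mp_one]
  simpa using finrank_span_le_card ({gen F x} : Set (FL F X))

theorem Chain.lie_mem (J : Chain F X) {j : ℕ} {α β : X → ℕ} {u v : FL F X} (hu : u ∈ J.J j α)
    (hv : v ∈ mp F β) : ⁅u, v⁆ ∈ J.J j (α + β) := by
  have key : ∀ (t : FreeMagma X) (α : X → ℕ) (u : FL F X), u ∈ J.J j α →
      ⁅u, lie F t⁆ ∈ J.J j (α + wt t) := by
    intro t
    induction t using FreeMagma.rec with
    | of k => exact fun α u hu => J.br j α k u hu
    | mul a b iha ihb =>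
      intro α u hu
      have h1 := ihb _ _ (iha α u hu)
      have h2 := iha _ _ (ihb α u hu)
      rw [add_assoc] at h1
      rw [add_assoc, add_comm (wt b)] at h2
      exact jacobi_basic u (lie F a) (lie F b) ▸ sub_mem h1 h2
  induction hv using Submodule.span_induction with
  | mem b hb =>
    obtain ⟨t, rfl, rfl⟩ := hb
    exact key t α u hu
  | zero => rw [lie_zero]; exact zero_mem _
  | add a b _ _ ha hb => rw [lie_add]; exact add_mem ha hb
  | smul c a _ ha => rw [lie_smul]; exact Submodule.smul_mem _ _ ha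

theorem Chain.mono' (J : Chain F X) {i j : ℕ} (h : i ≤ j) (α : X → ℕ) : J.J i α ≤ J.J j α := by
  exact monotone_nat_of_le_succ (f := fun j => J.J j α) (fun j => J.mono j α) h

theorem Chain.low_le (J : Chain F X) (j : ℕ) (α : X → ℕ) : J.low j α ≤ J.J j α := by
  refine iSup_le fun β => iSup₂_le fun y e => ?_
  rintro _ ⟨u, hu, rfl⟩
  exact e ▸ J.br j β y u hu

theorem Chain.low_mono (J : Chain F X) (j : ℕ) (α : X → ℕ) : J.low j α ≤ J.low (j + 1) α := by
  exact iSup_mono fun β => iSup₂_mono fun y _ => Submodule.map_mono (J.mono j β)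

theorem Chain.low_eq (J : Chain F X) (j : ℕ) (α : X → ℕ) :
    J.low j α = ⨆ (y : X) (_ : α y ≠ 0), (J.J j (α - one y)).map (adr F y) := by
  refine le_antisymm (iSup_le fun β => iSup₂_le fun y e => ?_) (iSup₂_le fun y hy => ?_)
  · subst e
    refine le_iSup₂_of_le y (by simp) ?_
    rw [add_sub_one]
  · exact le_iSup_of_le (α - one y) (le_iSup₂_of_le y (sub_add_one hy) le_rfl)

variable [Fintype X]

instance Chain.finite (J : Chain F X) (j : ℕ) (α : X → ℕ) : Module.Finite F (J.J j α) := by
  exact Submodule.finiteDimensional_of_le (J.le j α)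

instance Chain.finite_low (J : Chain F X) (j : ℕ) (α : X → ℕ) : Module.Finite F (J.low j α) := by
  exact Submodule.finiteDimensional_of_le (J.low_le j α)

theorem Chain.rank_add_ty (J : Chain F X) (j : ℕ) (α : X → ℕ) :
    finrank F (J.J j α) + J.ty j α = finrank F (mp F α) := by
  exact Nat.add_sub_cancel' (Submodule.finrank_mono (J.le j α))

theorem Chain.ty_eq_zero (J : Chain F X) {j : ℕ} {α : X → ℕ} :
    J.ty j α = 0 ↔ J.J j α = mp F α := by
  have h := J.rank_add_ty j α
  refine ⟨fun e => Submodule.eq_of_le_of_finrank_le (J.le j α) (by omega), fun e => ?_⟩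
  rw [e] at h
  omega

/-- The codimension of the forced part is bounded by the codimensions of the predecessors that
contain the letter `x`. Sketch: `mp_start`; choose complements `C y` of `J.J j (α - one y)`;
then `mp F α ≤ J.low j α ⊔ ⨆ y, (C y).map (adr F y)`. -/
theorem Chain.codim_low (J : Chain F X) (j : ℕ) {α : X → ℕ} {x : X} (hx : α x ≠ 0)
    (h2 : 2 ≤ tot α) : finrank F (mp F α) ≤ finrank F (J.low j α) + below J.ty j α x := by
  choose C hC hC' hC'' using fun y => compl_basic (J.le j (α - one y))
  have := hC''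
  let D : X → Submodule F (FL F X) := fun y =>
    if α y ≠ 0 ∧ (α - one y : X → ℕ) x ≠ 0 then (C y).map (adr F y) else ⊥
  have : ∀ y, Module.Finite F (D y) := fun y => by
    by_cases hy : α y ≠ 0 ∧ (α - one y : X → ℕ) x ≠ 0
    · rw [show D y = _ from if_pos hy]
      infer_instance
    · rw [show D y = _ from if_neg hy]
      infer_instance
  have h1 : mp F α ≤ J.low j α ⊔ Finset.univ.sup D := by
    rw [mp_start hx h2]
    refine iSup₂_le fun y hy => ?_
    rw [← hC y, Submodule.map_sup]
    refine sup_le_sup ?_ (Finset.le_sup_of_le (Finset.mem_univ y) ?_)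
    · rw [J.low_eq]
      exact le_iSup₂_of_le y hy.1 le_rfl
    · simp only [D, if_pos hy, le_refl]
  refine (Submodule.finrank_mono h1).trans ((Submodule.finrank_add_le_finrank_add_finrank _ _).trans
    (Nat.add_le_add_left ((sup_basic _ D).trans (Finset.sum_le_sum fun y _ => ?_)) _))
  split_ifs with hy
  · rw [show D y = _ from if_pos hy]
    have h3 := J.rank_add_ty j (α - one y)
    have h4 := hC' y
    have h5 := Submodule.finrank_map_le (adr F y) (C y)
    omega
  · rw [show D y = _ from if_neg hy, finrank_bot]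

theorem Chain.forced (J : Chain F X) {j : ℕ} {α : X → ℕ} (h : Forced J.ty j α)
    (h0 : J.ty j α ≠ 0) : J.J j α = J.low j α := by
  have h1 := J.rank_add_ty j α
  have thin : finrank F (mp F α) ≤ 1 → J.J j α = J.low j α := fun e =>
    (Submodule.eq_of_le_of_finrank_le (J.low_le j α) (by omega)).symm
  rcases h with h | h | ⟨x, hx, h⟩
  · exact absurd h h0
  · exact thin (h F)
  · by_cases h2 : 2 ≤ tot α
    · have h3 := J.codim_low j hx h2
      exact (Submodule.eq_of_le_of_finrank_le (J.low_le j α) (by omega)).symm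
    · have h3 : tot α ≠ 0 := fun e => hx (congrFun (tot_eq_zero.1 e) x)
      obtain ⟨y, rfl⟩ := tot_eq_one.1 (show tot α = 1 by omega)
      exact thin (rank_one_basic y)

theorem Chain.adm_empty (J : Chain F X) : Adm ∅ J.ty := by
  refine ⟨fun j => ?_, fun j x => ?_, fun j x => ?_, fun j α => ?_, fun j α x h2 hx => ?_,
    fun g hg => absurd hg (Set.notMem_empty g)⟩
  · rw [Chain.ty, mp_zero, finrank_bot, Nat.zero_sub]
  · exact (Nat.sub_le _ _).trans (rank_one_basic x)
  · rw [Chain.ty, mp_sq, finrank_bot, Nat.zero_sub]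
  · exact Nat.sub_le_sub_left (Submodule.finrank_mono (J.mono j α)) _
  · have h1 := J.rank_add_ty j α
    have h3 := J.codim_low j hx h2
    have h4 := Submodule.finrank_mono (J.low_le j α)
    omega

/-- In a thin multidegree the subspace is determined by the codimension. -/
theorem Chain.thin_eq {J J' : Chain F X} {i j : ℕ} {α : X → ℕ} (h : Thin α)
    (e : J.ty i α = J'.ty j α) : J.J i α = J'.J j α := by
  have h1 := J.rank_add_ty i α
  have h2 := J'.rank_add_ty j α
  have h3 := h F
  by_cases h0 : J.ty i α = 0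
  · rw [J.ty_eq_zero.1 h0, J'.ty_eq_zero.1 (e ▸ h0)]
  · rw [Submodule.finrank_eq_zero.1 (show finrank F (J.J i α) = 0 by omega),
      Submodule.finrank_eq_zero.1 (show finrank F (J'.J j α) = 0 by omega)]

end Chains

end Pool.Agent.P.MP_8598be_al.Z
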