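import Pool.Agent.P.MP_8598be_al.Z.ClassA

/-!
Classification of the types with at most five free orbits.
-/

namespace Pool.Agent.P.MP_8598be_al.Z

variable {H : Type} {l : ℕ} [Fintype H] [DecidableEq H] [NeZero l] {γ : Ty (H ⊕ ZMod l)} {a k : ℕ}

/-- Three distinct letters whose sum and pairwise sums are alive. -/
structure Tri_Class {X : Type} [DecidableEq X] (γ : Ty X) (x y z : X) : Prop where
  xy : x ≠ y
  xz : x ≠ z
  yz : y ≠ z
  t : γ 0 (one x + one y + one z) ≠ 0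
  pxy : γ 0 (one x + one y) ≠ 0
  pxz : γ 0 (one x + one z) ≠ 0
  pyz : γ 0 (one y + one z) ≠ 0

theorem Tri_Class.swap {X : Type} [DecidableEq X] {γ : Ty X} {x y z : X} (h : Tri_Class γ x y z) :
    Tri_Class γ y x z :=
  ⟨h.xy.symm, h.yz, h.xz, add_comm (one x) (one y) ▸ h.t, add_comm (one x) (one y) ▸ h.pxy, h.pyz,
    h.pxz⟩

theorem Tri_Class.swap' {X : Type} [DecidableEq X] {γ : Ty X} {x y z : X}
    (h : Tri_Class γ x y z) : Tri_Class γ x z y :=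
  ⟨h.xz, h.xy, h.yz.symm, add_right_comm (one x) (one y) (one z) ▸ h.t, h.pxz, h.pxy,
    add_comm (one y) (one z) ▸ h.pyz⟩

omit [DecidableEq H] in
theorem ne_tot_Class {α β : H ⊕ ZMod l → ℕ} (h : tot β ≠ tot α) (t : ZMod l) : β ≠ sh t α :=
  fun e => h (by rw [e, tot_sh])

omit [Fintype H] [DecidableEq H] in
theorem ne_fdeg_Class {α β : H ⊕ ZMod l → ℕ} (h : fdeg β ≠ fdeg α) (t : ZMod l) : β ≠ sh t α :=
  fun e => h (by rw [e, fdeg_sh])

omit [Fintype H] [NeZero l] in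
theorem pair_Class {u v w z t : ZMod l} (e : fb H u + fb H v = sh t (fb H w + fb H z)) :
    (u = w + t ∧ v = z + t) ∨ (u = z + t ∧ v = w + t) := by
  rw [sh_add, sh_fb, sh_fb] at e
  rcases (Pi.single_add_single_eq_single_add_single one_ne_zero one_ne_zero).1 e with
    h | h | h
  · exact Or.inl ⟨Sum.inr.inj h.1, Sum.inr.inj h.2⟩
  · exact Or.inr ⟨Sum.inr.inj h.2.1, Sum.inr.inj h.2.2⟩
  · exact absurd h.1 (by norm_num)

omit [NeZero l] in
theorem hub_Class (hk : HasCost (γ.comap Sum.inl) k) (hk1 : k ≤ 1) {x : H}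
    (hx : γ 0 (hb l x) ≠ 0) {j : ℕ} {β : H → ℕ} (hβ : γ j (push Sum.inl β) ≠ 0) :
    j = 0 ∧ β = one x := by
  by_contra hn
  refine hβ (hk.eq_zero_of_le (s := {(0, one x)}) ?_ fun hm => hn ?_)
  · rw [Finset.sum_singleton]
    change k ≤ γ 0 (push Sum.inl (one x))
    rw [push_one]
    exact hk1.trans (Nat.one_le_iff_ne_zero.2 hx)
  · exact Prod.mk.inj (Finset.mem_singleton.1 hm)

theorem opt_Class (h : Adm {rot1 H l} γ) (hk : HasCost (γ.comap Sum.inl) k) (hk1 : k ≤ 1) :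
    ∃ o : Option H, (∀ x ∈ o.toList, γ 0 (hb l x) ≠ 0) ∧
      ∀ j α, ¬ Fib α → γ j α ≠ 0 → j = 0 ∧ ∃ x ∈ o.toList, α = hb l x := by
  by_cases hx : ∃ x, γ 0 (hb l x) ≠ 0
  · obtain ⟨x, hx⟩ := hx
    refine ⟨some x, by simpa using hx, fun j α hf hα => ?_⟩
    obtain ⟨β, rfl⟩ := not_fib_iff.1 hf
    obtain ⟨h1, h2⟩ := hub_Class hk hk1 hx hα
    exact ⟨h1, x, by simp, by rw [h2, push_one]⟩
  · refine ⟨none, by simp, fun j α hf hα => (hx ?_).elim⟩
    have h0 : α ≠ 0 := fun e => hα (by rw [e, h.zero])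
    obtain ⟨y, hy⟩ := Function.ne_iff.1 h0
    rcases y with y | y
    · exact ⟨y, by rw [h.gen_alive (h.alive_zero hα) hy]; exact one_ne_zero⟩
    · exact absurd ⟨y, hy⟩ hf

theorem five_Class (hl : l.Prime) (h5 : 5 ≤ l) (h : Adm {rot1 H l} γ)
    (hs : ∀ j α, Sym α → γ j α = 0) (ha : HasCost (γ.on Fib) a)
    (hk : HasCost (γ.comap Sum.inl) k) (hak : a < 5 * l ∨ a + k ≤ 5 * l + 1)
    (s : List (H ⊕ ZMod l → ℕ)) (hf : ∀ α ∈ s, Fib α ∧ γ 0 α ≠ 0)
    (hp : s.Pairwise fun α β => ∀ t, β ≠ sh t α) (hs5 : s.length = 5) :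
    k ≤ 1 ∧ ∃ o : Option H, (∀ x, γ 0 (hb l x) ≠ 0 → o = some x) ∧
      γ = oty {rot1 H l} (o.toList.map (hb l) ++ s) := by
  obtain ⟨h1, h2⟩ := cost_list hl h hs ha s hf hp
  rw [hs5] at h1 h2
  have hk1 : k ≤ 1 := by omega
  replace h2 := h2 (by omega)
  obtain ⟨o, h3, h4⟩ := opt_Class h hk hk1
  refine ⟨hk1, o, fun x hx => ?_, funext fun j => funext fun β => ?_⟩
  · obtain ⟨-, y, hy, e⟩ := h4 0 _ (by rw [fib_iff, fdeg_hb]; simp) hx
    have e' : x = y := by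
      by_contra hn
      simpa [hn] using congrFun e (Sum.inl x)
    rw [e']
    simpa using hy
  · by_cases hP : j = 0 ∧ ∃ δ ∈ o.toList.map (hb l) ++ s, ∃ t, β = sh t δ
    · rw [(oty_rot1 _ j β).1.2 hP]
      obtain ⟨rfl, δ, hδ, t, rfl⟩ := hP
      rw [h.sh]
      rcases List.mem_append.1 hδ with hδ | hδ
      · obtain ⟨x, hx, rfl⟩ := List.mem_map.1 hδ
        exact le_antisymm (h.gen 0 _) (Nat.one_le_iff_ne_zero.2 (h3 x hx))
      · exact (h2 0 δ (hf δ hδ).1 (hf δ hδ).2).2.1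
    · rw [not_not.1 (mt (oty_rot1 _ j β).2.1 hP)]
      by_contra hβ
      by_cases hF : Fib β
      · obtain ⟨e, -, δ, hδ, ht⟩ := h2 j β hF hβ
        exact hP ⟨e, δ, List.mem_append_right _ hδ, ht⟩
      · obtain ⟨e, x, hx, e'⟩ := h4 j β hF hβ
        exact hP ⟨e, _, List.mem_append_left _ (List.mem_map_of_mem hx), 0, by rw [e', sh_zero]⟩

theorem two_hubs_Class (hl : l.Prime) (h5 : 5 ≤ l) (h : Adm {rot1 H l} γ)
    (hs : ∀ j α, Sym α → γ j α = 0) (ha : HasCost (γ.on Fib) a)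
    (hk : HasCost (γ.comap Sum.inl) k) (hak : a < 5 * l ∨ a + k ≤ 5 * l + 1)
    {ε : H ⊕ ZMod l → ℕ} (e4 : tot ε = 4) (eF : Fib ε) (e0 : γ 0 ε ≠ 0) {x y : H} {z : ZMod l}
    (T : Tri_Class γ (.inl x) (.inl y) (.inr z)) : False := by
  have hxy : x ≠ y := fun e => T.xy (by rw [e])
  have g1 : γ 0 (fb H z) = 1 := h.gen_alive T.pxz (by simp)
  have g2 : γ 0 (hb l x) = 1 := h.gen_alive T.pxz (by simp)
  have g3 : γ 0 (hb l y) = 1 := h.gen_alive T.pyz (by simp)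
  obtain ⟨-, o, h1, -⟩ := five_Class hl h5 h hs ha hk hak
    [fb H z, hb l x + fb H z, hb l y + fb H z, hb l x + hb l y + fb H z, ε]
    (by simp [fib_iff, fdeg_add, fdeg_hb, fdeg_fb, fib_iff.1 eF, e0, g1, T.pxz, T.pyz, T.t])
    (by
      have n1 : ∀ t, hb l y + fb H z ≠ sh t (hb l x + fb H z) := fun t e => by
        simpa [sh_inl, hxy] using congrFun e (Sum.inl x)
      simp [n1, ne_tot_Class, tot_add, tot_one, e4]) rfl
  exact hxy (Option.some.inj ((h1 x (by omega)).symm.trans (h1 y (by omega))))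

theorem one_hub_Class (hl : l.Prime) (h5 : 5 ≤ l) (h : Adm {rot1 H l} γ)
    (hs : ∀ j α, Sym α → γ j α = 0) (ha : HasCost (γ.on Fib) a)
    (hk : HasCost (γ.comap Sum.inl) k) (hak : a < 5 * l ∨ a + k ≤ 5 * l + 1)
    {ε : H ⊕ ZMod l → ℕ} (e4 : tot ε = 4) (eF : Fib ε) (e0 : γ 0 ε ≠ 0) {x : H} {u v : ZMod l}
    (T : Tri_Class γ (.inl x) (.inr u) (.inr v)) : ∃ s, s ≠ 0 ∧ γ = dl1 x s ε := by
  have huv : v - u ≠ 0 := fun e => T.yz (by rw [sub_eq_zero.1 e])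
  have g2 : γ 0 (hb l x) = 1 := h.gen_alive T.pxy (by simp)
  have p1 : γ 0 (hb l x + fb H 0) ≠ 0 := by
    rw [← h.sh u, sh_add, sh_hb, sh_fb, zero_add]
    exact T.pxy
  have p2 : γ 0 (fb H 0 + fb H (v - u)) ≠ 0 := by
    rw [← h.sh u, sh_add, sh_fb, sh_fb, zero_add, sub_add_cancel]
    exact T.pyz
  have p3 : γ 0 (hb l x + fb H 0 + fb H (v - u)) ≠ 0 := by
    rw [← h.sh u, sh_add, sh_add, sh_hb, sh_fb, sh_fb, zero_add, sub_add_cancel]
    exact T.t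
  have g1 : γ 0 (fb H 0) = 1 := h.gen_alive p1 (by simp)
  obtain ⟨-, o, h1, h2⟩ := five_Class hl h5 h hs ha hk hak
    [fb H 0, hb l x + fb H 0, fb H 0 + fb H (v - u), hb l x + fb H 0 + fb H (v - u), ε]
    (by simp [fib_iff, fdeg_add, fdeg_hb, fdeg_fb, fib_iff.1 eF, e0, g1, p1, p2, p3])
    (by
      have n1 : ∀ t, fb H 0 + fb H (v - u) ≠ sh t (hb l x + fb H 0) :=
        ne_fdeg_Class (by simp [fdeg_add, fdeg_hb, fdeg_fb])
      simp [n1, ne_tot_Class, tot_add, tot_one, e4]) rfl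
  rw [h1 x (by omega)] at h2
  exact ⟨v - u, huv, h2⟩

theorem prog_Class (hl : l.Prime) (h5 : 5 ≤ l) (h : Adm {rot1 H l} γ)
    (hs : ∀ j α, Sym α → γ j α = 0) (ha : HasCost (γ.on Fib) a)
    (hk : HasCost (γ.comap Sum.inl) k) (hak : a < 5 * l ∨ a + k ≤ 5 * l + 1)
    {ε : H ⊕ ZMod l → ℕ} (e4 : tot ε = 4) (eF : Fib ε) (e0 : γ 0 ε ≠ 0) {u v w t : ZMod l}
    (T : Tri_Class γ (.inr v) (.inr u) (.inr w))
    (e : fb H u + fb H w = sh t (fb H u + fb H v)) : ∃ s, s ≠ 0 ∧ ∃ o, γ = dl2 o s ε := by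
  rcases pair_Class e with ⟨h1, h2⟩ | ⟨h1, h2⟩
  · rw [left_eq_add.1 h1, add_zero] at h2
    exact absurd (by rw [h2]) T.xz
  have ht : t ≠ 0 := fun e => T.xy (by rw [h1, e, add_zero])
  have e1 : t + v = u := by rw [h1, add_comm]
  have e2 : 2 * t + v = w := by rw [h2, h1]; ring
  have p1 : γ 0 (fb H 0 + fb H t) ≠ 0 := by
    rw [← h.sh v, sh_add, sh_fb, sh_fb, zero_add, e1]
    exact T.pxy
  have p2 : γ 0 (fb H 0 + fb H (2 * t)) ≠ 0 := by
    rw [← h.sh v, sh_add, sh_fb, sh_fb, zero_add, e2]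
    exact T.pxz
  have p3 : γ 0 (fb H 0 + fb H t + fb H (2 * t)) ≠ 0 := by
    rw [← h.sh v, sh_add, sh_add, sh_fb, sh_fb, sh_fb, zero_add, e1, e2]
    exact T.t
  have g1 : γ 0 (fb H 0) = 1 := h.gen_alive p1 (by simp)
  have n1 : ∀ r, fb H 0 + fb H (2 * t) ≠ sh r (fb H 0 + fb H t) := fun r e => by
    rcases pair_Class e with ⟨a1, a2⟩ | ⟨a1, a2⟩
    · exact ht (by linear_combination a2 - a1)
    · have := Fact.mk hl
      have a3 : ((3 : ℕ) : ZMod l) * t = 0 := by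
        push_cast
        linear_combination a2 - a1
      rcases mul_eq_zero.1 a3 with a4 | a4
      · have := Nat.le_of_dvd (by norm_num) ((ZMod.natCast_eq_zero_iff 3 l).1 a4)
        omega
      · exact ht a4
  obtain ⟨-, o, -, h2⟩ := five_Class hl h5 h hs ha hk hak
    [fb H 0, fb H 0 + fb H t, fb H 0 + fb H (2 * t), fb H 0 + fb H t + fb H (2 * t), ε]
    (by simp [fib_iff, fdeg_add, fdeg_fb, fib_iff.1 eF, e0, g1, p1, p2, p3])
    (by simp [n1, ne_tot_Class, tot_add, tot_one, e4]) rfl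
  exact ⟨t, ht, o, h2⟩

theorem no_hub_Class (hl : l.Prime) (h5 : 5 ≤ l) (h : Adm {rot1 H l} γ)
    (hs : ∀ j α, Sym α → γ j α = 0) (ha : HasCost (γ.on Fib) a)
    (hk : HasCost (γ.comap Sum.inl) k) (hak : a < 5 * l ∨ a + k ≤ 5 * l + 1)
    {ε : H ⊕ ZMod l → ℕ} (e4 : tot ε = 4) (eF : Fib ε) (e0 : γ 0 ε ≠ 0) {u v w : ZMod l}
    (T : Tri_Class γ (.inr u) (.inr v) (.inr w)) : ∃ s, s ≠ 0 ∧ ∃ o, γ = dl2 o s ε := by
  by_contra hn
  have n1 : ∀ t, fb H u + fb H w ≠ sh t (fb H u + fb H v) := fun t e =>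
    hn (prog_Class hl h5 h hs ha hk hak e4 eF e0 T.swap e)
  have n2 : ∀ t, fb H v + fb H w ≠ sh t (fb H u + fb H v) := fun t e =>
    hn (prog_Class hl h5 h hs ha hk hak e4 eF e0 T (add_comm (fb H u) (fb H v) ▸ e))
  have n3 : ∀ t, fb H v + fb H w ≠ sh t (fb H u + fb H w) := fun t e =>
    hn (prog_Class hl h5 h hs ha hk hak e4 eF e0 T.swap'
      (add_comm (fb H u) (fb H w) ▸ add_comm (fb H v) (fb H w) ▸ e))
  have g1 : γ 0 (fb H u) = 1 := h.gen_alive T.pxy (by simp)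
  have h1 := (cost_list hl h hs ha
    [fb H u, fb H u + fb H v, fb H u + fb H w, fb H v + fb H w, fb H u + fb H v + fb H w, ε]
    (by simp [fib_iff, fdeg_add, fdeg_fb, fib_iff.1 eF, e0, g1, T.pxy, T.pxz, T.pyz, T.t])
    (by simp [n1, n2, n3, ne_tot_Class, tot_add, tot_one, e4])).1
  simp only [List.length_cons, List.length_nil] at h1
  omega

/-- Sketch: `not_forced_three`; let `ε` be a living successor. Two hub letters give five orbits
and two living hubs, which is impossible. One hub letter gives `dl1`. For three fibre letters two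
of the three differences agree up to sign (otherwise there are six orbits), so the letters form an
arithmetic progression, which gives `dl2`. Equality of types follows from `cost_list`. -/
theorem special_three (hl : l.Prime) (h5 : 5 ≤ l) (h : Adm {rot1 H l} γ)
    (hs : ∀ j α, Sym α → γ j α = 0) (ha : HasCost (γ.on Fib) a)
    (hk : HasCost (γ.comap Sum.inl) k) (hak : a < 5 * l ∨ a + k ≤ 5 * l + 1) {j : ℕ}
    {α : H ⊕ ZMod l → ℕ} (hf : Fib α) (h3 : tot α = 3) (ht : ¬ IsTop γ α)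
    (hn : ¬ Forced γ j α) : ∃ s ε, s ≠ 0 ∧ tot ε = 4 ∧ Fib ε ∧
      ((∃ x, γ = dl1 x s ε) ∨ ∃ o, γ = dl2 o s ε) := by
  obtain ⟨i, y', e0⟩ : ∃ i y', γ i (α + one y') ≠ 0 := by
    simpa only [IsTop, not_forall] using ht
  replace e0 := h.alive_zero e0
  have e4 : tot (α + one y') = 4 := by rw [tot_add, h3, tot_one]
  have eF : Fib (α + one y') := hf.imp fun z hz => by simp [hz]
  obtain ⟨a0, x, y, z, a1, a2, a3, rfl, a4, a5, a6⟩ := not_forced_three h h3 hn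
  have T : Tri_Class γ x y z := ⟨a1, a2, a3, h.alive_zero (j := j) (by omega),
    h.alive_zero (j := j) (by omega), h.alive_zero (j := j) (by omega),
    h.alive_zero (j := j) (by omega)⟩
  have A := @two_hubs_Class _ _ _ _ _ _ _ _ hl h5 h hs ha hk hak _ e4 eF e0
  have B : ∀ {x u v}, Tri_Class γ (.inl x) (.inr u) (.inr v) → ∃ s ε, s ≠ 0 ∧ tot ε = 4 ∧ Fib ε ∧
      ((∃ x, γ = dl1 x s ε) ∨ ∃ o, γ = dl2 o s ε) := fun T =>
    (one_hub_Class hl h5 h hs ha hk hak e4 eF e0 T).imp fun s hs =>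
      ⟨_, hs.1, e4, eF, Or.inl ⟨_, hs.2⟩⟩
  rcases x with x | x <;> rcases y with y | y <;> rcases z with z | z
  · obtain ⟨w, hw⟩ := hf
    simp at hw
  · exact (A T).elim
  · exact (A T.swap').elim
  · exact B T
  · exact (A T.swap.swap').elim
  · exact B T.swap
  · exact B T.swap'.swap
  · exact (no_hub_Class hl h5 h hs ha hk hak e4 eF e0 T).imp fun s hs =>
      ⟨_, hs.1, e4, eF, Or.inr hs.2⟩

theorem classify (hl : l.Prime) (h5 : 5 ≤ l) (h : Adm {rot1 H l} γ)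
    (hs : ∀ j α, Sym α → γ j α = 0) (ha : HasCost (γ.on Fib) a)
    (hk : HasCost (γ.comap Sum.inl) k) (hak : a < 5 * l ∨ a + k ≤ 5 * l + 1) :
    (∀ j α, Fib α → Forced γ j α ∨ IsTop γ α) ∨ ∃ s ε, s ≠ 0 ∧ tot ε = 4 ∧ Fib ε ∧
      ((∃ x, γ = dl1 x s ε) ∨ ∃ o, γ = dl2 o s ε) := by
  refine or_iff_not_imp_left.2 fun hn => ?_
  simp only [not_forall, not_or] at hn
  obtain ⟨j, α, hf, hn, ht⟩ := hn
  obtain ⟨i, y, e0⟩ : ∃ i y, γ i (α + one y) ≠ 0 := by simpa only [IsTop, not_forall] using ht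
  have h1 := deg_le hl h hs ha (hf.imp fun z hz => by simp [hz]) e0
  rw [tot_add, tot_one] at h1
  have h2 : tot α + 1 < 6 := lt_of_mul_lt_mul_left (a := l) (by omega) (Nat.zero_le _)
  by_cases h3 : tot α = 3
  · exact special_three hl h5 h hs ha hk hak hf h3 ht hn
  · by_cases h4 : tot α = 4
    · exact absurd (forced_four hl h5 h hs ha hk hak hf h4 ht) hn
    · exact absurd (Or.inr (Or.inl (thin_of_le_two (by omega)))) hn

end Pool.Agent.P.MP_8598be_al.Z
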