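import Pool.Agent.P.MP_8598be_al.Z.Push

/-!
Coefficients of words, and thin multidegrees.
-/

namespace Pool.Agent.P.MP_8598be_al.Z

open Module

variable {X : Type} [DecidableEq X]

omit [DecidableEq X] in
theorem coeff_mul_Co {R : Type} [CommRing R] (f g : MonoidAlgebra R (FreeMonoid X)) (w : List X) :
    (f * g).coeff (FreeMonoid.ofList w) = ∑ i ∈ Finset.range (w.length + 1),
      f.coeff (FreeMonoid.ofList (w.take i)) * g.coeff (FreeMonoid.ofList (w.drop i)) := by
  classical
  rw [MonoidAlgebra.coeff_mul_antidiag f g _ ((Finset.range (w.length + 1)).image fun i =>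
    (FreeMonoid.ofList (w.take i), FreeMonoid.ofList (w.drop i))), Finset.sum_image]
  · intro i hi j hj e
    have := congrArg (fun p => (FreeMonoid.toList p.1).length) e
    simp only [FreeMonoid.toList_ofList, List.length_take] at this
    have := Finset.mem_range.1 hi
    have := Finset.mem_range.1 hj
    omega
  · rintro ⟨a, b⟩
    rw [Finset.mem_image]
    refine ⟨?_, fun e => ?_⟩
    · rintro ⟨i, -, e⟩
      rw [← e, ← FreeMonoid.ofList_append, List.take_append_drop]
    · obtain rfl : FreeMonoid.toList a ++ FreeMonoid.toList b = w := congrArg FreeMonoid.toList e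
      exact ⟨(FreeMonoid.toList a).length, Finset.mem_range.2 (by simp), by simp⟩

/-- The coefficients of words in the image in the free associative algebra. Sketch: lift the
generators to `MonoidAlgebra R (FreeMonoid X)` or `FreeAlgebra R X`, compare `E/PosLie.lean`. -/
theorem exists_co (R : Type) [CommRing R] (X : Type) [DecidableEq X] :
    ∃ co : List X → FL R X →ₗ[R] R, (∀ w x, co w (gen R x) = if w = [x] then 1 else 0) ∧
      ∀ w u v, co w ⁅u, v⁆ = ∑ i ∈ Finset.range (w.length + 1),
        (co (w.take i) u * co (w.drop i) v - co (w.take i) v * co (w.drop i) u) := by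
  classical
  let _ : LieRing (MonoidAlgebra R (FreeMonoid X)) := LieRing.ofAssociativeRing
  let φ : FL R X →ₗ⁅R⁆ MonoidAlgebra R (FreeMonoid X) :=
    FreeLieAlgebra.lift R fun x => MonoidAlgebra.single (FreeMonoid.of x) 1
  refine ⟨fun w => Finsupp.lapply (FreeMonoid.ofList w) ∘ₗ
    (MonoidAlgebra.coeffLinearEquiv R).toLinearMap ∘ₗ φ.toLinearMap, fun w x => ?_,
    fun w u v => ?_⟩
  · change (φ (gen R x)).coeff (FreeMonoid.ofList w) = _
    rw [FreeLieAlgebra.lift_of_apply, MonoidAlgebra.coeff_single, Finsupp.single_apply]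
    exact if_congr eq_comm rfl rfl
  · change (φ ⁅u, v⁆).coeff (FreeMonoid.ofList w) = _
    rw [LieHom.map_lie, LieRing.of_associative_ring_bracket, MonoidAlgebra.coeff_sub,
      Finsupp.sub_apply, coeff_mul_Co, coeff_mul_Co, Finset.sum_sub_distrib]
    rfl

variable [Fintype X]

theorem mp_le_Co {R : Type} [CommRing R] {α : X → ℕ} {x : X} (hx : α x ≠ 0) (h2 : 2 ≤ tot α)
    {V : Submodule R (FL R X)} (h : ∀ β y, β + one y = α → β x ≠ 0 → ∀ u ∈ mp R β,
      ⁅u, gen R y⁆ ∈ V) : mp R α ≤ V := by
  rw [mp_start hx h2]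
  exact iSup₂_le fun y hy => Submodule.map_le_iff_le_comap.2 (h _ y (sub_add_one hy.1) hy.2)

omit [DecidableEq X] [Fintype X] in
theorem br_Co {R : Type} [CommRing R] {v u : FL R X} {V : Submodule R (FL R X)} {y : X}
    (hu : u ∈ Submodule.span R {v}) (h : ⁅v, gen R y⁆ ∈ V) : ⁅u, gen R y⁆ ∈ V := by
  obtain ⟨c, rfl⟩ := Submodule.mem_span_singleton.1 hu
  rw [smul_lie]
  exact V.smul_mem c h

theorem rank_mp_one (F : Type) [Field F] (x : X) : finrank F (mp F (one x)) = 1 := by
  obtain ⟨co, h, -⟩ := exists_co F X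
  rw [mp_one]
  refine finrank_span_singleton fun e => ?_
  simpa [e] using h [x] x

theorem mp_pair (R : Type) [CommRing R] (x y : X) :
    mp R (one x + one y) = Submodule.span R {⁅gen R x, gen R y⁆} := by
  refine le_antisymm (mp_le_Co (x := x) (by simp) (by simp [tot_add, tot_one])
    fun β z e hx u hu => ?_) (Submodule.span_le.2 (Set.singleton_subset_iff.2
      (mp_lie (gen_mem_mp x) (gen_mem_mp y))))
  obtain rfl : z = y := by
    by_contra hz
    have := congrFun e z
    by_cases k : z = x
    · subst k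
      simp [hz, hx] at this
    · simp [hz, k] at this
  rw [add_right_cancel e, mp_one] at hu
  exact br_Co hu (Submodule.subset_span rfl)

theorem rank_mp_pair (F : Type) [Field F] {x y : X} (h : x ≠ y) :
    finrank F (mp F (one x + one y)) = 1 := by
  obtain ⟨co, h1, h2⟩ := exists_co F X
  rw [mp_pair]
  refine finrank_span_singleton fun e => ?_
  simpa [e, Finset.sum_range_succ, h1, h, h.symm] using h2 [x, y] (gen F x) (gen F y)

theorem mp_triple (R : Type) [CommRing R] {x y z : X} (hy : x ≠ y) (hz : x ≠ z) :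
    mp R (one x + one y + one z) =
      Submodule.span R {⁅⁅gen R x, gen R y⁆, gen R z⁆, ⁅⁅gen R x, gen R z⁆, gen R y⁆} := by
  refine le_antisymm (mp_le_Co (x := x) (by simp) (by simp [tot_add, tot_one])
    fun β w e hx u hu => ?_) (Submodule.span_le.2 (Set.pair_subset
      (mp_lie (mp_lie (gen_mem_mp x) (gen_mem_mp y)) (gen_mem_mp z)) (add_right_comm _ _ (one y) ▸
        mp_lie (mp_lie (gen_mem_mp x) (gen_mem_mp z)) (gen_mem_mp y))))
  by_cases k : w = z
  · subst k
    rw [add_right_cancel e, mp_pair] at hu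
    exact br_Co hu (Submodule.subset_span (Or.inl rfl))
  obtain rfl : w = y := by
    by_contra hw
    have := congrFun e w
    by_cases k' : w = x
    · subst k'
      simp [hw, hx, k] at this
    · simp [hw, k, k'] at this
  rw [add_right_comm] at e
  rw [add_right_cancel e, mp_pair] at hu
  exact br_Co hu (Submodule.subset_span (Or.inr rfl))

theorem rank_mp_triple (F : Type) [Field F] {x y z : X} (hy : x ≠ y) (hz : x ≠ z) (h : y ≠ z) :
    finrank F (mp F (one x + one y + one z)) = 2 := by
  obtain ⟨co, h1, h2⟩ := exists_co F X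
  rw [mp_triple F hy hz, ← Matrix.range_cons_cons_empty _ _ ![], finrank_span_eq_card,
    Fintype.card_fin]
  refine LinearIndependent.pair_iff.2 fun s t e => ⟨?_, ?_⟩
  · simpa [h2, Finset.sum_range_succ, h1, h, h.symm, hy, hy.symm, hz, hz.symm] using
      congrArg (co [x, y, z]) e
  · simpa [h2, Finset.sum_range_succ, h1, h, h.symm, hy, hy.symm, hz, hz.symm] using
      congrArg (co [x, z, y]) e

/-- One letter only. -/
theorem mp_pow (R : Type) [CommRing R] {α : X → ℕ} {x : X} (h : ∀ y, y ≠ x → α y = 0)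
    (h2 : 2 ≤ tot α) : mp R α = ⊥ := by
  obtain ⟨n, hn⟩ := Nat.exists_eq_add_of_le' h2
  induction n generalizing α with
  | zero =>
    obtain ⟨a, b, rfl⟩ := tot_eq_two.1 hn
    obtain rfl : a = x := by_contra fun k => by simpa using h a k
    obtain rfl : b = a := by_contra fun k => by simpa using h b k
    exact mp_sq _
  | succ n ih =>
    have hx : α x ≠ 0 := fun k => by
      rw [tot_eq_zero.2 (funext fun y => if e : y = x then e ▸ k else h y e)] at h2
      omega
    refine le_bot_iff.1 (mp_le_Co hx h2 fun β y e _ u hu => ?_)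
    subst e
    rw [tot_add, tot_one] at hn
    rw [ih (fun z k => (Nat.add_eq_zero_iff.1 (h z k)).1) (by omega) (by omega),
      Submodule.mem_bot] at hu
    rw [hu, zero_lie]
    exact zero_mem _

omit [Fintype X] in
theorem thin_Co {α : X → ℕ} (h : ∀ (F : Type) [Field F], ∃ v, mp F α ≤ Submodule.span F {v}) :
    Thin α := fun F _ => by
  obtain ⟨v, hv⟩ := h F
  exact (Submodule.finrank_mono hv).trans ((finrank_span_le_card _).trans (by simp))

theorem two_Co (R : Type) [CommRing R] {α : X → ℕ} (h : tot α ≤ 2) :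
    ∃ v, mp R α ≤ Submodule.span R {v} := by
  obtain h | h | h : tot α = 0 ∨ tot α = 1 ∨ tot α = 2 := by omega
  · rw [tot_eq_zero.1 h, mp_zero]
    exact ⟨0, bot_le⟩
  · obtain ⟨x, rfl⟩ := tot_eq_one.1 h
    exact ⟨_, (mp_one x).le⟩
  · obtain ⟨x, y, rfl⟩ := tot_eq_two.1 h
    exact ⟨_, (mp_pair R x y).le⟩

theorem thin_of_le_two {α : X → ℕ} (h : tot α ≤ 2) : Thin α := thin_Co fun F _ => two_Co F h

/-- Two letters, one of which occurs at most once. -/
theorem thin_once {α : X → ℕ} {x y : X} (h : ∀ z, z ≠ x → z ≠ y → α z = 0) (hx : α x ≤ 1) :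
    Thin α := by
  refine thin_Co fun F _ => ?_
  by_cases h0 : α x = 0
  · rcases le_or_gt (tot α) 2 with k | k
    · exact two_Co F k
    · rw [mp_pow F (x := y) (fun z k => if e : z = x then e ▸ h0 else h z e k) k.le]
      exact ⟨0, bot_le⟩
  obtain ⟨n, hn⟩ : ∃ n, tot α = n := ⟨_, rfl⟩
  induction n generalizing α with
  | zero => exact two_Co F (by omega)
  | succ n ih =>
    rcases le_or_gt (tot α) 2 with k | k
    · exact two_Co F k
    have key : ∀ β w, β + one w = α → β x ≠ 0 → w = y := by
      rintro β w rfl k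
      by_contra k'
      by_cases e : w = x
      · subst e
        simp at hx
        omega
      · simpa using h w e k'
    by_cases ex : ∃ β, β + one y = α ∧ β x ≠ 0
    · obtain ⟨β, rfl, k0⟩ := ex
      rw [tot_add, tot_one] at hn
      obtain ⟨v, hv⟩ := ih (fun z a b => (Nat.add_eq_zero_iff.1 (h z a b)).1)
        ((Nat.le_add_right _ _).trans hx) k0 (by omega)
      refine ⟨⁅v, gen F y⁆, mp_le_Co h0 k.le fun β' w e k1 u hu => ?_⟩
      obtain rfl := key β' w e k1
      rw [add_right_cancel e] at hu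
      exact br_Co (hv hu) (Submodule.subset_span rfl)
    · refine ⟨0, mp_le_Co h0 k.le fun β w e k1 => ?_⟩
      obtain rfl := key β w e k1
      exact absurd ⟨β, e, k1⟩ ex

/-- Two letters and total degree at most four. -/
theorem thin_two_letters {α : X → ℕ} {x y : X} (h : ∀ z, z ≠ x → z ≠ y → α z = 0)
    (h4 : tot α ≤ 4) : Thin α := by
  rcases le_or_gt (α x) 1 with hx | hx
  · exact thin_once h hx
  rcases le_or_gt (α y) 1 with hy | hy
  · exact thin_once (fun z a b => h z b a) hy
  refine thin_Co fun F _ => ?_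
  have t2 : 2 ≤ tot α := hx.trans_le (Finset.single_le_sum (fun _ _ => Nat.zero_le _)
    (Finset.mem_univ x))
  by_cases e : x = y
  · rw [mp_pow F (x := x) (fun z k => h z k (e ▸ k)) t2]
    exact ⟨0, bot_le⟩
  have t : tot α = α x + α y := Fintype.sum_eq_add x y e fun z k => h z k.1 k.2
  have a1 : α x = 2 := by omega
  have a2 : α y = 2 := by omega
  have e' : y ≠ x := Ne.symm e
  obtain rfl : α = one x + one y + one y + one x := funext fun z => by
    by_cases k : z = x
    · simp [k, a1, e]
    by_cases k' : z = y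
    · simp [k', a2, e']
    · simp [k, k', h z k k']
  refine ⟨⁅⁅⁅gen F x, gen F y⁆, gen F y⁆, gen F x⁆, mp_le_Co (x := x) (by omega) t2
    fun β w b _ u hu => ?_⟩
  by_cases k : w = x
  · subst k
    rw [add_right_cancel b, mp_triple F e e, Set.pair_eq_singleton] at hu
    exact br_Co hu (Submodule.subset_span rfl)
  obtain rfl : w = y := by_contra fun k' => by simpa [k, k'] using congrFun b w
  rw [add_right_comm _ (one w) (one x), add_comm (one x) (one w)] at b
  rw [add_right_cancel b, mp_triple F e' e', Set.pair_eq_singleton] at hu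
  refine br_Co hu ?_
  have j := leibniz_lie ⁅gen F x, gen F w⁆ (gen F x) (gen F w)
  rw [lie_self, ← lie_skew (gen F x) ⁅⁅gen F x, gen F w⁆, gen F w⁆, eq_comm, add_neg_eq_zero] at j
  rw [← lie_skew (gen F w) (gen F x), neg_lie, neg_lie, j]
  exact neg_mem (Submodule.subset_span rfl)

theorem thin_of_card (hX : Fintype.card X ≤ 2) {α : X → ℕ} (h4 : tot α ≤ 4) : Thin α := by
  by_cases h : ∃ x y : X, x ≠ y
  · obtain ⟨x, y, e⟩ := h
    exact thin_two_letters (x := x) (y := y) (fun z a b => absurd
      (Fintype.two_lt_card_iff.2 ⟨x, y, z, e, a.symm, b.symm⟩) hX.not_gt) h4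
  · rcases isEmpty_or_nonempty X with _ | ⟨⟨x⟩⟩
    · exact thin_of_le_two (by simp [tot])
    · exact thin_two_letters (x := x) (y := x) (fun z a _ => absurd ⟨z, x, a⟩ h) h4

end Pool.Agent.P.MP_8598be_al.Z
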