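import Pool.Agent.P.MP_8598be_al.Z.Orb
import Pool.Agent.P.MP_8598be_al.Z.Co

/-!
Forced nodes of degree three and four.
-/

namespace Pool.Agent.P.MP_8598be_al.Z

variable {H : Type} {l : ℕ} [Fintype H] [DecidableEq H] [NeZero l] {γ : Ty (H ⊕ ZMod l)} {a k : ℕ}

theorem below_le_ClassA {X : Type} [Fintype X] [DecidableEq X] (γ : Ty X) (j : ℕ) (α : X → ℕ)
    (x : X) (s : Finset X)
    (hs : ∀ w, α w ≠ 0 → (α - one w : X → ℕ) x ≠ 0 → γ j (α - one w) ≠ 0 → w ∈ s) :
    below γ j α x ≤ ∑ w ∈ s, γ j (α - one w) := by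
  unfold below
  rw [← Finset.sum_subset (Finset.subset_univ s)]
  · refine Finset.sum_le_sum fun w _ => ?_
    split_ifs
    · exact le_rfl
    · exact Nat.zero_le _
  · intro w _ hw
    split_ifs with h
    · by_contra h0
      exact hw (hs w h.1 h.2 h0)
    · rfl

theorem three_ClassA {X : Type} [Fintype X] [DecidableEq X] {S : Set (Equiv.Perm X)}
    {γ : Ty X} (h : Adm S γ) {j : ℕ} {x y z : X} (hy : x ≠ y) (hz : x ≠ z) (hyz : y ≠ z)
    (hf : ¬ Forced γ j (one x + one y + one z)) :
    γ j (one x + one y + one z) = 1 ∧ γ j (one x + one y) = 1 ∧ γ j (one x + one z) = 1 := by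
  have h0 : γ j (one x + one y + one z) ≠ 0 := fun e => hf (Or.inl e)
  have h1 : ¬ below γ j (one x + one y + one z) x ≤ γ j (one x + one y + one z) := fun e =>
    hf (Or.inr (Or.inr ⟨x, by simp, e⟩))
  have h2 := below_le_ClassA γ j (one x + one y + one z) x {y, z} fun w hw hw' _ => by
    by_contra hn
    simp only [Finset.mem_insert, Finset.mem_singleton, not_or] at hn
    by_cases e : w = x
    · subst e
      simp [hn.1, hn.2] at hw'
    · simp [e, hn.1, hn.2] at hw
  rw [Finset.sum_pair hyz, add_sub_one, add_right_comm (one x) (one y), add_sub_one] at h2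
  rw [add_right_comm (one x) (one z)] at h2
  have h3 := h.le_one (α := one x + one y) (by rw [tot_add, tot_one, tot_one]) j
  have h4 := h.le_one (α := one x + one z) (by rw [tot_add, tot_one, tot_one]) j
  omega

/-- A node of degree three that is not forced has three distinct letters, and all its
predecessors are alive. -/
theorem not_forced_three {X : Type} [Fintype X] [DecidableEq X] {S : Set (Equiv.Perm X)}
    {γ : Ty X} (h : Adm S γ) {j : ℕ} {α : X → ℕ} (h3 : tot α = 3) (hf : ¬ Forced γ j α) :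
    γ j α = 1 ∧ ∃ x y z, x ≠ y ∧ x ≠ z ∧ y ≠ z ∧ α = one x + one y + one z ∧
      γ j (one x + one y) = 1 ∧ γ j (one x + one z) = 1 ∧ γ j (one y + one z) = 1 := by
  obtain ⟨β, z, rfl, h2⟩ := tot_eq_succ (m := 2) h3
  obtain ⟨x, y, rfl⟩ := tot_eq_two.1 h2
  have hth : ¬ Thin (one x + one y + one z) := fun e => hf (Or.inr (Or.inl e))
  have hy : x ≠ y := by
    rintro rfl
    exact hth (thin_two_letters (x := x) (y := z) (fun w h1 h2 => by simp [h1, h2]) (by omega))
  have hz : x ≠ z := by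
    rintro rfl
    exact hth (thin_two_letters (x := x) (y := y) (fun w h1 h2 => by simp [h1, h2]) (by omega))
  have hyz : y ≠ z := by
    rintro rfl
    exact hth (thin_two_letters (x := x) (y := y) (fun w h1 h2 => by simp [h1, h2]) (by omega))
  obtain ⟨a1, a2, a3⟩ := three_ClassA h hy hz hyz hf
  obtain ⟨-, -, a4⟩ := three_ClassA h hy.symm hyz hz (by rwa [add_comm (one y)])
  exact ⟨a1, x, y, z, hy, hz, hyz, rfl, a2, a3, a4⟩

open Pointwise in
theorem cd_ClassA (hl : l.Prime) (A T U : Finset (ZMod l)) (hA : A.Nonempty)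
    (hT : T.card = 3) (hU : ∀ x ∈ A, ∀ t ∈ T, x + t ∈ U) : min l (A.card + 2) ≤ U.card := by
  have h1 := ZMod.cauchy_davenport hl hA (Finset.card_pos.1 (by omega : 0 < T.card))
  have h2 : A + T ⊆ U := Finset.add_subset_iff.2 hU
  have h3 := Finset.card_le_card h2
  rw [hT] at h1
  exact le_trans (by omega) (h1.trans h3)

/-- Three distinct translates of a three element set are not contained in a four element set
(`ZMod.cauchy_davenport`). -/
theorem three_translates (hl : l.Prime) (h5 : 5 ≤ l) (A T U : Finset (ZMod l)) (hA : A.card = 3)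
    (hT : T.card = 3) (hU : ∀ x ∈ A, ∀ t ∈ T, x + t ∈ U) : 5 ≤ U.card := by
  have := cd_ClassA hl A T U (Finset.card_pos.1 (by omega)) hT hU
  omega

/-- The fibre letters that occur. -/
def suClassA (β : H ⊕ ZMod l → ℕ) : Finset (ZMod l) :=
  Finset.univ.filter fun z => β (.inr z) ≠ 0

theorem su_le_ClassA (β : H ⊕ ZMod l → ℕ) : (suClassA β).card ≤ tot β := by
  unfold tot suClassA
  rw [Fintype.sum_sum_type, Finset.card_filter]
  refine le_trans (Finset.sum_le_sum fun z _ => ?_) (Nat.le_add_left _ _)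
  split_ifs with e
  · omega
  · exact Nat.zero_le _

theorem su_pred_ClassA {α δ : H ⊕ ZMod l → ℕ} {y : H ⊕ ZMod l} {t : ZMod l}
    (e : α - one y = sh t δ) : (suClassA α).card ≤ (suClassA δ).card + 1 := by
  have h1 : suClassA α ⊆ (suClassA δ).image (· + t) ∪
      Finset.univ.filter fun z : ZMod l => Sum.inr z = y := by
    intro z hz
    rw [Finset.mem_union]
    by_cases hy : Sum.inr z = y
    · exact Or.inr (by simpa using hy)
    · refine Or.inl (Finset.mem_image.2 ⟨z - t, ?_, sub_add_cancel _ _⟩)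
      have h2 := congrFun e (.inr z)
      rw [sh_inr] at h2
      simp only [suClassA, Finset.mem_filter, Finset.mem_univ, true_and] at hz ⊢
      rw [← h2]
      simpa [hy] using hz
  have h2 : (Finset.univ.filter fun z : ZMod l => (Sum.inr z : H ⊕ ZMod l) = y).card ≤ 1 :=
    Finset.card_le_one.2 fun u hu v hv => Sum.inr_injective
      ((Finset.mem_filter.1 hu).2.trans (Finset.mem_filter.1 hv).2.symm)
  have h3 := (Finset.card_le_card h1).trans (Finset.card_union_le _ _)
  have h4 := Finset.card_image_le (s := suClassA δ) (f := (· + t))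
  omega

theorem su_mem_ClassA {α δ : H ⊕ ZMod l → ℕ} {y : H ⊕ ZMod l} {t z : ZMod l}
    (e : α - one y = sh t δ) (hz : z ∈ suClassA δ) : z + t ∈ suClassA α := by
  have h2 := congrFun e (.inr (z + t))
  rw [sh_inr, add_sub_cancel_right, Pi.sub_apply] at h2
  simp only [suClassA, Finset.mem_filter, Finset.mem_univ, true_and] at hz ⊢
  omega

theorem pred_inj_ClassA {X : Type} [DecidableEq X] {α : X → ℕ} {y y' : X} (hy : α y ≠ 0)
    (e : α - one y = α - one y') : y = y' := by
  by_contra hn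
  have := congrFun e y
  simp [hn] at this
  omega

/-- A node of degree four with a living successor is forced. Sketch: there are living nodes of
degrees `1, …, 5` with fibre letters, so by `cost_list` all living nodes of degree three with fibre
letters are translates of one node `δ` and have dimension one; living nodes without fibre letters
have degree one because `k ≤ 1`. With at most two letters `α` is thin. Otherwise find a letter `x`
such that at most one predecessor that contains `x` is alive: the predecessors `α - one y` that are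
translates of `δ` have the same shape; three of them are excluded by `three_translates` or, with a
hub letter, because `3 s ≠ 0`. -/
theorem forced_four (hl : l.Prime) (h5 : 5 ≤ l) (h : Adm {rot1 H l} γ)
    (hs : ∀ j α, Sym α → γ j α = 0) (ha : HasCost (γ.on Fib) a)
    (hk : HasCost (γ.comap Sum.inl) k) (hak : a < 5 * l ∨ a + k ≤ 5 * l + 1) {j : ℕ}
    {α : H ⊕ ZMod l → ℕ} (hf : Fib α) (h4 : tot α = 4) (ht : ¬ IsTop γ α) : Forced γ j α := by
  by_contra hn
  have h0 : γ j α ≠ 0 := fun e => hn (Or.inl e)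
  have hth : ¬ Thin α := fun e => hn (Or.inr (Or.inl e))
  obtain ⟨z0, hz0⟩ := hf
  obtain ⟨i, y0, hε⟩ : ∃ i y, γ i (α + one y) ≠ 0 := by
    by_contra e
    exact ht fun i y => by_contra fun e' => e ⟨i, y, e'⟩
  have h00 := h.alive_zero h0
  obtain ⟨β1, -, f1, a1, t1⟩ := h.exists_deg h00 hz0 (m := 1) le_rfl (by omega)
  obtain ⟨β2, -, f2, a2, t2⟩ := h.exists_deg h00 hz0 (m := 2) (by omega) (by omega)
  obtain ⟨δ, -, f3, a3, t3⟩ := h.exists_deg h00 hz0 (m := 3) (by omega) (by omega)
  have t5 : tot (α + one y0) = 5 := by rw [tot_add, tot_one, h4]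
  have hne : ∀ β β' : H ⊕ ZMod l → ℕ, tot β ≠ tot β' → ∀ t, β' ≠ sh t β := by
    rintro β β' e t rfl
    exact e (tot_sh t β).symm
  obtain ⟨c1, c2⟩ := cost_list hl h hs ha [β1, β2, δ, α, α + one y0] (by
    intro β hβ
    simp only [List.mem_cons, List.not_mem_nil, or_false] at hβ
    rcases hβ with rfl | rfl | rfl | rfl | rfl
    · exact ⟨⟨z0, f1⟩, a1⟩
    · exact ⟨⟨z0, f2⟩, a2⟩
    · exact ⟨⟨z0, f3⟩, a3⟩
    · exact ⟨⟨z0, hz0⟩, h00⟩
    · exact ⟨⟨z0, by rw [Pi.add_apply]; omega⟩, h.alive_zero hε⟩) (by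
    simp only [List.pairwise_cons, List.mem_cons, List.not_mem_nil, or_false, forall_eq_or_imp,
      forall_eq, List.Pairwise.nil, and_true, IsEmpty.forall_iff, implies_true]
    refine ⟨⟨?_, ?_, ?_, ?_⟩, ⟨?_, ?_, ?_⟩, ⟨?_, ?_⟩, ?_⟩ <;> exact hne _ _ (by omega))
  simp only [List.length_cons, List.length_nil] at c1 c2
  have c3 := c2 (by omega)
  have hadm : Adm ∅ (γ.comap (Sum.inl : H → H ⊕ ZMod l)) :=
    h.comap Sum.inl_injective fun t ht => ht.elim
  have key : ∀ y, α y ≠ 0 → γ j (α - one y) ≠ 0 →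
      γ j (α - one y) = 1 ∧ ∃ t, α - one y = sh t δ := by
    intro y hy hl'
    have e3 : tot (α - one y) = 3 := by
      have := tot_add (α - one y) (one y)
      rw [sub_add_one hy, tot_one] at this
      omega
    generalize α - one y = β at hl' e3
    have hF : Fib β := by
      by_contra hF
      obtain ⟨β', rfl⟩ := not_fib_iff.1 hF
      have := (hadm.tot_le hk (j := j) (α := β') hl').1
      rw [tot_push] at e3
      omega
    obtain ⟨-, e1, β', hβ', t, rfl⟩ := c3 j β hF hl'
    refine ⟨e1, t, ?_⟩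
    rw [tot_sh] at e3
    simp only [List.mem_cons, List.not_mem_nil, or_false] at hβ'
    rcases hβ' with rfl | rfl | rfl | rfl | rfl
    · omega
    · omega
    · rfl
    · omega
    · omega
  have two : ∀ x, α x ≠ 0 → ∃ y y', y ≠ y' ∧
      (α y ≠ 0 ∧ (α - one y : _ → ℕ) x ≠ 0 ∧ γ j (α - one y) ≠ 0) ∧
      (α y' ≠ 0 ∧ (α - one y' : _ → ℕ) x ≠ 0 ∧ γ j (α - one y') ≠ 0) := by
    intro x hx
    have h1 := below_le_ClassA γ j α x (Finset.univ.filter fun y =>
      α y ≠ 0 ∧ (α - one y : _ → ℕ) x ≠ 0 ∧ γ j (α - one y) ≠ 0) fun w b1 b2 b3 =>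
        Finset.mem_filter.2 ⟨Finset.mem_univ _, b1, b2, b3⟩
    rw [Finset.sum_congr rfl fun w hw => (key w (Finset.mem_filter.1 hw).2.1
      (Finset.mem_filter.1 hw).2.2.2).1, ← Finset.card_eq_sum_ones] at h1
    have h2 : ¬ below γ j α x ≤ γ j α := fun e => hn (Or.inr (Or.inr ⟨x, hx, e⟩))
    obtain ⟨y, hy, y', hy', e⟩ := Finset.one_lt_card.1 (lt_of_lt_of_le (by omega) h1)
    exact ⟨y, y', e, (Finset.mem_filter.1 hy).2, (Finset.mem_filter.1 hy').2⟩
  by_cases hc : ∃ x, α x = 1 ∧ γ j (α - one x) ≠ 0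
  · obtain ⟨x, hx, hx'⟩ := hc
    have hx0 : α x ≠ 0 := by omega
    obtain ⟨y, y', e, ⟨b1, b2, b3⟩, d1, d2, d3⟩ := two x hx0
    have exy : x ≠ y := by
      rintro rfl
      simp [hx] at b2
    have exy' : x ≠ y' := by
      rintro rfl
      simp [hx] at d2
    obtain ⟨-, s1, e1⟩ := key x hx0 hx'
    obtain ⟨-, s2, e2⟩ := key y b1 b3
    obtain ⟨-, s3, e3⟩ := key y' d1 d3
    have n12 : s1 ≠ s2 := fun e' => exy (pred_inj_ClassA hx0 (by rw [e1, e2, e']))
    have n13 : s1 ≠ s3 := fun e' => exy' (pred_inj_ClassA hx0 (by rw [e1, e3, e']))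
    have n23 : s2 ≠ s3 := fun e' => e (pred_inj_ClassA b1 (by rw [e2, e3, e']))
    have k1 := cd_ClassA hl (suClassA δ) {s1, s2, s3} (suClassA α)
      ⟨z0, Finset.mem_filter.2 ⟨Finset.mem_univ _, f3⟩⟩
      (Finset.card_eq_three.2 ⟨s1, s2, s3, n12, n13, n23, rfl⟩) fun z hz t ht => by
        simp only [Finset.mem_insert, Finset.mem_singleton] at ht
        rcases ht with rfl | rfl | rfl
        · exact su_mem_ClassA e1 hz
        · exact su_mem_ClassA e2 hz
        · exact su_mem_ClassA e3 hz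
    have k2 := su_pred_ClassA e1
    have k3 := su_le_ClassA α
    omega
  · obtain ⟨y, y', e, ⟨b1, -, b3⟩, d1, -, d3⟩ := two _ hz0
    have b4 : α y ≠ 1 := fun e' => hc ⟨y, e', b3⟩
    have d4 : α y' ≠ 1 := fun e' => hc ⟨y', e', d3⟩
    refine hth (thin_two_letters (x := y) (y := y') (fun z hz hz' => ?_) h4.le)
    have k1 : ∑ w ∈ ({z, y, y'} : Finset _), α w ≤ tot α :=
      Finset.sum_le_sum_of_subset (Finset.subset_univ _)
    rw [Finset.sum_insert (by simp [hz, hz']), Finset.sum_pair e] at k1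
    omega

end Pool.Agent.P.MP_8598be_al.Z
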