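import Pool.Agent.P.MP_8598be_al.Z.Push

/-!
The cost of a type.
-/

namespace Pool.Agent.P.MP_8598be_al.Z

section Cost

variable {X Y : Type}

theorem sum_le_Cost {γ : Ty X} {n : ℕ} (h : HasCost γ n) (s : Finset (ℕ × (X → ℕ))) :
    ∑ q ∈ s, γ q.1 q.2 ≤ n := by
  classical
  obtain ⟨t, ht, rfl⟩ := h
  rw [← Finset.sum_filter_ne_zero s]
  refine Finset.sum_le_sum_of_subset fun q hq => ?_
  by_contra hn
  exact (Finset.mem_filter.1 hq).2 (ht q.1 q.2 hn)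

theorem HasCost.unique {γ : Ty X} {m n : ℕ} (h : HasCost γ m) (h' : HasCost γ n) : m = n := by
  exact le_antisymm (by obtain ⟨s, -, rfl⟩ := h; exact sum_le_Cost h' s)
    (by obtain ⟨s, -, rfl⟩ := h'; exact sum_le_Cost h s)

theorem HasCost.sum_le {γ : Ty X} {n : ℕ} (h : HasCost γ n) (s : Finset (ℕ × (X → ℕ))) :
    ∑ q ∈ s, γ q.1 q.2 ≤ n := by
  exact sum_le_Cost h s

theorem HasCost.sum_eq {γ : Ty X} {n : ℕ} (h : HasCost γ n) {s : Finset (ℕ × (X → ℕ))}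
    (hs : ∀ j α, (j, α) ∉ s → γ j α = 0) : ∑ q ∈ s, γ q.1 q.2 = n := by
  exact HasCost.unique ⟨s, hs, rfl⟩ h

/-- If a finite set of nodes exhausts the cost then everything else is dead. -/
theorem HasCost.eq_zero_of_le {γ : Ty X} {n : ℕ} (h : HasCost γ n) {s : Finset (ℕ × (X → ℕ))}
    (hs : n ≤ ∑ q ∈ s, γ q.1 q.2) {j : ℕ} {α : X → ℕ} (hj : (j, α) ∉ s) : γ j α = 0 := by
  classical
  have h1 := h.sum_le (insert (j, α) s)
  rw [Finset.sum_insert hj] at h1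
  change γ j α + _ ≤ n at h1
  omega

theorem HasCost.finite {γ : Ty X} {n : ℕ} (h : HasCost γ n) :
    {q : ℕ × (X → ℕ) | γ q.1 q.2 ≠ 0}.Finite := by
  obtain ⟨s, hs, -⟩ := h
  refine s.finite_toSet.subset fun q hq => ?_
  by_contra hn
  exact hq (hs q.1 q.2 hn)

theorem HasCost.exists_bound {γ : Ty X} {n : ℕ} (h : HasCost γ n) :
    ∃ N, ∀ j, N ≤ j → ∀ α, γ j α = 0 := by
  obtain ⟨s, hs, -⟩ := h
  refine ⟨s.sup Prod.fst + 1, fun j hj α => hs j α fun hm => ?_⟩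
  have h1 : j ≤ s.sup Prod.fst := Finset.le_sup (f := Prod.fst) hm
  omega

theorem hasCost_zero {γ : Ty X} : HasCost γ 0 ↔ γ = 0 := by
  constructor
  · intro h
    funext j α
    exact h.eq_zero_of_le (s := ∅) (Nat.zero_le _) (Finset.notMem_empty _)
  · rintro rfl
    exact ⟨∅, fun _ _ _ => rfl, rfl⟩

theorem HasCost.mono {γ γ' : Ty X} {n : ℕ} (h : HasCost γ n) (hle : ∀ j α, γ' j α ≤ γ j α) :
    ∃ m, m ≤ n ∧ HasCost γ' m := by
  obtain ⟨s, hs, rfl⟩ := h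
  refine ⟨∑ q ∈ s, γ' q.1 q.2, Finset.sum_le_sum fun q _ => hle q.1 q.2, s, fun j α hj => ?_, rfl⟩
  exact Nat.eq_zero_of_le_zero (hs j α hj ▸ hle j α)

theorem HasCost.mono_lt {γ γ' : Ty X} {n : ℕ} (h : HasCost γ n) (hle : ∀ j α, γ' j α ≤ γ j α)
    {j : ℕ} {α : X → ℕ} (hlt : γ' j α < γ j α) : ∃ m, m < n ∧ HasCost γ' m := by
  obtain ⟨s, hs, rfl⟩ := h
  have hm : (j, α) ∈ s := by
    by_contra hn
    have h1 := hs j α hn
    omega
  refine ⟨∑ q ∈ s, γ' q.1 q.2, Finset.sum_lt_sum (fun q _ => hle q.1 q.2) ⟨(j, α), hm, hlt⟩, s,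
    fun j α hj => ?_, rfl⟩
  exact Nat.eq_zero_of_le_zero (hs j α hj ▸ hle j α)

theorem Ty.on_pos (γ : Ty X) {Q : (X → ℕ) → Prop} {α : X → ℕ} (h : Q α) (j : ℕ) :
    γ.on Q j α = γ j α := by
  unfold Ty.on
  exact if_pos h

theorem Ty.on_neg (γ : Ty X) {Q : (X → ℕ) → Prop} {α : X → ℕ} (h : ¬ Q α) (j : ℕ) :
    γ.on Q j α = 0 := by
  unfold Ty.on
  exact if_neg h

theorem Ty.on_le (γ : Ty X) (Q : (X → ℕ) → Prop) (j : ℕ) (α : X → ℕ) : γ.on Q j α ≤ γ j α := by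
  by_cases h : Q α
  · exact (γ.on_pos h j).le
  · rw [γ.on_neg h j]
    exact Nat.zero_le _

theorem on_add_Cost (γ : Ty X) (Q : (X → ℕ) → Prop) (j : ℕ) (α : X → ℕ) :
    γ j α = γ.on Q j α + (γ.on fun α => ¬ Q α) j α := by
  by_cases h : Q α
  · rw [γ.on_pos h, γ.on_neg (Q := fun α => ¬ Q α) (not_not.2 h), add_zero]
  · rw [γ.on_neg h, γ.on_pos (Q := fun α => ¬ Q α) h, zero_add]

theorem HasCost.add_on {γ : Ty X} {Q : (X → ℕ) → Prop} {a b : ℕ} (ha : HasCost (γ.on Q) a)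
    (hb : HasCost (γ.on fun α => ¬ Q α) b) : HasCost γ (a + b) := by
  classical
  obtain ⟨s, hs, hsa⟩ := id ha
  obtain ⟨t, ht, htb⟩ := id hb
  have hs' : ∀ j α, (j, α) ∉ s ∪ t → γ.on Q j α = 0 := fun j α hj =>
    hs j α fun h => hj (Finset.mem_union_left _ h)
  have ht' : ∀ j α, (j, α) ∉ s ∪ t → (γ.on fun α => ¬ Q α) j α = 0 := fun j α hj =>
    ht j α fun h => hj (Finset.mem_union_right _ h)
  refine ⟨s ∪ t, fun j α hj => ?_, ?_⟩
  · rw [on_add_Cost γ Q j α, hs' j α hj, ht' j α hj]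
  · rw [← ha.sum_eq hs', ← hb.sum_eq ht', ← Finset.sum_add_distrib]
    exact Finset.sum_congr rfl fun q _ => on_add_Cost γ Q q.1 q.2

theorem HasCost.split {γ : Ty X} {n : ℕ} (h : HasCost γ n) (Q : (X → ℕ) → Prop) :
    ∃ a b, a + b = n ∧ HasCost (γ.on Q) a ∧ HasCost (γ.on fun α => ¬ Q α) b := by
  obtain ⟨a, -, ha⟩ := h.mono (γ.on_le Q)
  obtain ⟨b, -, hb⟩ := h.mono (γ.on_le fun α => ¬ Q α)
  exact ⟨a, b, (ha.add_on hb).unique h, ha, hb⟩

theorem hasCost_comap [Fintype X] [DecidableEq Y] {g : X → Y} (hg : Function.Injective g)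
    {γ : Ty Y} {n : ℕ} :
    HasCost (γ.comap g) n ↔ HasCost (γ.on fun β => ∃ α, push g α = β) n := by
  classical
  have hi : Function.Injective (Prod.map (id : ℕ → ℕ) (push g)) :=
    Function.injective_id.prodMap (push_inj hg)
  have key : ∀ s : Finset (ℕ × (X → ℕ)), (∀ j α, (j, α) ∉ s → γ.comap g j α = 0) →
      HasCost (γ.on fun β => ∃ α, push g α = β) (∑ q ∈ s, γ.comap g q.1 q.2) := by
    intro s hs
    refine ⟨s.image (Prod.map id (push g)), fun j β hj => ?_, ?_⟩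
    · by_cases hβ : ∃ α, push g α = β
      · obtain ⟨α, rfl⟩ := hβ
        rw [γ.on_pos (Q := fun β => ∃ α, push g α = β) ⟨α, rfl⟩]
        exact hs j α fun h => hj (Finset.mem_image.2 ⟨(j, α), h, rfl⟩)
      · exact γ.on_neg (Q := fun β => ∃ α, push g α = β) hβ j
    · rw [Finset.sum_image fun a _ b _ h => hi h]
      exact Finset.sum_congr rfl fun q _ =>
        γ.on_pos (Q := fun β => ∃ α, push g α = β) ⟨q.2, rfl⟩ q.1
  constructor
  · rintro ⟨s, hs, rfl⟩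
    exact key s hs
  · intro h
    obtain ⟨t, ht, -⟩ := id h
    have hs : ∀ j α, (j, α) ∉ t.preimage (Prod.map id (push g)) hi.injOn → γ.comap g j α = 0 := by
      intro j α hj
      have h1 := ht j (push g α) fun h => hj (Finset.mem_preimage.2 h)
      rwa [γ.on_pos (Q := fun β => ∃ α, push g α = β) ⟨α, rfl⟩] at h1
    exact ⟨_, hs, (key _ hs).unique h⟩

end Cost

end Pool.Agent.P.MP_8598be_al.Z
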