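import Pool.Agent.P.MP_8598be_al.Z.Peel
import Pool.Agent.P.MP_8598be_al.Z.Above
import Pool.Agent.P.MP_8598be_al.Z.Co

/-!
Types in which every node is forced or has no living successor.
-/

namespace Pool.Agent.P.MP_8598be_al.Z

open Module

variable {X : Type} [Fintype X] [DecidableEq X] {S : Set (Equiv.Perm X)} {γ : Ty X}

/-- The forced parts, by recursion on the degree. -/
noncomputable def rig_Tame (F : Type) [Field F] (γ : Ty X) (j : ℕ) :
    ℕ → (X → ℕ) → Submodule F (FL F X)
  | 0, α => mp F α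
  | m + 1, α => if γ j α = 0 then mp F α
      else ⨆ (y : X) (_ : α y ≠ 0), (rig_Tame F γ j m (α - one y)).map (adr F y)

theorem rig_int_Tame (j m : ℕ) (α : X → ℕ) : IsInt fun p _ => rig_Tame (ZMod p) γ j m α := by
  induction m generalizing α with
  | zero => exact IsInt.mp α
  | succ m ih =>
    by_cases h : γ j α = 0
    · simp only [rig_Tame, if_pos h]
      exact IsInt.mp α
    · simp only [rig_Tame, if_neg h]
      exact IsInt.iSup fun y => IsInt.iSup_prop fun _ => (ih _).map_adr y

omit [Fintype X] in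
theorem pred_le_Tame {F : Type} [Field F] {α : X → ℕ} {V : X → Submodule F (FL F X)}
    (h : ∀ y, V y ≤ mp F (α - one y)) :
    ⨆ (y : X) (_ : α y ≠ 0), (V y).map (adr F y) ≤ mp F α :=
  iSup₂_le fun y hy => (Submodule.map_mono (h y)).trans
    ((map_adr_le _ y).trans_eq (congrArg (mp F) (sub_add_one hy)))

omit [Fintype X] in
theorem rig_le_Tame (F : Type) [Field F] (j m : ℕ) (α : X → ℕ) : rig_Tame F γ j m α ≤ mp F α := by
  induction m generalizing α with
  | zero => exact le_rfl
  | succ m ih =>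
    unfold rig_Tame
    split_ifs
    · exact le_rfl
    · exact pred_le_Tame fun y => ih _

theorem pred_forced_Tame (hf : ∀ j α, Forced γ j α ∨ IsTop γ α) {i : ℕ} {α : X → ℕ}
    (h : γ i α ≠ 0) {y : X} (hy : α y ≠ 0) (j : ℕ) : Forced γ j (α - one y) :=
  (hf j _).resolve_right fun ht => h (sub_add_one hy ▸ ht i y)

theorem rig_eq_Tame {F : Type} [Field F] (hf : ∀ j α, Forced γ j α ∨ IsTop γ α) {J : Chain F X}
    (hJ : J.ty = γ) (j m : ℕ) (α : X → ℕ) (hm : tot α = m) (h : Forced γ j α) :
    J.J j α = rig_Tame F γ j m α := by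
  subst hJ
  induction m generalizing α with
  | zero =>
    obtain rfl := tot_eq_zero.1 hm
    exact le_antisymm (J.le j 0) (mp_zero.trans_le bot_le)
  | succ m ih =>
    unfold rig_Tame
    split_ifs with h0
    · exact J.ty_eq_zero.1 h0
    · rw [J.forced h h0, J.low_eq]
      refine iSup_congr fun y => iSup_congr fun hy => ?_
      rw [ih _ ?_ (pred_forced_Tame hf h0 hy j)]
      rw [← sub_add_one hy, tot_add, tot_one] at hm
      exact Nat.succ.inj hm

theorem forced_kill_Tame (α : X → ℕ) {j : ℕ} {β : X → ℕ} (h : Forced γ j β) :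
    Forced (γ.kill S α) j β := by
  by_cases o : Orb S α β
  · exact .inl (kill_pos o j)
  rcases h with h | h | ⟨x, hx, h⟩
  · exact .inl ((kill_neg o j).trans h)
  · exact .inr (.inl h)
  · refine .inr (.inr ⟨x, hx, le_trans ?_ (h.trans_eq (kill_neg o j).symm)⟩)
    refine Finset.sum_le_sum fun y _ => ?_
    split_ifs
    · exact Ty.on_le _ _ _ _
    · exact le_rfl

theorem card_sigma_Tame {A B : Type} {C : A → Type} (h : ∀ a, C a = B) :
    Nat.card (Σ a, C a) = Nat.card A * Nat.card B := by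
  rw [← Nat.card_prod]
  exact Nat.card_congr
    ((Equiv.sigmaCongrRight fun a => Equiv.cast (h a)).trans (Equiv.sigmaEquivProd A B))

/-- The forced parts are defined over the integers. Sketch: define `M j α` by recursion on `tot α`
as `mp α` if `γ j α = 0` and as the supremum of `(M j (α - one y)).map (adr y)` over the letters
`y` of `α` otherwise. A predecessor of a living node is not a top node, so it is forced. -/
theorem exists_rigid (hf : ∀ j α, Forced γ j α ∨ IsTop γ α) :
    ∃ M : ℕ → (X → ℕ) → ∀ (p : ℕ) [Fact p.Prime], Submodule (ZMod p) (FL (ZMod p) X),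
      (∀ j α, IsInt (M j α)) ∧ (∀ (p : ℕ) [Fact p.Prime] j α, M j α p ≤ mp (ZMod p) α) ∧
      ∀ (p : ℕ) [Fact p.Prime] (J : Chain (ZMod p) X), J.ty = γ →
        ∀ j α, Forced γ j α → J.J j α = M j α p := by
  exact ⟨fun j α p _ => rig_Tame (ZMod p) γ j (tot α) α, fun j α => rig_int_Tame j _ α,
    fun p _ j α => rig_le_Tame _ j _ α, fun p _ J hJ j α h => rig_eq_Tame hf hJ j _ α rfl h⟩

/-- Sketch: strong induction on the cost; remove the orbit of a top node `α` (`exists_top`,
`peel_cntE`). If `γ` is not invariant the count is zero. The predecessors of `α` are forced for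
`γ.kill S α`, so `low j α` does not depend on the chain (`exists_rigid`, `Chain.low_eq`), and the
count is a product (`above_ec`). -/
theorem tameE {n : ℕ} (hn : HasCost γ n) (ht : ∀ j α, γ j α ≠ 0 → Triv S α)
    (hf : ∀ j α, Forced γ j α ∨ IsTop γ α)
    (E : ℕ → (X → ℕ) → ∀ (p : ℕ) [Fact p.Prime], Submodule (ZMod p) (FL (ZMod p) X))
    (hE : ∀ j α, IsInt (E j α)) (hle : ∀ (p : ℕ) [Fact p.Prime] j α, E j α p ≤ mp (ZMod p) α)
    (hinv : ∀ (p : ℕ) [Fact p.Prime], ∀ g ∈ S, ∀ j α, ∀ u ∈ E j α p,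
      ren (ZMod p) g u ∈ E j (push g α) p) :
    EC 1 fun p _ => cntE (ZMod p) S γ fun j α => E j α p := by
  induction n using Nat.strong_induction_on generalizing γ with
  | _ n ih =>
  by_cases h0 : γ = 0
  · subst h0
    refine (EC.const 1).congr (Ev.of_forall fun p _ => ?_)
    have e : cntE (ZMod p) S 0 (fun j α => E j α p) = cntT (ZMod p) S 0 :=
      Nat.card_congr (Equiv.subtypeEquivRight fun J => and_congr_right fun _ =>
        and_iff_left_of_imp fun hJ j α =>
          (hle p j α).trans_eq (J.ty_eq_zero.1 (congrFun₂ hJ j α)).symm)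
    rw [e, cntT_zero, Nat.cast_one]
  by_cases hi : ∀ g ∈ S, ∀ j β, γ j (push g β) = γ j β
  swap
  · refine (EC.const 0).congr (Ev.of_forall fun p _ => ?_)
    have e : cntE (ZMod p) S γ (fun j α => E j α p) = 0 :=
      Nat.card_eq_zero.2 (.inl ⟨fun J => hi (J.2.2.1 ▸ J.2.1.adm.inv)⟩)
    rw [e, Nat.cast_zero]
  obtain ⟨i, α, h1, htop, -⟩ := exists_top hn h0
  have hk : ∀ j β, γ.kill S α j β ≤ γ j β := fun j β => Ty.on_le _ _ _ _
  obtain ⟨m, hm, hc⟩ := hn.mono_lt hk
    ((kill_pos (Orb.refl S α) i).trans_lt (Nat.pos_of_ne_zero h1))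
  have hf' : ∀ j β, Forced (γ.kill S α) j β ∨ IsTop (γ.kill S α) β := fun j β =>
    (hf j β).imp (forced_kill_Tame α) fun h j y => Nat.eq_zero_of_le_zero ((hk _ _).trans_eq (h j y))
  obtain ⟨M, hM1, hM2, hM3⟩ := exists_rigid hf'
  obtain ⟨N, hN⟩ := hn.exists_bound
  have e1 := ih m hm hc (fun j β h => ht j β fun e => h (Nat.eq_zero_of_le_zero ((hk j β).trans_eq e)))
    hf'
  have e2 := above_ec α (fun j p _ =>
      (⨆ (y : X) (_ : α y ≠ 0), (M j (α - one y) p).map (adr (ZMod p) y)) ⊔ E j α p)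
    (fun j => (IsInt.iSup fun y => IsInt.iSup_prop fun _ => (hM1 j _).map_adr y).sup (hE j α))
    (fun p _ j => sup_le (pred_le_Tame fun y => hM2 p j _) (hle p j α)) (g := fun j => γ j α)
    fun j hj => hN j hj α
  refine (e1.mul e2).congr (Ev.of_forall fun p _ => ?_)
  rw [peel_cntE (ht i α h1) htop hi _ (hle p) (hinv p), ← Nat.cast_mul]
  refine congrArg Nat.cast (card_sigma_Tame fun J => ?_).symm
  refine congrArg (fun D => Above (mp (ZMod p) α) D fun j => γ j α) (funext fun j => ?_)
  rw [J.1.low_eq]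
  refine congrArg (· ⊔ E j α p) (iSup_congr fun y => iSup_congr fun hy => ?_)
  rw [hM3 p J.1 J.2.2.1 j _ (forced_kill_Tame α (pred_forced_Tame hf h1 hy j))]

theorem tame {n : ℕ} (hn : HasCost γ n) (ht : ∀ j α, γ j α ≠ 0 → Triv S α)
    (hf : ∀ j α, Forced γ j α ∨ IsTop γ α) : EC 1 fun p _ => cntT (ZMod p) S γ := by
  refine (tameE hn ht hf (fun _ _ _ _ => ⊥) (fun _ _ => IsInt.bot) (fun _ _ _ _ => bot_le)
    fun p _ g _ j α u hu => ?_).congr (Ev.of_forall fun p _ => by rw [cntE_bot])
  rw [(Submodule.mem_bot _).1 hu, map_zero]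
  exact zero_mem _

/-- One letter. -/
theorem tame_one (hX : Fintype.card X ≤ 1) {n : ℕ} (hn : HasCost γ n) :
    EC 1 fun p _ => cntT (ZMod p) ∅ γ := by
  refine tame hn (fun _ α _ => triv_empty α) fun j α => .inl (.inr (.inl ?_))
  rcases le_total (tot α) 2 with h | h
  · exact thin_of_le_two h
  · obtain ⟨β, x, -, -⟩ := tot_eq_succ (α := α) (m := tot α - 1) (by omega)
    have := Fintype.card_le_one_iff_subsingleton.1 hX
    intro F _
    rw [mp_pow F (x := x) (fun y hy => absurd (Subsingleton.elim y x) hy) h, finrank_bot]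
    exact zero_le_one

/-- The chain of cost one. -/
theorem cntT_cost_one (F : Type) [Field F] (h : Adm ∅ γ) (hn : HasCost γ 1) : cntT F ∅ γ = 1 := by
  refine Nat.card_eq_one_iff_unique.2 ⟨⟨fun J J' => Subtype.ext (Chain.ext ?_)⟩, ?_⟩
  · funext j α
    have e : J.1.ty j α = J'.1.ty j α := by rw [J.2.2, J'.2.2]
    by_cases h0 : γ j α = 0
    · rw [J.1.ty_eq_zero.1 (by rw [J.2.2, h0]), J'.1.ty_eq_zero.1 (by rw [J'.2.2, h0])]
    · exact Chain.thin_eq (thin_of_le_two ((h.tot_le hn h0).1.trans one_le_two)) e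
  · have hle : ∀ j α, (if γ j α = 0 then mp F α else ⊥) ≤ mp F α := fun j α => by
      split_ifs
      · exact le_rfl
      · exact bot_le
    refine ⟨⟨⟨fun j α => if γ j α = 0 then mp F α else ⊥, hle, fun j α => ?_, fun j α y u hu => ?_⟩,
      fun g hg => absurd hg (Set.notMem_empty g), ?_⟩⟩
    · by_cases h0 : γ j α = 0
      · rw [if_pos h0, if_pos (Nat.eq_zero_of_le_zero ((h.anti j α).trans_eq h0))]
      · rw [if_neg h0]
        exact bot_le
    · have h1 := hle j α hu
      by_cases h0 : γ j (α + one y) = 0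
      · rw [if_pos h0]
        exact lie_gen_mem F α y u h1
      · have h2 := (h.tot_le hn h0).1
        rw [tot_add, tot_one] at h2
        rw [tot_eq_zero.1 (by omega : tot α = 0), mp_zero, Submodule.mem_bot] at h1
        rw [h1, zero_lie]
        exact zero_mem _
    · funext j α
      change finrank F (mp F α) - finrank F (if γ j α = 0 then mp F α else ⊥ : Submodule F _) = _
      by_cases h0 : γ j α = 0
      · rw [if_pos h0, h0, Nat.sub_self]
      · have h2 := (h.tot_le hn h0).1
        have h3 : tot α ≠ 0 := fun e => h0 (tot_eq_zero.1 e ▸ h.zero j)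
        obtain ⟨x, rfl⟩ := tot_eq_one.1 (by omega : tot α = 1)
        have h4 := h.gen j x
        rw [if_neg h0, finrank_bot, rank_mp_one]
        omega

end Pool.Agent.P.MP_8598be_al.Z
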