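import Pool.Agent.P.MP_8598be_al.Z.Wr
import Pool.Agent.P.MP_8598be_al.Z.Tame

/-!
Chains with nodes that involve two fibres.
-/

namespace Pool.Agent.P.MP_8598be_al.Z

variable {H B : Type} {l q : ℕ} [Fintype H] [DecidableEq H] [Fintype B] [DecidableEq B] [NeZero l]
  [NeZero q]

theorem cntC_eq_cntD (hq : Odd q) (F : Type) [Field F] (c : ℕ) {n : ℕ}
    (hn : n < l * l * q + l * q) : cntC F (wreath H B l q) c n = cntD H l F B q c n := by
  exact Nat.card_congr (Equiv.subtypeEquivRight fun J => ⟨fun h => ⟨h.1, h.2.1, h.2.2,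
    fun j α hc => by_contra fun hα => (cross_cost hq h.1.adm h.2.2 hc hα).not_gt hn⟩,
    fun h => ⟨h.1, h.2.1, h.2.2.1⟩⟩)

theorem one_inj_Cross {X : Type} [DecidableEq X] {x y : X} (h : one x = one y) : x = y := by
  by_contra e
  have := congrFun h x
  simp [e] at this

/-- The pairs of letters from the two fibres. -/
def pr_Cross (z : ZMod 5 × ZMod 5) : Alph Empty (Fin 2) 5 1 → ℕ :=
  one (.inr (z.1, 0, 0)) + one (.inr (z.2, 0, 1))

theorem pr_inj_Cross : Function.Injective pr_Cross := by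
  intro z w h
  have h1 := congrFun h (.inr (z.1, 0, 0))
  have h2 := congrFun h (.inr (z.2, 0, 1))
  refine Prod.ext (by_contra fun e => ?_) (by_contra fun e => ?_)
  · simp [pr_Cross, e] at h1
  · simp [pr_Cross, e] at h2

theorem pr_tot_Cross (z : ZMod 5 × ZMod 5) : tot (pr_Cross z) = 2 := by
  rw [pr_Cross, tot_add, tot_one, tot_one]

theorem pr_push_Cross {g : Equiv.Perm (Alph Empty (Fin 2) 5 1)} {a : ZMod 1 × Fin 2 → ZMod 5}
    {t : ZMod 1} (hg : ∀ z r b, g (.inr (z, r, b)) = .inr (z + a (r, b), r + t, b))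
    (z : ZMod 5 × ZMod 5) : push g (pr_Cross z) = pr_Cross (z.1 + a (0, 0), z.2 + a (0, 1)) := by
  rw [pr_Cross, push_add, push_one, push_one, hg, hg, Subsingleton.elim (0 + t) 0]
  rfl

/-- For two fibres of length five and cost `35` the ten letters and the twenty five pairs exhaust
the cost, so all living nodes have degree at most two, and `tame` applies. -/
theorem cross_ten {γ : Ty (Alph Empty (Fin 2) 5 1)} (h : Adm (wreath Empty (Fin 2) 5 1) γ)
    (hn : HasCost γ 35) {j : ℕ} {α : Alph Empty (Fin 2) 5 1 → ℕ} (hc : Cross α)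
    (hα : γ j α ≠ 0) : EC 1 fun p _ => cntT (ZMod p) (wreath Empty (Fin 2) 5 1) γ := by
  obtain ⟨w, hw⟩ : ∃ w, γ 0 (pr_Cross w) ≠ 0 := by
    obtain ⟨β, z, z', ⟨r, b⟩, ⟨r', b'⟩, hi, h1⟩ := exists_cross_min h hc hα
    rw [Subsingleton.elim β 0, push_zero, zero_add, Subsingleton.elim r 0,
      Subsingleton.elim r' 0] at h1
    have hb : b ≠ b' := fun e => hi (Prod.ext (Subsingleton.elim _ _) e)
    have h2 := h.alive_zero h1
    fin_cases b <;> fin_cases b'
    · exact absurd rfl hb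
    · exact ⟨(z, z'), h2⟩
    · exact ⟨(z', z), by rwa [add_comm] at h2⟩
    · exact absurd rfl hb
  have hp : ∀ z, γ 0 (pr_Cross z) ≠ 0 := fun z => by
    obtain ⟨g, hg, e⟩ := exists_wreath (H := Empty)
      (fun i : ZMod 1 × Fin 2 => if i.2 = 0 then z.1 - w.1 else z.2 - w.2) 0
    have := h.inv g hg 0 (pr_Cross w)
    rw [pr_push_Cross (a := fun i => if i.2 = 0 then z.1 - w.1 else z.2 - w.2) e] at this
    simpa [← this] using hw
  have hl : ∀ x, γ 0 (one x) = 1 := by
    rintro (x | ⟨z, r, b⟩)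
    · exact x.elim
    · refine h.gen_alive (hp (z, z)) ?_
      rw [Subsingleton.elim r 0]
      fin_cases b <;> simp [pr_Cross]
  let f : Alph Empty (Fin 2) 5 1 ⊕ ZMod 5 × ZMod 5 → ℕ × (Alph Empty (Fin 2) 5 1 → ℕ) :=
    fun i => (0, Sum.elim one pr_Cross i)
  have hf : Function.Injective f := by
    rintro (x | x) (y | y) e
    · exact congrArg _ (one_inj_Cross (congrArg Prod.snd e))
    · have := congrArg (fun u => tot u.2) e
      simp [f, tot_one, pr_tot_Cross] at this
    · have := congrArg (fun u => tot u.2) e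
      simp [f, tot_one, pr_tot_Cross] at this
    · exact congrArg _ (pr_inj_Cross (congrArg Prod.snd e))
  have hs : 35 ≤ ∑ u ∈ Finset.univ.map ⟨f, hf⟩, γ u.1 u.2 := by
    have := Finset.card_nsmul_le_sum (Finset.univ.map ⟨f, hf⟩) (fun u => γ u.1 u.2) 1 (by
      intro u hu
      obtain ⟨x | x, -, rfl⟩ := Finset.mem_map.1 hu
      · exact (hl x).ge
      · exact Nat.one_le_iff_ne_zero.2 (hp x))
    simpa using this
  have key : ∀ i β, γ i β ≠ 0 → (∃ x, β = one x) ∨ ∃ z, β = pr_Cross z := fun i β hβ => by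
    obtain ⟨x | x, -, e⟩ := Finset.mem_map.1 (by_contra fun c => hβ (hn.eq_zero_of_le hs c) :
      (i, β) ∈ Finset.univ.map ⟨f, hf⟩)
    · exact Or.inl ⟨x, (congrArg Prod.snd e).symm⟩
    · exact Or.inr ⟨x, (congrArg Prod.snd e).symm⟩
  refine tame hn (fun i β hβ g hg e x hx => ?_) fun i β => Or.inl ?_
  · rcases key i β hβ with ⟨y, rfl⟩ | ⟨z, rfl⟩
    · rw [push_one] at e
      obtain rfl : x = y := by_contra fun c => hx (by simp [c])
      exact one_inj_Cross e
    · obtain ⟨-, a, t, ha⟩ := closure_wreath.1 hg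
      rw [pr_push_Cross ha] at e
      have e1 := Prod.ext_iff.1 (pr_inj_Cross e)
      by_cases c : x = .inr (z.1, 0, 0)
      · rw [c, ha, Subsingleton.elim (0 + t) 0, show z.1 + a (0, 0) = z.1 from e1.1]
      by_cases c' : x = .inr (z.2, 0, 1)
      · rw [c', ha, Subsingleton.elim (0 + t) 0, show z.2 + a (0, 1) = z.2 from e1.2]
      · exact absurd (by simp [pr_Cross, c, c']) hx
  · by_cases hβ : γ i β = 0
    · exact Or.inl hβ
    refine Or.inr (Or.inl (thin_of_le_two ?_))
    rcases key i β hβ with ⟨y, rfl⟩ | ⟨z, rfl⟩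
    · simp [tot_one]
    · exact (pr_tot_Cross z).le

theorem cntC_ten (c : ℕ) : EC 1 fun p _ => (cntC (ZMod p) (wreath Empty (Fin 2) 5 1) c 35 : ℤ) -
    cntD Empty 5 (ZMod p) (Fin 2) 1 c 35 := by
  classical
  refine (EC.sum (tys (wreath Empty (Fin 2) 5 1) c 35)
    (f := fun γ p _ => (cntT (ZMod p) (wreath Empty (Fin 2) 5 1) γ : ℤ) *
      (1 - if ∀ j α, Cross α → γ j α = 0 then 1 else 0)) fun γ hγ => ?_).congr
    (Ev.of_forall fun p _ => ?_)
  · by_cases e : ∀ j α, Cross α → γ j α = 0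
    · simp only [if_pos e, sub_self, mul_zero]
      exact EC.const 0
    · simp only [if_neg e, sub_zero, mul_one]
      push Not at e
      obtain ⟨j, α, hc, hα⟩ := e
      exact cross_ten (mem_tys.1 hγ).1 (mem_tys.1 hγ).2.2 hc hα
  · rw [← sum_chains _ c 35 (fun J => 1 - if ∀ j α, Cross α → J.ty j α = 0 then 1 else 0) _
      fun _ _ => rfl, Finset.sum_sub_distrib, cntC_eq_card, Finset.sum_boole, cntD,
      Nat.subtype_card (((chains (ZMod p) (wreath Empty (Fin 2) 5 1) c 35)).filter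
        fun J => ∀ j α, Cross α → J.ty j α = 0) fun J => by
          rw [Finset.mem_filter, mem_chains, and_assoc, and_assoc]]
    simp

end Pool.Agent.P.MP_8598be_al.Z
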