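import Pool.Agent.P.MP_8598be_al.Defs

/-!
Multigraded chains of ideals in free Lie algebras, their types, and congruences in the prime.
-/

namespace Pool.Agent.P.MP_8598be_al.Z

open Module

/-- The free Lie algebra. -/
abbrev FL (R X : Type) [CommRing R] : Type := FreeLieAlgebra R X

section Lie

variable (R : Type) [CommRing R] {X Y : Type}

/-- A generator. -/
noncomputable abbrev gen (x : X) : FL R X := FreeLieAlgebra.of R x

/-- The Lie monomial of a bracketing. -/
noncomputable def lie : FreeMagma X → FL R X
  | .of k => gen R k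
  | .mul a b => ⁅lie a, lie b⁆

/-- The unit multidegree. -/
abbrev one [DecidableEq X] (x : X) : X → ℕ := Pi.single x 1

/-- The multidegree of a bracketing. -/
def wt [DecidableEq X] : FreeMagma X → X → ℕ
  | .of k => one k
  | .mul a b => wt a + wt b

/-- The multihomogeneous part of multidegree `α`. -/
noncomputable def mp [DecidableEq X] (α : X → ℕ) : Submodule R (FL R X) :=
  Submodule.span R (lie R '' {t | wt t = α})

/-- The total degree. -/
def tot [Fintype X] (α : X → ℕ) : ℕ := ∑ y, α y

/-- The bracket with a generator on the right. -/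
noncomputable def adr (y : X) : FL R X →ₗ[R] FL R X where
  toFun u := ⁅u, gen R y⁆
  map_add' u v := add_lie u v _
  map_smul' c u := smul_lie c u _

/-- Renaming of the generators. -/
noncomputable def ren (g : X → Y) : FL R X →ₗ⁅R⁆ FL R Y :=
  FreeLieAlgebra.lift R fun x => gen R (g x)

/-- The image of a multidegree under a renaming. -/
def push [Fintype X] [DecidableEq Y] (g : X → Y) (α : X → ℕ) : Y → ℕ :=
  fun y => ∑ x, if g x = y then α x else 0

/-- Reduction of integral elements. -/
noncomputable def red : FL ℤ X →ₗ⁅ℤ⁆ FL R X :=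
  FreeLieAlgebra.lift ℤ fun x => gen R x

end Lie

/-- An ascending chain of multigraded ideals. -/
@[ext] structure Chain (F X : Type) [Field F] [DecidableEq X] where
  /-- The part of multidegree `α` of the `j`-th ideal. -/
  J : ℕ → (X → ℕ) → Submodule F (FL F X)
  le : ∀ j α, J j α ≤ mp F α
  mono : ∀ j α, J j α ≤ J (j + 1) α
  br : ∀ j α y, ∀ u ∈ J j α, ⁅u, gen F y⁆ ∈ J j (α + one y)

/-- Dimension data. -/
abbrev Ty (X : Type) : Type := ℕ → (X → ℕ) → ℕ

section Chains

variable {F X Y : Type} [Field F] [DecidableEq X] [DecidableEq Y]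

/-- The codimensions of a chain. -/
noncomputable def Chain.ty (J : Chain F X) : Ty X :=
  fun j α => finrank F (mp F α) - finrank F (J.J j α)

/-- The part of multidegree `β` that is forced by the lower parts. -/
noncomputable def Chain.low (J : Chain F X) (j : ℕ) (β : X → ℕ) : Submodule F (FL F X) :=
  ⨆ (α : X → ℕ) (y : X) (_ : α + one y = β), (J.J j α).map (adr F y)

/-- The total codimension is `n`. -/
def HasCost (γ : Ty X) (n : ℕ) : Prop :=
  ∃ s : Finset (ℕ × (X → ℕ)), (∀ j α, (j, α) ∉ s → γ j α = 0) ∧ ∑ q ∈ s, γ q.1 q.2 = n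

/-- The class is at most `c`. -/
def Cls [Fintype X] (γ : Ty X) (c : ℕ) : Prop := ∀ j α, c < tot α → γ j α = 0

/-- The part of a type supported on the multidegrees with the property `Q`. -/
noncomputable def Ty.on (γ : Ty X) (Q : (X → ℕ) → Prop) : Ty X := by
  classical
  exact fun j α => if Q α then γ j α else 0

/-- The chain is invariant under all permutations in `S`. -/
def Inv [Fintype X] (S : Set (Equiv.Perm X)) (J : Chain F X) : Prop :=
  ∀ g ∈ S, ∀ j α, ∀ u ∈ J.J j α, ren F g u ∈ J.J j (push g α)

variable (F) in
/-- The number of invariant chains of a given type. -/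
noncomputable def cntT [Fintype X] (S : Set (Equiv.Perm X)) (γ : Ty X) : ℕ :=
  Nat.card {J : Chain F X // Inv S J ∧ J.ty = γ}

variable (F) in
/-- The number of invariant chains of class at most `c` and total codimension `n`. -/
noncomputable def cntC [Fintype X] (S : Set (Equiv.Perm X)) (c n : ℕ) : ℕ :=
  Nat.card {J : Chain F X // Inv S J ∧ Cls J.ty c ∧ HasCost J.ty n}

/-- Flags in `V` above the subspaces `D j` with codimensions `g j`. -/
def Above {W : Type} [AddCommGroup W] [Module F W] (V : Submodule F W) (D : ℕ → Submodule F W)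
    (g : ℕ → ℕ) : Type :=
  {G : ℕ → Submodule F W // (∀ j, G j ≤ G (j + 1)) ∧
    ∀ j, D j ≤ G j ∧ G j ≤ V ∧ finrank F V - finrank F (G j) = g j}

/-- The type given by a list of multidegrees with lives. -/
def tyOf (l : List ((X → ℕ) × ℕ)) [Fintype X] : Ty X :=
  fun j α => l.countP fun v => decide (v.1 = α) && decide (j < v.2)

theorem push_add_one [Fintype X] (g : X → Y) (α : X → ℕ) (y : X) :
    push g (α + one y) = push g α + one (g y) := by
  funext z
  have h : ∀ x, (if g x = z then (α + one y) x else 0) =
      (if g x = z then α x else 0) + if x = y then (if g y = z then 1 else 0) else 0 := fun x => by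
    by_cases e : x = y
    · subst e
      by_cases e' : g x = z <;> simp [e']
    · by_cases e' : g x = z <;> simp [e, e']
  change ∑ x, (if g x = z then (α + one y) x else 0) = ∑ x, (if g x = z then α x else 0) + one (g y) z
  rw [Finset.sum_congr rfl fun x _ => h x, Finset.sum_add_distrib, Finset.sum_ite_eq', one,
    Pi.single_apply]
  simp only [Finset.mem_univ, if_true, eq_comm (a := z)]

theorem lie_gen_mem (R : Type) [CommRing R] (α : X → ℕ) (y : X) (u : FL R X) (hu : u ∈ mp R α) :
    ⁅u, gen R y⁆ ∈ mp R (α + one y) := by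
  induction hu using Submodule.span_induction with
  | mem x hx =>
    obtain ⟨t, ht, rfl⟩ := hx
    exact Submodule.subset_span ⟨.mul t (.of y), by rw [← show wt t = α from ht]; rfl, rfl⟩
  | zero => rw [zero_lie]; exact zero_mem _
  | add a b _ _ ha hb => rw [add_lie]; exact add_mem ha hb
  | smul c a _ ha => rw [smul_lie]; exact Submodule.smul_mem _ _ ha

/-- The pullback of a chain along a renaming. -/
noncomputable def Chain.comap [Fintype X] (J : Chain F Y) (g : X → Y) : Chain F X where
  J j α := mp F α ⊓ (J.J j (push g α)).comap (ren F g : FL F X →ₗ[F] FL F Y)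
  le _ _ := inf_le_left
  mono j _ := inf_le_inf_left _ (Submodule.comap_mono (J.mono j _))
  br j α y u hu := ⟨lie_gen_mem F α y u hu.1, by
    have h1 := J.br j _ (g y) _ hu.2
    rw [← push_add_one] at h1
    change ren F g ⁅u, gen F y⁆ ∈ J.J j (push g (α + one y))
    rw [LieHom.map_lie, ren, FreeLieAlgebra.lift_of_apply]
    exact h1⟩

/-- The pullback of a type along a renaming. -/
def Ty.comap [Fintype X] (γ : Ty Y) (g : X → Y) : Ty X := fun j α => γ j (push g α)

end Chains

section Fibres

variable (H B : Type) (l q : ℕ)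

/-- The rotation of a single fibre next to the hubs. -/
def rot1 : Equiv.Perm (H ⊕ ZMod l) := Equiv.sumCongr (Equiv.refl H) (Equiv.addRight 1)

variable {H l} in
/-- The multidegree involves a letter of the fibre. -/
def Fib (α : H ⊕ ZMod l → ℕ) : Prop := ∃ z, α (.inr z) ≠ 0

/-- The alphabet with hubs and many fibres. -/
abbrev Alph : Type := H ⊕ (ZMod l × ZMod q × B)

variable {B l q} in
/-- The inclusion of the hubs together with one fibre. -/
def emb (i : ZMod q × B) : H ⊕ ZMod l → Alph H B l q := Sum.map id fun z => (z, i)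

/-- The permutations that fix the hubs, rotate each fibre and shift the fibres. -/
def wreath : Set (Equiv.Perm (Alph H B l q)) :=
  {g | (∀ h, g (.inl h) = .inl h) ∧ ∃ (a : ZMod q × B → ZMod l) (t : ZMod q),
    ∀ z r b, g (.inr (z, r, b)) = .inr (z + a (r, b), r + t, b)}

variable {H B l q} in
/-- The multidegree involves letters of two fibres. -/
def Cross (α : Alph H B l q → ℕ) : Prop :=
  ∃ z z' i i', i ≠ i' ∧ α (.inr (z, i)) ≠ 0 ∧ α (.inr (z', i')) ≠ 0

variable {H} in
/-- The number of invariant extensions of a chain on the hubs to one fibre, by cost. -/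
noncomputable def cntN {F : Type} [Field F] [Fintype H] [DecidableEq H] [NeZero l] (c a : ℕ)
    (K : Chain F H) : ℕ :=
  Nat.card {J : Chain F (H ⊕ ZMod l) // Inv {rot1 H l} J ∧ Cls J.ty c ∧
    J.comap Sum.inl = K ∧ HasCost (J.ty.on Fib) a}

variable {H l} in
/-- The number of invariant extensions of a chain on the hubs to one fibre, by type. -/
noncomputable def cntK {F : Type} [Field F] [Fintype H] [DecidableEq H] [NeZero l]
    (γ : Ty (H ⊕ ZMod l)) (K : Chain F H) : ℕ :=
  Nat.card {J : Chain F (H ⊕ ZMod l) // Inv {rot1 H l} J ∧ J.ty = γ ∧ J.comap Sum.inl = K}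

variable {H l} in
/-- The multidegree with the given hub letters and fibre letters. -/
def md [DecidableEq H] (x : List H) (z : List (ZMod l)) : H ⊕ ZMod l → ℕ :=
  Sum.elim (fun h => x.count h) fun w => z.count w

variable {H l} in
/-- The type with all dimensions one and lives one on the translates of the listed nodes. -/
noncomputable def orbTy [DecidableEq H] (s : List (List H × List (ZMod l))) : Ty (H ⊕ ZMod l) := by
  classical
  exact fun j α => if j = 0 ∧ ∃ e ∈ s, ∃ t : ZMod l, α = md e.1 (e.2.map (· + t)) then 1 else 0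

variable {H l} in
/-- The first family of types with a parameter. -/
noncomputable def del1 [DecidableEq H] (h : H) (s : ZMod l) (e : List H × List (ZMod l)) :
    Ty (H ⊕ ZMod l) :=
  orbTy [([h], []), ([], [0]), ([h], [0]), ([], [0, s]), ([h], [0, s]), e]

variable {H l} in
/-- The second family of types with a parameter. -/
noncomputable def del2 [DecidableEq H] (o : Option H) (s : ZMod l) (e : List H × List (ZMod l)) :
    Ty (H ⊕ ZMod l) :=
  orbTy ((o.toList.map fun h => ([h], [])) ++
    [([], [0]), ([], [0, s]), ([], [0, 2 * s]), ([], [0, s, 2 * s]), e])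

end Fibres

/-- Integer functions of a prime. -/
abbrev PF : Type := ∀ (p : ℕ) [Fact p.Prime], ℤ

/-- A property holds for all large primes congruent to one modulo `L`. -/
def Ev (L : ℕ) (Q : ∀ (p : ℕ) [Fact p.Prime], Prop) : Prop :=
  ∃ N : ℕ, ∀ (p : ℕ) [Fact p.Prime], N < p → L ∣ p - 1 → Q p

/-- The function is constant modulo `p - 1` on large primes congruent to one modulo `L`. -/
def EC (L : ℕ) (f : PF) : Prop :=
  ∃ c : ℤ, Ev L fun p _ => ((p : ℤ) - 1) ∣ f p - c

/-- The function is constant modulo `l` on large primes that are congruent to one modulo `L` and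
`l`-adically close to one. -/
def Cst (L l : ℕ) (f : PF) : Prop :=
  ∃ (K : ℕ) (c : ℤ), Ev (L * l ^ K) fun p _ => (l : ℤ) ∣ f p - c

/-- The number of roots modulo `p` of an integral polynomial given by its coefficients. -/
noncomputable def roots (a : List ℤ) : PF :=
  fun p _ => Nat.card {x : ZMod p // a.foldr (fun c s => (c : ZMod p) + x * s) 0 = 0}

/-- A family of subspaces spanned by the reductions of finitely many integral elements. -/
def IsInt {X : Type} (V : ∀ (p : ℕ) [Fact p.Prime], Submodule (ZMod p) (FL (ZMod p) X)) : Prop :=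
  ∃ s : Finset (FL ℤ X), Ev 1 fun p _ => V p = Submodule.span (ZMod p) (red (ZMod p) '' s)

end Pool.Agent.P.MP_8598be_al.Z
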