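import Pool.Agent.P.MP_8598be_al.Z.Defs

/-!
Admissible types, forced nodes, orbits and the special types.
-/

namespace Pool.Agent.P.MP_8598be_al.Z

open Module

section Types

variable {X : Type} [Fintype X] [DecidableEq X]

/-- The sum of the type over the predecessors of `α` that still contain the letter `x`. -/
def below (γ : Ty X) (j : ℕ) (α : X → ℕ) (x : X) : ℕ :=
  ∑ y, if α y ≠ 0 ∧ (α - one y : X → ℕ) x ≠ 0 then γ j (α - one y) else 0

/-- The combinatorial properties of the type of an invariant chain. -/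
structure Adm (S : Set (Equiv.Perm X)) (γ : Ty X) : Prop where
  zero : ∀ j, γ j 0 = 0
  gen : ∀ j x, γ j (one x) ≤ 1
  sq : ∀ j x, γ j (one x + one x) = 0
  anti : ∀ j α, γ (j + 1) α ≤ γ j α
  bd : ∀ j α x, 2 ≤ tot α → α x ≠ 0 → γ j α ≤ below γ j α x
  inv : ∀ g ∈ S, ∀ j α, γ j (push g α) = γ j α

/-- The multihomogeneous part has dimension at most one over every field. -/
def Thin (α : X → ℕ) : Prop := ∀ (F : Type) [Field F], finrank F (mp F α) ≤ 1

/-- The part of multidegree `α` of the `j`-th ideal is determined by the lower parts. -/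
def Forced (γ : Ty X) (j : ℕ) (α : X → ℕ) : Prop :=
  γ j α = 0 ∨ Thin α ∨ ∃ x, α x ≠ 0 ∧ below γ j α x ≤ γ j α

/-- All successors of `α` are dead. -/
def IsTop (γ : Ty X) (α : X → ℕ) : Prop := ∀ j y, γ j (α + one y) = 0

/-- The two multidegrees are in the same orbit. -/
def Orb (S : Set (Equiv.Perm X)) (α β : X → ℕ) : Prop :=
  ∃ g ∈ Subgroup.closure S, push g α = β

/-- The stabiliser of `α` fixes all letters of `α`. -/
def Triv (S : Set (Equiv.Perm X)) (α : X → ℕ) : Prop :=
  ∀ g ∈ Subgroup.closure S, push g α = α → ∀ x, α x ≠ 0 → g x = x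

/-- The type with the orbit of `α` removed. -/
noncomputable def Ty.kill (γ : Ty X) (S : Set (Equiv.Perm X)) (α : X → ℕ) : Ty X :=
  γ.on fun β => ¬ Orb S α β

/-- The admissible types of class at most `c` and cost `n`. -/
noncomputable def tys (S : Set (Equiv.Perm X)) (c n : ℕ) : Finset (Ty X) := by
  classical
  exact if h : {γ : Ty X | Adm S γ ∧ Cls γ c ∧ HasCost γ n}.Finite then h.toFinset else ∅

/-- The type with all dimensions one and lives one on the orbits of the listed nodes. -/
noncomputable def oty (S : Set (Equiv.Perm X)) (s : List (X → ℕ)) : Ty X := by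
  classical
  exact fun j α => if j = 0 ∧ ∃ β ∈ s, Orb S β α then 1 else 0

variable (F : Type) [Field F]

/-- The invariant chains of class at most `c` and cost `n`. -/
noncomputable def chains (S : Set (Equiv.Perm X)) (c n : ℕ) : Finset (Chain F X) := by
  classical
  exact if h : {J : Chain F X | Inv S J ∧ Cls J.ty c ∧ HasCost J.ty n}.Finite then h.toFinset
    else ∅

/-- The number of invariant chains of a given type that contain given subspaces. -/
noncomputable def cntE (S : Set (Equiv.Perm X)) (γ : Ty X)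
    (E : ℕ → (X → ℕ) → Submodule F (FL F X)) : ℕ :=
  Nat.card {J : Chain F X // Inv S J ∧ J.ty = γ ∧ ∀ j α, E j α ≤ J.J j α}

/-- `P` is a hyperplane of the part of multidegree `α`. -/
def Hyp (α : X → ℕ) (P : Submodule F (FL F X)) : Prop :=
  P ≤ mp F α ∧ finrank F (mp F α) - finrank F P = 1

/-- The number of compatible pairs of hyperplanes at `α` and at `ε`. -/
noncomputable def cntPQ (S : Set (Equiv.Perm X)) (α ε : X → ℕ) : ℕ :=
  Nat.card {PQ : Submodule F (FL F X) × Submodule F (FL F X) //
    Hyp F α PQ.1 ∧ Hyp F ε PQ.2 ∧ ∀ β y, β + one y = ε →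
      (¬ Orb S α β → (mp F β).map (adr F y) ≤ PQ.2) ∧
      ∀ g ∈ Subgroup.closure S, push g α = β →
        (PQ.1.map (ren F g : FL F X →ₗ[F] FL F X)).map (adr F y) ≤ PQ.2}

/-- The number of pairs of hyperplanes with two dead and two living predecessors. -/
noncomputable def cnt4 (g : X → X) (α ε β₁ β₂ : X → ℕ) (y₁ y₂ y₃ y₄ : X) : ℕ :=
  Nat.card {PQ : Submodule F (FL F X) × Submodule F (FL F X) //
    Hyp F α PQ.1 ∧ Hyp F ε PQ.2 ∧ (mp F β₁).map (adr F y₁) ≤ PQ.2 ∧
      (mp F β₂).map (adr F y₂) ≤ PQ.2 ∧ PQ.1.map (adr F y₃) ≤ PQ.2 ∧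
      (PQ.1.map (ren F g : FL F X →ₗ[F] FL F X)).map (adr F y₄) ≤ PQ.2}

end Types

section Fibres

variable {H : Type} {l : ℕ} [Fintype H] [DecidableEq H] [NeZero l]

/-- The multidegree of a hub letter. -/
abbrev hb (l : ℕ) (h : H) : H ⊕ ZMod l → ℕ := one (.inl h)

/-- The multidegree of a fibre letter. -/
abbrev fb (H : Type) [DecidableEq H] (z : ZMod l) : H ⊕ ZMod l → ℕ := one (.inr z)

/-- The translate of a multidegree. -/
def sh (t : ZMod l) (α : H ⊕ ZMod l → ℕ) : H ⊕ ZMod l → ℕ :=
  fun x => α (Sum.map id (fun z => z - t) x)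

/-- The number of fibre letters. -/
def fdeg (α : H ⊕ ZMod l → ℕ) : ℕ := ∑ z, α (.inr z)

/-- A multidegree with fibre letters that is fixed by the rotation. -/
def Sym (α : H ⊕ ZMod l → ℕ) : Prop := Fib α ∧ sh 1 α = α

/-- A multidegree with hub letters and fibre letters. -/
def Mixed (α : H ⊕ ZMod l → ℕ) : Prop := Fib α ∧ ∃ h, α (.inl h) ≠ 0

/-- The type with the hub part of degree larger than three removed. -/
noncomputable def trunc (γ : Ty (H ⊕ ZMod l)) : Ty (H ⊕ ZMod l) :=
  γ.on fun β => Fib β ∨ tot β ≤ 3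

/-- The first family of types with a parameter. -/
noncomputable def dl1 (h : H) (s : ZMod l) (ε : H ⊕ ZMod l → ℕ) : Ty (H ⊕ ZMod l) :=
  oty {rot1 H l} [hb l h, fb H 0, hb l h + fb H 0, fb H 0 + fb H s, hb l h + fb H 0 + fb H s, ε]

/-- The second family of types with a parameter. -/
noncomputable def dl2 (o : Option H) (s : ZMod l) (ε : H ⊕ ZMod l → ℕ) : Ty (H ⊕ ZMod l) :=
  oty {rot1 H l} (o.toList.map (hb l) ++
    [fb H 0, fb H 0 + fb H s, fb H 0 + fb H (2 * s), fb H 0 + fb H s + fb H (2 * s), ε])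

/-- The exotic types. -/
noncomputable def sp (h : H) (s : ZMod l) : Ty (H ⊕ ZMod l) :=
  dl1 h s (hb l h + fb H 0 + fb H s + fb H (2 * s))

/-- The type is exotic. -/
def IsSp (γ : Ty (H ⊕ ZMod l)) : Prop := ∃ h s, s ≠ 0 ∧ γ = sp h s

variable (l) in
/-- The number of exotic types over a given type on the hubs. -/
noncomputable def nsp (κ : Ty H) : ℕ :=
  Nat.card {γ : Ty (H ⊕ ZMod l) // IsSp γ ∧ γ.comap Sum.inl = κ}

variable (l) in
/-- The number of extensions of a chain on the hubs depends only on the type `κ` of the chain and is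
`e` up to a function that is constant modulo `p - 1`. -/
def Desc (c a : ℕ) (κ : Ty H) (e : PF) : Prop :=
  ∃ ν : PF, EC l (fun p _ => ν p - e p) ∧
    Ev l fun p _ => ∀ K : Chain (ZMod p) H, K.ty = κ → (cntN l c a K : ℤ) = ν p

variable (l) in
/-- The types on a single fibre of length five with small cost are tame. -/
def PureHyp : Prop :=
  ∀ (γ : Ty (ZMod l)) (a : ℕ), l = 5 → a ≤ 26 → HasCost γ a →
    EC l fun p _ => cntT (ZMod p) {Equiv.addRight (1 : ZMod l)} γ

variable (H l) in
/-- The number of invariant chains without nodes that involve two fibres. -/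
noncomputable def cntD (F : Type) [Field F] (B : Type) [Fintype B] [DecidableEq B] (q : ℕ)
    [NeZero q] (c n : ℕ) : ℕ :=
  Nat.card {J : Chain F (Alph H B l q) // Inv (wreath H B l q) J ∧ Cls J.ty c ∧
    HasCost J.ty n ∧ ∀ j α, Cross α → J.ty j α = 0}

end Fibres

/-- The distributions of the cost among the fibres. -/
def dist (B : Type) [Fintype B] [DecidableEq B] (q k n : ℕ) : Finset (B → ℕ) :=
  (Fintype.piFinset fun _ : B => Finset.range (n + 1)).filter fun a => k + q * ∑ b, a b = n

/-- The function takes values that are incongruent modulo `l` at two large primes that are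
congruent to one modulo `L` and `l`-adically close to one. -/
def Sep (L l : ℕ) (g : PF) : Prop :=
  ∀ K N : ℕ, ∃ (p p' : ℕ) (_ : Fact p.Prime) (_ : Fact p'.Prime), N < p ∧ N < p' ∧
    L * l ^ K ∣ p - 1 ∧ L * l ^ K ∣ p' - 1 ∧ ¬ (l : ℤ) ∣ g p - g p'

/-- The number of square roots of `D`. -/
noncomputable def sq2 (D : ℤ) : PF := roots [-D, 0, 1]

end Pool.Agent.P.MP_8598be_al.Z
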