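import Pool.Agent.P.MP_8598be_al.Z.Defs

/-!
Pairs of a line in a plane and a hyperplane.
-/

namespace Pool.Agent.P.MP_8598be_al.Z

open Module

theorem codim_Pencil {F M : Type} [Field F] [AddCommGroup M] [Module F M] {W : Submodule F M}
    [Module.Finite F W] (g : M →ₗ[F] F) {x : M} (hx : x ∈ W) (hg : g x ≠ 0) :
    finrank F W - finrank F (W ⊓ LinearMap.ker g : Submodule F M) = 1 := by
  have h1 := (g.domRestrict W).finrank_range_add_finrank_ker
  have h2 : LinearMap.range (g.domRestrict W) = ⊤ := by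
    refine eq_top_iff.2 fun c _ => ⟨(c / g x) • ⟨x, hx⟩, ?_⟩
    rw [map_smul, LinearMap.domRestrict_apply, smul_eq_mul, div_mul_cancel₀ _ hg]
  rw [h2, finrank_top, finrank_self, LinearMap.ker_domRestrict,
    ← Submodule.finrank_map_subtype_eq, Submodule.map_comap_subtype] at h1
  omega

theorem line_Pencil {F M : Type} [Field F] [AddCommGroup M] [Module F M] {P : Submodule F M}
    {u v : M} (hP : P ≤ Submodule.span F {u, v}) (h1 : finrank F P = 1) :
    ∃ t : Option F, P = Submodule.span F {t.elim u fun t => t • u + v} := by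
  obtain ⟨x, hx, hx'⟩ := finrank_eq_one_iff'.1 h1
  have hPx : P = Submodule.span F {(x : M)} := by
    refine le_antisymm (fun y hy => ?_) (Submodule.span_le.2 (Set.singleton_subset_iff.2 x.2))
    obtain ⟨c, hc⟩ := hx' ⟨y, hy⟩
    exact Submodule.mem_span_singleton.2 ⟨c, congrArg Subtype.val hc⟩
  obtain ⟨a, b, hab⟩ := Submodule.mem_span_pair.1 (hP x.2)
  have hx0 : (x : M) ≠ 0 := fun h => hx (Subtype.ext h)
  by_cases hb : b = 0
  · have ha : a ≠ 0 := by
      rintro rfl
      rw [hb, zero_smul, zero_smul, add_zero] at hab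
      exact hx0 hab.symm
    refine ⟨none, ?_⟩
    rw [hPx, ← hab, hb, zero_smul, add_zero, Submodule.span_singleton_smul_eq ha.isUnit]
    rfl
  · refine ⟨some (a / b), ?_⟩
    have e : a • u + b • v = b • ((a / b) • u + v) := by
      rw [smul_add, smul_smul, mul_div_cancel₀ _ hb]
    rw [hPx, ← hab, e, Submodule.span_singleton_smul_eq (IsUnit.mk0 b hb)]
    rfl

/-- Pairs of a line in the plane and a hyperplane: `V` has the basis `u, v`; the quotient of `W` by
`D` is a plane with coordinates `f₁, f₂`. -/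
theorem pencil {F M : Type} [Field F] [AddCommGroup M] [Module F M] {V W D : Submodule F M}
    {u v : M} (hV : V = Submodule.span F {u, v}) (hr : finrank F V = 2) [Module.Finite F W]
    (f₁ f₂ : M →ₗ[F] F) (hD : D = W ⊓ LinearMap.ker f₁ ⊓ LinearMap.ker f₂)
    (A B : M →ₗ[F] M) (hA : V.map A ≤ W) (hB : V.map B ≤ W)
    (hdet : f₁ (A u) * f₂ (A v) - f₁ (A v) * f₂ (A u) ≠ 0) :
    Nat.card {PQ : Submodule F M × Submodule F M //
      (PQ.1 ≤ V ∧ finrank F V - finrank F PQ.1 = 1) ∧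
      (PQ.2 ≤ W ∧ finrank F W - finrank F PQ.2 = 1) ∧ D ≤ PQ.2 ∧ PQ.1.map A ≤ PQ.2 ∧
      PQ.1.map B ≤ PQ.2} =
    Nat.card {t : Option F // t.elim (f₁ (A u) * f₂ (B u) - f₂ (A u) * f₁ (B u) = 0) fun t =>
      f₁ (A (t • u + v)) * f₂ (B (t • u + v)) - f₂ (A (t • u + v)) * f₁ (B (t • u + v)) = 0} := by
  obtain ⟨w, hw⟩ : ∃ w : Option F → M, w = fun t => t.elim u fun t => t • u + v := ⟨_, rfl⟩
  obtain ⟨g, hg⟩ : ∃ g : M → M →ₗ[F] F, g = fun x => f₁ (A x) • f₂ - f₂ (A x) • f₁ := ⟨_, rfl⟩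
  have hg' : ∀ x y, g x y = f₁ (A x) * f₂ y - f₂ (A x) * f₁ y := fun x y => by
    rw [hg]
    rfl
  have hu : u ∈ V := hV ▸ Submodule.subset_span (Set.mem_insert _ _)
  have hv : v ∈ V := hV ▸ Submodule.subset_span (Set.mem_insert_of_mem _ rfl)
  have hwV : ∀ t, w t ∈ V := by
    rintro (_ | t)
    · rw [hw]
      exact hu
    · rw [hw]
      exact add_mem (V.smul_mem t hu) hv
  have hAW : ∀ x ∈ V, A x ∈ W := fun x hx => hA ⟨x, hx, rfl⟩
  have hBW : ∀ x ∈ V, B x ∈ W := fun x hx => hB ⟨x, hx, rfl⟩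
  have hinj : ∀ t t', g (w t) (A (w t')) = 0 → t = t' := by
    rintro (_ | t) (_ | t') h
    · rfl
    · refine absurd ?_ hdet
      simp only [hg', hw, Option.elim, map_add, map_smul, smul_eq_mul] at h
      linear_combination h
    · refine absurd ?_ hdet
      simp only [hg', hw, Option.elim, map_add, map_smul, smul_eq_mul] at h
      linear_combination -h
    · simp only [hg', hw, Option.elim, map_add, map_smul, smul_eq_mul] at h
      have h1 : (t - t') * (f₁ (A u) * f₂ (A v) - f₁ (A v) * f₂ (A u)) = 0 := by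
        linear_combination h
      rw [sub_eq_zero.1 ((mul_eq_zero.1 h1).resolve_right hdet)]
  have hne : ∀ t, ∃ t', g (w t) (A (w t')) ≠ 0 := by
    rintro (_ | t)
    · exact ⟨some 0, fun h => absurd (hinj _ _ h) (by simp)⟩
    · exact ⟨none, fun h => absurd (hinj _ _ h) (by simp)⟩
  have hself : ∀ x, g x (A x) = 0 := fun x => by
    rw [hg']
    ring
  have hcod : ∀ t, finrank F W - finrank F (W ⊓ LinearMap.ker (g (w t)) : Submodule F M) = 1 :=
    fun t => by
      obtain ⟨t', ht'⟩ := hne t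
      exact codim_Pencil _ (hAW _ (hwV t')) ht'
  have hw0 : ∀ t, w t ≠ 0 := fun t h => by
    obtain ⟨t', ht'⟩ := hne t
    refine ht' ?_
    rw [hg', h, map_zero, map_zero, map_zero, zero_mul, zero_mul, sub_zero]
  have hcond : ∀ t : Option F, (t.elim (f₁ (A u) * f₂ (B u) - f₂ (A u) * f₁ (B u) = 0) fun t =>
      f₁ (A (t • u + v)) * f₂ (B (t • u + v)) - f₂ (A (t • u + v)) * f₁ (B (t • u + v)) = 0) ↔
      g (w t) (B (w t)) = 0 := by
    rintro (_ | t) <;> rw [hg', hw] <;> exact Iff.rfl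
  have hmap : ∀ (C : M →ₗ[F] M) (x : M) (Q : Submodule F M),
      (Submodule.span F {x}).map C ≤ Q ↔ C x ∈ Q := fun C x Q => by
    rw [Submodule.map_span, Set.image_singleton, Submodule.span_le, Set.singleton_subset_iff]
    exact Iff.rfl
  symm
  refine Nat.card_eq_of_bijective (fun t => ⟨(Submodule.span F {w t.1},
    W ⊓ LinearMap.ker (g (w t.1))), ⟨?_, ?_⟩, ⟨inf_le_left, hcod t.1⟩, ?_, ?_, ?_⟩) ⟨?_, ?_⟩
  · exact Submodule.span_le.2 (Set.singleton_subset_iff.2 (hwV _))
  · rw [hr, finrank_span_singleton (hw0 _)]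
  · intro x hx
    rw [hD] at hx
    refine ⟨hx.1.1, ?_⟩
    change g (w t.1) x = 0
    rw [hg', show f₁ x = 0 from hx.1.2, show f₂ x = 0 from hx.2, mul_zero, mul_zero, sub_zero]
  · exact (hmap _ _ _).2 ⟨hAW _ (hwV _), hself _⟩
  · exact (hmap _ _ _).2 ⟨hBW _ (hwV _), (hcond _).1 t.2⟩
  · intro t t' h
    have h1 : Submodule.span F {w t.1} = Submodule.span F {w t'.1} :=
      congrArg (fun z => z.1.1) h
    obtain ⟨c, hc⟩ := Submodule.mem_span_singleton.1
      (h1.symm ▸ Submodule.mem_span_singleton_self (w t'.1))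
    refine Subtype.ext (hinj _ _ ?_)
    rw [← hc, map_smul, map_smul, hself, smul_zero]
  · rintro ⟨⟨P, Q⟩, ⟨hPV, hP⟩, ⟨hQW, hQ⟩, hDQ, hAQ, hBQ⟩
    dsimp only at hPV hP hQW hQ hDQ hAQ hBQ
    obtain ⟨t, ht⟩ := line_Pencil (hV ▸ hPV) (show finrank F P = 1 by omega)
    have ht' : P = Submodule.span F {w t} := by rw [ht, hw]
    subst ht'
    have hAx := (hmap _ _ _).1 hAQ
    have hle : W ⊓ LinearMap.ker (g (w t)) ≤ Q := by
      rintro x ⟨hxW, hx⟩
      have hx' : f₁ (A (w t)) * f₂ x - f₂ (A (w t)) * f₁ x = 0 := (hg' _ _).symm.trans hx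
      have hc : ∃ c : F, f₁ x = c * f₁ (A (w t)) ∧ f₂ x = c * f₂ (A (w t)) := by
        by_cases h1 : f₁ (A (w t)) = 0
        · have h2 : f₂ (A (w t)) ≠ 0 := fun h2 => by
            obtain ⟨t', ht'⟩ := hne t
            refine ht' ?_
            rw [hg', h1, h2, zero_mul, zero_mul, sub_zero]
          refine ⟨f₂ x / f₂ (A (w t)), ?_, (div_mul_cancel₀ _ h2).symm⟩
          rw [h1, zero_mul, zero_sub, neg_eq_zero] at hx'
          rw [h1, mul_zero, (mul_eq_zero.1 hx').resolve_left h2]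
        · refine ⟨f₁ x / f₁ (A (w t)), (div_mul_cancel₀ _ h1).symm, ?_⟩
          field_simp
          linear_combination hx'
      obtain ⟨c, h1, h2⟩ := hc
      have hm : x - c • A (w t) ∈ D := by
        rw [hD]
        refine ⟨⟨W.sub_mem hxW (W.smul_mem c (hAW _ (hwV t))), ?_⟩, ?_⟩
        · change f₁ (x - c • A (w t)) = 0
          rw [map_sub, map_smul, smul_eq_mul, h1, sub_self]
        · change f₂ (x - c • A (w t)) = 0
          rw [map_sub, map_smul, smul_eq_mul, h2, sub_self]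
      have h3 := Q.add_mem (hDQ hm) (Q.smul_mem c hAx)
      rwa [sub_add_cancel] at h3
    have hfin : Module.Finite F Q := Submodule.finiteDimensional_of_le hQW
    have hQe : W ⊓ LinearMap.ker (g (w t)) = Q := by
      refine Submodule.eq_of_le_of_finrank_eq hle ?_
      have h1 := hcod t
      omega
    refine ⟨⟨t, (hcond t).2 ?_⟩, Subtype.ext (Prod.ext rfl hQe)⟩
    have h4 := (hmap _ _ _).1 hBQ
    rw [← hQe] at h4
    exact h4.2

end Pool.Agent.P.MP_8598be_al.Z
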