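import Pool.Agent.P.MP_8598be_al.Z.Co
import Pool.Agent.P.MP_8598be_al.Z.Pencil

/-!
Two explicit counts.
-/

namespace Pool.Agent.P.MP_8598be_al.Z

open Module

variable {X : Type} [Fintype X] [DecidableEq X]

omit [Fintype X] in
theorem exists_co_Sp (F : Type) [Field F] : ∃ co : List X → FL F X →ₗ[F] F,
    (∀ p x, co [p] (gen F x) = if p = x then 1 else 0) ∧
    (∀ p q u z, co [p, q] ⁅u, gen F z⁆ =
      (if q = z then co [p] u else 0) - if p = z then co [q] u else 0) ∧
    (∀ p q r u z, co [p, q, r] ⁅u, gen F z⁆ =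
      (if r = z then co [p, q] u else 0) - if p = z then co [q, r] u else 0) ∧
    ∀ p q r s u z, co [p, q, r, s] ⁅u, gen F z⁆ =
      (if s = z then co [p, q, r] u else 0) - if p = z then co [q, r, s] u else 0 := by
  obtain ⟨co, h1, h2⟩ := exists_co F X
  refine ⟨co, fun p x => by simp [h1], fun p q u z => ?_, fun p q r u z => ?_,
    fun p q r s u z => ?_⟩
  all_goals
    simp [h1, h2, Finset.sum_range_succ]

theorem card_option_Sp {F : Type} {P : Prop} {Q Q' : F → Prop} (h : ¬ P) (e : ∀ t, Q t ↔ Q' t) :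
    Nat.card {t : Option F // t.elim P Q} = Nat.card {t : F // Q' t} := by
  refine (Nat.card_eq_of_bijective (fun t : {t : F // Q' t} =>
    (⟨some t.1, (e _).2 t.2⟩ : {t : Option F // t.elim P Q})) ⟨fun s t h => ?_, ?_⟩).symm
  · exact Subtype.ext (Option.some.inj (congrArg Subtype.val h))
  · rintro ⟨_ | t, ht⟩
    · exact absurd ht h
    · exact ⟨⟨t, (e _).1 ht⟩, rfl⟩

theorem cnt4_eq_Sp (F : Type) [Field F] {a x y z w : X} (hd : [a, x, y, z].Nodup) {g : X → X}
    {α ε β₁ β₂ : X → ℕ} (hα : α = one a + one x + one y) (hε : ε = one a + one x + one y + one z)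
    (h₁ : β₁ = one a + one x + one z) (h₂ : β₂ = one a + one y + one z)
    (hg : push g α + one w = ε) {co : List X → FL F X →ₗ[F] F}
    (c1 : ∀ p x, co [p] (gen F x) = if p = x then 1 else 0)
    (c2 : ∀ p q u z, co [p, q] ⁅u, gen F z⁆ =
      (if q = z then co [p] u else 0) - if p = z then co [q] u else 0)
    (c3 : ∀ p q r u z, co [p, q, r] ⁅u, gen F z⁆ =
      (if r = z then co [p, q] u else 0) - if p = z then co [q, r] u else 0)
    (c4 : ∀ p q r s u z, co [p, q, r, s] ⁅u, gen F z⁆ =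
      (if s = z then co [p, q, r] u else 0) - if p = z then co [q, r, s] u else 0)
    {m n m' n' : F}
    (e1 : co [a, x, y, z] ⁅⁅⁅gen F (g a), gen F (g x)⁆, gen F (g y)⁆, gen F w⁆ = m)
    (e2 : co [a, y, x, z] ⁅⁅⁅gen F (g a), gen F (g x)⁆, gen F (g y)⁆, gen F w⁆ = n)
    (e3 : co [a, x, y, z] ⁅⁅⁅gen F (g a), gen F (g y)⁆, gen F (g x)⁆, gen F w⁆ = m')
    (e4 : co [a, y, x, z] ⁅⁅⁅gen F (g a), gen F (g y)⁆, gen F (g x)⁆, gen F w⁆ = n')
    (hn : n ≠ 0) :
    cnt4 F g α ε β₁ β₂ y x z w = Nat.card {t : F // t * (t * n + n') - (t * m + m') = 0} := by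
  simp only [List.nodup_cons, List.mem_cons, List.not_mem_nil, or_false, not_or] at hd
  obtain ⟨⟨ax, ay, az⟩, ⟨xy, xz⟩, yz, -⟩ := hd
  have xa := Ne.symm ax
  have ya := Ne.symm ay
  have za := Ne.symm az
  have yx := Ne.symm xy
  have zx := Ne.symm xz
  have zy := Ne.symm yz
  have ad : ∀ (y : X) (u : FL F X), adr F y u = ⁅u, gen F y⁆ := fun _ _ => rfl
  have hV := mp_triple F ax ay
  have v1 : co [a, x, y, z] (adr F z ⁅⁅gen F a, gen F x⁆, gen F y⁆) = 1 := by simp [*, -lie_lie]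
  have v2 : co [a, y, x, z] (adr F z ⁅⁅gen F a, gen F x⁆, gen F y⁆) = 0 := by simp [*, -lie_lie]
  have v3 : co [a, x, y, z] (adr F z ⁅⁅gen F a, gen F y⁆, gen F x⁆) = 0 := by simp [*, -lie_lie]
  have v4 : co [a, y, x, z] (adr F z ⁅⁅gen F a, gen F y⁆, gen F x⁆) = 1 := by simp [*, -lie_lie]
  have d1 : β₁ + one y = ε := by
    rw [h₁, hε]
    abel
  have d2 : β₂ + one x = ε := by
    rw [h₂, hε]
    abel
  have hk : (mp F β₁).map (adr F y) ⊔ (mp F β₂).map (adr F x) ≤
      LinearMap.ker (co [a, x, y, z]) ⊓ LinearMap.ker (co [a, y, x, z]) := by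
    rw [h₁, h₂, mp_triple F ax az, mp_triple F ay az, Submodule.map_span, Submodule.map_span,
      ← Submodule.span_union, Submodule.span_le]
    rintro _ (⟨_, rfl | rfl, rfl⟩ | ⟨_, rfl | rfl, rfl⟩) <;> simp [*, -lie_lie]
  have hW : mp F ε ≤ ((mp F β₁).map (adr F y) ⊔ (mp F β₂).map (adr F x)) ⊔
      (mp F α).map (adr F z) := by
    rw [mp_start (x := a) (by simp [*, -lie_lie]) (by simp [hε, tot_add, tot_one])]
    refine iSup₂_le fun s hs => ?_
    by_cases s1 : s = y
    · rw [s1, ← d1, add_sub_one]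
      exact le_sup_left.trans le_sup_left
    by_cases s2 : s = x
    · rw [s2, ← d2, add_sub_one]
      exact le_sup_right.trans le_sup_left
    by_cases s3 : s = z
    · rw [s3, hε, add_sub_one, hα]
      exact le_sup_right
    by_cases s4 : s = a
    · exact absurd (by simp [*, -lie_lie]) hs.2
    · exact absurd (by simp [*, -lie_lie]) hs.1
  have hD : (mp F β₁).map (adr F y) ⊔ (mp F β₂).map (adr F x) =
      mp F ε ⊓ LinearMap.ker (co [a, x, y, z]) ⊓ LinearMap.ker (co [a, y, x, z]) := by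
    refine le_antisymm ?_ fun u hu => ?_
    · rw [inf_assoc]
      exact le_inf (sup_le (d1 ▸ map_adr_le _ _) (d2 ▸ map_adr_le _ _)) hk
    · obtain ⟨d, hd, _, ⟨v, hv, rfl⟩, rfl⟩ := Submodule.mem_sup.1 (hW hu.1.1)
      rw [hα, hV] at hv
      obtain ⟨s, t, rfl⟩ := Submodule.mem_span_pair.1 hv
      have a1 : co [a, x, y, z] d = 0 := (hk hd).1
      have a2 : co [a, y, x, z] d = 0 := (hk hd).2
      have b1 := LinearMap.mem_ker.1 hu.1.2
      have b2 := LinearMap.mem_ker.1 hu.2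
      simp only [map_add, map_smul, a1, a2, v1, v2, v3, v4, smul_eq_mul, mul_one, mul_zero,
        zero_add, add_zero] at b1 b2
      simpa [b1, b2] using hd
  have rn : ∀ p q r : X, (adr F w ∘ₗ (ren F g : FL F X →ₗ[F] FL F X))
      ⁅⁅gen F p, gen F q⁆, gen F r⁆ = ⁅⁅⁅gen F (g p), gen F (g q)⁆, gen F (g r)⁆, gen F w⁆ := by
    intro p q r
    change ⁅ren F g _, _⁆ = _
    rw [LieHom.map_lie, LieHom.map_lie, ren_gen, ren_gen, ren_gen]
  have key := pencil (V := mp F α) (W := mp F ε) (hα ▸ hV) (hα ▸ rank_mp_triple F ax ay xy) _ _ hD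
    (adr F z) (adr F w ∘ₗ (ren F g : FL F X →ₗ[F] FL F X)) (by
      rw [hε, ← hα]
      exact map_adr_le _ _) (by
      rintro _ ⟨u, hu, rfl⟩
      exact hg ▸ lie_gen_mem F _ w _ (ren_mem g hu)) (by rw [v1, v2, v3, v4]; simp)
  simp only [sup_le_iff, and_assoc, Submodule.map_comp] at key
  simp only [cnt4, Hyp, and_assoc]
  refine key.trans (card_option_Sp ?_ fun t => ?_)
  · simp only [rn, e1, e2, v1, v2]
    simpa using hn
  · simp only [map_add, map_smul, rn, e1, e2, e3, e4, v1, v2, v3, v4, smul_eq_mul, mul_one,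
      mul_zero, zero_add, add_zero, one_mul]

/-- Take `u = ⁅⁅a, h⁆, b⁆`, `v = ⁅⁅a, b⁆, h⁆` and the coefficients of the words `a h b c` and
`a b h c` (`exists_co`, `mp_triple`, `mp_start` with the letter `a`). The values are
`A u = (1, 0)`, `A v = (0, 1)`, `B u = (1, -1)`, `B v = (1, 0)`; the condition is
`t ^ 2 + t + 1 = 0`. -/
theorem cnt4_one (p : ℕ) [Fact p.Prime] {a h b c : X} (hd : [a, h, b, c].Nodup) {g : X → X}
    (gh : g h = h) (ga : g a = b) (gb : g b = c) :
    (cnt4 (ZMod p) g (one h + one a + one b) (one h + one a + one b + one c)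
      (one h + one a + one c) (one a + one b + one c) b h c a : ℤ) = roots [1, 1, 1] p := by
  obtain ⟨co, c1, c2, c3, c4⟩ := exists_co_Sp (X := X) (ZMod p)
  have hd' := hd
  simp only [List.nodup_cons, List.mem_cons, List.not_mem_nil, or_false, not_or] at hd'
  obtain ⟨⟨ax, ay, az⟩, ⟨xy, xz⟩, yz, -⟩ := hd'
  have xa := Ne.symm ax
  have ya := Ne.symm ay
  have za := Ne.symm az
  have yx := Ne.symm xy
  have zx := Ne.symm xz
  have zy := Ne.symm yz
  rw [cnt4_eq_Sp (ZMod p) hd (by abel) (by abel) (by abel) rfl (by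
      simp only [push_add, push_one, gh, ga, gb]
      abel) c1 c2 c3 c4 (m := 1) (n := -1) (m' := 1) (n' := 0) (by simp [*, -lie_lie]) (by simp [*, -lie_lie])
    (by simp [*, -lie_lie]) (by simp [*, -lie_lie]) (by simp), roots]
  refine congrArg _ (Nat.card_congr (Equiv.subtypeEquivRight fun t => ?_))
  change _ ↔ ((1 : ℤ) : ZMod p) + t * (((1 : ℤ) : ZMod p) + t * (((1 : ℤ) : ZMod p) + t * 0)) = 0
  rw [Int.cast_one]
  constructor <;> intro h <;> linear_combination -h

/-- Take `u = ⁅⁅a, b⁆, c⁆`, `v = ⁅⁅a, c⁆, b⁆` and the coefficients of the words `a b c d` and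
`a c b d`. The values are `A u = (1, 0)`, `A v = (0, 1)`, `B u = (-1, 1)`, `B v = (0, 1)`; the
condition is `t (t + 2) = 0`. -/
theorem cnt4_two (p : ℕ) [Fact p.Prime] (h2 : p ≠ 2) {a b c d : X} (hd : [a, b, c, d].Nodup)
    {g : X → X} (ga : g a = b) (gb : g b = c) (gc : g c = d) :
    cnt4 (ZMod p) g (one a + one b + one c) (one a + one b + one c + one d)
      (one a + one b + one d) (one a + one c + one d) c b d a = 2 := by
  obtain ⟨co, c1, c2, c3, c4⟩ := exists_co_Sp (X := X) (ZMod p)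
  have hd' := hd
  simp only [List.nodup_cons, List.mem_cons, List.not_mem_nil, or_false, not_or] at hd'
  obtain ⟨⟨ax, ay, az⟩, ⟨xy, xz⟩, yz, -⟩ := hd'
  have xa := Ne.symm ax
  have ya := Ne.symm ay
  have za := Ne.symm az
  have yx := Ne.symm xy
  have zx := Ne.symm xz
  have zy := Ne.symm yz
  have h3 : (0 : ZMod p) ≠ -2 := fun h => h2 ((Nat.prime_dvd_prime_iff_eq Fact.out
    Nat.prime_two).1 ((ZMod.natCast_eq_zero_iff 2 p).1 (by
      push_cast
      linear_combination h)))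
  rw [cnt4_eq_Sp (ZMod p) hd rfl rfl rfl rfl (by
      simp only [push_add, push_one, ga, gb, gc]
      abel) c1 c2 c3 c4 (m := -1) (n := 1) (m' := 0) (n' := 1) (by simp [*, -lie_lie]) (by simp [*, -lie_lie])
    (by simp [*, -lie_lie]) (by simp [*, -lie_lie]) (by simp), ← Finset.card_pair h3]
  refine Nat.subtype_card _ fun t => ?_
  rw [Finset.mem_insert, Finset.mem_singleton, ← add_eq_zero_iff_eq_neg, ← mul_eq_zero]
  constructor <;> intro h <;> linear_combination h

end Pool.Agent.P.MP_8598be_al.Z
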