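import Pool.Agent.P.MP_8598be_al.Z.Peel
import Pool.Agent.P.MP_8598be_al.Z.Above
import Pool.Agent.P.MP_8598be_al.Z.Co

/-!
Types with one free parameter in degree three and one further orbit in degree four.
-/

namespace Pool.Agent.P.MP_8598be_al.Z

open Module

variable {X : Type} [Fintype X] [DecidableEq X] {S : Set (Equiv.Perm X)} {γ : Ty X} {α ε : X → ℕ}

section Aux

variable {F : Type} [Field F]

theorem push_mul_two (g g' : Equiv.Perm X) (β : X → ℕ) :
    push (g * g' : Equiv.Perm X) β = push g (push g' β) := (push_comp g' g β).symm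

theorem push_one_two (β : X → ℕ) : push (1 : Equiv.Perm X) β = β := push_id β

omit [Fintype X] [DecidableEq X] in
theorem ren_mul_two (g g' : Equiv.Perm X) (u : FL F X) :
    ren F (g * g' : Equiv.Perm X) u = ren F g (ren F g' u) := (ren_ren g' g u).symm

omit [Fintype X] [DecidableEq X] in
theorem ren_one_two (u : FL F X) : ren F (1 : Equiv.Perm X) u = u := ren_id u

omit [Fintype X] [DecidableEq X] in
theorem map_one_two (P : Submodule F (FL F X)) :
    P.map (ren F (1 : Equiv.Perm X) : FL F X →ₗ[F] FL F X) = P := by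
  ext u
  constructor
  · rintro ⟨v, hv, rfl⟩
    exact (ren_one_two v).symm ▸ hv
  · exact fun hu => ⟨u, hu, ren_one_two u⟩

theorem triv_map_two (hT : Triv S α) {g g' : Equiv.Perm X} (hg : g ∈ Subgroup.closure S)
    (hg' : g' ∈ Subgroup.closure S) (e : push g α = push g' α) {P : Submodule F (FL F X)}
    (hP : P ≤ mp F α) :
    P.map (ren F g : FL F X →ₗ[F] FL F X) = P.map (ren F g' : FL F X →ₗ[F] FL F X) := by
  have h := hT (g'⁻¹ * g) (mul_mem (inv_mem hg') hg) (by
    rw [push_mul_two, e, ← push_mul_two, inv_mul_cancel, push_one_two])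
  have h2 : ∀ u ∈ P, ren F g u = ren F g' u := fun u hu =>
    ren_congr (fun x hx => by
      have := h x hx
      rwa [Equiv.Perm.mul_apply, Equiv.Perm.inv_eq_iff_eq] at this) (hP hu)
  ext u
  constructor
  · rintro ⟨v, hv, rfl⟩
    exact ⟨v, hv, (h2 v hv).symm⟩
  · rintro ⟨v, hv, rfl⟩
    exact ⟨v, hv, h2 v hv⟩

/-- The transport of a subspace along the orbit. -/
noncomputable def trTwo (S : Set (Equiv.Perm X)) (α : X → ℕ) (P : Submodule F (FL F X))
    (β : X → ℕ) : Submodule F (FL F X) :=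
  ⨆ (g : Equiv.Perm X) (_ : g ∈ Subgroup.closure S) (_ : push g α = β),
    P.map (ren F g : FL F X →ₗ[F] FL F X)

theorem tr_eq_two (hT : Triv S α) {P : Submodule F (FL F X)} (hP : P ≤ mp F α)
    {g : Equiv.Perm X} (hg : g ∈ Subgroup.closure S) :
    trTwo S α P (push g α) = P.map (ren F g : FL F X →ₗ[F] FL F X) :=
  le_antisymm (iSup_le fun _ => iSup_le fun hg' => iSup_le fun e =>
      (triv_map_two hT hg' hg e hP).le)
    (le_iSup_of_le g (le_iSup_of_le hg (le_iSup_of_le rfl le_rfl)))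

theorem tr_self_two (hT : Triv S α) {P : Submodule F (FL F X)} (hP : P ≤ mp F α) :
    trTwo S α P α = P := by
  have h := tr_eq_two hT hP (one_mem (Subgroup.closure S))
  rwa [push_one_two, map_one_two] at h

theorem tr_le_two {P : Submodule F (FL F X)} (hP : P ≤ mp F α) (β : X → ℕ) :
    trTwo S α P β ≤ mp F β :=
  iSup_le fun g => iSup_le fun _ => iSup_le fun e => by
    rintro _ ⟨v, hv, rfl⟩
    exact e ▸ ren_mem g (hP hv)

theorem tr_inv_two (P : Submodule F (FL F X)) {g : Equiv.Perm X} (hg : g ∈ Subgroup.closure S)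
    (β : X → ℕ) {u : FL F X} (hu : u ∈ trTwo S α P β) : ren F g u ∈ trTwo S α P (push g β) := by
  have h : trTwo S α P β ≤ (trTwo S α P (push g β)).comap (ren F g : FL F X →ₗ[F] FL F X) :=
    iSup_le fun g' => iSup_le fun hg' => iSup_le fun e => by
      rintro _ ⟨v, hv, rfl⟩
      refine (le_iSup_of_le (g * g') (le_iSup_of_le (mul_mem hg hg') (le_iSup_of_le
        (by rw [push_mul_two, e]) le_rfl)) : _ ≤ trTwo S α P (push g β)) ?_
      exact ⟨v, hv, ren_mul_two g g' v⟩
  exact h hu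

/-- The chain that belongs to a pair of hyperplanes. -/
noncomputable def chTwo (S : Set (Equiv.Perm X)) (γ : Ty X) (α ε : X → ℕ)
    (P Q : Submodule F (FL F X)) (j : ℕ) (β : X → ℕ) : Submodule F (FL F X) :=
  if γ j β = 0 then mp F β else if tot β ≤ 2 then ⊥ else
    if tot β = 3 then trTwo S α P β else trTwo S ε Q β

theorem ch_le_two {P Q : Submodule F (FL F X)} (hP : P ≤ mp F α) (hQ : Q ≤ mp F ε) (j : ℕ)
    (β : X → ℕ) : chTwo S γ α ε P Q j β ≤ mp F β := by
  unfold chTwo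
  split_ifs
  · exact le_rfl
  · exact bot_le
  · exact tr_le_two hP β
  · exact tr_le_two hQ β

theorem ch_inv_two (hinv : ∀ g ∈ S, ∀ j β, γ j (push g β) = γ j β) (P Q : Submodule F (FL F X))
    {g : Equiv.Perm X} (hg : g ∈ Subgroup.closure S) (j : ℕ) (β : X → ℕ) {u : FL F X}
    (hu : u ∈ chTwo S γ α ε P Q j β) : ren F g u ∈ chTwo S γ α ε P Q j (push g β) := by
  unfold chTwo at hu ⊢
  rw [inv_closure_ty hinv g hg, tot_push]
  split_ifs at hu ⊢
  · exact ren_mem g hu
  · rw [(Submodule.mem_bot F).1 hu, map_zero]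
    exact zero_mem _
  · exact tr_inv_two P hg β hu
  · exact tr_inv_two Q hg β hu

theorem pred_push_two {β δ : X → ℕ} {y : X} {g : Equiv.Perm X} (e : β + one y = push g δ) :
    push (g⁻¹ : Equiv.Perm X) β + one (g⁻¹ y) = δ := by
  rw [← push_add_one, e, ← push_mul_two, inv_mul_cancel, push_one_two]

theorem rank_small_two {β : X → ℕ} (h2 : tot β ≤ 2) (h0 : β ≠ 0) (h : ∀ x, β x ≠ 0 → β x = 1) :
    finrank F (mp F β) = 1 := by
  have h3 : tot β ≠ 0 := fun e => h0 (tot_eq_zero.1 e)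
  rcases (by omega : tot β = 1 ∨ tot β = 2) with e | e
  · obtain ⟨x, rfl⟩ := tot_eq_one.1 e
    exact rank_mp_one F x
  · obtain ⟨x, y, rfl⟩ := tot_eq_two.1 e
    refine rank_mp_pair F ?_
    rintro rfl
    have := h x (by simp)
    simp at this

omit [Fintype X] [DecidableEq X] in
theorem rank_map_two {M N : Type} [AddCommGroup M] [Module F M] [AddCommGroup N] [Module F N]
    (f : M →ₗ[F] N) (V : Submodule F M) [Module.Finite F V] :
    finrank F (V.map f) + finrank F (V ⊓ LinearMap.ker f : Submodule F M) = finrank F V := by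
  have h := LinearMap.finrank_range_add_finrank_ker (f.domRestrict V)
  rw [LinearMap.range_domRestrict, LinearMap.ker_domRestrict,
    ← Submodule.finrank_map_subtype_eq V, Submodule.map_comap_subtype] at h
  exact h

omit [Fintype X] [DecidableEq X] in
theorem codim_comap_two {M : Type} [AddCommGroup M] [Module F M] (φ : M →ₗ[F] M)
    {V W Q : Submodule F M} [Module.Finite F V] [Module.Finite F W] (h : V.map φ ≤ W) (hQ : Q ≤ W) :
    finrank F V ≤ finrank F (V ⊓ Q.comap φ : Submodule F M) + (finrank F W - finrank F Q) := by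
  have h1 := rank_map_two (Q.mkQ.comp φ) V
  have h2 := rank_map_two Q.mkQ W
  rw [LinearMap.ker_comp, Submodule.ker_mkQ] at h1
  rw [Submodule.ker_mkQ, inf_eq_right.2 hQ] at h2
  have h3 : finrank F (V.map (Q.mkQ.comp φ)) ≤ finrank F (W.map Q.mkQ) := by
    refine Submodule.finrank_mono ?_
    rw [Submodule.map_comp]
    exact Submodule.map_mono h
  omega

theorem mp_le_two (tε : 2 ≤ tot ε) {Q : Submodule F (FL F X)}
    (h : ∀ β y, β + one y = ε → (mp F β).map (adr F y) ≤ Q) : mp F ε ≤ Q := by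
  have h0 : ε ≠ 0 := fun e => by
    rw [tot_eq_zero.2 e] at tε
    omega
  obtain ⟨x, hx⟩ := Function.ne_iff.1 h0
  rw [mp_start hx tε]
  exact iSup_le fun y => iSup_le fun hy => h _ y (sub_add_one hy.1)

omit [Fintype X] in
theorem Hyp.not_le_two {Q : Submodule F (FL F X)} (h : Hyp F ε Q) : ¬ mp F ε ≤ Q := fun h' => by
  have h2 := h.2
  rw [le_antisymm h.1 h', Nat.sub_self] at h2
  exact zero_ne_one h2

/-- The sum of the images of the dead predecessors. -/
noncomputable def deadTwo (F : Type) [Field F] (S : Set (Equiv.Perm X)) (α ε : X → ℕ) :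
    Submodule F (FL F X) :=
  ⨆ (y : X) (_ : ε y ≠ 0 ∧ ¬ Orb S α (ε - one y)), (mp F (ε - one y)).map (adr F y)

theorem dead_le_two {Q : Submodule F (FL F X)} : deadTwo F S α ε ≤ Q ↔
    ∀ β y, β + one y = ε → ¬ Orb S α β → (mp F β).map (adr F y) ≤ Q := by
  constructor
  · rintro h β y rfl hn
    refine le_trans ?_ h
    refine le_iSup_of_le y (le_iSup_of_le ⟨by simp, by rwa [add_sub_one]⟩ ?_)
    rw [add_sub_one]
  · exact fun h => iSup_le fun y => iSup_le fun hy => h _ y (sub_add_one hy.1) hy.2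

theorem cnt_lin_two (hTα : Triv S α) (tε : 2 ≤ tot ε)
    (h : ∀ β y β' y', β + one y = ε → β' + one y' = ε → Orb S α β → Orb S α β' → y = y')
    {g : Equiv.Perm X} (hg : g ∈ Subgroup.closure S) {y : X} (e : push g α + one y = ε) :
    cntPQ F S α ε = Nat.card {Q : Submodule F (FL F X) // Hyp F ε Q ∧ deadTwo F S α ε ≤ Q} := by
  let φ : FL F X →ₗ[F] FL F X := (adr F y).comp (ren F g : FL F X →ₗ[F] FL F X)
  have hφ : (mp F α).map φ = (mp F (push g α)).map (adr F y) := by
    rw [Submodule.map_comp, map_ren_mp g.injective]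
  have hu : ∀ β y', β + one y' = ε → Orb S α β → y' = y ∧ β = push g α := fun β y' e' o => by
    obtain rfl := h β y' _ y e' e o ⟨g, hg, rfl⟩
    exact ⟨rfl, add_right_cancel (e'.trans e.symm)⟩
  have hlt : ∀ Q : Submodule F (FL F X), Hyp F ε Q → deadTwo F S α ε ≤ Q →
      finrank F (mp F α ⊓ Q.comap φ : Submodule F _) < finrank F (mp F α) := fun Q hQ hD => by
    refine Submodule.finrank_lt_finrank_of_lt (lt_of_le_of_ne inf_le_left fun e2 => ?_)
    refine hQ.not_le_two (mp_le_two tε fun β y' e' => ?_)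
    by_cases o : Orb S α β
    · obtain ⟨rfl, rfl⟩ := hu β y' e' o
      rw [← hφ]
      exact Submodule.map_le_iff_le_comap.2 (inf_eq_left.1 e2)
    · exact dead_le_two.1 hD β y' e' o
  refine Nat.card_eq_of_bijective
    (fun PQ => ⟨PQ.1.2, PQ.2.2.1, dead_le_two.2 fun β y' e' => (PQ.2.2.2 β y' e').1⟩) ⟨?_, ?_⟩
  · have key : ∀ P Q : Submodule F (FL F X), Hyp F α P → Hyp F ε Q → deadTwo F S α ε ≤ Q →
        (P.map (ren F g : FL F X →ₗ[F] FL F X)).map (adr F y) ≤ Q →
        P = mp F α ⊓ Q.comap φ := fun P Q hP hQ hD hle => by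
      have h1 := hlt Q hQ hD
      have h2 := hP.2
      have : Module.Finite F (mp F α ⊓ Q.comap φ : Submodule F _) :=
        Submodule.finiteDimensional_of_le inf_le_left
      refine Submodule.eq_of_le_of_finrank_le (le_inf hP.1 ?_) (by omega)
      rw [← Submodule.map_le_iff_le_comap, Submodule.map_comp]
      exact hle
    rintro ⟨⟨P, Q⟩, hP, hQ, hc⟩ ⟨⟨P', Q'⟩, hP', hQ', hc'⟩ e2
    obtain rfl : Q = Q' := congrArg Subtype.val e2
    refine Subtype.ext (Prod.ext ?_ rfl)
    exact (key P Q hP hQ (dead_le_two.2 fun β y' e' => (hc β y' e').1)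
      ((hc _ y e).2 g hg rfl)).trans (key P' Q hP' hQ'
        (dead_le_two.2 fun β y' e' => (hc' β y' e').1) ((hc' _ y e).2 g hg rfl)).symm
  · rintro ⟨Q, hQ, hD⟩
    refine ⟨⟨(mp F α ⊓ Q.comap φ, Q), ⟨inf_le_left, ?_⟩, hQ, fun β y' e' =>
      ⟨dead_le_two.1 hD β y' e', fun g' hg' e2 => ?_⟩⟩, rfl⟩
    · have h1 := hlt Q hQ hD
      have h2 := codim_comap_two φ (V := mp F α) (W := mp F ε)
        (by rw [hφ, ← e]; exact map_adr_le _ _) hQ.1
      have h3 := hQ.2
      change finrank F (mp F α) - finrank F (mp F α ⊓ Q.comap φ : Submodule F _) = 1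
      omega
    · obtain ⟨rfl, e3⟩ := hu β y' e' ⟨g', hg', e2⟩
      rw [triv_map_two hTα hg' hg (e2.trans e3) inf_le_left, ← Submodule.map_comp]
      exact Submodule.map_le_iff_le_comap.2 inf_le_right

end Aux

/-- Sketch: a chain of type `γ` is zero at the living nodes of degree at most two and is determined
by `P = J 0 α` and `Q = J 0 ε`. Conversely define the chain directly, or use `exists_extend`
twice. -/
theorem two_cnt (F : Type) [Field F] (h1 : ∀ j β, 0 < j → γ j β = 0)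
    (h2 : ∀ β, γ 0 β ≠ 0 → tot β ≤ 2 ∨ Orb S α β ∨ Orb S ε β)
    (hα : γ 0 α = 1) (hε : γ 0 ε = 1) (tα : tot α = 3) (tε : tot ε = 4)
    (hTα : Triv S α) (hTε : Triv S ε) (hinv : ∀ g ∈ S, ∀ j β, γ j (push g β) = γ j β)
    (h6 : ∀ β, tot β ≤ 2 → γ 0 β ≠ 0 →
      γ 0 β = 1 ∧ β ≠ 0 ∧ ∀ x, β x ≠ 0 → β x = 1 ∧ γ 0 (one x) ≠ 0)
    (h7 : ∀ β y, β + one y = α → γ 0 β ≠ 0) : cntT F S γ = cntPQ F S α ε := by
  have hj : ∀ j β, γ j β ≠ 0 → j = 0 := fun j β h => by
    by_contra h0
    exact h (h1 j β (Nat.pos_of_ne_zero h0))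
  have h3 : ∀ β y, β + one y = ε → tot β = 3 := fun β y e => by
    have := congrArg tot e
    rw [tot_add, tot_one] at this
    omega
  have h4 : ∀ β, tot β = 3 → γ 0 β ≠ 0 → Orb S α β := fun β t h => by
    rcases h2 β h with h | h | h
    · omega
    · exact h
    · have := h.tot_eq
      omega
  refine Nat.card_eq_of_bijective (fun J => ⟨(J.1.J 0 α, J.1.J 0 ε),
    ⟨J.1.le 0 α, (congrFun (congrFun J.2.2 0) α).trans hα⟩,
    ⟨J.1.le 0 ε, (congrFun (congrFun J.2.2 0) ε).trans hε⟩, fun β y e => ⟨fun hn => ?_, ?_⟩⟩)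
    ⟨?_, ?_⟩
  · have h0 : J.1.ty 0 β = 0 := by
      rw [J.2.2]
      by_contra h
      exact hn (h4 β (h3 β y e) h)
    rw [← J.1.ty_eq_zero.1 h0, ← e]
    rintro _ ⟨u, hu, rfl⟩
    exact J.1.br 0 β y u hu
  · intro g hg e2
    dsimp only
    rw [J.2.1.map_eq hg, e2, ← e]
    rintro _ ⟨u, hu, rfl⟩
    exact J.1.br 0 β y u hu
  · rintro ⟨J, hJ, ht⟩ ⟨J', hJ', ht'⟩ e
    have eα : J.J 0 α = J'.J 0 α := congrArg (fun PQ => PQ.1.1) e
    have eε : J.J 0 ε = J'.J 0 ε := congrArg (fun PQ => PQ.1.2) e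
    refine Subtype.ext (Chain.ext (funext fun j => funext fun β => ?_))
    change J.J j β = J'.J j β
    by_cases h0 : γ j β = 0
    · rw [J.ty_eq_zero.1 (by rw [ht, h0]), J'.ty_eq_zero.1 (by rw [ht', h0])]
    · obtain rfl := hj j β h0
      rcases h2 β h0 with h | ⟨g, hg, rfl⟩ | ⟨g, hg, rfl⟩
      · exact Chain.thin_eq (thin_of_le_two h) (by rw [ht, ht'])
      · rw [← hJ.map_eq hg, ← hJ'.map_eq hg, eα]
      · rw [← hJ.map_eq hg, ← hJ'.map_eq hg, eε]
  · rintro ⟨⟨P, Q⟩, hP, hQ, hc⟩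
    dsimp only at hP hQ hc
    have c0 : ∀ j β, γ j β = 0 → chTwo S γ α ε P Q j β = mp F β := fun j β h => if_pos h
    have c1 : ∀ β, γ 0 β ≠ 0 → tot β ≤ 2 → chTwo S γ α ε P Q 0 β = ⊥ := fun β h t => by
      unfold chTwo
      rw [if_neg h, if_pos t]
    have cα : ∀ g ∈ Subgroup.closure S, chTwo S γ α ε P Q 0 (push g α) =
        P.map (ren F g : FL F X →ₗ[F] FL F X) := fun g hg => by
      unfold chTwo
      rw [inv_closure_ty hinv g hg, tot_push, hα, tα, if_neg one_ne_zero, if_neg (by norm_num),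
        if_pos rfl, tr_eq_two hTα hP.1 hg]
    have cε : ∀ g ∈ Subgroup.closure S, chTwo S γ α ε P Q 0 (push g ε) =
        Q.map (ren F g : FL F X →ₗ[F] FL F X) := fun g hg => by
      unfold chTwo
      rw [inv_closure_ty hinv g hg, tot_push, hε, tε, if_neg one_ne_zero, if_neg (by norm_num),
        if_neg (by norm_num), tr_eq_two hTε hQ.1 hg]
    have cα1 : chTwo S γ α ε P Q 0 α = P := by
      have h := cα 1 (one_mem _)
      rwa [push_one_two, map_one_two] at h
    have cε1 : chTwo S γ α ε P Q 0 ε = Q := by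
      have h := cε 1 (one_mem _)
      rwa [push_one_two, map_one_two] at h
    have base : ∀ β y, β + one y = ε → ∀ u ∈ chTwo S γ α ε P Q 0 β, adr F y u ∈ Q := by
      intro β y e u hu
      by_cases o : Orb S α β
      · obtain ⟨g, hg, rfl⟩ := o
        rw [cα g hg] at hu
        exact (hc _ y e).2 g hg rfl ⟨u, hu, rfl⟩
      · exact (hc β y e).1 o ⟨u, ch_le_two hP.1 hQ.1 0 β hu, rfl⟩
    have hz : ∀ β y u, chTwo S γ α ε P Q 0 β = ⊥ → u ∈ chTwo S γ α ε P Q 0 β →
        ⁅u, gen F y⁆ ∈ chTwo S γ α ε P Q 0 (β + one y) := fun β y u e hu => by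
      rw [e, Submodule.mem_bot] at hu
      rw [hu, zero_lie]
      exact zero_mem _
    refine ⟨⟨⟨chTwo S γ α ε P Q, ch_le_two hP.1 hQ.1, fun j β => ?_, fun j β y u hu => ?_⟩,
      fun g hg j β u hu => ch_inv_two hinv P Q (Subgroup.subset_closure hg) j β hu,
      funext fun j => funext fun β => ?_⟩, Subtype.ext (Prod.ext cα1 cε1)⟩
    · rw [c0 (j + 1) β (h1 _ _ j.succ_pos)]
      exact ch_le_two hP.1 hQ.1 j β
    · by_cases h0 : γ j (β + one y) = 0
      · rw [c0 _ _ h0]
        exact lie_gen_mem F β y u (ch_le_two hP.1 hQ.1 j β hu)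
      · obtain rfl := hj _ _ h0
        rcases h2 _ h0 with h | ⟨g, hg, e⟩ | ⟨g, hg, e⟩
        · refine hz β y u ?_ hu
          have t := h
          rw [tot_add, tot_one] at t
          rcases (by omega : tot β = 0 ∨ tot β = 1) with t | t
          · refine le_bot_iff.1 ((ch_le_two hP.1 hQ.1 0 β).trans ?_)
            rw [tot_eq_zero.1 t, mp_zero]
          · obtain ⟨x, rfl⟩ := tot_eq_one.1 t
            exact c1 _ ((h6 _ h h0).2.2 x (by simp)).2 (by omega)
        · refine hz β y u (c1 _ ?_ ?_) hu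
          · rw [← inv_closure_ty hinv g⁻¹ (inv_mem hg)]
            exact h7 _ _ (pred_push_two e.symm)
          · have t := congrArg tot e
            rw [tot_push, tot_add, tot_one] at t
            omega
        · rw [← e, cε g hg]
          refine ⟨_, base _ _ (pred_push_two e.symm) _
            (ch_inv_two hinv P Q (inv_mem hg) 0 β hu), ?_⟩
          change ren F g (adr F (g⁻¹ y) (ren F (g⁻¹ : Equiv.Perm X) u)) = adr F y u
          rw [ren_adr, ← ren_mul_two, mul_inv_cancel, ren_one_two, ← Equiv.Perm.mul_apply,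
            mul_inv_cancel, Equiv.Perm.one_apply]
    · change finrank F (mp F β) - finrank F (chTwo S γ α ε P Q j β) = γ j β
      by_cases h0 : γ j β = 0
      · rw [c0 _ _ h0, h0, Nat.sub_self]
      · obtain rfl := hj _ _ h0
        rcases h2 _ h0 with h | ⟨g, hg, rfl⟩ | ⟨g, hg, rfl⟩
        · obtain ⟨a1, a2, a3⟩ := h6 β h h0
          rw [c1 β h0 h, finrank_bot, rank_small_two h a2 fun x hx => (a3 x hx).1, a1]
        · rw [cα g hg, rank_map_ren g.injective, rank_mp_push g.injective, hP.2,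
            inv_closure_ty hinv g hg, hα]
        · rw [cε g hg, rank_map_ren g.injective, rank_mp_push g.injective, hQ.2,
            inv_closure_ty hinv g hg, hε]

/-- With at most one living predecessor the hyperplane `P` is determined by `Q`: if `D` is the sum
of the images of the dead predecessors then the pairs correspond to the hyperplanes above `D`
(`P` is the preimage of `Q`; note that `mp ε` is the sum of the images of all predecessors by
`mp_start`, so the count is zero without a living predecessor). -/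
theorem two_lin (hTα : Triv S α) (tε : 2 ≤ tot ε)
    (h : ∀ β y β' y', β + one y = ε → β' + one y' = ε → Orb S α β → Orb S α β' → y = y') :
    EC 1 fun p _ => cntPQ (ZMod p) S α ε := by
  by_cases hl : ∃ g ∈ Subgroup.closure S, ∃ y, push g α + one y = ε
  · obtain ⟨g, hg, y, e⟩ := hl
    refine (hyp_ec ε (fun p _ => deadTwo (ZMod p) S α ε)
      (IsInt.iSup fun y => IsInt.iSup_prop fun _ => (IsInt.mp _).map_adr y)
      fun p _ => dead_le_two.2 fun β y e _ => e ▸ map_adr_le β y).congr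
      (Ev.of_forall fun p _ => ?_)
    rw [cnt_lin_two hTα tε h hg e]
  · refine (EC.const 0).congr (Ev.of_forall fun p _ => ?_)
    unfold cntPQ
    rw [Nat.card_eq_zero.2 (Or.inl ⟨?_⟩), Nat.cast_zero]
    rintro ⟨⟨P, Q⟩, -, hQ, hc⟩
    refine hQ.not_le_two (mp_le_two tε fun β y e => (hc β y e).1 ?_)
    rintro ⟨g, hg, rfl⟩
    exact hl ⟨g, hg, y, e⟩

theorem two_four (F : Type) [Field F] (hTα : Triv S α) {g : Equiv.Perm X}
    (hg : g ∈ Subgroup.closure S) {β₁ β₂ : X → ℕ} {y₁ y₂ y₃ y₄ : X}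
    (e₁ : β₁ + one y₁ = ε) (e₂ : β₂ + one y₂ = ε) (e₃ : α + one y₃ = ε)
    (e₄ : push g α + one y₄ = ε) (hy : ∀ y, ε y ≠ 0 → y = y₁ ∨ y = y₂ ∨ y = y₃ ∨ y = y₄)
    (n₁ : ¬ Orb S α β₁) (n₂ : ¬ Orb S α β₂) :
    cntPQ F S α ε = cnt4 F g α ε β₁ β₂ y₁ y₂ y₃ y₄ := by
  refine Nat.card_congr (Equiv.subtypeEquivRight fun PQ => and_congr_right fun hP =>
    and_congr_right fun _ => ⟨fun hc => ⟨(hc _ _ e₁).1 n₁, (hc _ _ e₂).1 n₂, ?_,
      (hc _ _ e₄).2 g hg rfl⟩, ?_⟩)
  · have h := (hc _ _ e₃).2 1 (one_mem _) (push_one_two α)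
    rwa [map_one_two] at h
  · rintro ⟨c₁, c₂, c₃, c₄⟩ β y e
    rcases hy y (by rw [← e]; simp) with rfl | rfl | rfl | rfl
    · obtain rfl : β = β₁ := add_right_cancel (e.trans e₁.symm)
      exact ⟨fun _ => c₁, fun g' hg' e' => absurd ⟨g', hg', e'⟩ n₁⟩
    · obtain rfl : β = β₂ := add_right_cancel (e.trans e₂.symm)
      exact ⟨fun _ => c₂, fun g' hg' e' => absurd ⟨g', hg', e'⟩ n₂⟩
    · obtain rfl : β = α := add_right_cancel (e.trans e₃.symm)
      refine ⟨fun hn => absurd (Orb.refl S β) hn, fun g' hg' e' => ?_⟩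
      rwa [triv_map_two hTα hg' (one_mem _) (e'.trans (push_one_two β).symm) hP.1, map_one_two]
    · obtain rfl : β = push g α := add_right_cancel (e.trans e₄.symm)
      refine ⟨fun hn => absurd ⟨g, hg, rfl⟩ hn, fun g' hg' e' => ?_⟩
      rwa [triv_map_two hTα hg' hg e' hP.1]

end Pool.Agent.P.MP_8598be_al.Z
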