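import Pool.Agent.P.MP_8598be_al.Z.Orb
import Pool.Agent.P.MP_8598be_al.Z.Two
import Pool.Agent.P.MP_8598be_al.Z.Sp

/-!
The counts for the two families of types with a parameter.
-/

namespace Pool.Agent.P.MP_8598be_al.Z

variable {H : Type} {l : ℕ} [Fintype H] [DecidableEq H] [NeZero l]

section Aux

variable {X : Type} [DecidableEq X]

theorem one_ne_Del {a x : X} : one a x ≠ 0 ↔ x = a := by
  simp [Pi.single_apply]

omit [DecidableEq X] in
theorem add_ne_Del {α β : X → ℕ} {x : X} : (α + β) x ≠ 0 ↔ α x ≠ 0 ∨ β x ≠ 0 := by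
  rw [Pi.add_apply]
  omega

omit [DecidableEq X] in
theorem key_Del {α β : X → ℕ} (e : α = β) (x : X) (h : α x ≠ 0) : β x ≠ 0 := e ▸ h

theorem pred_Del {a b c y : X} {β : X → ℕ} (h : β + one y = one a + one b + one c) :
    β = one b + one c ∨ β = one a + one c ∨ β = one a + one b := by
  have h1 : (one a + one b + one c) y ≠ 0 := h ▸ add_ne_Del.2 (.inr (one_ne_Del.2 rfl))
  simp only [add_ne_Del, one_ne_Del] at h1
  rcases h1 with (rfl | rfl) | rfl
  · exact .inl (add_right_cancel (h.trans (by abel)))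
  · exact .inr (.inl (add_right_cancel (h.trans (by abel))))
  · exact .inr (.inr (add_right_cancel h))

theorem ok_one_Del {γ : Ty X} {a : X} (h : γ 0 (one a) ≠ 0) (x : X) (hx : one a x ≠ 0) :
    one a x = 1 ∧ γ 0 (one x) ≠ 0 := by
  rw [one_ne_Del.1 hx]
  exact ⟨Pi.single_eq_same _ _, h⟩

theorem ok_two_Del {γ : Ty X} {a b : X} (e : a ≠ b) (h : γ 0 (one a) ≠ 0) (h' : γ 0 (one b) ≠ 0)
    (x : X) (hx : (one a + one b) x ≠ 0) : (one a + one b) x = 1 ∧ γ 0 (one x) ≠ 0 := by
  simp only [add_ne_Del, one_ne_Del] at hx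
  rcases hx with rfl | rfl
  · exact ⟨by simp [e], h⟩
  · exact ⟨by simp [e.symm], h'⟩

theorem oty_last_Del [Fintype X] {S : Set (Equiv.Perm X)} (L : List (X → ℕ)) {ε ε' : X → ℕ}
    (h : Orb S ε ε') : oty S (L ++ [ε']) = oty S (L ++ [ε]) := by
  funext j α
  unfold oty
  congr 2
  simp only [List.mem_append, List.mem_singleton, or_and_right, exists_or, exists_eq_left]
  exact propext (or_congr_right ⟨h.trans, h.symm.trans⟩)

end Aux

theorem triv_Del (hl : l.Prime) {α : H ⊕ ZMod l → ℕ} (h : tot α < l) : Triv {rot1 H l} α :=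
  triv_of_not_sym hl fun hs => by
    have h1 := hs.le_fdeg
    rw [tot, Fintype.sum_sum_type] at h
    rw [fdeg] at h1
    omega

omit [NeZero l] in
theorem small_Del (hl : l.Prime) (h5 : 5 ≤ l) {s : ZMod l} (hs : s ≠ 0) :
    2 * s ≠ 0 ∧ 3 * s ≠ 0 ∧ 4 * s ≠ 0 := by
  have := Fact.mk hl
  have h : ∀ k : ℕ, 0 < k → k < 5 → (k : ZMod l) * s ≠ 0 := fun k h0 hk =>
    mul_ne_zero (fun e => absurd (Nat.le_of_dvd h0 ((ZMod.natCast_eq_zero_iff _ _).1 e))
      (by omega)) hs
  exact ⟨by simpa using h 2 (by norm_num) (by norm_num), by simpa using h 3 (by norm_num) (by norm_num),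
    by simpa using h 4 (by norm_num) (by norm_num)⟩

theorem cnt_Del (hl : l.Prime) (h5 : 5 ≤ l) (F : Type) [Field F] (L : List (H ⊕ ZMod l → ℕ))
    {α ε : H ⊕ ZMod l → ℕ} (h3 : tot α = 3) (h4 : tot ε = 4)
    (hL : ∀ β ∈ L, ∀ t, tot β ≤ 2 ∧ tot β ≠ 0 ∧ ∀ x, sh t β x ≠ 0 →
      sh t β x = 1 ∧ oty {rot1 H l} (L ++ [α, ε]) 0 (one x) ≠ 0)
    (h7 : ∀ β y, β + one y = α → ∃ δ ∈ L, ∃ t, β = sh t δ) :
    cntT F {rot1 H l} (oty {rot1 H l} (L ++ [α, ε])) = cntPQ F {rot1 H l} α ε := by
  refine two_cnt F (fun j β hj => not_not.1 fun h => hj.ne' ((oty_rot1 _ _ _).2.1 h).1)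
    (fun β h => ?_) ((oty_rot1 _ _ _).1.2 ⟨rfl, α, by simp, 0, (sh_zero _).symm⟩)
    ((oty_rot1 _ _ _).1.2 ⟨rfl, ε, by simp, 0, (sh_zero _).symm⟩) h3 h4
    (triv_Del hl (by omega)) (triv_Del hl (by omega)) (oty_inv _) (fun β h2 h => ?_)
    fun β y e => ?_
  · obtain ⟨-, δ, hδ, t, rfl⟩ := (oty_rot1 _ _ _).2.1 h
    simp only [List.mem_append, List.mem_cons, List.not_mem_nil, or_false] at hδ
    rcases hδ with hδ | rfl | rfl
    · exact .inl (tot_sh t δ ▸ (hL δ hδ t).1)
    · exact .inr (.inl (orb_rot1.2 ⟨t, rfl⟩))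
    · exact .inr (.inr (orb_rot1.2 ⟨t, rfl⟩))
  · refine ⟨(oty_rot1 _ _ _).1.2 ((oty_rot1 _ _ _).2.1 h), ?_⟩
    obtain ⟨-, δ, hδ, t, rfl⟩ := (oty_rot1 _ _ _).2.1 h
    rw [tot_sh] at h2
    simp only [List.mem_append, List.mem_cons, List.not_mem_nil, or_false] at hδ
    rcases hδ with hδ | rfl | rfl
    · exact ⟨fun e => (hL δ hδ t).2.1 (tot_sh t δ ▸ tot_eq_zero.2 e), (hL δ hδ t).2.2⟩
    · omega
    · omega
  · obtain ⟨δ, hδ, t, rfl⟩ := h7 β y e
    exact (oty_rot1 _ _ _).2.2 ⟨rfl, δ, List.mem_append_left _ hδ, t, rfl⟩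

theorem alive_Del {L : List (H ⊕ ZMod l → ℕ)} :
    (∀ h, hb l h ∈ L → oty {rot1 H l} L 0 (hb l h) ≠ 0) ∧
      (fb H 0 ∈ L → ∀ z, oty {rot1 H l} L 0 (fb H z) ≠ 0) :=
  ⟨fun _ h => (oty_rot1 _ _ _).2.2 ⟨rfl, _, h, 0, (sh_zero _).symm⟩,
    fun h z => (oty_rot1 _ _ _).2.2 ⟨rfl, _, h, z, by rw [sh_fb, zero_add]⟩⟩

theorem dl1_cnt (hl : l.Prime) (h5 : 5 ≤ l) (F : Type) [Field F] (h : H) {s : ZMod l} (hs : s ≠ 0)
    {ε : H ⊕ ZMod l → ℕ} (h4 : tot ε = 4) :
    cntT F {rot1 H l} (dl1 h s ε) = cntPQ F {rot1 H l} (hb l h + fb H 0 + fb H s) ε := by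
  refine cnt_Del hl h5 F [hb l h, fb H 0, hb l h + fb H 0, fb H 0 + fb H s]
    (by simp only [tot_add, tot_one]) h4 (fun β hβ t => ?_) fun β y e => ?_
  · have a1 := (alive_Del (L := [hb l h, fb H 0, hb l h + fb H 0, fb H 0 + fb H s] ++
      [hb l h + fb H 0 + fb H s, ε])).imp (fun a => a h (by simp)) fun a => a (by simp)
    simp only [List.mem_cons, List.not_mem_nil, or_false] at hβ
    rcases hβ with rfl | rfl | rfl | rfl <;>
      simp only [tot_add, tot_one, sh_add, sh_hb, sh_fb] <;> refine ⟨by omega, by omega, ?_⟩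
    · exact ok_one_Del a1.1
    · exact ok_one_Del (a1.2 _)
    · exact ok_two_Del Sum.inl_ne_inr a1.1 (a1.2 _)
    · exact ok_two_Del (by simpa using hs) (a1.2 _) (a1.2 _)
  · rcases pred_Del e with rfl | rfl | rfl
    · exact ⟨_, by simp, 0, (sh_zero _).symm⟩
    · exact ⟨hb l h + fb H 0, by simp, s, by rw [sh_add, sh_hb, sh_fb, zero_add]⟩
    · exact ⟨_, by simp, 0, (sh_zero _).symm⟩

theorem dl2_cnt (hl : l.Prime) (h5 : 5 ≤ l) (F : Type) [Field F] (o : Option H) {s : ZMod l}
    (hs : s ≠ 0) {ε : H ⊕ ZMod l → ℕ} (h4 : tot ε = 4) :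
    cntT F {rot1 H l} (dl2 o s ε) = cntPQ F {rot1 H l} (fb H 0 + fb H s + fb H (2 * s)) ε := by
  have h2 := (small_Del hl h5 hs).1
  have e0 : dl2 o s ε = oty {rot1 H l} ((o.toList.map (hb l) ++
      [fb H 0, fb H 0 + fb H s, fb H 0 + fb H (2 * s)]) ++
        [fb H 0 + fb H s + fb H (2 * s), ε]) := by
    rw [List.append_assoc]
    rfl
  rw [e0]
  refine cnt_Del hl h5 F _ (by simp only [tot_add, tot_one]) h4 (fun β hβ t => ?_) fun β y e => ?_
  · have a1 := (alive_Del (L := (o.toList.map (hb l) ++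
      [fb H 0, fb H 0 + fb H s, fb H 0 + fb H (2 * s)]) ++
        [fb H 0 + fb H s + fb H (2 * s), ε])).imp_right fun a => a (by simp)
    have hβ' := hβ
    simp only [List.mem_append, List.mem_map, List.mem_cons, List.not_mem_nil, or_false] at hβ
    rcases hβ with ⟨h, -, rfl⟩ | rfl | rfl | rfl <;>
      simp only [tot_add, tot_one, sh_add, sh_hb, sh_fb] <;> refine ⟨by omega, by omega, ?_⟩
    · exact ok_one_Del (a1.1 h (List.mem_append_left _ hβ'))
    · exact ok_one_Del (a1.2 _)
    · exact ok_two_Del (by simpa using hs) (a1.2 _) (a1.2 _)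
    · exact ok_two_Del (by simpa using h2) (a1.2 _) (a1.2 _)
  · rcases pred_Del e with rfl | rfl | rfl
    · exact ⟨fb H 0 + fb H s, by simp, s, by rw [sh_add, sh_fb, sh_fb, zero_add, two_mul]⟩
    · exact ⟨_, by simp, 0, (sh_zero _).symm⟩
    · exact ⟨_, by simp, 0, (sh_zero _).symm⟩

/-- Two different living predecessors force the exotic type. -/
theorem dl1_lin (hl : l.Prime) (h5 : 5 ≤ l) (h : H) {s : ZMod l} (hs : s ≠ 0)
    {ε : H ⊕ ZMod l → ℕ} (h4 : tot ε = 4) (hn : dl1 h s ε ≠ sp h s) :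
    EC 1 fun p _ => cntT (ZMod p) {rot1 H l} (dl1 h s ε) := by
  have h2 := (small_Del hl h5 hs).1
  refine (two_lin (α := hb l h + fb H 0 + fb H s) (ε := ε)
    (triv_Del hl (by simp only [tot_add, tot_one]; omega)) (by omega)
      fun β y β' y' e e' o o' => ?_).congr (.of_forall fun p _ => by rw [dl1_cnt hl h5 _ h hs h4])
  obtain ⟨t, rfl⟩ := orb_rot1.1 o
  obtain ⟨t', rfl⟩ := orb_rot1.1 o'
  by_contra hy
  have ht : t' ≠ t := fun a => hy (by
    rw [a, ← e, add_right_inj] at e'
    exact one_ne_Del.1 (key_Del e'.symm y (one_ne_Del.2 rfl)))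
  suffices ∃ u, ε = sh u (hb l h + fb H 0 + fb H s + fb H (2 * s)) from
    hn (oty_last_Del [_, _, _, _, _] (orb_rot1.2 this))
  have k := key_Del (e'.trans e.symm)
  subst e
  simp only [sh_add, sh_hb, sh_fb, zero_add, add_ne_Del, one_ne_Del] at k ⊢
  have k1 := k (.inr t') (by simp)
  have k2 := k (.inr (s + t')) (by simp)
  simp only [Sum.inr.injEq, reduceCtorEq, false_or, ht, add_right_inj] at k1 k2
  rcases k1 with rfl | rfl
  · rcases k2 with (a | a) | rfl
    · exact absurd (by linear_combination a) h2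
    · exact a.elim
    · exact ⟨t, by rw [two_mul, add_assoc s]⟩
  · rcases k2 with (rfl | a) | a
    · exact ⟨t', by rw [two_mul, add_assoc s]; abel⟩
    · exact a.elim
    · exact absurd (by linear_combination Sum.inr.inj a) hs

/-- `two_four` with the rotation by `s` and `cnt4_one`. -/
theorem sp_cnt (hl : l.Prime) (h5 : 5 ≤ l) (h : H) {s : ZMod l} (hs : s ≠ 0) (p : ℕ)
    [Fact p.Prime] : (cntT (ZMod p) {rot1 H l} (sp h s) : ℤ) = roots [1, 1, 1] p := by
  obtain ⟨h2, h3, -⟩ := small_Del hl h5 hs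
  rw [sp, dl1_cnt hl h5 _ h hs (by simp only [tot_add, tot_one]),
    two_four _ (triv_Del hl (by simp only [tot_add, tot_one]; omega)) (mem_closure_rot1.2 ⟨s, rfl⟩)
      (β₁ := hb l h + fb H 0 + fb H (2 * s)) (β₂ := fb H 0 + fb H s + fb H (2 * s))
      (y₁ := .inr s) (y₂ := .inl h) (y₃ := .inr (2 * s)) (y₄ := .inr 0) (add_right_comm _ _ _)
      (by abel) rfl (by rw [push_rot]; simp only [sh_add, sh_hb, sh_fb, zero_add, two_mul]; abel)
      (fun y hy => by simp only [add_ne_Del, one_ne_Del] at hy; tauto) (fun o => ?_) fun o => ?_]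
  · refine cnt4_one p ?_ rfl (congrArg Sum.inr (zero_add s)) (congrArg Sum.inr (two_mul s).symm)
    have a : s ≠ 2 * s := fun a => hs (by linear_combination -a)
    simp [hs.symm, h2.symm, a]
  · obtain ⟨t, e⟩ := orb_rot1.1 o
    have k := key_Del e.symm
    simp only [sh_add, sh_hb, sh_fb, zero_add, add_ne_Del, one_ne_Del] at k
    have k1 := k (.inr t) (by simp)
    have k2 := k (.inr (s + t)) (by simp)
    simp only [Sum.inr.injEq, reduceCtorEq, false_or] at k1 k2
    rcases k1 with rfl | rfl <;> rcases k2 with a | a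
    · exact hs (by linear_combination a)
    · exact hs (by linear_combination -a)
    · exact h3 (by linear_combination a)
    · exact hs (by linear_combination a)
  · obtain ⟨t, e⟩ := orb_rot1.1 o
    have := congrArg fdeg e
    simp only [fdeg_sh, fdeg_add, fdeg_hb, fdeg_fb] at this
    omega

/-- With two different living predecessors `ε` is a translate of the progression `0, s, 2 s, 3 s`,
so `dl2 o s ε` does not change if `ε` is replaced by it; use `two_four` and `cnt4_two`. -/
theorem dl2_ec (hl : l.Prime) (h5 : 5 ≤ l) (o : Option H) {s : ZMod l} (hs : s ≠ 0)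
    {ε : H ⊕ ZMod l → ℕ} (h4 : tot ε = 4) :
    EC 1 fun p _ => cntT (ZMod p) {rot1 H l} (dl2 o s ε) := by
  obtain ⟨h2, h3, h4'⟩ := small_Del hl h5 hs
  have hT : Triv {rot1 H l} (fb H 0 + fb H s + fb H (2 * s)) :=
    triv_Del hl (by simp only [tot_add, tot_one]; omega)
  by_cases c : ∀ β y β' y', β + one y = ε → β' + one y' = ε →
      Orb {rot1 H l} (fb H 0 + fb H s + fb H (2 * s)) β →
        Orb {rot1 H l} (fb H 0 + fb H s + fb H (2 * s)) β' → y = y'
  · exact (two_lin hT (by omega) c).congr (.of_forall fun p _ => by rw [dl2_cnt hl h5 _ o hs h4])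
  have hu : ∃ u, ε = sh u (fb H 0 + fb H s + fb H (2 * s) + fb H (3 * s)) := by
    by_contra hu
    refine c fun β y β' y' e e' o o' => ?_
    obtain ⟨t, rfl⟩ := orb_rot1.1 o
    obtain ⟨t', rfl⟩ := orb_rot1.1 o'
    by_contra hy
    have ht : t' ≠ t := fun a => hy (by
      rw [a, ← e, add_right_inj] at e'
      exact one_ne_Del.1 (key_Del e'.symm y (one_ne_Del.2 rfl)))
    apply hu
    have k := key_Del (e'.trans e.symm)
    subst e
    simp only [sh_add, sh_fb, zero_add, add_ne_Del, one_ne_Del] at k ⊢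
    have k1 := k (.inr t') (by simp)
    have k2 := k (.inr (s + t')) (by simp)
    have k3 := k (.inr (2 * s + t')) (by simp)
    simp only [Sum.inr.injEq, false_or, or_false, ht, add_right_inj] at k1 k2 k3
    rcases k1 with (rfl | rfl) | rfl
    · rcases k3 with (a | a) | rfl
      · exact absurd (by linear_combination a) h3
      · exact absurd (by linear_combination a) h2
      · exact ⟨t, by rw [show 2 * s + (s + t) = 3 * s + t by ring]⟩
    · rcases k2 with (a | a) | rfl
      · exact absurd (by linear_combination a) h3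
      · exact absurd (by linear_combination a) hs
      · rcases k3 with (a | a) | a
        · exact absurd (by linear_combination a) h4'
        · exact absurd (by linear_combination a) h3
        · exact absurd (by linear_combination Sum.inr.inj a) hs
    · rcases k2 with (rfl | a) | a
      · exact ⟨t', by
          rw [show 2 * s + (s + t') = 3 * s + t' by ring, show s + (s + t') = 2 * s + t' by ring]
          abel⟩
      · rcases k3 with (b | b) | b
        · exact absurd (by linear_combination b - a) h3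
        · exact absurd (by linear_combination b - a) h2
        · exact absurd (by linear_combination Sum.inr.inj b) h2
      · exact absurd (by linear_combination Sum.inr.inj a) hs
  have e0 : dl2 o s ε = dl2 o s (fb H 0 + fb H s + fb H (2 * s) + fb H (3 * s)) := by
    have := oty_last_Del (o.toList.map (hb l) ++ [fb H 0, fb H 0 + fb H s, fb H 0 + fb H (2 * s),
      fb H 0 + fb H s + fb H (2 * s)]) (orb_rot1.2 hu)
    rwa [List.append_assoc, List.append_assoc] at this
  refine (EC.const 2).congr ((Ev.gt 1 2).mono fun p _ hp => ?_)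
  rw [e0, dl2_cnt hl h5 _ o hs (by simp only [tot_add, tot_one]),
    two_four _ hT (mem_closure_rot1.2 ⟨s, rfl⟩)
      (β₁ := fb H 0 + fb H s + fb H (3 * s)) (β₂ := fb H 0 + fb H (2 * s) + fb H (3 * s))
      (y₁ := .inr (2 * s)) (y₂ := .inr s) (y₃ := .inr (3 * s)) (y₄ := .inr 0) (add_right_comm _ _ _)
      (by abel) rfl (by
        rw [push_rot]
        simp only [sh_add, sh_fb, zero_add, ← two_mul, show 2 * s + s = 3 * s by ring]
        abel)
      (fun y hy => by simp only [add_ne_Del, one_ne_Del] at hy; tauto) (fun o => ?_) fun o => ?_,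
    cnt4_two p hp.ne' ?_ (congrArg Sum.inr (zero_add s)) (congrArg Sum.inr (two_mul s).symm)
      (congrArg Sum.inr (show 2 * s + s = 3 * s by ring))]
  · rfl
  · have a : s ≠ 2 * s := fun a => hs (by linear_combination -a)
    have b : s ≠ 3 * s := fun a => h2 (by linear_combination -a)
    have d : 2 * s ≠ 3 * s := fun a => hs (by linear_combination -a)
    simp [hs.symm, h2.symm, h3.symm, a, b, d]
  · obtain ⟨t, e⟩ := orb_rot1.1 o
    have k := key_Del e.symm
    simp only [sh_add, sh_fb, zero_add, add_ne_Del, one_ne_Del] at k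
    have k1 := k (.inr t) (by simp)
    have k2 := k (.inr (s + t)) (by simp)
    have k3 := k (.inr (2 * s + t)) (by simp)
    simp only [Sum.inr.injEq] at k1 k2 k3
    rcases k1 with (rfl | rfl) | rfl
    · rcases k3 with (a | a) | a
      · exact h2 (by linear_combination a)
      · exact hs (by linear_combination a)
      · exact hs (by linear_combination -a)
    · rcases k2 with (a | a) | a
      · exact h2 (by linear_combination a)
      · exact hs (by linear_combination a)
      · exact hs (by linear_combination -a)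
    · rcases k2 with (a | a) | a
      · exact h4' (by linear_combination a)
      · exact h3 (by linear_combination a)
      · exact hs (by linear_combination a)
  · obtain ⟨t, e⟩ := orb_rot1.1 o
    have k := key_Del e.symm
    simp only [sh_add, sh_fb, zero_add, add_ne_Del, one_ne_Del] at k
    have k1 := k (.inr t) (by simp)
    have k2 := k (.inr (s + t)) (by simp)
    have k3 := k (.inr (2 * s + t)) (by simp)
    simp only [Sum.inr.injEq] at k1 k2 k3
    rcases k1 with (rfl | rfl) | rfl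
    · rcases k2 with (a | a) | a
      · exact hs (by linear_combination a)
      · exact hs (by linear_combination -a)
      · exact h2 (by linear_combination -a)
    · rcases k3 with (a | a) | a
      · exact h4' (by linear_combination a)
      · exact h2 (by linear_combination a)
      · exact hs (by linear_combination a)
    · rcases k2 with (a | a) | a
      · exact h4' (by linear_combination a)
      · exact h2 (by linear_combination a)
      · exact hs (by linear_combination a)

end Pool.Agent.P.MP_8598be_al.Z
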