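import Pool.Agent.P.MP_8598be_al.Z.Sh

/-!
Orbits of the rotation of one fibre and lower bounds for the cost.
-/

namespace Pool.Agent.P.MP_8598be_al.Z

variable {H : Type} {l : ℕ} [Fintype H] [DecidableEq H] [NeZero l]

section Cost

variable {γ : Ty (H ⊕ ZMod l)} {a k : ℕ}

theorem cost_hub_fib (ha : HasCost (γ.on Fib) a) (hk : HasCost (γ.comap Sum.inl) k) :
    HasCost γ (k + a) := by
  have h1 := (hasCost_comap Sum.inl_injective).1 hk
  rw [← show (fun α : H ⊕ ZMod l → ℕ => ¬ Fib α) = fun β => ∃ α : H → ℕ, push Sum.inl α = β from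
    funext fun α => propext not_fib_iff] at h1
  rw [add_comm]
  exact ha.add_on h1

theorem cost_fib {n : ℕ} (hn : HasCost γ n) (hk : HasCost (γ.comap Sum.inl) k) :
    k ≤ n ∧ HasCost (γ.on Fib) (n - k) := by
  obtain ⟨a, b, e, ha, -⟩ := hn.split Fib
  have h1 := (cost_hub_fib ha hk).unique hn
  refine ⟨by omega, ?_⟩
  rwa [show n - k = a by omega]

theorem sym_sh_Orb {t : ZMod l} {α : H ⊕ ZMod l → ℕ} (h : Sym (sh t α)) : Sym α := by
  refine ⟨fib_sh.1 h.1, ?_⟩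
  have h1 := congrArg (sh (-t)) h.2
  rwa [sh_sh, sh_sh, sh_sh, neg_add_cancel, sh_zero, show -t + 1 + t = 1 by ring] at h1

/-- Free orbits cost `l` times their dimension. -/
theorem cost_orbits (hl : l.Prime) (h : Adm {rot1 H l} γ) (ha : HasCost (γ.on Fib) a)
    (s u : Finset (ℕ × (H ⊕ ZMod l → ℕ))) (hs : ∀ q ∈ s, Fib q.2 ∧ ¬ Sym q.2)
    (hs' : ∀ q ∈ s, ∀ q' ∈ s, q.1 = q'.1 → ∀ t, q'.2 = sh t q.2 → q = q')
    (hu : ∀ q ∈ u, Sym q.2) :
    l * ∑ q ∈ s, γ q.1 q.2 + ∑ q ∈ u, γ q.1 q.2 ≤ a := by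
  classical
  have hinj : Set.InjOn (fun x : (ℕ × (H ⊕ ZMod l → ℕ)) × ZMod l => (x.1.1, sh x.2 x.1.2))
      (s ×ˢ (Finset.univ : Finset (ZMod l)) : Finset _) := by
    rintro ⟨q, t⟩ hq ⟨q', t'⟩ hq' e
    have h1 : q ∈ s := (Finset.mem_product.1 hq).1
    have h2 : q' ∈ s := (Finset.mem_product.1 hq').1
    obtain ⟨e1, e2⟩ := Prod.mk.inj e
    obtain rfl : q = q' := hs' q h1 q' h2 e1 (-t' + t) (by
      rw [← sh_sh, show sh t q.2 = sh t' q'.2 from e2, sh_sh, neg_add_cancel, sh_zero])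
    exact Prod.ext rfl (sh_inj hl (hs q h1).1 (hs q h1).2 e2)
  have hd : Disjoint ((s ×ˢ (Finset.univ : Finset (ZMod l))).image
      fun x : (ℕ × (H ⊕ ZMod l → ℕ)) × ZMod l => (x.1.1, sh x.2 x.1.2)) u := by
    refine Finset.disjoint_left.2 fun q hq hq' => ?_
    obtain ⟨x, hx, rfl⟩ := Finset.mem_image.1 hq
    exact (hs x.1 (Finset.mem_product.1 hx).1).2 (sym_sh_Orb (hu _ hq'))
  have h1 := ha.sum_le (Finset.disjUnion _ _ hd)
  rw [Finset.sum_disjUnion, Finset.sum_image hinj, Finset.sum_product] at h1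
  refine le_of_eq_of_le (congrArg₂ _ ?_ ?_) h1
  · rw [Finset.mul_sum]
    refine Finset.sum_congr rfl fun q hq => ?_
    rw [Finset.sum_congr rfl fun t _ =>
      (γ.on_pos (fib_sh.2 (hs q hq).1) q.1).trans (h.sh t q.1 q.2)]
    simp
  · exact Finset.sum_congr rfl fun q hq => (γ.on_pos (hu q hq).1 q.1).symm

/-- The same for a list of living nodes of the first ideal and one further node. -/
theorem cost_list (hl : l.Prime) (h : Adm {rot1 H l} γ) (hs : ∀ j α, Sym α → γ j α = 0)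
    (ha : HasCost (γ.on Fib) a) (s : List (H ⊕ ZMod l → ℕ)) (hf : ∀ α ∈ s, Fib α ∧ γ 0 α ≠ 0)
    (hp : s.Pairwise fun α β => ∀ t, β ≠ sh t α) :
    l * s.length ≤ a ∧ (a < l * (s.length + 1) → ∀ j β, Fib β → γ j β ≠ 0 →
      j = 0 ∧ γ j β = 1 ∧ ∃ α ∈ s, ∃ t, β = sh t α) := by
  classical
  have hsym : ∀ α ∈ s, ∀ β ∈ s, ∀ t, β = sh t α → α = β := fun α hα β hβ t e => by
    by_contra hne
    haveI : Std.Symm fun α β : H ⊕ ZMod l → ℕ => ∀ t, β ≠ sh t α :=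
      ⟨fun α β h t e => h (-t) (by rw [e, sh_sh, neg_add_cancel, sh_zero])⟩
    exact hp.forall hα hβ hne t e
  have hnd : s.Nodup := hp.imp fun {α β} h e => h 0 (by rw [sh_zero, e])
  let S : Finset (ℕ × (H ⊕ ZMod l → ℕ)) := s.toFinset.image fun α => (0, α)
  have hS : ∀ q, q ∈ S ↔ q.1 = 0 ∧ q.2 ∈ s := fun q => by
    simp only [S, Finset.mem_image, List.mem_toFinset]
    exact ⟨fun ⟨α, h1, h2⟩ => h2 ▸ ⟨rfl, h1⟩, fun ⟨h1, h2⟩ => ⟨q.2, h2, Prod.ext h1.symm rfl⟩⟩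
  have hc : S.card = s.length := by
    rw [Finset.card_image_of_injective _ (Prod.mk_right_injective 0), List.toFinset_card_of_nodup hnd]
  have h1 : ∀ q ∈ S, 1 ≤ γ q.1 q.2 := fun q hq => by
    rw [((hS q).1 hq).1]
    exact Nat.one_le_iff_ne_zero.2 (hf _ ((hS q).1 hq).2).2
  have h2 : ∀ q ∈ S, Fib q.2 ∧ ¬ Sym q.2 := fun q hq =>
    ⟨(hf _ ((hS q).1 hq).2).1, fun e => (hf _ ((hS q).1 hq).2).2 (hs _ _ e)⟩
  have h3 : ∀ q ∈ S, ∀ q' ∈ S, q.1 = q'.1 → ∀ t, q'.2 = sh t q.2 → q = q' :=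
    fun q hq q' hq' e t e' => Prod.ext e (hsym _ ((hS q).1 hq).2 _ ((hS q').1 hq').2 t e')
  have h4 := cost_orbits hl h ha S ∅ h2 h3 (by simp)
  rw [Finset.sum_empty, add_zero] at h4
  have h5 : s.length ≤ ∑ q ∈ S, γ q.1 q.2 := by
    rw [← hc, Finset.card_eq_sum_ones]
    exact Finset.sum_le_sum h1
  refine ⟨(Nat.mul_le_mul_left _ h5).trans h4, fun hlt j β hβ hγ => ?_⟩
  have h6 : j = 0 ∧ ∃ α ∈ s, ∃ t, β = sh t α := by
    by_contra hne
    have h7 : ∀ q ∈ S, q.1 = j → ∀ t, β ≠ sh t q.2 := fun q hq e t e' =>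
      hne ⟨e ▸ ((hS q).1 hq).1, q.2, ((hS q).1 hq).2, t, e'⟩
    have h8 : (j, β) ∉ S := fun hq => h7 _ hq rfl 0 (sh_zero _).symm
    have h9 := cost_orbits hl h ha (insert (j, β) S) ∅
      (Finset.forall_mem_insert _ _ _ |>.2 ⟨⟨hβ, fun e => hγ (hs _ _ e)⟩, h2⟩)
      (fun q hq q' hq' e t e' => by
        rcases Finset.mem_insert.1 hq with rfl | hq <;>
          rcases Finset.mem_insert.1 hq' with rfl | hq'
        · rfl
        · exact absurd (by rw [e', sh_sh, neg_add_cancel, sh_zero]) (h7 q' hq' e.symm (-t))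
        · exact absurd e' (h7 q hq e t)
        · exact h3 q hq q' hq' e t e') (by simp)
    rw [Finset.sum_empty, add_zero, Finset.sum_insert h8] at h9
    have h10 : s.length + 1 ≤ γ j β + ∑ q ∈ S, γ q.1 q.2 := by omega
    exact absurd ((Nat.mul_le_mul_left _ h10).trans h9) (not_le.2 hlt)
  obtain ⟨rfl, α, hα, t, rfl⟩ := h6
  refine ⟨rfl, ?_, α, hα, t, rfl⟩
  by_contra hne
  rw [h.sh] at hne hγ
  have h10 : s.length + 1 ≤ ∑ q ∈ S, γ q.1 q.2 := by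
    rw [← hc, Finset.card_eq_sum_ones]
    exact Finset.sum_lt_sum h1 ⟨(0, α), (hS _).2 ⟨rfl, hα⟩, by
      change 1 < γ 0 α
      omega⟩
  exact absurd ((Nat.mul_le_mul_left _ h10).trans h4) (not_le.2 hlt)

theorem inv_Orb (hl : l.Prime) (h : Adm {rot1 H l} γ) (ha : HasCost (γ.on Fib) a)
    (φ : (H ⊕ ZMod l → ℕ) → ℕ) (hφ : ∀ t α, φ (sh t α) = φ α) (I : Finset ℕ) {j : ℕ}
    (hI : ∀ m ∈ I, ∃ β, Fib β ∧ ¬ Sym β ∧ γ j β ≠ 0 ∧ φ β = m)
    (u : Finset (ℕ × (H ⊕ ZMod l → ℕ))) (hu : ∀ q ∈ u, Sym q.2) :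
    l * I.card + ∑ q ∈ u, γ q.1 q.2 ≤ a := by
  classical
  choose! f f1 f2 f3 f4 using hI
  have h1 := cost_orbits hl h ha (I.image fun m => (j, f m)) u
    (Finset.forall_mem_image.2 fun m hm => ⟨f1 m hm, f2 m hm⟩) (fun q hq q' hq' _ t e => by
      obtain ⟨m, hm, rfl⟩ := Finset.mem_image.1 hq
      obtain ⟨m', hm', rfl⟩ := Finset.mem_image.1 hq'
      have h2 := congrArg φ e
      rw [hφ, f4 m hm, f4 m' hm'] at h2
      rw [h2]) hu
  refine le_trans (Nat.add_le_add_right (Nat.mul_le_mul_left _ ?_) _) h1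
  rw [Finset.sum_image fun m hm m' hm' e => by
    rw [← f4 m hm, ← f4 m' hm', (Prod.mk.inj e).2], Finset.card_eq_sum_ones]
  exact Finset.sum_le_sum fun m hm => Nat.one_le_iff_ne_zero.2 (f3 m hm)

theorem deg_le (hl : l.Prime) (h : Adm {rot1 H l} γ) (hs : ∀ j α, Sym α → γ j α = 0)
    (ha : HasCost (γ.on Fib) a) {j : ℕ} {α : H ⊕ ZMod l → ℕ} (hf : Fib α) (hα : γ j α ≠ 0) :
    l * tot α ≤ a := by
  obtain ⟨z, hz⟩ := hf
  have h1 := inv_Orb hl h ha tot tot_sh (Finset.Icc 1 (tot α)) (j := j) (fun m hm => by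
    obtain ⟨β, -, b1, b2, b3⟩ := h.exists_deg hα hz (Finset.mem_Icc.1 hm).1 (Finset.mem_Icc.1 hm).2
    exact ⟨β, ⟨z, b1⟩, fun e => b2 (hs _ _ e), b2, b3⟩) ∅ (by simp)
  simpa using h1

theorem dvd_cost (hl : l.Prime) (h : Adm {rot1 H l} γ) (hs : ∀ j α, Sym α → γ j α = 0)
    (ha : HasCost (γ.on Fib) a) : l ∣ a := by
  classical
  have hS : ∀ q, q ∈ ha.finite.toFinset ↔ Fib q.2 ∧ γ q.1 q.2 ≠ 0 := fun q => by
    rw [Set.Finite.mem_toFinset, Set.mem_ofPred_eq]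
    by_cases hq : Fib q.2
    · rw [γ.on_pos hq]
      exact ⟨fun h => ⟨hq, h⟩, fun h => h.2⟩
    · rw [γ.on_neg hq]
      exact ⟨fun h => absurd rfl h, fun h => absurd h.1 hq⟩
  have h1 := ha.sum_eq (s := ha.finite.toFinset) fun j α hq => by
    by_contra hne
    exact hq (ha.finite.mem_toFinset.2 hne)
  rw [← h1, ← ZMod.natCast_eq_zero_iff, Nat.cast_sum]
  let R : Setoid (ℕ × (H ⊕ ZMod l → ℕ)) := ⟨fun q q' => q.1 = q'.1 ∧ ∃ t, q.2 = sh t q'.2,
    fun q => ⟨rfl, 0, (sh_zero _).symm⟩,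
    fun ⟨e, t, e'⟩ => ⟨e.symm, -t, by rw [e', sh_sh, neg_add_cancel, sh_zero]⟩,
    fun ⟨e, t, e'⟩ ⟨d, s, d'⟩ => ⟨e.trans d, t + s, by rw [e', d', sh_sh]⟩⟩
  refine Finset.sum_cancels_of_partition_cancels R fun x hx => ?_
  obtain ⟨x1, x2⟩ := (hS x).1 hx
  have e : ha.finite.toFinset.filter (fun q => R q x) =
      Finset.univ.image fun t : ZMod l => (x.1, sh t x.2) := by
    ext q
    rw [Finset.mem_filter, Finset.mem_image, hS]
    constructor
    · rintro ⟨-, e, t, e'⟩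
      exact ⟨t, Finset.mem_univ _, Prod.ext e.symm e'.symm⟩
    · rintro ⟨t, -, rfl⟩
      exact ⟨⟨fib_sh.2 x1, by rw [h.sh]; exact x2⟩, rfl, t, rfl⟩
  rw [e, Finset.sum_image fun t _ t' _ e =>
    sh_inj hl x1 (fun e => x2 (hs _ _ e)) (Prod.mk.inj e).2]
  rw [Finset.sum_congr rfl fun t _ => congrArg Nat.cast
    ((γ.on_pos (fib_sh.2 x1) x.1).trans (h.sh t x.1 x.2))]
  simp

theorem small_cost (h : Adm {rot1 H l} γ) (ha : HasCost (γ.on Fib) a) (hlt : a < l) : a = 0 := by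
  classical
  refine ha.unique (hasCost_zero.2 (funext fun j => funext fun α => ?_))
  by_contra hne
  by_cases hf : Fib α
  · rw [γ.on_pos hf] at hne
    obtain ⟨z, hz⟩ := hf
    have h1 : ∀ w, γ.on Fib j (fb H w) = 1 := fun w => by
      rw [γ.on_pos ⟨w, by simp⟩, ← h.gen_alive hne hz, ← h.sh (w - z) j (fb H z), sh_fb,
        add_sub_cancel]
    have h2 := ha.sum_le (Finset.univ.image fun w : ZMod l => (j, fb H w))
    rw [Finset.sum_image fun w _ w' _ e => by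
      have h3 := congrFun (Prod.mk.inj e).2 (.inr w)
      by_contra hw
      simp [hw] at h3, Finset.sum_congr rfl fun w _ => h1 w] at h2
    simp at h2
    omega
  · exact hne (γ.on_neg hf j)

theorem exists_mixed_two (h : Adm {rot1 H l} γ) {j : ℕ} {α : H ⊕ ZMod l → ℕ} (hm : Mixed α)
    (hα : γ j α ≠ 0) : ∃ x : H, γ j (hb l x + fb H 0) ≠ 0 := by
  obtain ⟨⟨z, hz⟩, x₀, hx₀⟩ := hm
  have hw : ∀ β : H ⊕ ZMod l → ℕ, ∑ y, Sum.elim (fun _ => 1) (fun _ => 0) y * β y =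
      ∑ x, β (.inl x) := fun β => by simp [Fintype.sum_sum_type]
  obtain ⟨β, -, b1, b2, b3⟩ := h.exists_mid (Sum.elim (fun _ => 1) fun _ => 0)
    (fun y => by cases y <;> simp) hα hz (m := 1) (by simp) (by
      rw [hw]
      exact (Nat.one_le_iff_ne_zero.2 hx₀).trans
        (Finset.single_le_sum (f := fun x => α (.inl x)) (fun _ _ => Nat.zero_le _)
          (Finset.mem_univ x₀)))
  rw [hw] at b3
  obtain ⟨x, -, hx⟩ := Finset.exists_ne_zero_of_sum_ne_zero (b3.trans_ne one_ne_zero)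
  obtain ⟨δ, d0, d1, d2, d3⟩ := h.exists_deg b2 hx (m := 2) one_le_two (by
    have h1 : fdeg β ≠ 0 := fib_iff.1 ⟨z, b1⟩
    rw [tot, Fintype.sum_sum_type, b3]
    change 2 ≤ 1 + fdeg β
    omega)
  have d4 : ∑ x, δ (.inl x) ≤ 1 := (Finset.sum_le_sum fun x _ => d0 (.inl x)).trans_eq b3
  have key : ∀ (x : H) (w : ZMod l), γ j (hb l x + fb H w) ≠ 0 → γ j (hb l x + fb H 0) ≠ 0 :=
    fun x w e => by rwa [← h.sh (-w), sh_add, sh_hb, sh_fb, add_neg_cancel] at e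
  obtain ⟨y, y', rfl⟩ := tot_eq_two.1 d3
  rcases y with y | y <;> rcases y' with y' | y'
  · simp [Finset.sum_add_distrib, Pi.single_apply] at d4
  · exact ⟨y, key y y' d2⟩
  · exact ⟨y', key y' y (by rwa [add_comm])⟩
  · simp at d1

/-- Sketch: below a living symmetric node there are living nodes with `1, …, l - 1` fibre letters
(`Adm.exists_mid`), they are not symmetric. -/
theorem pure_comb (hl : l.Prime) (h5 : 5 ≤ l) (h : Adm {rot1 H l} γ) (ha : HasCost (γ.on Fib) a)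
    (hk : HasCost (γ.comap Sum.inl) k) (hak : a < 5 * l ∨ a + k ≤ 5 * l + 1) {j : ℕ}
    {α : H ⊕ ZMod l → ℕ} (hs : Sym α) (hα : γ j α ≠ 0) :
    l = 5 ∧ 21 ≤ a ∧ ∀ i β, Mixed β → γ i β = 0 := by
  have hα0 := h.alive_zero hα
  obtain ⟨z, hz⟩ := hs.1
  have hw : ∀ β : H ⊕ ZMod l → ℕ, ∑ y, Sum.elim (fun _ => 0) (fun _ => 1) y * β y = fdeg β :=
    fun β => by simp [Fintype.sum_sum_type, fdeg]
  have hn : ∀ β : H ⊕ ZMod l → ℕ, fdeg β < l → ¬ Sym β := fun β h1 h2 =>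
    absurd h2.le_fdeg (not_le.2 h1)
  have mid : ∀ m, 1 ≤ m → m < l → ∃ β, Fib β ∧ ¬ Sym β ∧ γ 0 β ≠ 0 ∧ fdeg β = m := fun m h1 h2 => by
    obtain ⟨β, -, b1, b2, b3⟩ := h.exists_mid (Sum.elim (fun _ => 0) fun _ => 1)
      (fun y => by cases y <;> simp) hα0 hz (m := m) h1 (by
        rw [hw]
        exact h2.le.trans hs.le_fdeg)
    rw [hw] at b3
    exact ⟨β, ⟨z, b1⟩, hn β (b3.trans_lt h2), b2, b3⟩
  have h1 := inv_Orb hl h ha fdeg fdeg_sh (Finset.Ico 1 l) (j := 0)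
    (fun m hm => mid m (Finset.mem_Ico.1 hm).1 (Finset.mem_Ico.1 hm).2) {(0, α)} (by simpa using hs)
  rw [Finset.sum_singleton, Nat.card_Ico] at h1
  change l * (l - 1) + γ 0 α ≤ a at h1
  have h2 : l = 5 := by
    by_contra hne
    have h3 : l ≠ 6 := fun e => absurd (e ▸ hl) (by norm_num)
    have h4 : l * 6 ≤ l * (l - 1) := Nat.mul_le_mul_left _ (by omega)
    omega
  refine ⟨h2, by subst h2; omega, fun i β hm => ?_⟩
  by_contra hne
  obtain ⟨x, hx⟩ := exists_mixed_two h hm (h.alive_zero hne)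
  have h3 := hk.sum_le {(0, one x)}
  rw [Finset.sum_singleton] at h3
  change γ 0 (push Sum.inl (one x)) ≤ k at h3
  rw [push_one, h.gen_alive hx (x := .inl x) (by simp)] at h3
  have f1 : fdeg (hb l x + fb H 0) = 1 := by rw [fdeg_add, fdeg_hb, fdeg_fb]
  have h4 := inv_Orb hl h ha (fun β => if tot β = 1 then 0 else fdeg β)
    (fun t β => by rw [tot_sh, fdeg_sh]) (Finset.range 5) (j := 0) (fun m hm => by
      rcases Nat.lt_or_ge m 2 with h6 | h6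
      · obtain rfl | rfl : m = 0 ∨ m = 1 := by omega
        · refine ⟨fb H 0, ⟨0, by simp⟩, hn _ (by rw [fdeg_fb]; omega), ?_, if_pos (tot_one _)⟩
          rw [h.gen_alive hx (x := .inr 0) (by simp)]
          exact one_ne_zero
        · refine ⟨_, ⟨0, by simp⟩, hn _ (by rw [f1]; omega), hx, ?_⟩
          rw [if_neg (by rw [tot_add, tot_one, tot_one]; omega), f1]
      · obtain ⟨δ, d1, d2, d3, d4⟩ := mid m (by omega) (by
          have := Finset.mem_range.1 hm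
          omega)
        refine ⟨δ, d1, d2, d3, ?_⟩
        rw [if_neg, d4]
        rw [tot, Fintype.sum_sum_type]
        change _ + fdeg δ ≠ 1
        omega) {(0, α)} (by simpa using hs)
  rw [Finset.sum_singleton, Finset.card_range] at h4
  change l * 5 + γ 0 α ≤ a at h4
  omega

end Cost

end Pool.Agent.P.MP_8598be_al.Z
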