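import Pool.Agent.P.MP_8598be_al.Z.Push

/-!
Renaming of generators and chains.
-/

namespace Pool.Agent.P.MP_8598be_al.Z

open Module

section Chains

variable {F X Y Z : Type} [Field F] [Fintype X] [DecidableEq X] [DecidableEq Y]

theorem rank_map_ren {g : X → Y} (hg : Function.Injective g) (V : Submodule F (FL F X)) :
    finrank F (V.map (ren F g : FL F X →ₗ[F] FL F Y)) = finrank F V := by
  exact (Submodule.equivMapOfInjective (ren F g : FL F X →ₗ[F] FL F Y) (ren_inj hg)
    V).finrank_eq.symm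

theorem rank_mp_push {g : X → Y} (hg : Function.Injective g) (α : X → ℕ) :
    finrank F (mp F (push g α)) = finrank F (mp F α) := by
  rw [← map_ren_mp hg, rank_map_ren hg]

theorem Thin.push {g : X → Y} (hg : Function.Injective g) {α : X → ℕ} (h : Thin α) [Fintype Y] :
    Thin (push g α) := by
  intro F _
  rw [rank_mp_push hg]
  exact h F

/-- The inverse of a permutation of a finite set is a power. -/
theorem Inv.closure {S : Set (Equiv.Perm X)} {J : Chain F X} (h : Inv S J) :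
    Inv (Subgroup.closure S : Set (Equiv.Perm X)) J := by
  intro g hg
  have hg' : g ∈ Submonoid.closure S := by
    rw [← Subgroup.closure_toSubmonoid_of_finite]
    exact hg
  clear hg
  induction hg' using Submonoid.closure_induction with
  | mem g hg => exact h g hg
  | one =>
    intro j α u hu
    rw [Equiv.Perm.coe_one, ren_id, push_id]
    exact hu
  | mul a b _ _ ha hb =>
    intro j α u hu
    rw [Equiv.Perm.coe_mul, ← ren_ren, ← push_comp]
    exact ha j _ _ (hb j α u hu)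

omit [Fintype X] [DecidableEq X] in
theorem ren_inv_Ren (g : Equiv.Perm X) (v : FL F X) : ren F g (ren F (g⁻¹ :) v) = v := by
  rw [ren_ren, ← Equiv.Perm.coe_mul, mul_inv_cancel, Equiv.Perm.coe_one, ren_id]

theorem push_inv_Ren (g : Equiv.Perm X) (α : X → ℕ) : push (g⁻¹ :) (push g α) = α := by
  rw [push_comp, ← Equiv.Perm.coe_mul, inv_mul_cancel, Equiv.Perm.coe_one, push_id]

theorem Inv.map_eq {S : Set (Equiv.Perm X)} {J : Chain F X} (h : Inv S J) {g : Equiv.Perm X}
    (hg : g ∈ Subgroup.closure S) (j : ℕ) (α : X → ℕ) :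
    (J.J j α).map (ren F g : FL F X →ₗ[F] FL F X) = J.J j (push g α) := by
  refine le_antisymm ?_ fun v hv => ⟨ren F (g⁻¹ :) v, ?_, ren_inv_Ren g v⟩
  · rintro _ ⟨u, hu, rfl⟩
    exact h.closure g hg j α u hu
  · have := h.closure g⁻¹ (inv_mem hg) j _ v hv
    rwa [push_inv_Ren] at this

theorem Inv.low_eq {S : Set (Equiv.Perm X)} {J : Chain F X} (h : Inv S J) {g : Equiv.Perm X}
    (hg : g ∈ Subgroup.closure S) (j : ℕ) (α : X → ℕ) :
    (J.low j α).map (ren F g : FL F X →ₗ[F] FL F X) = J.low j (push g α) := by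
  have key : ∀ g ∈ Subgroup.closure S, ∀ α,
      (J.low j α).map (ren F g : FL F X →ₗ[F] FL F X) ≤ J.low j (push g α) := by
    intro g hg α
    rw [Submodule.map_le_iff_le_comap]
    refine iSup_le fun β => iSup_le fun y => iSup_le fun e => ?_
    rintro _ ⟨u, hu, rfl⟩
    have h1 : (J.J j (push g β)).map (adr F (g y)) ≤ J.low j (push g α) :=
      le_iSup_of_le (push g β) (le_iSup_of_le (g y)
        (le_iSup_of_le (by rw [← e, push_add_one]) le_rfl))
    exact h1 ⟨ren F g u, h.closure g hg j β u hu, (ren_adr g y u).symm⟩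
  refine le_antisymm (key g hg α) fun v hv => ⟨ren F (g⁻¹ :) v, ?_, ren_inv_Ren g v⟩
  have := key g⁻¹ (inv_mem hg) _ ⟨v, hv, rfl⟩
  rwa [push_inv_Ren] at this

theorem Inv.adm {S : Set (Equiv.Perm X)} {J : Chain F X} (h : Inv S J) : Adm S J.ty := by
  have h0 := J.adm_empty
  refine ⟨h0.zero, h0.gen, h0.sq, h0.anti, h0.bd, fun g hg j α => ?_⟩
  unfold Chain.ty
  rw [rank_mp_push g.injective, ← h.map_eq (Subgroup.subset_closure hg), rank_map_ren g.injective]

theorem Chain.map_comap (J : Chain F Y) {g : X → Y} (hg : Function.Injective g) (j : ℕ)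
    (α : X → ℕ) :
    ((J.comap g).J j α).map (ren F g : FL F X →ₗ[F] FL F Y) = J.J j (push g α) := by
  refine le_antisymm ?_ fun v hv => ?_
  · rintro _ ⟨u, hu, rfl⟩
    exact hu.2
  · have h1 := J.le j _ hv
    rw [← map_ren_mp hg] at h1
    obtain ⟨u, hu, rfl⟩ := h1
    exact ⟨u, ⟨hu, hv⟩, rfl⟩

theorem Chain.ty_comap (J : Chain F Y) {g : X → Y} (hg : Function.Injective g) :
    (J.comap g).ty = J.ty.comap g := by
  funext j α
  unfold Ty.comap Chain.ty
  rw [rank_mp_push hg, ← J.map_comap hg, rank_map_ren hg]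

theorem Chain.comap_comap [Fintype Y] [DecidableEq Z] (J : Chain F Z) (g : X → Y) (g' : Y → Z) :
    (J.comap g').comap g = J.comap (g' ∘ g) := by
  ext j α u
  change u ∈ mp F α ∧ ren F g u ∈ mp F (push g α) ∧
    ren F g' (ren F g u) ∈ J.J j (push g' (push g α)) ↔
      u ∈ mp F α ∧ ren F (g' ∘ g) u ∈ J.J j (push (g' ∘ g) α)
  rw [ren_ren, push_comp]
  exact ⟨fun h => ⟨h.1, h.2.2⟩, fun h => ⟨h.1, ren_mem g h.1, h.2⟩⟩

theorem Chain.comap_id (J : Chain F X) : J.comap id = J := by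
  ext j α u
  change u ∈ mp F α ∧ ren F id u ∈ J.J j (push id α) ↔ _
  rw [ren_id, push_id]
  exact ⟨fun h => h.2, fun h => ⟨J.le j α h, h⟩⟩

theorem exists_map_Ren (J : Chain F X) {g : X → Y} (hg : Function.Injective g) :
    ∃ J' : Chain F Y, ∀ j β u, u ∈ J'.J j β ↔ u ∈ mp F β ∧
      ∀ α, push g α = β → u ∈ (J.J j α).map (ren F g : FL F X →ₗ[F] FL F Y) := by
  obtain ⟨K, hK⟩ : ∃ K : ℕ → (Y → ℕ) → Submodule F (FL F Y), ∀ j β u, u ∈ K j β ↔ u ∈ mp F β ∧
      ∀ α, push g α = β → u ∈ (J.J j α).map (ren F g : FL F X →ₗ[F] FL F Y) :=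
    ⟨fun j β => mp F β ⊓ ⨅ (α : X → ℕ) (_ : push g α = β),
      (J.J j α).map (ren F g : FL F X →ₗ[F] FL F Y), fun j β u => by
        simp only [Submodule.mem_inf, Submodule.mem_iInf]⟩
  refine ⟨⟨K, fun j β u hu => ((hK j β u).1 hu).1, fun j β u hu => ?_, fun j β y u hu => ?_⟩, hK⟩
  · rw [hK] at hu ⊢
    exact ⟨hu.1, fun α e => Submodule.map_mono (J.mono j α) (hu.2 α e)⟩
  rw [hK] at hu ⊢
  refine ⟨lie_gen_mem F β y u hu.1, fun α e => ?_⟩
  obtain ⟨x, rfl⟩ : ∃ x, g x = y := by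
    by_contra hy
    have := congrFun e y
    rw [push_apply_of_not α (not_exists.1 hy)] at this
    simp at this
  have hx : α x ≠ 0 := by
    have := congrFun e (g x)
    rw [push_apply hg] at this
    simp [this]
  rw [← sub_add_one hx, push_add_one] at e
  obtain ⟨w, hw, rfl⟩ := hu.2 _ (add_right_cancel e)
  rw [← sub_add_one hx]
  exact ⟨_, J.br j _ x w hw, ren_adr g x w⟩

/-- Extension of a chain to a larger alphabet, the new letters being dead. -/
theorem Chain.exists_map (J : Chain F X) {g : X → Y} (hg : Function.Injective g) :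
    ∃ J' : Chain F Y, J'.comap g = J ∧
      (∀ j α, J'.J j (push g α) = (J.J j α).map (ren F g : FL F X →ₗ[F] FL F Y)) ∧
      ∀ j β, (∀ α, push g α ≠ β) → J'.J j β = mp F β := by
  obtain ⟨J', hJ⟩ := exists_map_Ren J hg
  have key : ∀ j α, J'.J j (push g α) = (J.J j α).map (ren F g : FL F X →ₗ[F] FL F Y) := by
    intro j α
    ext u
    rw [hJ]
    refine ⟨fun h => h.2 α rfl, fun h => ⟨?_, fun α' e => by rwa [push_inj hg e]⟩⟩
    rw [← map_ren_mp hg]
    exact Submodule.map_mono (J.le j α) h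
  refine ⟨J', ?_, key, fun j β h => ?_⟩
  · ext j α u
    change u ∈ mp F α ∧ ren F g u ∈ J'.J j (push g α) ↔ _
    rw [key]
    refine ⟨fun h => ?_, fun h => ⟨J.le j α h, u, h, rfl⟩⟩
    obtain ⟨w, hw, e⟩ := h.2
    rwa [← ren_inj hg e]
  · ext u
    rw [hJ]
    exact ⟨fun h => h.1, fun hu => ⟨hu, fun α e => absurd e (h α)⟩⟩

/-- The intersection of a family of chains. -/
theorem Chain.exists_iInf {ι : Type} (J : ι → Chain F X) :
    ∃ J' : Chain F X, ∀ j α, J'.J j α = mp F α ⊓ ⨅ i, (J i).J j α := by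
  refine ⟨⟨fun j α => mp F α ⊓ ⨅ i, (J i).J j α, fun _ _ => inf_le_left,
    fun j α => inf_le_inf_left _ (iInf_mono fun i => (J i).mono j α), fun j α y u hu => ?_⟩,
    fun _ _ => rfl⟩
  exact ⟨lie_gen_mem F α y u hu.1, (Submodule.mem_iInf _).2 fun i =>
    (J i).br j α y u ((Submodule.mem_iInf _).1 hu.2 i)⟩

/-- Invariance passes to a pullback. -/
theorem Inv.comap [Fintype Y] {S : Set (Equiv.Perm X)} {T : Set (Equiv.Perm Y)} {J : Chain F Y}
    (h : Inv T J) {g : X → Y} (hS : ∀ s ∈ S, ∃ t ∈ T, ∀ x, t (g x) = g (s x)) :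
    Inv S (J.comap g) := by
  intro s hs j α u hu
  obtain ⟨t, ht, e⟩ := hS s hs
  have e' : g ∘ s = t ∘ g := funext fun x => (e x).symm
  refine ⟨ren_mem s hu.1, ?_⟩
  change ren F g (ren F s u) ∈ J.J j (push g (push s α))
  rw [ren_ren, push_comp, e', ← ren_ren, ← push_comp]
  exact h t ht j _ _ hu.2

/-- Chains on equivalent alphabets. -/
noncomputable def eqv_Ren [Fintype Y] (e : X ≃ Y) : Chain F Y ≃ Chain F X where
  toFun J := J.comap e
  invFun J := J.comap e.symm
  left_inv J := by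
    change (J.comap e).comap e.symm = J
    rw [Chain.comap_comap, e.self_comp_symm, Chain.comap_id]
  right_inv J := by
    change (J.comap e.symm).comap e = J
    rw [Chain.comap_comap, e.symm_comp_self, Chain.comap_id]

theorem inv_iff_Ren [Fintype Y] (e : X ≃ Y) (S : Set (Equiv.Perm X)) (J : Chain F Y) :
    Inv (e.permCongr '' S) J ↔ Inv S (eqv_Ren e J) := by
  refine ⟨fun h => h.comap fun s hs => ⟨_, ⟨s, hs, rfl⟩, fun x => by simp⟩, fun h => ?_⟩
  rw [← (eqv_Ren e).symm_apply_apply J]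
  refine h.comap ?_
  rintro _ ⟨s, hs, rfl⟩
  exact ⟨s, hs, fun y => by simp⟩

omit [DecidableEq X] in
theorem push_back_Ren [Fintype Y] [DecidableEq X] (e : X ≃ Y) (β : Y → ℕ) :
    push e (push e.symm β) = β := by
  rw [push_comp, e.self_comp_symm, push_id]

theorem ty_back_Ren [Fintype Y] (e : X ≃ Y) (γ : Ty Y) : (γ.comap e).comap e.symm = γ := by
  funext j β
  exact congrArg (γ j) (push_back_Ren e β)

theorem cost_Ren [Fintype Y] (e : X ≃ Y) {γ : Ty Y} {c n : ℕ} (h : Cls γ c ∧ HasCost γ n) :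
    Cls (γ.comap e) c ∧ HasCost (γ.comap e) n := by
  obtain ⟨h1, s, h2, h3⟩ := h
  refine ⟨fun j α hc => h1 j _ (by rwa [tot_push]),
    s.map ⟨fun q => (q.1, push e.symm q.2), fun q q' h => ?_⟩, fun j α hs => h2 j _ fun hm => ?_, ?_⟩
  · exact Prod.ext (congrArg Prod.fst h :) (push_inj e.symm.injective (congrArg Prod.snd h :))
  · exact hs (Finset.mem_map.2 ⟨_, hm, Prod.ext rfl (push_back_Ren e.symm α)⟩)
  · rw [Finset.sum_map, ← h3]
    exact Finset.sum_congr rfl fun q _ => congrArg (γ q.1) (push_back_Ren e q.2)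

theorem cntT_equiv [Fintype Y] (e : X ≃ Y) (S : Set (Equiv.Perm X)) (γ : Ty Y) :
    cntT F (e.permCongr '' S) γ = cntT F S (γ.comap e) := by
  refine Nat.card_congr ((eqv_Ren e).subtypeEquiv fun J => and_congr (inv_iff_Ren e S J) ?_)
  change _ ↔ (J.comap e).ty = _
  rw [J.ty_comap e.injective]
  refine ⟨fun h => by rw [h], fun h => ?_⟩
  rw [← ty_back_Ren e J.ty, h, ty_back_Ren]

theorem cntC_equiv [Fintype Y] (e : X ≃ Y) (S : Set (Equiv.Perm X)) (c n : ℕ) :
    cntC F (e.permCongr '' S) c n = cntC F S c n := by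
  refine Nat.card_congr ((eqv_Ren e).subtypeEquiv fun J => and_congr (inv_iff_Ren e S J) ?_)
  change _ ↔ Cls (J.comap e).ty c ∧ HasCost (J.comap e).ty n
  rw [J.ty_comap e.injective]
  refine ⟨cost_Ren e, fun h => ?_⟩
  rw [← ty_back_Ren e J.ty]
  exact cost_Ren e.symm h

end Chains

end Pool.Agent.P.MP_8598be_al.Z
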