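import Pool.Agent.P.MP_8598be_al.Z.Adm
import Pool.Agent.P.MP_8598be_al.Z.Ren

/-!
Finiteness and sums over types.
-/

namespace Pool.Agent.P.MP_8598be_al.Z

open Module

section Fin

variable {F X : Type} [Field F] [Fintype X] [DecidableEq X]

theorem finite_fibre_Tys [Finite F] {γ : Ty X} {n : ℕ} (h : HasCost γ n) :
    {J : Chain F X | J.ty = γ}.Finite := by
  obtain ⟨s, hs, -⟩ := h
  have : ∀ α : X → ℕ, Finite (mp F α) := fun α => Module.finite_of_finite F
  refine Set.Finite.of_finite_image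
    (f := fun (J : Chain F X) (q : s) => (J.J q.1.1 q.1.2).comap (mp F q.1.2).subtype)
    (Set.toFinite _) fun J hJ J' hJ' e => Chain.ext (funext fun j => funext fun α => ?_)
  by_cases hq : (j, α) ∈ s
  · have h1 := congrArg (Submodule.map (mp F α).subtype) (congrFun e ⟨(j, α), hq⟩)
    rwa [Submodule.map_comap_subtype, Submodule.map_comap_subtype, inf_of_le_right (J.le j α),
      inf_of_le_right (J'.le j α)] at h1
  · rw [J.ty_eq_zero.1 ((congrFun₂ hJ j α).trans (hs j α hq)),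
      J'.ty_eq_zero.1 ((congrFun₂ hJ' j α).trans (hs j α hq))]

theorem finite_chains [Finite F] (n : ℕ) : {J : Chain F X | HasCost J.ty n}.Finite := by
  refine ((finite_tys ∅ n).biUnion fun γ h => finite_fibre_Tys (F := F) h.2).subset fun J h => ?_
  exact Set.mem_biUnion (show J.ty ∈ _ from ⟨J.adm_empty, h⟩) rfl

theorem mem_chains [Finite F] {S : Set (Equiv.Perm X)} {c n : ℕ} {J : Chain F X} :
    J ∈ chains F S c n ↔ Inv S J ∧ Cls J.ty c ∧ HasCost J.ty n := by
  rw [chains, dif_pos ((finite_chains n).subset fun _ h => h.2.2), Set.Finite.mem_toFinset]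
  rfl

theorem cntC_eq_card [Finite F] (S : Set (Equiv.Perm X)) (c n : ℕ) :
    cntC F S c n = (chains F S c n).card := by
  exact Nat.subtype_card _ fun _ => mem_chains

open Classical in
theorem cntT_eq_Tys [Finite F] {S : Set (Equiv.Perm X)} {c n : ℕ} {γ : Ty X} (h : γ ∈ tys S c n) :
    cntT F S γ = ((chains F S c n).filter fun J => J.ty = γ).card := by
  refine Nat.subtype_card _ fun J => ?_
  rw [Finset.mem_filter, mem_chains]
  exact ⟨fun h => ⟨h.1.1, h.2⟩, fun h' => ⟨⟨h'.1, h'.2 ▸ (mem_tys.1 h).2⟩, h'.2⟩⟩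

theorem ty_mem_Tys [Finite F] {S : Set (Equiv.Perm X)} {c n : ℕ} :
    ∀ J ∈ chains F S c n, J.ty ∈ tys S c n := fun _ h =>
  mem_tys.2 ⟨(mem_chains.1 h).1.adm, (mem_chains.1 h).2⟩

theorem cntC_eq_sum [Finite F] (S : Set (Equiv.Perm X)) (c n : ℕ) :
    cntC F S c n = ∑ γ ∈ tys S c n, cntT F S γ := by
  classical
  rw [cntC_eq_card, Finset.card_eq_sum_card_fiberwise ty_mem_Tys]
  exact Finset.sum_congr rfl fun γ h => (cntT_eq_Tys h).symm

/-- Sums over chains of functions of the type. -/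
theorem sum_chains [Finite F] (S : Set (Equiv.Perm X)) (c n : ℕ) (f : Chain F X → ℤ)
    (g : Ty X → ℤ) (h : ∀ J ∈ chains F S c n, f J = g J.ty) :
    ∑ J ∈ chains F S c n, f J = ∑ γ ∈ tys S c n, (cntT F S γ : ℤ) * g γ := by
  classical
  rw [Finset.sum_congr rfl h, ← Finset.sum_fiberwise_of_maps_to ty_mem_Tys]
  refine Finset.sum_congr rfl fun γ hγ => ?_
  rw [cntT_eq_Tys hγ, ← nsmul_eq_mul, ← Finset.sum_const]
  exact Finset.sum_congr rfl fun J hJ => congrArg g (Finset.mem_filter.1 hJ).2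

theorem cntT_of_not_adm {S : Set (Equiv.Perm X)} {γ : Ty X} (h : ¬ Adm S γ) : cntT F S γ = 0 := by
  have : IsEmpty {J : Chain F X // Inv S J ∧ J.ty = γ} := ⟨fun J => h (J.2.2 ▸ J.2.1.adm)⟩
  exact Nat.card_of_isEmpty

theorem cntT_zero (S : Set (Equiv.Perm X)) : cntT F S (0 : Ty X) = 1 := by
  let J : Chain F X := ⟨fun _ α => mp F α, fun _ _ => le_rfl, fun _ _ => le_rfl,
    fun _ α y u hu => lie_gen_mem F α y u hu⟩
  refine Nat.card_eq_one_iff_exists.2 ⟨⟨J, fun g _ j α u hu => ren_mem g hu,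
    funext fun j => funext fun α => J.ty_eq_zero.2 rfl⟩, fun J' => Subtype.ext
      (Chain.ext (funext fun j => funext fun α => J'.1.ty_eq_zero.1 (congrFun₂ J'.2.2 j α)))⟩

theorem cntE_bot (S : Set (Equiv.Perm X)) (γ : Ty X) :
    cntE F S γ (fun _ _ => ⊥) = cntT F S γ := by
  simp only [cntE, cntT, bot_le, implies_true, and_true]

end Fin

end Pool.Agent.P.MP_8598be_al.Z
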