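import Pool.Agent.P.MP_8598be_al.Z.Glue
import Pool.Agent.P.MP_8598be_al.Z.Orb
import Pool.Agent.P.MP_8598be_al.Z.Tys

/-!
The product formula for chains without nodes that involve two fibres.
-/

namespace Pool.Agent.P.MP_8598be_al.Z

variable {H B : Type} {l q : ℕ} [Fintype H] [DecidableEq H] [Fintype B] [DecidableEq B] [NeZero l]
  [NeZero q] {F : Type} [Field F]

theorem cost_add_prod {X : Type} {γ γ' : Ty X} {a b : ℕ} (h : HasCost γ a) (h' : HasCost γ' b) :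
    HasCost (γ + γ') (a + b) := by
  classical
  obtain ⟨s, hs, -⟩ := id h
  obtain ⟨t, ht, -⟩ := id h'
  have e1 : ∀ j α, (j, α) ∉ s ∪ t → γ j α = 0 := fun j α hj =>
    hs j α fun h => hj (Finset.mem_union_left _ h)
  have e2 : ∀ j α, (j, α) ∉ s ∪ t → γ' j α = 0 := fun j α hj =>
    ht j α fun h => hj (Finset.mem_union_right _ h)
  refine ⟨s ∪ t, fun j α hj => ?_, ?_⟩
  · rw [Pi.add_apply, Pi.add_apply, e1 j α hj, e2 j α hj]
  · rw [← h.sum_eq e1, ← h'.sum_eq e2, ← Finset.sum_add_distrib]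
    rfl

theorem cost_sum_prod {X ι : Type} (s : Finset ι) {γ : ι → Ty X} {a : ι → ℕ}
    (h : ∀ i, HasCost (γ i) (a i)) : HasCost (∑ i ∈ s, γ i) (∑ i ∈ s, a i) := by
  classical
  induction s using Finset.induction_on with
  | empty => exact hasCost_zero.2 rfl
  | insert i s hi ih =>
    rw [Finset.sum_insert hi, Finset.sum_insert hi]
    exact cost_add_prod (h i) ih

theorem card_rel_prod {α β : Type} (S : Finset α) (P : β → Prop) (r : α → β → Prop)
    (h1 : ∀ x ∈ S, ∃ y, P y ∧ r x y) (h2 : ∀ y, P y → ∃ x ∈ S, r x y)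
    (h3 : ∀ x ∈ S, ∀ x' ∈ S, ∀ y, r x y → r x' y → x = x')
    (h4 : ∀ x y y', P y → P y' → r x y → r x y' → y = y') : Nat.card {y // P y} = S.card := by
  choose g g1 g2 using h1
  rw [← Nat.card_eq_finsetCard]
  refine (Nat.card_eq_of_bijective (fun x : S => (⟨g x.1 x.2, g1 x.1 x.2⟩ : {y // P y}))
    ⟨fun x x' e => Subtype.ext (h3 _ x.2 _ x'.2 _ (g2 _ x.2) ?_), fun y => ?_⟩).symm
  · rw [show g x.1 x.2 = g x'.1 x'.2 from congrArg Subtype.val e]
    exact g2 _ x'.2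
  · obtain ⟨x, hx, e⟩ := h2 y.1 y.2
    exact ⟨⟨x, hx⟩, Subtype.ext (h4 x _ _ (g1 x hx) y.2 (g2 x hx) e)⟩

omit [Fintype B] [NeZero q] in
theorem push_emb_prod {i i' : ZMod q × B} (e : i ≠ i') (β : H ⊕ ZMod l → ℕ) (z : ZMod l) :
    push (emb H i) β (.inr (z, i')) = 0 := by
  refine push_apply_of_not β ?_
  rintro (x | x) h
  · exact Sum.inl_ne_inr h
  · exact e (congrArg Prod.snd (Sum.inr_injective h))

omit [Fintype B] [NeZero q] in
theorem on_fib_prod (γ : Ty (Alph H B l q)) (i : ZMod q × B) : (γ.comap (emb H i)).on Fib =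
    (γ.on fun α => ∃ z i', α (.inr (z, i')) ≠ 0).comap (emb H i) := by
  funext j β
  have e : ∀ z, push (emb H i) β (.inr (z, i)) = β (.inr z) := fun z =>
    push_apply (emb_inj i) β (.inr z)
  by_cases hβ : Fib β
  · rw [Ty.on_pos _ hβ]
    obtain ⟨z, hz⟩ := hβ
    exact (γ.on_pos (Q := fun α => ∃ z i', α (.inr (z, i')) ≠ 0) ⟨z, i, (e z).symm ▸ hz⟩ j).symm
  · rw [Ty.on_neg _ hβ]
    refine (γ.on_neg (Q := fun α => ∃ z i', α (.inr (z, i')) ≠ 0) ?_ j).symm
    rintro ⟨z, i', hz⟩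
    by_cases e' : i = i'
    · subst e'
      exact hβ ⟨z, e z ▸ hz⟩
    · exact hz (push_emb_prod e' β z)

/-- The cost is the sum of the cost on the hubs and the costs on the fibres. -/
theorem cost_glue {γ : Ty (Alph H B l q)} (h : ∀ j α, Cross α → γ j α = 0) {k : ℕ}
    {a : ZMod q × B → ℕ} (hk : HasCost (γ.comap Sum.inl) k)
    (ha : ∀ i, HasCost ((γ.comap (emb H i)).on Fib) (a i)) : HasCost γ (k + ∑ i, a i) := by
  have h1 := cost_add_prod ((hasCost_comap Sum.inl_injective).1 hk) (cost_sum_prod Finset.univ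
    fun i => (hasCost_comap (emb_inj i)).1 (on_fib_prod γ i ▸ ha i))
  refine (?_ : _ = γ) ▸ h1
  funext j α
  simp only [Pi.add_apply, Finset.sum_apply]
  by_cases hf : ∃ z i, α (.inr (z, i)) ≠ 0
  · obtain ⟨z, i, hz⟩ := id hf
    rw [Ty.on_neg γ (Q := fun β => ∃ α, push Sum.inl α = β), zero_add]
    swap
    · rintro ⟨β, rfl⟩
      exact hz (push_apply_of_not β fun x => Sum.inl_ne_inr)
    by_cases hc : Cross α
    · rw [h j α hc]
      exact Finset.sum_eq_zero fun i _ => Nat.le_zero.1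
        ((Ty.on_le _ _ j α).trans ((Ty.on_le _ _ j α).trans (h j α hc).le))
    · rw [Finset.sum_eq_single i]
      · rw [Ty.on_pos _ (Q := fun β => ∃ α, push (emb H i) α = β),
          Ty.on_pos γ (Q := fun α => ∃ z i', α (.inr (z, i')) ≠ 0) hf]
        refine ⟨_, push_comp_self (emb_inj i) ?_⟩
        rintro (x | ⟨w, i'⟩) hx
        · exact ⟨.inl x, rfl⟩
        · by_cases e : i = i'
          · exact ⟨.inr w, e ▸ rfl⟩
          · exact absurd ⟨z, w, i, i', e, hz, hx⟩ hc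
      · intro i' _ e
        refine Ty.on_neg _ (Q := fun β => ∃ α, push (emb H i') α = β) ?_ j
        rintro ⟨β, rfl⟩
        exact hz (push_emb_prod e β z)
      · exact fun e => absurd (Finset.mem_univ i) e
  · rw [Ty.on_pos γ (Q := fun β => ∃ α, push Sum.inl α = β), Finset.sum_eq_zero, add_zero]
    · exact fun i _ => Nat.le_zero.1 ((Ty.on_le _ _ j α).trans
        (γ.on_neg (Q := fun α => ∃ z i', α (.inr (z, i')) ≠ 0) hf j).le)
    · refine ⟨_, push_comp_self Sum.inl_injective ?_⟩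
      rintro (x | ⟨w, i'⟩) hx
      · exact ⟨x, rfl⟩
      · exact absurd ⟨w, i', hx⟩ hf

theorem exists_cost_prod {X Y : Type} [Fintype X] [DecidableEq Y] {g : X → Y}
    (hg : Function.Injective g) {γ : Ty Y} {n : ℕ} (h : HasCost γ n) :
    ∃ m, m ≤ n ∧ HasCost (γ.comap g) m := by
  obtain ⟨m, h1, h2⟩ := h.mono (γ.on_le fun β => ∃ α, push g α = β)
  exact ⟨m, h1, (hasCost_comap hg).2 h2⟩

theorem cost_eq_prod {J : Chain F (Alph H B l q)} (h : ∀ j α, Cross α → J.ty j α = 0) {k : ℕ}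
    {a : B → ℕ} {f : B → Chain F (H ⊕ ZMod l)} (e : ∀ i, J.comap (emb H i) = f i.2)
    (hk : HasCost (J.comap Sum.inl).ty k) (ha : ∀ b, HasCost ((f b).ty.on Fib) (a b)) :
    HasCost J.ty (k + q * ∑ b, a b) := by
  have h1 := cost_glue h (a := fun i => a i.2) (J.ty_comap Sum.inl_injective ▸ hk) fun i => by
    rw [← J.ty_comap (emb_inj i), e]
    exact ha i.2
  simpa only [Fintype.sum_prod_type, Finset.sum_const, Finset.card_univ, ZMod.card, smul_eq_mul]
    using h1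

theorem prod_formula [Nonempty B] [Finite F] (c n : ℕ) :
    cntD H l F B q c n = ∑ k ∈ Finset.range (n + 1), ∑ K ∈ chains F (∅ : Set (Equiv.Perm H)) c k,
      ∑ a ∈ dist B q k n, ∏ b, cntN l c (a b) K := by
  classical
  let N : ℕ → ℕ → Chain F H → Finset (Chain F (H ⊕ ZMod l)) := fun k a K =>
    (chains F {rot1 H l} c (k + a)).filter fun J => J.comap Sum.inl = K ∧ HasCost (J.ty.on Fib) a
  have hN : ∀ k a (K : Chain F H), HasCost K.ty k → ∀ J, J ∈ N k a K ↔ Inv {rot1 H l} J ∧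
      Cls J.ty c ∧ J.comap Sum.inl = K ∧ HasCost (J.ty.on Fib) a := fun k a K hK J => by
    rw [Finset.mem_filter, mem_chains]
    exact ⟨fun h => ⟨h.1.1, h.1.2.1, h.2⟩, fun h => ⟨⟨h.1, h.2.1, cost_hub_fib h.2.2.2
      (by rw [← J.ty_comap Sum.inl_injective, h.2.2.1]; exact hK)⟩, h.2.2⟩⟩
  let S : Finset (Σ _ : ℕ, Σ _ : Chain F H, Σ _ : B → ℕ, B → Chain F (H ⊕ ZMod l)) :=
    (Finset.range (n + 1)).sigma fun k => (chains F (∅ : Set (Equiv.Perm H)) c k).sigma fun K =>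
      (dist B q k n).sigma fun a => Fintype.piFinset fun b => N k (a b) K
  have hS : ∀ k K a f, (⟨k, K, a, f⟩ : Σ _ : ℕ, Σ _ : Chain F H, Σ _ : B → ℕ,
      B → Chain F (H ⊕ ZMod l)) ∈ S ↔ k < n + 1 ∧ (Cls K.ty c ∧ HasCost K.ty k) ∧
        ((∀ b, a b < n + 1) ∧ k + q * ∑ b, a b = n) ∧ ∀ b, Inv {rot1 H l} (f b) ∧
          Cls (f b).ty c ∧ (f b).comap Sum.inl = K ∧ HasCost ((f b).ty.on Fib) (a b) := by
    intro k K a f
    simp only [S, Finset.mem_sigma, Finset.mem_range, mem_chains, dist, Finset.mem_filter,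
      Fintype.mem_piFinset]
    exact ⟨fun h => ⟨h.1, h.2.1.2, h.2.2.1, fun b => (hN _ _ _ h.2.1.2.2 _).1 (h.2.2.2 b)⟩,
      fun h => ⟨h.1, ⟨fun g hg => absurd hg (Set.notMem_empty g), h.2.1⟩, h.2.2.1,
        fun b => (hN _ _ _ h.2.1.2 _).2 (h.2.2.2 b)⟩⟩
  have hc : ∀ (J : Chain F (Alph H B l q)) i, (J.comap (emb H i)).comap Sum.inl = J.comap Sum.inl :=
    fun J i => J.comap_comap _ _
  obtain ⟨b₀⟩ := ‹Nonempty B›
  refine (card_rel_prod S _ (fun x J => ∀ i, J.comap (emb H i) = x.2.2.2 i.2) ?_ ?_ ?_ ?_).trans ?_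
  · rintro ⟨k, K, a, f⟩ hx
    obtain ⟨-, h2, h3, h4⟩ := (hS k K a f).1 hx
    obtain ⟨J, j1, j2, j3⟩ := exists_glue (q := q) K f (fun b => (h4 b).1) fun b => (h4 b).2.2.1
    refine ⟨J, ⟨j1, fun j α hα => ?_, ?_, j3⟩, j2⟩
    · by_cases hx : Cross α
      · exact j3 j α hx
      · obtain ⟨i, β, rfl⟩ := not_cross_iff.1 hx
        rw [tot_push] at hα
        have e := (h4 i.2).2.1 j β hα
        rw [← j2, J.ty_comap (emb_inj i)] at e
        exact e
    · rw [← h3.2]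
      refine cost_eq_prod j3 j2 ?_ fun b => (h4 b).2.2.2
      rw [← hc J (0, b₀), j2, (h4 b₀).2.2.1]
      exact h2.2
  · rintro J ⟨j1, j2, j3, j4⟩
    obtain ⟨k, k1, k2⟩ := exists_cost_prod (Sum.inl_injective (α := H)) j3
    rw [← J.ty_comap Sum.inl_injective] at k2
    have ha : ∀ b, ∃ m, m ≤ n ∧ HasCost ((J.comap (emb H (0, b))).ty.on Fib) m := fun b => by
      obtain ⟨m, m1, m2⟩ := exists_cost_prod (emb_inj (H := H) (0, b)) j3
      rw [← J.ty_comap (emb_inj _)] at m2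
      obtain ⟨m', m3, m4⟩ := m2.mono (Ty.on_le _ Fib)
      exact ⟨m', m3.trans m1, m4⟩
    choose a a1 a2 using ha
    have e : ∀ i : ZMod q × B, J.comap (emb H i) = J.comap (emb H (0, i.2)) := fun i =>
      comap_emb_eq j1 i.1 i.2
    refine ⟨⟨k, J.comap Sum.inl, a, fun b => J.comap (emb H (0, b))⟩, (hS _ _ _ _).2
      ⟨Nat.lt_succ_of_le k1, ⟨?_, k2⟩, ⟨fun b => Nat.lt_succ_of_le (a1 b),
        (cost_eq_prod j4 e k2 a2).unique j3⟩, fun b => ⟨inv_emb j1 _, ?_, hc J _, a2 b⟩⟩, e⟩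
    · rw [J.ty_comap Sum.inl_injective]
      exact j2.comap _
    · rw [J.ty_comap (emb_inj _)]
      exact j2.comap _
  · rintro ⟨k, K, a, f⟩ hx ⟨k', K', a', f'⟩ hx' J e e'
    obtain ⟨-, h2, -, h4⟩ := (hS k K a f).1 hx
    obtain ⟨-, h2', -, h4'⟩ := (hS k' K' a' f').1 hx'
    obtain rfl : f = f' := funext fun b => (e (0, b)).symm.trans (e' (0, b))
    obtain rfl : K = K' := (h4 b₀).2.2.1.symm.trans (h4' b₀).2.2.1
    obtain rfl : k = k' := h2.2.unique h2'.2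
    obtain rfl : a = a' := funext fun b => (h4 b).2.2.2.unique (h4' b).2.2.2
    rfl
  · exact fun x J J' hJ hJ' e e' =>
      glue_unique (fun i => (e i).trans (e' i).symm) hJ.2.2.2 hJ'.2.2.2
  · simp only [S, Finset.card_sigma, Fintype.card_piFinset]
    refine Finset.sum_congr rfl fun k _ => Finset.sum_congr rfl fun K hK =>
      Finset.sum_congr rfl fun a _ => Finset.prod_congr rfl fun b _ => ?_
    exact (Nat.subtype_card _ (hN k (a b) K (mem_chains.1 hK).2.2)).symm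

end Pool.Agent.P.MP_8598be_al.Z
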