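import Pool.Agent.P.MP_8598be_al.Z.SF
import Pool.Agent.P.MP_8598be_al.Z.Prod
import Pool.Agent.P.MP_8598be_al.Z.Cross

/-!
The counts for the alphabets with hubs and many fibres.
-/

namespace Pool.Agent.P.MP_8598be_al.Z

variable {H B : Type} {l q : ℕ} [Fintype H] [DecidableEq H] [Fintype B] [DecidableEq B] [NeZero l]
  [NeZero q]

theorem mem_dist_Fam {k n : ℕ} {a : B → ℕ} : a ∈ dist B q k n ↔ k + q * ∑ b, a b = n := by
  rw [dist, Finset.mem_filter, Fintype.mem_piFinset]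
  refine ⟨fun h => h.2, fun h => ⟨fun b => Finset.mem_range.2 ?_, h⟩⟩
  have h1 : a b ≤ ∑ b, a b := Finset.single_le_sum (fun _ _ => Nat.zero_le _) (Finset.mem_univ b)
  have h2 : ∑ b, a b ≤ q * ∑ b, a b := Nat.le_mul_of_pos_left _ (NeZero.pos q)
  omega

theorem dist_le_Fam {k n : ℕ} {a : B → ℕ} (h : a ∈ dist B q k n) (b : B) : k + q * a b ≤ n := by
  have h1 : a b ≤ ∑ b, a b := Finset.single_le_sum (fun _ _ => Nat.zero_le _) (Finset.mem_univ b)
  have h2 := Nat.mul_le_mul_left q h1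
  have h3 := mem_dist_Fam.1 h
  omega

theorem cntD_types [Nonempty B] (c n : ℕ) (ν : ℕ → Ty H → PF)
    (hν : ∀ k, ∀ κ ∈ tys (∅ : Set (Equiv.Perm H)) c k, ∀ a, k + q * a ≤ n →
      Ev l fun p _ => ∀ K : Chain (ZMod p) H, K.ty = κ → (cntN l c a K : ℤ) = ν a κ p) :
    Ev l fun p _ => (cntD H l (ZMod p) B q c n : ℤ) =
      ∑ k ∈ Finset.range (n + 1), ∑ κ ∈ tys (∅ : Set (Equiv.Perm H)) c k,
        (cntT (ZMod p) ∅ κ : ℤ) * ∑ a ∈ dist B q k n, ∏ b, ν (a b) κ p := by
  have h1 := Ev.all_finset (L := l) (Finset.range (n + 1)) fun k _ =>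
    Ev.all_finset (tys (∅ : Set (Equiv.Perm H)) c k) fun κ hκ =>
      Ev.all_finset (dist B q k n) fun a ha => Ev.all fun b => hν k κ hκ (a b) (dist_le_Fam ha b)
  refine h1.mono fun p _ h => ?_
  rw [prod_formula, Nat.cast_sum]
  refine Finset.sum_congr rfl fun k hk => ?_
  rw [Nat.cast_sum]
  refine sum_chains ∅ c k _ (fun κ => ∑ a ∈ dist B q k n, ∏ b, ν (a b) κ p) fun K hK => ?_
  obtain ⟨h2, h3, h4⟩ := mem_chains.1 hK
  rw [Nat.cast_sum]
  refine Finset.sum_congr rfl fun a ha => ?_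
  rw [Nat.cast_prod]
  exact Finset.prod_congr rfl fun b _ => h k hk _ (mem_tys.2 ⟨h2.adm, h3, h4⟩) a ha b K rfl

omit [Fintype B] [DecidableEq B] in
theorem exists_nu_Fam (hl : l.Prime) (h5 : 5 ≤ l) (h2 : Fintype.card H ≤ 2) (hR : PureHyp l)
    {c n : ℕ} (hc : 4 ≤ c) (hn : n ≤ 5 * l * q + 1) :
    ∃ ν : ℕ → Ty H → PF, (∀ κ (p : ℕ) [Fact p.Prime], ν 0 κ p = 1) ∧
      (∀ a κ (p : ℕ) [Fact p.Prime], 0 < a → a < l → ν a κ p = 0) ∧
      ∀ k, ∀ κ ∈ tys (∅ : Set (Equiv.Perm H)) c k, ∀ a, k + q * a ≤ n →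
        (EC l fun p _ => ν a κ p - if a = 5 * l then nsp l κ * roots [1, 1, 1] p else 0) ∧
        Ev l fun p _ => ∀ K : Chain (ZMod p) H, K.ty = κ → (cntN l c a K : ℤ) = ν a κ p := by
  have h1 : ∀ (a : ℕ) (κ : Ty H), ∃ ν : PF, (a = 0 → ∀ (p : ℕ) [Fact p.Prime], ν p = 1) ∧
      (0 < a → a < l → ∀ (p : ℕ) [Fact p.Prime], ν p = 0) ∧
      ∀ k, κ ∈ tys (∅ : Set (Equiv.Perm H)) c k → k + q * a ≤ n →
        (EC l fun p _ => ν p - if a = 5 * l then nsp l κ * roots [1, 1, 1] p else 0) ∧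
        Ev l fun p _ => ∀ K : Chain (ZMod p) H, K.ty = κ → (cntN l c a K : ℤ) = ν p := by
    intro a κ
    by_cases h0 : a = 0
    · refine ⟨fun _ _ => 1, fun _ _ _ => rfl, fun h => by omega, fun k hκ _ => ⟨?_, ?_⟩⟩
      · simp only [if_neg (show ¬ a = 5 * l by omega)]
        exact EC.const _
      · refine Ev.of_forall fun p _ K hK => ?_
        rw [h0, cntN_zero (hK ▸ (mem_tys.1 hκ).2.1), Nat.cast_one]
    by_cases ha : a < l
    · refine ⟨fun _ _ => 0, fun h => absurd h h0, fun _ _ _ _ => rfl, fun k hκ _ => ⟨?_, ?_⟩⟩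
      · simp only [if_neg (show ¬ a = 5 * l by omega)]
        exact EC.const _
      · refine Ev.of_forall fun p _ K _ => ?_
        rw [cntN_small K (by omega) ha, Nat.cast_zero]
    by_cases h : ∃ k, κ ∈ tys (∅ : Set (Equiv.Perm H)) c k ∧ k + q * a ≤ n
    · obtain ⟨k, hκ, hk⟩ := h
      have hak : a < 5 * l ∨ a + k ≤ 5 * l + 1 := by
        by_cases e : a < 5 * l
        · exact Or.inl e
        · obtain ⟨u, rfl⟩ := Nat.exists_eq_add_of_le (not_lt.1 e)
          have e1 : u ≤ q * u := Nat.le_mul_of_pos_left _ (NeZero.pos q)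
          have e2 : q * (5 * l + u) = 5 * l * q + q * u := by ring
          omega
      obtain ⟨ν, hν⟩ := desc hl h5 h2 hR hc (mem_tys.1 hκ).2.2 hak
      exact ⟨ν, fun e => absurd e h0, fun _ e => absurd e ha, fun _ _ _ => hν⟩
    · exact ⟨fun _ _ => 0, fun e => absurd e h0, fun _ e => absurd e ha,
        fun k hκ hk => absurd ⟨k, hκ, hk⟩ h⟩
  choose ν hν using h1
  exact ⟨ν, fun κ p _ => (hν 0 κ).1 rfl p, fun a κ p _ h h' => (hν a κ).2.1 h h' p,
    fun k κ hκ a hk => (hν a κ).2.2 k hκ hk⟩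

omit [NeZero q] in
theorem prod_single_Fam {f : ℕ → ℤ} (h0 : f 0 = 1) (b : B) (m : ℕ) :
    ∏ b', f ((Pi.single b m : B → ℕ) b') = f m := by
  rw [Finset.prod_eq_single b (fun b' _ hb => by rw [Pi.single_eq_of_ne hb, h0])
    fun h => absurd (Finset.mem_univ b) h, Pi.single_eq_same]

omit [NeZero q] in
theorem eq_single_Fam {a : B → ℕ} {m : ℕ} (h : ∑ b, a b = m) {b : B} (hb : a b = m) :
    a = Pi.single b m := by
  funext b'
  by_cases e : b' = b
  · rw [e, hb, Pi.single_eq_same]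
  · rw [Pi.single_eq_of_ne e]
    rw [← Finset.add_sum_erase _ _ (Finset.mem_univ b)] at h
    have h1 : a b' ≤ ∑ x ∈ Finset.univ.erase b, a x :=
      Finset.single_le_sum (fun _ _ => Nat.zero_le _) (Finset.mem_erase.2 ⟨e, Finset.mem_univ _⟩)
    omega

theorem fam_hub [Nonempty B] (hl : l.Prime) (h5 : 5 ≤ l) (hq : Odd q) (h0 : 0 < Fintype.card H)
    (h2 : Fintype.card H ≤ 2) (hR : PureHyp l) {c : ℕ} (hc : 4 ≤ c)
    (hT : ∀ k, ∀ κ ∈ tys (∅ : Set (Equiv.Perm H)) c k, EC 1 fun p _ => cntT (ZMod p) ∅ κ) :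
    ∃ N : ℕ, 0 < N ∧ N < l ∧ EC l fun p _ =>
      (cntC (ZMod p) (wreath H B l q) c (5 * l * q + 1) : ℤ) -
        (Fintype.card B * N : ℕ) * roots [1, 1, 1] p := by
  classical
  obtain ⟨hN0, hN⟩ := nsp_sum (H := H) hl h5 h0 h2 (c := c) (by omega)
  refine ⟨_, hN0, hN, ?_⟩
  obtain ⟨ν, hν0, -, hν⟩ := exists_nu_Fam (H := H) (q := q) hl h5 h2 hR hc le_rfl
  have hq0 := NeZero.pos q
  have hlt : 5 * l * q + 1 < l * l * q + l * q := by
    have e1 : 5 * l * q ≤ l * l * q := Nat.mul_le_mul_right _ (Nat.mul_le_mul_right _ h5)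
    have e2 : 5 * 1 ≤ l * q := Nat.mul_le_mul h5 hq0
    omega
  have h1 := cntD_types (H := H) (B := B) (l := l) (q := q) c (5 * l * q + 1) ν
    fun k κ hκ a hk => (hν k κ hκ a hk).2
  have h3 : ∀ k, ∀ κ ∈ tys (∅ : Set (Equiv.Perm H)) c k, EC l fun p _ =>
      (cntT (ZMod p) ∅ κ : ℤ) * ∑ a ∈ dist B q k (5 * l * q + 1), ∏ b, ν (a b) κ p -
        if k = 1 then (Fintype.card B * nsp l κ : ℕ) * roots [1, 1, 1] p else 0 := by
    intro k κ hκ
    obtain ⟨a1, -, a3⟩ := mem_tys.1 hκ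
    have hE : ∀ a ∈ dist B q k (5 * l * q + 1), ∀ b, (k ≠ 1 ∨ a b ≠ 5 * l) → EC l (ν (a b) κ) := by
      intro a ha b hb
      refine (hν k κ hκ (a b) (dist_le_Fam ha b)).1.congr (Ev.of_forall fun p _ => ?_)
      rcases hb with hb | hb
      · simp [nsp_zero a3 hb]
      · simp [hb]
    by_cases e : k = 1
    · subst e
      let T : Finset (B → ℕ) := Finset.univ.image fun b => Pi.single b (5 * l)
      have hT' : T ⊆ dist B q 1 (5 * l * q + 1) := by
        intro a ha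
        obtain ⟨b, -, rfl⟩ := Finset.mem_image.1 ha
        rw [mem_dist_Fam, Finset.sum_pi_single']
        simp only [Finset.mem_univ, if_true]
        ring
      have hinj : Function.Injective fun b : B => (Pi.single b (5 * l) : B → ℕ) := by
        intro b b' h
        by_contra hb
        have := congrFun h b
        simp only [Pi.single_eq_same, Pi.single_eq_of_ne hb] at this
        omega
      have h4 : EC l fun p _ => ∑ a ∈ dist B q 1 (5 * l * q + 1) \ T, ∏ b, ν (a b) κ p := by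
        refine EC.sum _ fun a ha => EC.prod _ fun b _ => ?_
        obtain ⟨ha1, ha2⟩ := Finset.mem_sdiff.1 ha
        refine hE a ha1 b (Or.inr fun hb => ha2 (Finset.mem_image.2 ⟨b, Finset.mem_univ b, ?_⟩))
        have e1 := mem_dist_Fam.1 ha1
        have e2 : q * ∑ b, a b = q * (5 * l) := by
          rw [mul_comm q (5 * l)]
          omega
        exact (eq_single_Fam (Nat.eq_of_mul_eq_mul_left hq0 e2) hb).symm
      have h6 := (hν 1 κ hκ (5 * l) (by rw [mul_comm q]; omega)).1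
      refine (h4.add ((EC.const (Fintype.card B)).mul h6)).congr (Ev.of_forall fun p _ => ?_)
      rw [cntT_cost_one _ a1 a3, ← Finset.sum_sdiff hT', Finset.sum_image hinj.injOn,
        Finset.sum_congr rfl fun b _ => prod_single_Fam (f := fun a => ν a κ p) (hν0 κ p) b _,
        Finset.sum_const, Finset.card_univ, if_pos rfl, if_pos rfl]
      push_cast
      ring
    · refine (((hT k κ hκ).of_dvd (one_dvd l)).mul (EC.sum _ fun a ha =>
        EC.prod Finset.univ fun b _ => hE a ha b (Or.inl e))).congr (Ev.of_forall fun p _ => ?_)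
      simp [e]
  refine (EC.sum (Finset.range (5 * l * q + 1 + 1)) fun k _ => EC.sum _ (h3 k)).congr
    (h1.mono fun p _ h => ?_)
  rw [cntC_eq_cntD hq _ c hlt, h]
  simp only [Finset.sum_sub_distrib]
  congr 1
  rw [Finset.sum_eq_single 1 (fun k _ hk => by simp [hk]) fun hk => absurd (by simp) hk]
  simp only [if_true, ← Finset.sum_mul, Finset.mul_sum]
  push_cast
  rfl

theorem fam_sixteen [Nonempty B] (hl : l.Prime) (h5 : 5 ≤ l) (hq : Odd q)
    (h2 : Fintype.card H ≤ 2) (hR : PureHyp l) {c : ℕ} (hc : 4 ≤ c)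
    (hT : ∀ k, k ≤ 11 → ∀ κ : Ty H, HasCost κ k → EC 1 fun p _ => cntT (ZMod p) ∅ κ) :
    EC l fun p _ => (cntC (ZMod p) (wreath H B l q) c 16 : ℤ) -
      cntC (ZMod p) (∅ : Set (Equiv.Perm H)) c 16 := by
  classical
  have hq0 := NeZero.pos q
  have e2 : 5 * 1 ≤ l * q := Nat.mul_le_mul h5 hq0
  have e1 : 5 * (l * q) ≤ l * l * q := by
    rw [mul_assoc]
    exact Nat.mul_le_mul_right _ h5
  obtain ⟨ν, hν0, hν1, hν⟩ := exists_nu_Fam (H := H) (q := q) (n := 16) hl h5 h2 hR hc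
    (by rw [mul_assoc]; omega)
  have h1 := cntD_types (H := H) (B := B) (l := l) (q := q) c 16 ν
    fun k κ hκ a hk => (hν k κ hκ a hk).2
  have h3 : ∀ k ∈ Finset.range 16, ∀ κ ∈ tys (∅ : Set (Equiv.Perm H)) c k, EC l fun p _ =>
      (cntT (ZMod p) ∅ κ : ℤ) * ∑ a ∈ dist B q k 16, ∏ b, ν (a b) κ p := by
    intro k hk κ hκ
    by_cases e : k ≤ 11
    · refine ((hT k e κ (mem_tys.1 hκ).2.2).of_dvd (one_dvd l)).mul
        (EC.sum _ fun a ha => EC.prod Finset.univ fun b _ => ?_)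
      have h4 := dist_le_Fam ha b
      have h6 : a b ≤ q * a b := Nat.le_mul_of_pos_left _ hq0
      refine (hν k κ hκ (a b) h4).1.congr (Ev.of_forall fun p _ => ?_)
      rw [if_neg (by omega), sub_zero]
    · refine (EC.const 0).congr (Ev.of_forall fun p _ => ?_)
      rw [Finset.sum_eq_zero, mul_zero]
      intro a ha
      have h4 := mem_dist_Fam.1 ha
      have h6 := Finset.mem_range.1 hk
      obtain ⟨b, -, hb⟩ := Finset.exists_ne_zero_of_sum_ne_zero (s := Finset.univ) (f := a)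
        (fun h => by rw [h] at h4; omega)
      have h7 := dist_le_Fam ha b
      have h8 : a b ≤ q * a b := Nat.le_mul_of_pos_left _ hq0
      exact Finset.prod_eq_zero (Finset.mem_univ b) (hν1 _ _ p (by omega) (by omega))
  refine (EC.sum (Finset.range 16) fun k hk => EC.sum _ (h3 k hk)).congr (h1.mono fun p _ h => ?_)
  have h4 : dist B q 16 16 = {0} := by
    ext a
    rw [mem_dist_Fam, Finset.mem_singleton, Nat.add_eq_left, mul_eq_zero, or_iff_right hq0.ne',
      Finset.sum_eq_zero_iff]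
    exact ⟨fun h => funext fun b => h b (Finset.mem_univ b), fun h b _ => congrFun h b⟩
  rw [cntC_eq_cntD hq _ c (by omega), h, Finset.sum_range_succ _ 16, h4, cntC_eq_sum]
  simp [hν0]

theorem chains_empty_Fam (F : Type) [Field F] [Finite F] (c k : ℕ) (f : ℤ) :
    ∑ _K ∈ chains F (∅ : Set (Equiv.Perm Empty)) c k, f = if k = 0 then f else 0 := by
  have h1 := sum_chains (F := F) (∅ : Set (Equiv.Perm Empty)) c k (fun _ => f) (fun _ => f)
    fun _ _ => rfl
  rw [h1]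
  split_ifs with e
  · rw [e, tys_zero, Finset.sum_singleton, cntT_zero, Nat.cast_one, one_mul]
  · refine Finset.sum_eq_zero fun γ hγ => absurd ?_ e
    obtain ⟨h2, -, h3⟩ := mem_tys.1 hγ
    refine h3.unique (hasCost_zero.2 ?_)
    funext j α
    rw [Subsingleton.elim α 0]
    exact h2.zero j

theorem fam_ten (c : ℕ) (hT : ∀ a, a ≤ 30 →
      EC 5 fun p _ => cntC (ZMod p) {Equiv.addRight (1 : ZMod 5)} c a) :
    EC 5 fun p _ => (cntC (ZMod p) (wreath Empty (Fin 2) 5 1) c 35 : ℤ) -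
      2 * cntC (ZMod p) {Equiv.addRight (1 : ZMod 5)} c 35 := by
  classical
  let Z : ℕ → PF := fun a p _ => cntC (ZMod p) {Equiv.addRight (1 : ZMod 5)} c a
  have hZ0 : ∀ (p : ℕ) [Fact p.Prime], Z 0 p = 1 := fun p _ => by
    have := cntC_eq_sum (F := ZMod p) {Equiv.addRight (1 : ZMod 5)} c 0
    rw [tys_zero, Finset.sum_singleton, cntT_zero] at this
    exact congrArg Nat.cast this
  have hZ1 : ∀ a, 0 < a → a < 5 → ∀ (p : ℕ) [Fact p.Prime], Z a p = 0 := fun a h h' p _ => by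
    obtain ⟨K, -⟩ := Chain.exists_iInf (F := ZMod p) (X := Empty) (ι := Empty) Empty.elim
    have := cntN_empty (l := 5) c a K
    rw [cntN_small K h h'] at this
    exact congrArg Nat.cast this.symm
  have h1 : ∀ (p : ℕ) [Fact p.Prime], (cntD Empty 5 (ZMod p) (Fin 2) 1 c 35 : ℤ) =
      ∑ a ∈ dist (Fin 2) 1 0 35, ∏ b, Z (a b) p := fun p _ => by
    rw [prod_formula]
    simp only [cntN_empty]
    push_cast
    simp only [chains_empty_Fam]
    rw [Finset.sum_ite_eq' (Finset.range (35 + 1)) 0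
      fun k => ∑ a ∈ dist (Fin 2) 1 k 35, ∏ b, Z (a b) p, if_pos (by simp)]
  let T : Finset (Fin 2 → ℕ) := Finset.univ.image fun b => Pi.single b 35
  have hT' : T ⊆ dist (Fin 2) 1 0 35 := by
    intro a ha
    obtain ⟨b, -, rfl⟩ := Finset.mem_image.1 ha
    rw [mem_dist_Fam, Finset.sum_pi_single']
    simp
  have hinj : Function.Injective fun b : Fin 2 => (Pi.single b 35 : Fin 2 → ℕ) := by
    intro b b' h
    by_contra hb
    have := congrFun h b
    simp only [Pi.single_eq_same, Pi.single_eq_of_ne hb] at this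
    omega
  have h4 : EC 5 fun p _ => ∑ a ∈ dist (Fin 2) 1 0 35 \ T, ∏ b, Z (a b) p := by
    refine EC.sum _ fun a ha => ?_
    obtain ⟨ha1, ha2⟩ := Finset.mem_sdiff.1 ha
    have e1 := mem_dist_Fam.1 ha1
    rw [zero_add, one_mul] at e1
    have e2 : ∀ b, a b ≠ 35 := fun b hb =>
      ha2 (Finset.mem_image.2 ⟨b, Finset.mem_univ b, (eq_single_Fam e1 hb).symm⟩)
    by_cases e3 : ∀ b, a b ≤ 30
    · exact EC.prod Finset.univ fun b _ => hT _ (e3 b)
    · have e4 : ∃ b, 0 < a b ∧ a b < 5 := by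
        have e5 := e2 0
        have e6 := e2 1
        rw [Fin.sum_univ_two] at e1
        rw [Fin.forall_fin_two] at e3
        rw [Fin.exists_fin_two]
        omega
      obtain ⟨b, e5, e6⟩ := e4
      exact (EC.const 0).congr (Ev.of_forall fun p _ =>
        (Finset.prod_eq_zero (Finset.mem_univ b) (hZ1 _ e5 e6 p)).symm)
  refine (((cntC_ten c).of_dvd (one_dvd 5)).add h4).congr (Ev.of_forall fun p _ => ?_)
  rw [h1, ← Finset.sum_sdiff hT', Finset.sum_image hinj.injOn,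
    Finset.sum_congr rfl fun b _ => prod_single_Fam (f := fun a => Z a p) (hZ0 p) b _,
    Finset.sum_const, Finset.card_univ, Fintype.card_fin]
  change _ = _ - 2 * Z 35 p
  ring

end Pool.Agent.P.MP_8598be_al.Z
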