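import Pool.Agent.P.MP_8598be_al.Z.NT

/-!
The cubic polynomial of discriminant `-23`.
-/

namespace Pool.Agent.P.MP_8598be_al.Z

open Polynomial

theorem card_eq_NT2 {F : Type} {P Q : F → Prop} (f g : F → F)
    (h1 : ∀ x, P x → Q (f x) ∧ g (f x) = x) (h2 : ∀ y, Q y → P (g y) ∧ f (g y) = y) :
    Nat.card {x // P x} = Nat.card {y // Q y} :=
  Nat.card_congr
    { toFun := fun x => ⟨f x.1, (h1 x.1 x.2).1⟩
      invFun := fun y => ⟨g y.1, (h2 y.1 y.2).1⟩
      left_inv := fun x => Subtype.ext (h1 x.1 x.2).2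
      right_inv := fun y => Subtype.ext (h2 y.1 y.2).2 }

theorem roots_four_NT2 (a b c : ℤ) (p : ℕ) [Fact p.Prime] :
    roots [a, b, c, 1] p =
      Nat.card {x : ZMod p // x ^ 3 + (c : ZMod p) * x ^ 2 + (b : ZMod p) * x + (a : ZMod p) = 0} := by
  unfold roots
  congr 1
  refine card_eq_NT2 id id (fun x hx => ⟨?_, rfl⟩) (fun x hx => ⟨?_, rfl⟩)
  · change (a : ZMod p) + x * ((b : ZMod p) + x * ((c : ZMod p) +
      x * (((1 : ℤ) : ZMod p) + x * 0))) = 0 at hx
    rw [Int.cast_one] at hx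
    simp only [id]
    linear_combination hx
  · change (a : ZMod p) + x * ((b : ZMod p) + x * ((c : ZMod p) +
      x * (((1 : ℤ) : ZMod p) + x * 0))) = 0
    rw [Int.cast_one]
    linear_combination hx

theorem roots_eq_NT2 (p : ℕ) [Fact p.Prime] :
    roots [-1, -1, 0, 1] p = Nat.card {x : ZMod p // x ^ 3 - x - 1 = 0} := by
  rw [roots_four_NT2]
  congr 1
  refine card_eq_NT2 id id (fun x hx => ⟨?_, rfl⟩) (fun x hx => ⟨?_, rfl⟩)
  · push_cast at hx
    simp only [id]
    linear_combination hx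
  · push_cast
    simp only [id]
    linear_combination hx

theorem disc_NT2 {K : Type} [CommRing K] {r s : K} (hr : r ^ 3 - r - 1 = 0)
    (hs : s ^ 2 + r * s + r ^ 2 - 1 = 0) : IsSquare (-23 : K) :=
  ⟨(3 * r ^ 2 - 1) * (2 * s + r), by
    linear_combination (27 * r ^ 3 - 27 * r + 27) * hr - 4 * (3 * r ^ 2 - 1) ^ 2 * hs⟩

theorem exists_root_NT2 (p : ℕ) [Fact p.Prime] (h : ¬ IsSquare (-23 : ZMod p)) :
    ∃ r : ZMod p, r ^ 3 - r - 1 = 0 := by
  by_contra hno
  apply h
  set f : (ZMod p)[X] := X ^ 3 - X - 1 with hf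
  have hdeg : f.natDegree = 3 := by rw [hf]; compute_degree!
  have hmon : f.Monic := by rw [hf]; monicity!
  have hirr : Irreducible f := by
    refine irreducible_of_degree_le_three_of_not_isRoot (by rw [hdeg]; decide) fun x hx => ?_
    exact hno ⟨x, by simpa [hf, IsRoot] using hx⟩
  have : Fact (Irreducible f) := ⟨hirr⟩
  have hrank : Module.finrank (ZMod p) (AdjoinRoot f) = 3 := by
    rw [(AdjoinRoot.powerBasis hmon.ne_zero).finrank, AdjoinRoot.powerBasis_dim, hdeg]
  have : Module.Finite (ZMod p) (AdjoinRoot f) := (AdjoinRoot.powerBasis hmon.ne_zero).finite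
  have : Finite (AdjoinRoot f) := Module.finite_of_finite (ZMod p)
  set r := AdjoinRoot.root f with hr
  have hr0 : r ^ 3 - r - 1 = 0 := by
    have := AdjoinRoot.eval₂_root f
    rw [← hr] at this
    simpa [hf] using this
  have hsp : Splits ((minpoly (ZMod p) r).map (algebraMap (ZMod p) (AdjoinRoot f))) :=
    Normal.splits inferInstance r
  rw [hr, AdjoinRoot.minpoly_root hmon.ne_zero, hmon.leadingCoeff, inv_one, C_1, mul_one] at hsp
  have hfac : f.map (algebraMap (ZMod p) (AdjoinRoot f)) =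
      (X ^ 2 + C r * X + C (r ^ 2 - 1)) * (X - C r) := by
    have h1 : (C r : (AdjoinRoot f)[X]) ^ 3 - C r - 1 = 0 := by
      rw [← C_pow, ← C_1, ← C_sub, ← C_sub, hr0, C_0]
    change ((X ^ 3 - X - 1 : (ZMod p)[X]).map (algebraMap (ZMod p) (AdjoinRoot f))) = _
    simp only [Polynomial.map_sub, Polynomial.map_pow, map_X, Polynomial.map_one, C_sub, C_pow, C_1]
    linear_combination h1
  have hq : Splits (X ^ 2 + C r * X + C (r ^ 2 - 1) : (AdjoinRoot f)[X]) :=
    hsp.of_dvd (hmon.map _).ne_zero ⟨_, hfac⟩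
  have hd : (X ^ 2 + C r * X + C (r ^ 2 - 1) : (AdjoinRoot f)[X]).degree = 2 := by
    compute_degree!
  obtain ⟨s, hs⟩ := hq.exists_eval_eq_zero (by rw [hd]; decide)
  obtain ⟨t, ht⟩ := disc_NT2 (s := s) hr0 (by
    simp only [eval_add, eval_pow, eval_X, eval_mul, eval_C] at hs
    linear_combination hs)
  have hn := congrArg (Algebra.norm (ZMod p)) ht
  have h23 : (-23 : AdjoinRoot f) = algebraMap (ZMod p) (AdjoinRoot f) (-23) := by
    rw [map_neg, map_ofNat]
  rw [h23, Algebra.norm_algebraMap, hrank, map_mul] at hn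
  by_cases h0 : (-23 : ZMod p) = 0
  · rw [h0]; exact IsSquare.zero
  · refine ⟨Algebra.norm (ZMod p) t / (-23), ?_⟩
    rw [div_mul_div_comm, eq_div_iff (mul_ne_zero h0 h0)]
    linear_combination hn

/-- Stickelberger: if the discriminant is not a square there is exactly one root. Sketch: without
a root the cubic is irreducible, its roots in `AdjoinRoot` are `r, r ^ p, r ^ (p ^ 2)` and the
product of the differences is fixed by Frobenius. With a root `r` the quadratic factor has
discriminant `4 - 3 r ^ 2` and `(3 r ^ 2 - 1) ^ 2 (4 - 3 r ^ 2) = -23`. -/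
theorem cubic_one (p : ℕ) [Fact p.Prime] (h2 : p ≠ 2) (h : ¬ IsSquare (-23 : ZMod p)) :
    roots [-1, -1, 0, 1] p = 1 := by
  obtain ⟨r, hr⟩ := exists_root_NT2 p h
  rw [roots_eq_NT2]
  have : Nat.card {x : ZMod p // x ^ 3 - x - 1 = 0} = 1 := by
    rw [Nat.card_eq_one_iff_exists]
    refine ⟨⟨r, hr⟩, fun y => Subtype.ext ?_⟩
    by_contra hne
    apply h
    refine disc_NT2 (s := y.1) hr ?_
    have h3 : (y.1 - r) * (y.1 ^ 2 + r * y.1 + r ^ 2 - 1) = 0 := by
      linear_combination y.2 - hr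
    exact (mul_eq_zero.1 h3).resolve_left (sub_ne_zero.2 hne)
  rw [this]; rfl

theorem cubic_zero_three (p : ℕ) [Fact p.Prime] (h2 : p ≠ 2) (h23 : p ≠ 23)
    (h : IsSquare (-23 : ZMod p)) : roots [-1, -1, 0, 1] p = 0 ∨ roots [-1, -1, 0, 1] p = 3 := by
  rw [roots_eq_NT2]
  by_cases hex : ∃ r : ZMod p, r ^ 3 - r - 1 = 0
  swap
  · left
    have : IsEmpty {x : ZMod p // x ^ 3 - x - 1 = 0} := ⟨fun x => hex ⟨x.1, x.2⟩⟩
    simp
  right
  obtain ⟨r, hr⟩ := hex
  obtain ⟨t, ht⟩ := h
  have hp : p.Prime := Fact.out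
  have n2 : (2 : ZMod p) ≠ 0 := by
    intro h0
    have : ((2 : ℕ) : ZMod p) = 0 := by exact_mod_cast h0
    exact h2 ((Nat.prime_dvd_prime_iff_eq hp Nat.prime_two).1 ((ZMod.natCast_eq_zero_iff _ _).1 this))
  have n23 : (23 : ZMod p) ≠ 0 := by
    intro h0
    have : ((23 : ℕ) : ZMod p) = 0 := by exact_mod_cast h0
    exact h23 ((Nat.prime_dvd_prime_iff_eq hp (by norm_num)).1
      ((ZMod.natCast_eq_zero_iff _ _).1 this))
  have hD : (3 * r ^ 2 - 1) ^ 2 * (4 - 3 * r ^ 2) = -23 := by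
    linear_combination (-27 * r ^ 3 + 27 * r - 27) * hr
  have nr : 3 * r ^ 2 - 1 ≠ 0 := by
    intro h0
    rw [h0] at hD
    apply n23
    linear_combination hD
  obtain ⟨e, he⟩ : ∃ e : ZMod p, e ^ 2 = 4 - 3 * r ^ 2 := by
    refine ⟨t / (3 * r ^ 2 - 1), ?_⟩
    field_simp
    linear_combination -ht - hD
  have ne : e ≠ 0 := by
    intro h0
    rw [← he, h0] at hD
    apply n23
    linear_combination hD
  obtain ⟨a, ha⟩ : ∃ a : ZMod p, 2 * a = -r + e := ⟨(-r + e) / 2, by field_simp⟩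
  obtain ⟨b, hb⟩ : ∃ b : ZMod p, 2 * b = -r - e := ⟨(-r - e) / 2, by field_simp⟩
  have hs : a + b = -r := mul_left_cancel₀ n2 (by linear_combination ha + hb)
  have hm : a * b = r ^ 2 - 1 := mul_left_cancel₀ (mul_ne_zero n2 n2) (by
    linear_combination (2 * b) * ha + (-r + e) * hb - he)
  have hfac : ∀ x : ZMod p, x ^ 3 - x - 1 = (x - r) * (x - a) * (x - b) := fun x => by
    linear_combination hr + (x ^ 2 - r * x) * hs - (x - r) * hm
  have hra : r ≠ a := by
    intro h0
    apply nr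
    linear_combination -hm + r * hs + (r - b) * h0
  have hrb : r ≠ b := by
    intro h0
    apply nr
    linear_combination -hm + r * hs + (r - a) * h0
  have hab : a ≠ b := by
    intro h0
    apply mul_ne_zero n2 ne
    linear_combination hb - ha + 2 * h0
  have hset : {x : ZMod p | x ^ 3 - x - 1 = 0} = {r, a, b} := by
    ext x
    simp only [Set.mem_ofPred_eq, Set.mem_insert_iff, Set.mem_singleton_iff, hfac, mul_eq_zero,
      sub_eq_zero, or_assoc]
  have : Nat.card {x : ZMod p // x ^ 3 - x - 1 = 0} = 3 := by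
    change Nat.card ↥{x : ZMod p | x ^ 3 - x - 1 = 0} = 3
    rw [hset, Nat.card_coe_set_eq, Set.ncard_eq_three]
    exact ⟨r, a, b, hra, hrb, hab, rfl⟩
  rw [this]; rfl

theorem sq_iff_NT2 (p : ℕ) [Fact p.Prime] (h4 : p % 4 = 1) :
    IsSquare (-23 : ZMod p) ↔ IsSquare ((p % 23 : ℕ) : ZMod 23) := by
  have : Fact (Nat.Prime 23) := ⟨by norm_num⟩
  have h1 : IsSquare (-1 : ZMod p) := ZMod.exists_sq_eq_neg_one_iff.2 (by omega)
  have h2 := ZMod.exists_sq_eq_prime_iff_of_mod_four_eq_one (p := p) (q := 23) h4 (by norm_num)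
  rw [ZMod.natCast_mod, ← h2]
  push_cast
  constructor
  · intro h
    have := h1.mul h
    rwa [neg_mul_neg, one_mul] at this
  · intro h
    have := h1.mul h
    rwa [neg_one_mul] at this

/-- Take `p` congruent to `1` or `5` modulo `23`. -/
theorem sep_five : Sep 5 5 (roots [-1, -1, 0, 1]) := by
  intro K N
  have hc : (4 * (5 * 5 ^ K)).Coprime 23 :=
    Nat.Coprime.mul_left (by norm_num)
      (Nat.Coprime.mul_left (by norm_num) (Nat.Coprime.pow_left _ (by norm_num)))
  obtain ⟨p, hp, hN, hd, hm⟩ := exists_prime_mod (M := 4 * (5 * 5 ^ K)) (m := 23) (a := 1)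
    (by positivity) (by norm_num) hc (by norm_num) (N + 23)
  obtain ⟨q, hq, hN', hd', hm'⟩ := exists_prime_mod (M := 4 * (5 * 5 ^ K)) (m := 23) (a := 5)
    (by positivity) (by norm_num) hc (by norm_num) (N + 23)
  have : Fact p.Prime := ⟨hp⟩
  have : Fact q.Prime := ⟨hq⟩
  have p4 : p % 4 = 1 := by
    have := (Dvd.intro _ rfl : 4 ∣ 4 * (5 * 5 ^ K)).trans hd
    omega
  have q4 : q % 4 = 1 := by
    have := (Dvd.intro _ rfl : 4 ∣ 4 * (5 * 5 ^ K)).trans hd'
    omega
  refine ⟨p, q, inferInstance, inferInstance, by omega, by omega,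
    (Dvd.intro_left _ rfl).trans hd, (Dvd.intro_left _ rfl).trans hd', ?_⟩
  have e1 := cubic_zero_three p (by omega) (by omega) ((sq_iff_NT2 p p4).2 (by
    rw [hm]; exact ⟨1, by norm_num⟩))
  have e2 := cubic_one q (by omega) (fun h => by
    have := (sq_iff_NT2 q q4).1 h
    rw [hm'] at this
    revert this
    decide)
  rcases e1 with e1 | e1 <;> rw [e1, e2] <;> decide

theorem cubic_a (p : ℕ) [Fact p.Prime] : roots [1, 5, 4, 1] p = roots [-1, -1, 0, 1] p := by
  rw [roots_eq_NT2, roots_four_NT2]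
  congr 1
  push_cast
  refine card_eq_NT2 (fun x => 1 / (x + 1)) (fun y => 1 / y - 1) (fun x hx => ?_) (fun y hy => ?_)
  · have h : x + 1 ≠ 0 := by
      intro h0
      have : x = -1 := by linear_combination h0
      rw [this] at hx
      norm_num at hx
    refine ⟨?_, by simp⟩
    field_simp
    linear_combination -hx
  · have h : y ≠ 0 := by
      rintro rfl
      norm_num at hy
    refine ⟨?_, by simp⟩
    field_simp
    linear_combination -hy

theorem cubic_b (p : ℕ) [Fact p.Prime] : roots [-1, 2, 3, 1] p = roots [-1, -1, 0, 1] p := by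
  rw [roots_eq_NT2, roots_four_NT2]
  congr 1
  push_cast
  exact card_eq_NT2 (fun x => x + 1) (fun y => y - 1)
    (fun x hx => ⟨by linear_combination hx, by ring⟩)
    (fun y hy => ⟨by linear_combination hy, by ring⟩)

/-- Substitute `x = y / (y - 1)`; the other three cubics need `x = 1 / y - 1`, `x = y - 1` and
`x = -y - 1`. -/
theorem cubic_c (p : ℕ) [Fact p.Prime] : roots [-1, 4, -5, 1] p = roots [-1, -1, 0, 1] p := by
  rw [roots_eq_NT2, roots_four_NT2]
  congr 1
  push_cast
  have inv : ∀ x : ZMod p, x - 1 ≠ 0 → x / (x - 1) / (x / (x - 1) - 1) = x := fun x h => by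
    have : x / (x - 1) - 1 = 1 / (x - 1) := by
      field_simp
      ring
    rw [this]
    field_simp
  refine card_eq_NT2 (fun x => x / (x - 1)) (fun y => y / (y - 1)) (fun x hx => ?_) (fun y hy => ?_)
  · have h : x - 1 ≠ 0 := by
      intro h0
      have : x = 1 := by linear_combination h0
      rw [this] at hx
      norm_num at hx
    refine ⟨?_, inv x h⟩
    field_simp
    linear_combination -hx
  · have h : y - 1 ≠ 0 := by
      intro h0
      have : y = 1 := by linear_combination h0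
      rw [this] at hy
      norm_num at hy
    refine ⟨?_, inv y h⟩
    field_simp
    linear_combination -hy

theorem cubic_d (p : ℕ) [Fact p.Prime] : roots [1, 2, 3, 1] p = roots [-1, -1, 0, 1] p := by
  rw [roots_eq_NT2, roots_four_NT2]
  congr 1
  push_cast
  exact card_eq_NT2 (fun x => -x - 1) (fun y => -y - 1)
    (fun x hx => ⟨by linear_combination -hx, by ring⟩)
    (fun y hy => ⟨by linear_combination -hy, by ring⟩)

end Pool.Agent.P.MP_8598be_al.Z
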