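import Pool.Agent.P.MP_8598be_al.Z.H7F
import Pool.Agent.P.MP_8598be_al.Z.Tame

/-!
Two generators and class at most seven.
-/

namespace Pool.Agent.P.MP_8598be_al.Z

open Module

/-- The dimension of a sum of two images when the relations form at most a line. -/
theorem rank_sup_rel {F M : Type} [Field F] [AddCommGroup M] [Module F M] {V₀ V₁ : Submodule F M}
    [Module.Finite F V₀] [Module.Finite F V₁] (A₀ A₁ : M →ₗ[F] M) {k₀ k₁ : M}
    (h : ∀ u ∈ V₀, ∀ v ∈ V₁, A₀ u + A₁ v = 0 ↔ ∃ t : F, u = t • k₀ ∧ v = t • k₁)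
    {U₀ U₁ : Submodule F M} (h₀ : U₀ ≤ V₀) (h₁ : U₁ ≤ V₁) :
    (k₀ ∈ U₀ ∧ k₁ ∈ U₁ ∧ (k₀ ≠ 0 ∨ k₁ ≠ 0) →
      finrank F (U₀.map A₀ ⊔ U₁.map A₁ : Submodule F M) + 1 = finrank F U₀ + finrank F U₁) ∧
    (¬ (k₀ ∈ U₀ ∧ k₁ ∈ U₁ ∧ (k₀ ≠ 0 ∨ k₁ ≠ 0)) →
      finrank F (U₀.map A₀ ⊔ U₁.map A₁ : Submodule F M) = finrank F U₀ + finrank F U₁) := by
  have : Module.Finite F U₀ := Submodule.finiteDimensional_of_le h₀
  have : Module.Finite F U₁ := Submodule.finiteDimensional_of_le h₁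
  have e := LinearMap.finrank_range_add_finrank_ker
    ((A₀ ∘ₗ U₀.subtype).coprod (A₁ ∘ₗ U₁.subtype))
  rw [LinearMap.range_coprod, LinearMap.range_comp, LinearMap.range_comp, Submodule.range_subtype,
    Submodule.range_subtype, finrank_prod] at e
  have hk : ∀ x : U₀ × U₁, x ∈ LinearMap.ker ((A₀ ∘ₗ U₀.subtype).coprod (A₁ ∘ₗ U₁.subtype)) ↔
      ∃ t : F, (x.1 : M) = t • k₀ ∧ (x.2 : M) = t • k₁ := fun x =>
    h x.1 (h₀ x.1.2) x.2 (h₁ x.2.2)
  refine ⟨fun ⟨a, b, c⟩ => ?_, fun hn => ?_⟩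
  · have e1 : LinearMap.ker ((A₀ ∘ₗ U₀.subtype).coprod (A₁ ∘ₗ U₁.subtype)) =
        Submodule.span F {((⟨k₀, a⟩, ⟨k₁, b⟩) : U₀ × U₁)} := by
      ext x
      rw [hk, Submodule.mem_span_singleton]
      refine exists_congr fun t => ?_
      rw [Prod.ext_iff, Subtype.ext_iff, Subtype.ext_iff, eq_comm, eq_comm (b := t • k₁)]
      rfl
    rw [e1, finrank_span_singleton] at e
    · exact e
    · intro h0
      rw [Prod.ext_iff, Subtype.ext_iff, Subtype.ext_iff] at h0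
      exact c.elim (fun c => c h0.1) fun c => c h0.2
  · have e1 : LinearMap.ker ((A₀ ∘ₗ U₀.subtype).coprod (A₁ ∘ₗ U₁.subtype)) = ⊥ := by
      refine (Submodule.eq_bot_iff _).2 fun x hx => ?_
      obtain ⟨t, t0, t1⟩ := (hk x).1 hx
      have e2 : t • k₀ = 0 ∧ t • k₁ = 0 := by
        by_cases ht : t = 0
        · rw [ht, zero_smul, zero_smul]
          exact ⟨rfl, rfl⟩
        · have a := (U₀.smul_mem_iff ht).1 (t0 ▸ x.1.2)
          have b := (U₁.smul_mem_iff ht).1 (t1 ▸ x.2.2)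
          have c : k₀ = 0 ∧ k₁ = 0 := by tauto
          rw [c.1, c.2, smul_zero]
          exact ⟨rfl, rfl⟩
      exact Prod.ext (Subtype.ext (t0.trans e2.1)) (Subtype.ext (t1.trans e2.2))
    rwa [e1, finrank_bot, add_zero] at e

theorem rel_h7c {β : Fin 2 → ℕ} (hβ : tot β = 6 ∨ tot β = 7) (b0 : β 0 ≠ 0) (b1 : β 1 ≠ 0) :
    ∃ k : Fin 2 → FL ℤ (Fin 2), (∀ y, k y ∈ mp ℤ (β - one y)) ∧
      (∀ y, 5 < tot (β - one y) → k y = 0) ∧ Ev 1 fun p _ =>
      ∀ u ∈ mp (ZMod p) (β - one 0), ∀ v ∈ mp (ZMod p) (β - one 1),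
        adr (ZMod p) 0 u + adr (ZMod p) 1 v = 0 ↔
          ∃ t : ZMod p, u = t • red (ZMod p) (k 0) ∧ v = t • red (ZMod p) (k 1) := by
  rcases hβ with hβ | hβ
  · obtain ⟨k₀, a, k₁, b, c⟩ := rel_six hβ (sub_add_one b0) (sub_add_one b1)
    refine ⟨![k₀, k₁], Fin.forall_fin_two.2 ⟨a, b⟩, fun y hy => ?_, c⟩
    have h1 : β y ≠ 0 := (Fin.forall_fin_two (p := fun y => β y ≠ 0)).2 ⟨b0, b1⟩ y
    have h2 := congrArg tot (sub_add_one h1)
    rw [tot_add, tot_one] at h2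
    omega
  · refine ⟨0, fun _ => zero_mem _, fun _ _ => rfl, Ev.of_forall fun p _ u hu v hv =>
      ⟨fun h => ?_, ?_⟩⟩
    · obtain ⟨a, b⟩ := rel_seven (ZMod p) hβ (sub_add_one b0) (sub_add_one b1) hu hv h
      exact ⟨0, by rw [a, zero_smul], by rw [b, zero_smul]⟩
    · rintro ⟨t, rfl, rfl⟩
      simp only [Pi.zero_apply, map_zero, smul_zero, add_zero]

/-- For a node of degree six or seven the dimensions of the forced parts depend only on the type
and on tests in degree five. (If `β` has only one letter the part of multidegree `β` is zero;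
`IsInt.rank` decides whether the reductions of `k₀`, `k₁` vanish.) -/
theorem low_rank_tests {β : Fin 2 → ℕ} (hβ : tot β = 6 ∨ tot β = 7) (γ : Ty (Fin 2)) :
    ∃ (k : Fin 2 → FL ℤ (Fin 2)) (r : ℕ → Prop → ℕ),
      (∀ y, k y ∈ mp ℤ (β - one y)) ∧ (∀ y, 5 < tot (β - one y) → k y = 0) ∧
      Ev 1 fun p _ => ∀ J : Chain (ZMod p) (Fin 2), J.ty = γ → ∀ j,
        finrank (ZMod p) (J.low j β) = r j (∀ y, red (ZMod p) (k y) ∈ J.J j (β - one y)) := by
  classical
  by_cases hb : β 0 ≠ 0 ∧ β 1 ≠ 0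
  · obtain ⟨k, k1, k2, k3⟩ := rel_h7c hβ hb.1 hb.2
    choose m hm using fun y : Fin 2 => (IsInt.mp (β - one y)).rank
    choose c hc using fun y : Fin 2 => (IsInt.span (k y)).rank
    refine ⟨k, fun j P => (m 0 - γ j (β - one 0)) + (m 1 - γ j (β - one 1)) -
      if P ∧ (c 0 ≠ 0 ∨ c 1 ≠ 0) then 1 else 0, k1, k2,
      (k3.and ((Ev.all hm).and (Ev.all hc))).mono fun p _ ⟨h1, h2, h3⟩ J hJ j => ?_⟩
    have e1 : J.low j β = (J.J j (β - one 0)).map (adr (ZMod p) 0) ⊔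
        (J.J j (β - one 1)).map (adr (ZMod p) 1) := by
      rw [J.low_eq]
      exact le_antisymm (iSup_le (Fin.forall_fin_two.2 ⟨iSup_le fun _ => le_sup_left,
        iSup_le fun _ => le_sup_right⟩))
        (sup_le (le_iSup₂_of_le 0 hb.1 le_rfl) (le_iSup₂_of_le 1 hb.2 le_rfl))
    have e2 : ∀ y, finrank (ZMod p) (J.J j (β - one y)) = m y - γ j (β - one y) := fun y => by
      have := J.rank_add_ty j (β - one y)
      rw [hJ, h2 y] at this
      omega
    have e3 : ∀ y, c y ≠ 0 ↔ red (ZMod p) (k y) ≠ 0 := fun y => by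
      rw [← h3 y, ne_eq, Submodule.finrank_eq_zero, Submodule.span_singleton_eq_bot]
    obtain ⟨a, b⟩ := rank_sup_rel _ _ h1 (J.le j _) (J.le j _)
    rw [e2, e2, ← e1, ← e3, ← e3, ← and_assoc,
      ← Fin.forall_fin_two (p := fun y => red (ZMod p) (k y) ∈ J.J j (β - one y))] at a b
    beta_reduce
    split_ifs with h
    · have := a h
      omega
    · exact b h
  · refine ⟨0, fun _ _ => 0, fun _ => zero_mem _, fun _ _ => rfl,
      Ev.of_forall fun p _ J _ j => ?_⟩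
    have e : mp (ZMod p) β = ⊥ := by
      by_cases h0 : β 0 = 0
      · exact mp_pow _ (x := 1) (Fin.forall_fin_two.2 ⟨fun _ => h0, fun h => absurd rfl h⟩)
          (by omega)
      · exact mp_pow _ (x := 0) (Fin.forall_fin_two.2 ⟨fun h => absurd rfl h, fun _ => by tauto⟩)
          (by omega)
    rw [le_bot_iff.1 (((J.low_le j β).trans (J.le j β)).trans e.le), finrank_bot]

/-- Sketch: strong induction on the cost. If all living nodes have degree at most five then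
`tameE` applies (nodes of degree at most four are thin, nodes of degree five are top nodes).
Otherwise remove a top node `β` of maximal degree (`peel_cntE`); by `above_card` and
`low_rank_tests` the number of flags at `β` depends modulo `p - 1` only on finitely many tests,
so `EC.pattern` and the induction hypothesis (add the spans of the tests to `E`) apply. -/
theorem h7E {γ : Ty (Fin 2)} {n : ℕ} (hn : HasCost γ n) (hc : Cls γ 7)
    (E : ℕ → (Fin 2 → ℕ) → ∀ (p : ℕ) [Fact p.Prime], Submodule (ZMod p) (FL (ZMod p) (Fin 2)))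
    (hE : ∀ j α, IsInt (E j α)) (hle : ∀ (p : ℕ) [Fact p.Prime] j α, E j α p ≤ mp (ZMod p) α)
    (h5 : ∀ (p : ℕ) [Fact p.Prime] j α, 5 < tot α → E j α p = ⊥) :
    EC 1 fun p _ => cntE (ZMod p) ∅ γ fun j α => E j α p := by
  classical
  induction n using Nat.strong_induction_on generalizing γ E with
  | _ n ih =>
  by_cases hA : ∀ j α, 5 < tot α → γ j α = 0
  · refine tameE hn (fun _ α _ => triv_empty α) (fun j α => ?_) E hE hle
      fun _ _ _ hg => absurd hg (Set.notMem_empty _)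
    by_cases h4 : tot α ≤ 4
    · exact Or.inl (Or.inr (Or.inl (thin_of_card (by simp) h4)))
    · exact Or.inr fun i y => hA _ _ (by rw [tot_add, tot_one]; omega)
  push Not at hA
  obtain ⟨j₀, α₀, h6, h0⟩ := hA
  obtain ⟨j₁, β, b1, b2, b3⟩ := exists_top hn fun e => h0 (by rw [e]; rfl)
  have b4 : 5 < tot β := h6.trans_le (b3 _ _ h0)
  have b5 : tot β ≤ 7 := not_lt.1 fun h => b1 (hc _ _ h)
  have hk : ∀ j α, γ.kill ∅ β j α ≤ γ j α := γ.on_le _
  obtain ⟨m, hm, hm'⟩ := hn.mono_lt hk (j := j₁) (α := β)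
    (by rw [kill_pos (Orb.refl _ _)]; exact Nat.pos_of_ne_zero b1)
  obtain ⟨N, hN⟩ := hn.exists_bound
  obtain ⟨k, r, k1, k2, k3⟩ := low_rank_tests (β := β) (by omega) (γ.kill ∅ β)
  obtain ⟨d, hd⟩ := (IsInt.mp β).rank
  choose c hc' using fun s : Set (Fin N) =>
    above_card N d (fun j => r j (∃ i ∈ s, i.val = j)) (fun j => γ j β) fun j hj => hN j hj β
  have hfin : ∀ (p : ℕ) [Fact p.Prime], Finite {J' : Chain (ZMod p) (Fin 2) //
      Inv ∅ J' ∧ J'.ty = γ.kill ∅ β ∧ ∀ j α, E j α p ≤ J'.J j α} := fun p _ =>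
    (finite_chains m).subset fun J hJ => show HasCost J.ty m from hJ.2.1 ▸ hm'
  refine (EC.pattern hfin (fun p _ x i => ∀ y, red (ZMod p) (k y) ∈ x.1.J i.val (β - one y))
    (fun s => ?_) (fun p _ x => Nat.card (Above (mp (ZMod p) β)
      (fun j => x.1.low j β ⊔ E j β p) fun j => γ j β)) c
    ((k3.and hd).mono fun p _ ⟨h1, h2⟩ x => ?_)).congr (Ev.of_forall fun p _ => ?_)
  · refine (ih m hm hm' (fun j α h => Nat.le_zero.1 (hc j α h ▸ hk j α))
      (fun j α p _ => E j α p ⊔ ⨆ (y : Fin 2) (_ : (∃ i ∈ s, i.val = j) ∧ α = β - one y),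
        Submodule.span (ZMod p) {red (ZMod p) (k y)})
      (fun j α => (hE j α).sup (IsInt.iSup fun y => IsInt.iSup_prop fun _ => IsInt.span _))
      (fun p _ j α => sup_le (hle p j α) (iSup₂_le fun y hy => ?_))
      fun p _ j α h => ?_).congr (Ev.of_forall fun p _ => ?_)
    · rw [Submodule.span_singleton_le_iff_mem, hy.2]
      exact red_mem _ (k1 y)
    · rw [h5 p j α h, bot_sup_eq, iSup₂_eq_bot]
      intro y hy
      rw [k2 y (hy.2 ▸ h), map_zero, Submodule.span_zero_singleton]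
    · rw [cntE, Nat.card_congr (Equiv.subtypeSubtypeEquivSubtypeInter _ fun x =>
        ∀ i ∈ s, ∀ y, red (ZMod p) (k y) ∈ Chain.J x (Fin.val i) (β - one y))]
      refine congrArg _ (Nat.card_congr (Equiv.subtypeEquivRight fun J => ?_))
      simp only [sup_le_iff, iSup_le_iff, Submodule.span_singleton_le_iff_mem, forall_and,
        and_assoc]
      refine and_congr_right fun _ => and_congr_right fun _ => and_congr_right fun _ =>
        ⟨fun h i hi y => h _ _ y ⟨⟨i, hi, rfl⟩, rfl⟩, ?_⟩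
      rintro h _ _ y ⟨⟨i, hi, rfl⟩, rfl⟩
      exact h i hi y
  · have := hc' {i | ∀ y, red (ZMod p) (k y) ∈ x.1.J i.val (β - one y)} (ZMod p) _
      (mp (ZMod p) β) (fun j => x.1.low j β ⊔ E j β p) h2
      (fun j => by rw [h5 p _ β b4, h5 p _ β b4]; exact sup_le_sup_right (x.1.low_mono j β) _)
      (fun j => sup_le ((x.1.low_le j β).trans (x.1.le j β)) (hle p j β)) fun j hj => by
        rw [h5 p _ β b4, sup_bot_eq, h1 x.1 x.2.2.1 j]
        refine congrArg _ (propext ⟨fun h => ⟨⟨j, hj⟩, h, rfl⟩, ?_⟩)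
        rintro ⟨i, hi, rfl⟩
        exact hi
    rwa [Nat.card_zmod] at this
  · have := hfin p
    have := Fintype.ofFinite {J' : Chain (ZMod p) (Fin 2) //
      Inv ∅ J' ∧ J'.ty = γ.kill ∅ β ∧ ∀ j α, E j α p ≤ J'.J j α}
    have := fun D => finite_above (ZMod p) (mp (ZMod p) β) D fun j hj => hN j hj β
    rw [peel_cntE (triv_empty β) b2 (fun _ hg => absurd hg (Set.notMem_empty _)) _ (hle p)
      fun _ hg => absurd hg (Set.notMem_empty _), Nat.card_sigma, finsum_eq_sum_of_fintype]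

theorem h7 {γ : Ty (Fin 2)} {n : ℕ} (hn : HasCost γ n) (hc : Cls γ 7) :
    EC 1 fun p _ => cntT (ZMod p) ∅ γ := by
  exact (h7E hn hc (fun _ _ _ _ => ⊥) (fun _ _ => IsInt.bot) (fun _ _ _ _ => bot_le)
    fun _ _ _ _ _ => rfl).congr (Ev.of_forall fun p _ => by rw [cntE_bot])

end Pool.Agent.P.MP_8598be_al.Z
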