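import Pool.Agent.P.MP_8598be_al.Z.NT2

/-!
More cubic polynomials of discriminant `-23`.
-/

namespace Pool.Agent.P.MP_8598be_al.Z

theorem cubic_e (p : ℕ) [Fact p.Prime] :
    roots [1, 2, 1, 1] p = roots [-1, -1, 0, 1] p := by
  rw [roots_eq_NT2, roots_four_NT2]
  congr 1
  refine card_eq_NT2 (fun x => (1) * x ^ 0 + (1) * x ^ 2)
    (fun x => (-1) * x ^ 0 + (-1) * x ^ 1 + (1) * x ^ 2) (fun x hx => ?_) (fun x hx => ?_)
  · push_cast at hx
    exact ⟨by linear_combination ((-1) * x ^ 0 + (2) * x ^ 1 + (-1) * x ^ 2 + (1) * x ^ 3) * hx,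
      by linear_combination ((-1) * x ^ 0 + (1) * x ^ 1) * hx⟩
  · push_cast
    exact ⟨by linear_combination ((1) * x ^ 0 + (2) * x ^ 1 + (-3) * x ^ 2 + (1) * x ^ 3) * hx,
      by linear_combination ((-2) * x ^ 0 + (1) * x ^ 1) * hx⟩

theorem cubic_f (p : ℕ) [Fact p.Prime] :
    roots [-1, -3, -2, 1] p = roots [-1, -1, 0, 1] p := by
  rw [roots_eq_NT2, roots_four_NT2]
  congr 1
  refine card_eq_NT2 (fun x => (-2) * x ^ 0 + (-2) * x ^ 1 + (1) * x ^ 2)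
    (fun x => (1) * x ^ 1 + (1) * x ^ 2) (fun x hx => ?_) (fun x hx => ?_)
  · push_cast at hx
    exact ⟨by linear_combination ((7) * x ^ 0 + (1) * x ^ 1 + (-4) * x ^ 2 + (1) * x ^ 3) * hx,
      by linear_combination ((-2) * x ^ 0 + (1) * x ^ 1) * hx⟩
  · push_cast
    exact ⟨by linear_combination ((1) * x ^ 0 + (2) * x ^ 1 + (3) * x ^ 2 + (1) * x ^ 3) * hx,
      by linear_combination ((2) * x ^ 0 + (1) * x ^ 1) * hx⟩

theorem cubic_g (p : ℕ) [Fact p.Prime] :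
    roots [1, 4, 5, 1] p = roots [-1, -1, 0, 1] p := by
  rw [roots_eq_NT2, roots_four_NT2]
  congr 1
  refine card_eq_NT2 (fun x => (1) * x ^ 0 + (4) * x ^ 1 + (1) * x ^ 2)
    (fun x => (-1) * x ^ 0 + (-1) * x ^ 1 + (-1) * x ^ 2) (fun x hx => ?_) (fun x hx => ?_)
  · push_cast at hx
    exact ⟨by linear_combination ((-1) * x ^ 0 + (12) * x ^ 1 + (7) * x ^ 2 + (1) * x ^ 3) * hx,
      by linear_combination ((-3) * x ^ 0 + (-1) * x ^ 1) * hx⟩
  · push_cast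
    exact ⟨by linear_combination ((-1) * x ^ 0 + (-2) * x ^ 1 + (-3) * x ^ 2 + (-1) * x ^ 3) * hx,
      by linear_combination ((2) * x ^ 0 + (1) * x ^ 1) * hx⟩

theorem cubic_h (p : ℕ) [Fact p.Prime] :
    roots [1, 3, 2, 1] p = roots [-1, -1, 0, 1] p := by
  rw [roots_eq_NT2, roots_four_NT2]
  congr 1
  refine card_eq_NT2 (fun x => (2) * x ^ 0 + (2) * x ^ 1 + (1) * x ^ 2)
    (fun x => (1) * x ^ 1 + (-1) * x ^ 2) (fun x hx => ?_) (fun x hx => ?_)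
  · push_cast at hx
    exact ⟨by linear_combination ((5) * x ^ 0 + (7) * x ^ 1 + (4) * x ^ 2 + (1) * x ^ 3) * hx,
      by linear_combination ((-2) * x ^ 0 + (-1) * x ^ 1) * hx⟩
  · push_cast
    exact ⟨by linear_combination ((-1) * x ^ 0 + (-2) * x ^ 1 + (3) * x ^ 2 + (-1) * x ^ 3) * hx,
      by linear_combination ((-2) * x ^ 0 + (1) * x ^ 1) * hx⟩

end Pool.Agent.P.MP_8598be_al.Z
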