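import Pool.Agent.P.MP_8598be_al.Ck.Out
import Pool.Agent.P.MP_8598be_al.Ck.D2A
import Pool.Agent.P.MP_8598be_al.Ck.D3A
import Pool.Agent.P.MP_8598be_al.Ck.D4A
import Pool.Agent.P.MP_8598be_al.Ck.D5A
import Pool.Agent.P.MP_8598be_al.Z.H7C
import Pool.Agent.P.MP_8598be_al.Z.NT3

/-!
The results of the verified enumerations.
-/

namespace Pool.Agent.P.MP_8598be_al.Z

open Ck

/-- The outputs for two letters. -/
def l2 : List (List ℕ × List ℤ × ℕ) :=
  [([1, 32, 33, 34, 65, 66, 67, 97, 98, 98, 99, 100, 130, 131, 132, 163], [-2, 0, 1], 8),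
   ([1, 32, 33, 34, 65, 66, 97, 98, 129, 130, 131, 161, 162, 163, 164, 195], [39, 0, 1], 9),
   ([1, 32, 33, 34, 65, 66, 97, 98, 129, 130, 131, 161, 162, 163, 164, 194], [-2, 0, 1], 9),
   ([1, 32, 33, 34, 35, 36, 37, 65, 66, 67, 68, 69, 70, 100, 101, 133], [-2, 0, 1], 9),
   ([1, 32, 33, 34, 35, 36, 37, 65, 66, 67, 68, 69, 100, 101, 102, 133], [39, 0, 1], 9),
   ([1, 32, 33, 34, 35, 65, 66, 67, 67, 68, 98, 99, 100, 101, 131, 132], [-2, 0, 1], 8),
   ([1, 32, 33, 34, 35, 65, 66, 67, 97, 98, 99, 100, 130, 131, 132, 163], [-109, 0, 1], 8),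
   ([1, 32, 33, 34, 35, 65, 66, 67, 68, 97, 98, 99, 100, 101, 131, 132], [-109, 0, 1], 8)]

/-- The outputs for three letters. -/
def l3 : List (List ℕ × List ℤ × ℕ) :=
  [([1, 16, 17, 18, 256, 257, 272, 273, 273, 274, 288, 289, 290, 291, 513, 529, 530, 545, 561,
      786], [2, 0, 1], 6),
   ([1, 16, 17, 33, 256, 257, 258, 272, 273, 273, 274, 289, 290, 306, 528, 529, 530, 531, 545,
      801], [2, 0, 1], 6)]

/-- The outputs for four letters with full cost. -/
def l4' : List (List ℕ × List ℤ × ℕ) :=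
  [([1, 16, 17, 256, 257, 272, 273, 273, 4096, 4097, 4112, 4113, 4352, 4353, 4368, 4369, 4369,
      4369, 4370, 4385, 4625], [1, 0, 1], 5),
   ([1, 16, 17, 18, 256, 257, 272, 273, 273, 274, 288, 289, 290, 291, 513, 529, 530, 545, 561,
      786, 4096], [2, 0, 1], 6),
   ([1, 16, 17, 33, 256, 257, 258, 272, 273, 273, 274, 289, 290, 306, 528, 529, 530, 531, 545,
      801, 4096], [2, 0, 1], 6)]

/-- The outputs for five letters. -/
def l5 : List (List ℕ × List ℤ × ℕ) :=
  [([1, 16, 17, 256, 257, 272, 273, 4096, 4097, 4112, 4113, 4352, 4353, 4368, 4369, 8465, 65536,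
      65537, 65552, 65553, 65792, 65793, 65808, 65809, 66065, 69632, 69633, 69648, 69649, 69665,
      69888, 69889, 69890, 69904, 135440], [1, 2, 1, 1], 5),
   ([1, 16, 17, 256, 257, 272, 273, 4096, 4097, 4112, 4113, 4352, 4353, 4368, 4369, 4625, 65536,
      65537, 65552, 65553, 65792, 65793, 65808, 65809, 65825, 69632, 69633, 69648, 69649, 69650,
      69888, 69889, 69904, 74000, 135425], [-1, -3, -2, 1], 5),
   ([1, 16, 17, 256, 257, 272, 273, 4096, 4097, 4112, 4113, 4352, 4353, 4368, 4369, 4385, 65536,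
      65537, 65552, 65553, 65792, 65793, 65808, 65809, 65810, 69632, 69633, 69648, 69649, 69888,
      69889, 69904, 70160, 73985, 135185], [1, 4, 5, 1], 5),
   ([1, 16, 17, 256, 257, 272, 273, 4096, 4097, 4112, 4113, 4352, 4353, 4368, 4369, 4370, 65536,
      65537, 65552, 65553, 65792, 65793, 65808, 65809, 69632, 69633, 69648, 69649, 69888, 69889,
      69904, 69920, 70145, 73745, 131345], [1, 3, 2, 1], 5)]

theorem top2 : FV D2.par (top D2.par (0 : Fin 6) 16 1 l2) :=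
  D2.all 1398 _ (by decide) (by rfl)

theorem top3 : FV D3.par (top D3.par (1 : Fin 6) 20 64 l3) :=
  D3.all 34 _ (by decide) (by rfl)

theorem top4 : FV D4.par (top D4.par (1 : Fin 6) 21 128 (l3 ++ l4')) :=
  D4.all 207 _ (by decide) (by rfl)

theorem top5 : FV D5.par (top D5.par (1 : Fin 6) 35 262144 l5) :=
  D5.all 294 _ (by decide) (by rfl)

theorem ook2 : OOk D2.par (0 : Fin 6) 1 l2 := by decide +kernel

theorem ook3 : OOk D3.par (1 : Fin 6) 64 l3 := by decide +kernel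

theorem ook4 : OOk D4.par (1 : Fin 6) 128 (l3 ++ l4') := by decide +kernel

theorem ook5 : OOk D5.par (1 : Fin 6) 262144 l5 := by decide +kernel

theorem inv_one {F X : Type} [Field F] [Fintype X] [DecidableEq X] (J : Chain F X) :
    Inv {1} J ↔ Inv ∅ J := by
  refine ⟨fun _ _ h => h.elim, fun _ g hg j α u hu => ?_⟩
  rw [Set.mem_singleton_iff.1 hg, Equiv.Perm.coe_one, push_id, ren_id]
  exact hu

theorem cntT_one {F X : Type} [Field F] [Fintype X] [DecidableEq X] (γ : Ty X) :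
    cntT F {1} γ = cntT F ∅ γ := by
  simp only [cntT, inv_one]

theorem cntC_one {F X : Type} [Field F] [Fintype X] [DecidableEq X] (c n : ℕ) :
    cntC F ({1} : Set (Equiv.Perm X)) c n = cntC F (∅ : Set (Equiv.Perm X)) c n := by
  simp only [cntC, inv_one]

theorem low2 (γ : Ty (Fin 2)) (k : ℕ) (h : HasCost γ k) (hm : ¬ K.Reach γ 8) :
    EC 1 fun p _ => cntT (ZMod p) {1} γ := by
  simp only [cntT_one]
  by_cases ha : Adm ∅ γ
  · refine h7 h fun j α hα => ?_
    by_contra e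
    exact hm (.inr ⟨α, hα, ha.alive_zero e⟩)
  · exact (EC.const 0).congr (Ev.of_forall fun p _ => by rw [cntT_of_not_adm ha, Nat.cast_zero])

theorem run2_small (γ : Ty (Fin 2)) {k : ℕ} (hk : k ≤ 11) (h : HasCost γ k) :
    EC 1 fun p _ => cntT (ZMod p) ∅ γ := by
  have h1 : EC 1 fun p _ => cntT (ZMod p) {1} γ :=
    small_all top2 ook2 low2 (by decide) γ h (by omega) (show 1 ≤ _ by omega)
  simpa only [cntT_one] using h1

theorem run2 {c : ℕ} (hc : 8 ≤ c) : ∃ a b e : ℤ, (a = 2 ∨ a = 4) ∧ EC 1 fun p _ =>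
    (cntC (ZMod p) (∅ : Set (Equiv.Perm (Fin 2))) c 16 : ℤ) -
      (a * sq2 2 p + b * sq2 (-39) p + e * sq2 109 p) := by
  have h1 : EC 1 fun p _ => (cntC (ZMod p) ({1} : Set (Equiv.Perm (Fin 2))) c 16 : ℤ) -
      (l2.map fun x => if x.2.2 ≤ c then roots x.2.1 p else 0).sum :=
    cls_all top2 ook2 low2 (l' := l2) (by decide) c
  by_cases h9 : 9 ≤ c
  · refine ⟨4, 2, 2, .inr rfl, h1.congr (Ev.of_forall fun p _ => ?_)⟩
    simp only [cntC_one, l2, List.map_cons, List.map_nil, List.sum_cons, List.sum_nil, if_pos hc,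
      if_pos h9, sq2, neg_neg]
    ring
  · refine ⟨2, 0, 2, .inl rfl, h1.congr (Ev.of_forall fun p _ => ?_)⟩
    simp only [cntC_one, l2, List.map_cons, List.map_nil, List.sum_cons, List.sum_nil, if_pos hc,
      if_neg h9, sq2, neg_neg]
    ring

theorem run3 {c : ℕ} (hc : 6 ≤ c) : EC 3 fun p _ =>
    (cntC (ZMod p) {finRotate 3} c 20 : ℤ) - 2 * sq2 (-2) p := by
  have h1 : EC 3 fun p _ => (cntC (ZMod p) {finRotate 3} c 20 : ℤ) -
      (l3.map fun x => if x.2.2 ≤ c then roots x.2.1 p else 0).sum :=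
    cls_all top3 ook3 (fun _ _ _ h => (h (.inl rfl)).elim) (l' := l3) (by decide) c
  refine h1.congr (Ev.of_forall fun p _ => ?_)
  simp only [l3, List.map_cons, List.map_nil, List.sum_cons, List.sum_nil, if_pos hc, sq2, neg_neg]
  ring

/-- The permutation of four letters that fixes the last one. -/
def s4 : Equiv.Perm (Fin 4) := ⟨![1, 2, 0, 3], ![2, 0, 1, 3], by decide, by decide⟩

theorem run4 {c : ℕ} (hc : 5 ≤ c) : ∃ b : ℤ, EC 3 fun p _ =>
    (cntC (ZMod p) {s4} c 21 : ℤ) - (sq2 (-1) p + b * sq2 (-2) p) := by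
  have h1 : EC 3 fun p _ => (cntC (ZMod p) {s4} c 21 : ℤ) -
      (l4'.map fun x => if x.2.2 ≤ c then roots x.2.1 p else 0).sum :=
    cls_all top4 ook4 (fun _ _ _ h => (h (.inl rfl)).elim) (l' := l4') (by decide) c
  by_cases h6 : 6 ≤ c
  · refine ⟨2, h1.congr (Ev.of_forall fun p _ => ?_)⟩
    simp only [l4', List.map_cons, List.map_nil, List.sum_cons, List.sum_nil, if_pos hc,
      if_pos h6, sq2, neg_neg]
    ring
  · refine ⟨0, h1.congr (Ev.of_forall fun p _ => ?_)⟩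
    simp only [l4', List.map_cons, List.map_nil, List.sum_cons, List.sum_nil, if_pos hc,
      if_neg h6, sq2, neg_neg]
    ring

theorem run5_small (γ : Ty (Fin 5)) {a : ℕ} (ha : a ≤ 30) (h : HasCost γ a) :
    EC 5 fun p _ => cntT (ZMod p) {finRotate 5} γ :=
  small_all top5 ook5 (fun _ _ _ h => (h (.inl rfl)).elim) (by decide) γ h (by omega)
    (show 5 ≤ _ by omega)

theorem run5 {c : ℕ} (hc : 5 ≤ c) : EC 5 fun p _ =>
    (cntC (ZMod p) {finRotate 5} c 35 : ℤ) - 4 * roots [-1, -1, 0, 1] p := by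
  have h1 : EC 5 fun p _ => (cntC (ZMod p) {finRotate 5} c 35 : ℤ) -
      (l5.map fun x => if x.2.2 ≤ c then roots x.2.1 p else 0).sum :=
    cls_all top5 ook5 (fun _ _ _ h => (h (.inl rfl)).elim) (l' := l5) (by decide) c
  refine h1.congr (Ev.of_forall fun p _ => ?_)
  simp only [l5, List.map_cons, List.map_nil, List.sum_cons, List.sum_nil, if_pos hc, cubic_e,
    cubic_f, cubic_g, cubic_h]
  ring

end Pool.Agent.P.MP_8598be_al.Z
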