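import Pool.Agent.P.MP_8598be_al.Z.Defs

/-!
Consecutive smooth numbers.
-/

namespace Pool.Agent.P.MP_8598be_al.Z

theorem pow_of_primes_Smooth {n q : ℕ} (hn : n ≠ 0) (h : ∀ p, p.Prime → p ∣ n → p = q) :
    ∃ k, n = q ^ k :=
  ⟨_, Nat.eq_prime_pow_of_unique_prime_dvd hn (fun hp hd => h _ hp hd)⟩

theorem two_pow_eq_Smooth {a b : ℕ} (h : 2 ^ a = 3 ^ b + 1) : 3 ^ b ≤ 3 := by
  have h8 : 3 ^ b % 8 = 1 ∨ 3 ^ b % 8 = 3 := by
    clear h
    induction b with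
    | zero => simp
    | succ b ih => rw [pow_succ]; omega
  by_cases ha : 3 ≤ a
  · obtain ⟨c, rfl⟩ := Nat.exists_eq_add_of_le ha
    rw [pow_add] at h
    omega
  · have : 2 ^ a ≤ 2 ^ 2 := Nat.pow_le_pow_right (by norm_num) (by omega)
    omega

theorem three_pow_eq_Smooth {a b : ℕ} (h : 3 ^ b = 2 ^ a + 1) (h4 : 4 ≤ 2 ^ a) : 2 ^ a = 8 := by
  have ha : 2 ≤ a := by
    by_contra hc
    have : 2 ^ a ≤ 2 ^ 1 := Nat.pow_le_pow_right (by norm_num) (by omega)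
    omega
  obtain ⟨c, rfl | rfl⟩ := Nat.even_or_odd' b
  · have hd : 3 ^ c + 1 ∣ 2 ^ a := by
      have h1 : 1 ≤ 3 ^ c := Nat.one_le_pow _ _ (by norm_num)
      obtain ⟨t, ht⟩ := Nat.exists_eq_add_of_le h1
      refine ⟨t, ?_⟩
      rw [pow_mul', ht] at h
      rw [ht]
      nlinarith
    obtain ⟨y, -, hy⟩ := (Nat.dvd_prime_pow Nat.prime_two).1 hd
    have h3 := two_pow_eq_Smooth hy.symm
    have hc : c ≤ 1 := by
      by_contra hc
      have : 3 ^ 2 ≤ 3 ^ c := Nat.pow_le_pow_right (by norm_num) (by omega)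
      omega
    interval_cases c <;> omega
  · exfalso
    obtain ⟨e, rfl⟩ := Nat.exists_eq_add_of_le ha
    have h9 : 3 ^ (2 * c) % 4 = 1 := by
      rw [pow_mul, Nat.pow_mod]; simp
    rw [pow_succ, pow_add] at h
    omega

theorem split_Smooth {n l : ℕ} (hn : n ≠ 0) (hl : l.Prime) (hd : l ∣ n) :
    ∃ e m, ¬ l ∣ m ∧ n = l * l ^ e * m := by
  obtain ⟨e, m, hm, he⟩ := Nat.exists_eq_pow_mul_and_not_dvd hn l hl.ne_one
  cases e with
  | zero => exact absurd (by simpa [he] using hd) hm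
  | succ e => exact ⟨e, m, hm, by rw [he, pow_succ']⟩

/-- Consecutive numbers of the form `2 ^ a * 3 ^ b` are `1, 2` or `2, 3` or `3, 4` or `8, 9`. -/
theorem smooth {d : ℕ} (h6 : 6 ≤ d) (h10 : d ≠ 10) :
    ∃ l e m : ℕ, l.Prime ∧ 5 ≤ l ∧ ¬ l ∣ m ∧ (d = 1 + l * l ^ e * m ∨ d = 2 + l * l ^ e * m) := by
  obtain ⟨n, rfl⟩ : ∃ n, d = n + 2 := ⟨d - 2, by omega⟩
  by_cases h1 : ∃ l, l.Prime ∧ 5 ≤ l ∧ l ∣ n + 1
  · obtain ⟨l, hl, h5, hd⟩ := h1
    obtain ⟨e, m, hm, he⟩ := split_Smooth (by omega) hl hd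
    exact ⟨l, e, m, hl, h5, hm, Or.inl (by omega)⟩
  by_cases h2 : ∃ l, l.Prime ∧ 5 ≤ l ∧ l ∣ n
  · obtain ⟨l, hl, h5, hd⟩ := h2
    obtain ⟨e, m, hm, he⟩ := split_Smooth (by omega) hl hd
    exact ⟨l, e, m, hl, h5, hm, Or.inr (by omega)⟩
  exfalso
  have small : ∀ p : ℕ, p.Prime → ¬ 5 ≤ p → p = 2 ∨ p = 3 := by
    intro p hp h
    have := hp.two_le
    have h4 : p ≠ 4 := by rintro rfl; exact absurd hp (by norm_num)
    omega
  have a1 : ∀ p, p.Prime → p ∣ n + 1 → p = 2 ∨ p = 3 :=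
    fun p hp hd => small p hp (fun h => h1 ⟨p, hp, h, hd⟩)
  have a2 : ∀ p, p.Prime → p ∣ n → p = 2 ∨ p = 3 :=
    fun p hp hd => small p hp (fun h => h2 ⟨p, hp, h, hd⟩)
  rcases Nat.even_or_odd' n with ⟨k, hk | hk⟩
  · obtain ⟨b, hb⟩ := pow_of_primes_Smooth (n := n + 1) (q := 3) (by omega) (fun p hp hd => by
      rcases a1 p hp hd with rfl | rfl
      · omega
      · rfl)
    have h3 : 3 ∣ n + 1 := by
      rw [hb]
      refine dvd_pow_self 3 ?_
      rintro rfl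
      omega
    obtain ⟨a, ha⟩ := pow_of_primes_Smooth (n := n) (q := 2) (by omega) (fun p hp hd => by
      rcases a2 p hp hd with rfl | rfl
      · rfl
      · omega)
    have := three_pow_eq_Smooth (a := a) (b := b) (by omega) (by omega)
    omega
  · obtain ⟨b, hb⟩ := pow_of_primes_Smooth (n := n) (q := 3) (by omega) (fun p hp hd => by
      rcases a2 p hp hd with rfl | rfl
      · omega
      · rfl)
    have h3 : 3 ∣ n := by
      rw [hb]
      refine dvd_pow_self 3 ?_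
      rintro rfl
      omega
    obtain ⟨a, ha⟩ := pow_of_primes_Smooth (n := n + 1) (q := 2) (by omega) (fun p hp hd => by
      rcases a1 p hp hd with rfl | rfl
      · rfl
      · omega)
    have := two_pow_eq_Smooth (a := a) (b := b) (by omega)
    omega

end Pool.Agent.P.MP_8598be_al.Z
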