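import Pool.Agent.P.MP_8598be_al.Z.Gen
import Pool.Agent.P.MP_8598be_al.Z.NT2
import Pool.Agent.P.MP_8598be_al.Z.Smooth
import Pool.Agent.P.MP_8598be_al.Z.Runs
import Pool.Agent.P.MP_8598be_al.N.FiveThree

/-!
All cases.
-/

namespace Pool.Agent.P.MP_8598be_al.Z

theorem pgroup_single {X : Type} {l : ℕ} {g : Equiv.Perm X} (h : g ^ l = 1) :
    IsPGroup l (Subgroup.closure ({g} : Set (Equiv.Perm X))) := by
  rintro ⟨x, hx⟩
  obtain ⟨k, rfl⟩ := Subgroup.mem_closure_singleton.1 hx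
  refine ⟨1, Subtype.ext ?_⟩
  change (g ^ k) ^ l ^ 1 = 1
  rw [pow_one, ← zpow_natCast, ← zpow_mul, mul_comm, zpow_mul, zpow_natCast, h, one_zpow]

theorem rot5 : (Equiv.addRight (1 : ZMod 5) : Equiv.Perm (ZMod 5)) = finRotate 5 := by
  ext x
  revert x
  decide

theorem pureHyp (l : ℕ) [NeZero l] : PureHyp l := by
  rintro γ a rfl ha h
  rw [rot5]
  exact run5_small γ (by omega) h

theorem nu_two {c : ℕ} (hc : 8 ≤ c) (W : RatXY) : ¬ Uniform c 2 W := by
  obtain ⟨a, b, e, ha, h⟩ := run2 hc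
  refine not_uniform_of (X := Fin 2) (by simp) Nat.prime_three ∅ ?_ 16 (h.of_dvd (one_dvd 3))
    (sep_two Nat.prime_three (by norm_num) ha b e)
  rw [Subgroup.closure_empty]
  exact IsPGroup.of_bot

theorem nu_three {c : ℕ} (hc : 6 ≤ c) (W : RatXY) : ¬ Uniform c 3 W :=
  not_uniform_of (X := Fin 3) (by simp) Nat.prime_three _ (pgroup_single (by decide)) 20 (run3 hc)
    (Sep.smul Nat.prime_three (by norm_num) sep_three)

theorem nu_four {c : ℕ} (hc : 5 ≤ c) (W : RatXY) : ¬ Uniform c 4 W := by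
  obtain ⟨b, h⟩ := run4 hc
  exact not_uniform_of (X := Fin 4) (by simp) Nat.prime_three _ (pgroup_single (by decide)) 21 h
    (sep_four b)

theorem nu_five {c : ℕ} (hc : 5 ≤ c) (W : RatXY) : ¬ Uniform c 5 W :=
  not_uniform_of (X := Fin 5) (by simp) Nat.prime_five _ (pgroup_single (by decide)) 35 (run5 hc)
    (Sep.smul Nat.prime_five (by norm_num) sep_five)

theorem nu_ten {c : ℕ} (hc : 5 ≤ c) (W : RatXY) : ¬ Uniform c 10 W := by
  have h1 := fam_ten c fun a ha => by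
    rw [rot5]
    refine (EC.sum (tys {finRotate 5} c a) fun γ hγ =>
      run5_small γ ha (mem_tys.1 hγ).2.2).congr (Ev.of_forall fun p _ => ?_)
    have := cntC_eq_sum (F := ZMod p) {finRotate 5} c a
    exact_mod_cast this.symm
  rw [rot5] at h1
  refine not_uniform_of (X := Alph Empty (Fin 2) 5 1) (by rw [card_alph]; simp) Nat.prime_five _
    (wreath_pgroup (e := 0) rfl) 35 (g := fun p _ => 8 * roots [-1, -1, 0, 1] p)
    ((h1.add ((EC.const 2).mul (run5 hc))).congr (Ev.of_forall fun p _ => ?_))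
    (Sep.smul Nat.prime_five (by norm_num) sep_five)
  change _ - 2 * (cntC (ZMod p) {finRotate 5} c 35 : ℤ) + _ = _
  ring

theorem hub_sixteen {l e m c : ℕ} (hl : l.Prime) (h5 : 5 ≤ l) (hm : ¬ l ∣ m)
    (hc : 8 ≤ c) (W : RatXY) : ¬ Uniform c (2 + l * l ^ e * m) W := by
  haveI : NeZero l := ⟨hl.ne_zero⟩
  haveI : NeZero (l ^ e) := ⟨pow_ne_zero e hl.ne_zero⟩
  haveI : Nonempty (Fin m) := ⟨⟨0, Nat.pos_of_ne_zero fun e => hm (e ▸ dvd_zero l)⟩⟩
  obtain ⟨a, b, e', ha, h⟩ := run2 hc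
  have h1 := fam_sixteen (H := Fin 2) (B := Fin m) (q := l ^ e) hl h5 (odd_pow hl h5 e) (by simp)
    (pureHyp l) (c := c) (by omega) fun k hk κ hκ => run2_small κ hk hκ
  refine not_uniform_of (X := Alph (Fin 2) (Fin m) l (l ^ e)) (by rw [card_alph]; simp) hl _
    (wreath_pgroup rfl) 16 ((h1.add (h.of_dvd (one_dvd l))).congr (Ev.of_forall fun p _ => ?_))
    (sep_two hl (by omega) ha b e')
  ring

theorem full {c d : ℕ} (hd : 2 ≤ d) {W : RatXY} (hW : Uniform c d W) :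
    ∃ v : ℚ, 0 < v ∧ BothValues (rk c d) W v := by
  by_cases h1 : c ≤ 4 ∨ d = 2 ∧ c ≤ 7
  · exact E.low_class h1 hW
  by_cases h2 : c = 5 ∧ d = 3
  · obtain ⟨rfl, rfl⟩ := h2
    exact N.five_three hW
  exfalso
  by_cases h6 : 6 ≤ d
  · by_cases h10 : d = 10
    · exact nu_ten (by omega) W (h10 ▸ hW)
    obtain ⟨l, e, m, hl, h5, hm, rfl | rfl⟩ := smooth h6 h10
    · haveI : NeZero l := ⟨hl.ne_zero⟩
      exact hub_one hl h5 hm (pureHyp l) (by omega) W hW
    · haveI : NeZero l := ⟨hl.ne_zero⟩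
      by_cases h7 : c ≤ 7
      · exact hub_two hl h5 hm (pureHyp l) (by omega) h7 W hW
      · exact hub_sixteen hl h5 hm (by omega) W hW
  · obtain rfl | rfl | rfl | rfl : d = 2 ∨ d = 3 ∨ d = 4 ∨ d = 5 := by omega
    · exact nu_two (by omega) W hW
    · exact nu_three (by omega) W hW
    · exact nu_four (by omega) W hW
    · exact nu_five (by omega) W hW

end Pool.Agent.P.MP_8598be_al.Z
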