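import Pool.Agent.P.MP_8598be_al.Z.Tys
import Pool.Agent.P.MP_8598be_al.N.Fix

/-!
Uniformity forces the number of invariant chains to be constant modulo `l`.
-/

namespace Pool.Agent.P.MP_8598be_al.Z

open Module

theorem lie_eq_Iface (R : Type) [CommRing R] {d : ℕ} (t : FreeMagma (Fin d)) :
    lie R t = E.lieT R t := by
  induction t using FreeMagma.rec with
  | of k => rfl
  | mul a b ha hb => rw [lie, E.lieT, ha, hb]

theorem wt_eq_Iface {d : ℕ} (t : FreeMagma (Fin d)) : wt t = E.wtT t := by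
  induction t using FreeMagma.rec with
  | of k => rfl
  | mul a b ha hb => rw [wt, E.wtT, ha, hb]

theorem mp_eq_mpiece (F : Type) [Field F] {d : ℕ} (α : Fin d → ℕ) : mp F α = N.mpiece F α := by
  rw [mp, N.mpiece, funext (lie_eq_Iface F), funext wt_eq_Iface]

theorem codim_eq_Iface {F : Type} [Field F] {d : ℕ} (J : Chain F (Fin d)) (c j : ℕ) :
    N.codim F c (J.J j) = ∑ α ∈ N.box c d, J.ty j α :=
  Finset.sum_congr rfl fun α _ => by rw [Chain.ty, mp_eq_mpiece]

theorem isChain_iff_Iface {F : Type} [Field F] {d : ℕ} (J : Chain F (Fin d)) (c n : ℕ) :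
    N.IsChain F c n J.J ↔ Cls J.ty c ∧ HasCost J.ty n := by
  have h1 : ∑ j ∈ Finset.range n, N.codim F c (J.J j) =
      ∑ q ∈ Finset.range n ×ˢ N.box c d, J.ty q.1 q.2 := by
    rw [Finset.sum_product]
    exact Finset.sum_congr rfl fun j _ => codim_eq_Iface J c j
  have h2 : Cls J.ty c → (∀ j, n ≤ j → ∀ α, J.ty j α = 0) →
      ∀ j α, (j, α) ∉ Finset.range n ×ˢ N.box c d → J.ty j α = 0 := by
    intro hc hn j α h
    rw [Finset.mem_product, not_and_or] at h
    rcases h with h | h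
    · exact hn j (by simpa using h) α
    · exact hc j α (not_le.1 fun e => h (N.mem_box_of_sum e))
  constructor
  · intro h
    have hc : Cls J.ty c := fun j α hα =>
      J.ty_eq_zero.2 (((h.mid j).top α hα).trans (mp_eq_mpiece F α).symm)
    refine ⟨hc, _, h2 hc fun j hj α => J.ty_eq_zero.2 ?_, h1.symm.trans h.sum⟩
    rw [h.top j hj, mp_eq_mpiece]
  · rintro ⟨hc, hn⟩
    have h3 : ∀ j, n ≤ j → ∀ α, J.ty j α = 0 := fun j hj α => by
      by_contra h0
      exact absurd (J.adm_empty.tot_le hn h0).2 (not_lt.2 hj)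
    refine ⟨fun i j hij α => J.mono' hij α, fun j => ⟨fun α => mp_eq_mpiece F α ▸ J.le j α,
      fun α hα => (J.ty_eq_zero.1 (hc j α hα)).trans (mp_eq_mpiece F α), J.br j⟩,
      fun j hj => funext fun α => (J.ty_eq_zero.1 (h3 j hj α)).trans (mp_eq_mpiece F α),
      h1.trans (hn.sum_eq (h2 hc h3))⟩

theorem inv_iff_Iface {F : Type} [Field F] {d : ℕ} (J : Chain F (Fin d))
    (S : Set (Equiv.Perm (Fin d))) :
    (∀ σ ∈ Subgroup.closure S, ∀ j, N.Stable F σ (J.J j)) ↔ Inv S J := by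
  constructor
  · intro h g hg j α u hu
    refine h g (Subgroup.subset_closure hg) j _ u ?_
    rwa [push_equiv, Function.comp_assoc, Equiv.symm_comp_self, Function.comp_id]
  · intro h g hg j α u hu
    have h1 := h.closure g hg j _ u hu
    rwa [push_equiv, Function.comp_assoc, Equiv.self_comp_symm, Function.comp_id] at h1

theorem cntC_eq_fixCount (F : Type) [Field F] {d : ℕ} (S : Set (Equiv.Perm (Fin d))) (c n : ℕ) :
    cntC F S c n = N.fixCount F c n (Subgroup.closure S) := by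
  refine Nat.card_congr ⟨fun J => ⟨J.1.J, (isChain_iff_Iface J.1 c n).2 J.2.2,
    (inv_iff_Iface J.1 S).2 J.2.1⟩, fun Λ => ⟨⟨Λ.1,
      fun j α => (mp_eq_mpiece F α).symm ▸ (Λ.2.1.mid j).le α,
      fun j α => Λ.2.1.mono (Nat.le_succ j) α, fun j => (Λ.2.1.mid j).lie⟩,
      (inv_iff_Iface _ S).1 Λ.2.2, (isChain_iff_Iface _ c n).1 Λ.2.1⟩, fun _ => rfl, fun _ => rfl⟩

/-- Transport along `X ≃ Fin d`. -/
theorem cst_of_uniform {c d : ℕ} {W : RatXY} (hW : Uniform c d W) {X : Type} [Fintype X]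
    [DecidableEq X] (hX : Fintype.card X = d) {l : ℕ} (hl : l.Prime) (S : Set (Equiv.Perm X))
    (hS : IsPGroup l (Subgroup.closure S)) (n : ℕ) :
    Cst 1 l fun p _ => cntC (ZMod p) S c n := by
  let e : X ≃ Fin d := Fintype.equivFinOfCardEq hX
  have hP : IsPGroup l (Subgroup.closure (e.permCongr '' S)) := by
    have h1 := hS.map e.permCongrHom.toMonoidHom
    rw [MonoidHom.map_closure] at h1
    exact h1
  obtain ⟨k, T, C, h⟩ := N.fix_const hW hl _ hP n
  have : NeZero l := ⟨hl.ne_zero⟩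
  refine ⟨k, C.val, T.sup id, fun p _ hp hd => ?_⟩
  have h1 := h p (fun e => hp.not_ge (Finset.le_sup (f := id) e)) (by rwa [one_mul] at hd)
  rw [← cntC_eq_fixCount, cntC_equiv] at h1
  beta_reduce
  rw [← ZMod.intCast_zmod_eq_zero_iff_dvd]
  push_cast
  rw [h1, ZMod.natCast_zmod_val, sub_self]

end Pool.Agent.P.MP_8598be_al.Z
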