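import Pool.Agent.P.MP_8598be_al.Z.ECc

/-!
Numbers of roots of quadratic polynomials.
-/

namespace Pool.Agent.P.MP_8598be_al.Z

theorem roots_three_NT (a b c : ℤ) (p : ℕ) [Fact p.Prime] : roots [c, b, a] p =
    Nat.card {x : ZMod p // (c : ZMod p) + x * ((b : ZMod p) + x * ((a : ZMod p) + x * 0)) = 0} :=
  rfl

theorem sq2_eq (D : ℤ) (p : ℕ) [Fact p.Prime] (hp : p ≠ 2) : sq2 D p = legendreSym p D + 1 := by
  rw [← legendreSym.card_sqrts p hp D, Set.toFinset_card, ← Nat.card_eq_fintype_card, sq2,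
    roots_three_NT]
  refine congrArg Nat.cast (Nat.card_congr (Equiv.subtypeEquivRight fun x => ?_))
  simp only [Set.mem_ofPred_eq]
  push_cast
  constructor <;> intro h <;> linear_combination h

theorem sq2_pos_NT (n p : ℕ) [Fact p.Prime] (hn : Odd n) (hp : p % 4 = 1) :
    sq2 n p = jacobiSym p n + 1 := by
  rw [sq2_eq _ p (by omega), jacobiSym.legendreSym.to_jacobiSym,
    jacobiSym.quadratic_reciprocity_one_mod_four' hn hp]

theorem sq2_neg_NT (n p : ℕ) [Fact p.Prime] (hn : Odd n) (hp : p % 4 = 1) :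
    sq2 (-n) p = jacobiSym p n + 1 := by
  rw [sq2_eq _ p (by omega), jacobiSym.legendreSym.to_jacobiSym,
    jacobiSym.neg _ (Nat.odd_iff.2 (by omega)), ZMod.χ₄_nat_one_mod_four hp, one_mul,
    jacobiSym.quadratic_reciprocity_one_mod_four' hn hp]

theorem jac_one_NT {n p : ℕ} (hp : 1 ≤ p) (h : n ∣ p - 1) : jacobiSym p n = 1 := by
  rw [← jacobiSym.one_left n]
  refine jacobiSym.mod_left' ?_
  exact_mod_cast Int.natCast_modEq_iff.2 ((Nat.modEq_iff_dvd' hp).2 h).symm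

theorem sq2_two_NT (p : ℕ) [Fact p.Prime] (hp : p % 2 = 1) :
    sq2 2 p = (if p % 8 = 1 ∨ p % 8 = 7 then 1 else -1) + 1 := by
  rw [sq2_eq _ p (by omega), legendreSym.at_two (by omega), ZMod.χ₈_nat_eq_if_mod_eight,
    if_neg (by omega)]

theorem sq2_neg_two_NT (p : ℕ) [Fact p.Prime] (hp : p % 2 = 1) :
    sq2 (-2) p = (if p % 8 = 1 ∨ p % 8 = 3 then 1 else -1) + 1 := by
  rw [sq2_eq _ p (by omega), legendreSym.at_neg_two (by omega), ZMod.χ₈'_nat_eq_if_mod_eight,
    if_neg (by omega)]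

theorem not_dvd_NT {l : ℕ} (hl : l.Prime) (h2 : l ≠ 2) (k : ℕ) : ¬ (l : ℤ) ∣ 2 ^ k := fun h => by
  have h1 : l ∣ 2 ^ k := by exact_mod_cast h
  exact h2 ((Nat.prime_dvd_prime_iff_eq hl Nat.prime_two).1 (hl.dvd_of_dvd_pow h1))

theorem roots_quad {a b c : ℤ} (ha : a ≠ 0) :
    Ev 1 fun p _ => roots [c, b, a] p = sq2 (b ^ 2 - 4 * a * c) p := by
  refine (Ev.cast_ne_zero 1 (mul_ne_zero two_ne_zero ha)).mono fun p _ h => ?_
  push_cast at h
  rw [sq2, roots_three_NT, roots_three_NT]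
  refine congrArg Nat.cast (Nat.card_congr (Equiv.subtypeEquiv
    ((Equiv.mulLeft₀ (2 * (a : ZMod p)) h).trans (Equiv.addRight (b : ZMod p))) fun x => ?_))
  simp only [Equiv.trans_apply, Equiv.mulLeft₀_apply, Equiv.coe_addRight]
  push_cast
  constructor
  · intro h1
    linear_combination 4 * (a : ZMod p) * h1
  · intro h1
    refine mul_left_cancel₀ (mul_ne_zero (left_ne_zero_of_mul h) h) ?_
    linear_combination h1

theorem sq2_mul_sq (D : ℤ) {m : ℤ} (hm : m ≠ 0) :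
    Ev 1 fun p _ => sq2 (D * m ^ 2) p = sq2 D p := by
  refine ((Ev.cast_ne_zero 1 hm).and (Ev.gt 1 2)).mono fun p _ h => ?_
  rw [sq2_eq _ p h.2.ne', sq2_eq _ p h.2.ne', legendreSym.mul, legendreSym.sq_one' p h.1, mul_one]

/-- Primes in residue classes, in the form that is used below. -/
theorem exists_prime_mod {M m a : ℕ} (hM : M ≠ 0) (hm : m ≠ 0) (hc : M.Coprime m)
    (ha : a.Coprime m) (N : ℕ) : ∃ p, p.Prime ∧ N < p ∧ M ∣ p - 1 ∧ p % m = a % m := by
  obtain ⟨k, h1, h2⟩ := Nat.chineseRemainder hc 1 a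
  have hk : k.Coprime (M * m) := by
    refine Nat.Coprime.mul_right ?_ ?_
    · rw [Nat.Coprime, h1.gcd_eq]
      exact Nat.gcd_one_left M
    · rw [Nat.Coprime, h2.gcd_eq]
      exact ha
  obtain ⟨p, hp, hp1, hp2⟩ := Nat.forall_exists_prime_gt_and_modEq N (mul_ne_zero hM hm) hk
  exact ⟨p, hp1, hp, (Nat.modEq_iff_dvd' hp1.one_le).1 ((hp2.of_mul_right m).trans h1).symm,
    (hp2.of_mul_left M).trans h2⟩

/-- Take `p` congruent to `1` or `2` modulo `3`. -/
theorem sep_hub {l : ℕ} (hl : l.Prime) (h5 : 5 ≤ l) : Sep l l (roots [1, 1, 1]) := by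
  intro K N
  obtain ⟨N0, h0⟩ := roots_quad (a := 1) (b := 1) (c := 1) one_ne_zero
  have hc : l.Coprime 12 := by
    rw [show 12 = 2 ^ 2 * 3 by norm_num]
    exact Nat.Coprime.mul_right
      (((Nat.coprime_primes hl Nat.prime_two).2 (by omega)).pow_right 2)
      ((Nat.coprime_primes hl Nat.prime_three).2 (by omega))
  have hM : l * l ^ K ≠ 0 := mul_ne_zero hl.ne_zero (pow_ne_zero K hl.ne_zero)
  have hc' : (l * l ^ K).Coprime 12 := hc.mul_left (hc.pow_left K)
  obtain ⟨p, hp, hpN, hpM, hpm⟩ := exists_prime_mod (a := 1) hM (by norm_num) hc' (by norm_num)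
    (max N N0)
  obtain ⟨q, hq, hqN, hqM, hqm⟩ := exists_prime_mod (a := 5) hM (by norm_num) hc' (by norm_num)
    (max N N0)
  have := Fact.mk hp
  have := Fact.mk hq
  refine ⟨p, q, inferInstance, inferInstance, by omega, by omega, hpM, hqM, ?_⟩
  have e : (1 : ℤ) ^ 2 - 4 * 1 * 1 = -(3 : ℕ) := by norm_num
  have e1 : jacobiSym p 3 = 1 := jac_one_NT hp.one_le (by omega)
  have e2 : jacobiSym q 3 = -1 := by
    rw [jacobiSym.mod_left' (a₂ := 2) (by omega)]
    norm_num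
  rw [h0 p (by omega) (one_dvd _), h0 q (by omega) (one_dvd _), e,
    sq2_neg_NT 3 p (by decide) (by omega), sq2_neg_NT 3 q (by decide) (by omega), e1, e2]
  exact not_dvd_NT hl (by omega) 1

/-- Take `p` congruent to `1` modulo `39 * 109 * l ^ K` and to `1` or `5` modulo `8`. -/
theorem sep_two {l : ℕ} (hl : l.Prime) (h2 : l ≠ 2) {a : ℤ} (ha : a = 2 ∨ a = 4) (b e : ℤ) :
    Sep l l fun p _ => a * sq2 2 p + b * sq2 (-39) p + e * sq2 109 p := by
  intro K N
  have hc : l.Coprime 8 := by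
    rw [show 8 = 2 ^ 3 by norm_num]
    exact ((Nat.coprime_primes hl Nat.prime_two).2 h2).pow_right 3
  have hM : 39 * 109 * (l * l ^ K) ≠ 0 :=
    mul_ne_zero (by norm_num) (mul_ne_zero hl.ne_zero (pow_ne_zero K hl.ne_zero))
  have hc' : (39 * 109 * (l * l ^ K)).Coprime 8 :=
    Nat.Coprime.mul_left (by norm_num) (hc.mul_left (hc.pow_left K))
  obtain ⟨p, hp, hpN, hpM, hpm⟩ := exists_prime_mod (a := 1) hM (by norm_num) hc' (by norm_num) N
  obtain ⟨q, hq, hqN, hqM, hqm⟩ := exists_prime_mod (a := 5) hM (by norm_num) hc' (by norm_num) N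
  have := Fact.mk hp
  have := Fact.mk hq
  have d1 : 39 ∣ 39 * 109 * (l * l ^ K) := (dvd_mul_right _ _).mul_right _
  have d2 : 109 ∣ 39 * 109 * (l * l ^ K) := (dvd_mul_left _ _).mul_right _
  refine ⟨p, q, inferInstance, inferInstance, hpN, hqN, (dvd_mul_left _ _).trans hpM,
    (dvd_mul_left _ _).trans hqM, ?_⟩
  have a1 := sq2_neg_NT 39 p (by decide) (by omega)
  have a2 := sq2_neg_NT 39 q (by decide) (by omega)
  have a3 := sq2_pos_NT 109 p (by decide) (by omega)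
  have a4 := sq2_pos_NT 109 q (by decide) (by omega)
  rw [jac_one_NT hp.one_le (d1.trans hpM)] at a1
  rw [jac_one_NT hq.one_le (d1.trans hqM)] at a2
  rw [jac_one_NT hp.one_le (d2.trans hpM)] at a3
  rw [jac_one_NT hq.one_le (d2.trans hqM)] at a4
  push_cast at a1 a2 a3 a4
  show ¬ (l : ℤ) ∣ a * sq2 2 p + b * sq2 (-39) p + e * sq2 109 p -
    (a * sq2 2 q + b * sq2 (-39) q + e * sq2 109 q)
  rw [a1, a2, a3, a4, sq2_two_NT p (by omega), sq2_two_NT q (by omega), if_pos (by omega),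
    if_neg (by omega)]
  intro h
  rcases ha with rfl | rfl
  · exact not_dvd_NT hl h2 2 (h.trans (dvd_of_eq (by ring)))
  · exact not_dvd_NT hl h2 3 (h.trans (dvd_of_eq (by ring)))

/-- Take `p` congruent to `1` or `5` modulo `8`. -/
theorem sep_three : Sep 3 3 (sq2 (-2)) := by
  intro K N
  have hM : 3 * 3 ^ K ≠ 0 := by positivity
  have hc : (3 * 3 ^ K).Coprime 8 :=
    Nat.Coprime.mul_left (by norm_num) (Nat.Coprime.pow_left K (by norm_num))
  obtain ⟨p, hp, hpN, hpM, hpm⟩ := exists_prime_mod (a := 1) hM (by norm_num) hc (by norm_num) N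
  obtain ⟨q, hq, hqN, hqM, hqm⟩ := exists_prime_mod (a := 5) hM (by norm_num) hc (by norm_num) N
  have := Fact.mk hp
  have := Fact.mk hq
  refine ⟨p, q, inferInstance, inferInstance, hpN, hqN, hpM, hqM, ?_⟩
  rw [sq2_neg_two_NT p (by omega), sq2_neg_two_NT q (by omega), if_pos (by omega),
    if_neg (by omega)]
  norm_num

/-- Take `p` congruent to `1` or `3` modulo `8`. -/
theorem sep_four (b : ℤ) : Sep 3 3 fun p _ => sq2 (-1) p + b * sq2 (-2) p := by
  intro K N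
  have hM : 3 * 3 ^ K ≠ 0 := by positivity
  have hc : (3 * 3 ^ K).Coprime 8 :=
    Nat.Coprime.mul_left (by norm_num) (Nat.Coprime.pow_left K (by norm_num))
  obtain ⟨p, hp, hpN, hpM, hpm⟩ := exists_prime_mod (a := 1) hM (by norm_num) hc (by norm_num) N
  obtain ⟨q, hq, hqN, hqM, hqm⟩ := exists_prime_mod (a := 3) hM (by norm_num) hc (by norm_num) N
  have := Fact.mk hp
  have := Fact.mk hq
  refine ⟨p, q, inferInstance, inferInstance, hpN, hqN, hpM, hqM, ?_⟩
  show ¬ ((3 : ℕ) : ℤ) ∣ sq2 (-1) p + b * sq2 (-2) p - (sq2 (-1) q + b * sq2 (-2) q)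
  rw [sq2_neg_two_NT p (by omega), sq2_neg_two_NT q (by omega), if_pos (by omega),
    if_pos (by omega), sq2_eq _ p (by omega), sq2_eq _ q (by omega),
    legendreSym.at_neg_one (by omega), legendreSym.at_neg_one (by omega),
    ZMod.χ₄_nat_one_mod_four (n := p) (by omega), ZMod.χ₄_nat_three_mod_four (n := q) (by omega)]
  norm_num

end Pool.Agent.P.MP_8598be_al.Z
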