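import Pool.Agent.P.MP_8598be_al.Z.Fam
import Pool.Agent.P.MP_8598be_al.Z.H7C
import Pool.Agent.P.MP_8598be_al.Z.Iface
import Pool.Agent.P.MP_8598be_al.Z.NT

/-!
Non-uniformity for the alphabets with one or two hubs.
-/

namespace Pool.Agent.P.MP_8598be_al.Z

theorem not_uniform_of {c d : ℕ} {W : RatXY} {X : Type} [Fintype X]
    [DecidableEq X] (hX : Fintype.card X = d) {l : ℕ} (hl : l.Prime) (S : Set (Equiv.Perm X))
    (hS : IsPGroup l (Subgroup.closure S)) (n : ℕ) {g : PF}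
    (h : EC l fun p _ => (cntC (ZMod p) S c n : ℤ) - g p) (hg : Sep l l g) : ¬ Uniform c d W :=
  fun hW => not_cst h hg ((cst_of_uniform hW hX hl S hS n).of_dvd (one_dvd l))

theorem odd_pow {l : ℕ} (hl : l.Prime) (h5 : 5 ≤ l) (e : ℕ) : Odd (l ^ e) :=
  (hl.odd_of_ne_two (by omega)).pow

theorem hub_gen {l e m h c : ℕ} [NeZero l] (hl : l.Prime) (h5 : 5 ≤ l) (hm : ¬ l ∣ m) (h0 : 0 < h)
    (h2 : h ≤ 2) (hR : PureHyp l) (hc : 4 ≤ c)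
    (hT : ∀ k, ∀ κ ∈ tys (∅ : Set (Equiv.Perm (Fin h))) c k, EC 1 fun p _ => cntT (ZMod p) ∅ κ)
    (W : RatXY) : ¬ Uniform c (h + l * l ^ e * m) W := by
  haveI : NeZero (l ^ e) := ⟨pow_ne_zero e hl.ne_zero⟩
  haveI : Nonempty (Fin m) := ⟨⟨0, Nat.pos_of_ne_zero fun e => hm (e ▸ dvd_zero l)⟩⟩
  obtain ⟨N, hN0, hN, hE⟩ := fam_hub (H := Fin h) (B := Fin m) (q := l ^ e) hl h5 (odd_pow hl h5 e)
    (by simpa using h0) (by simpa using h2) hR hc hT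
  refine not_uniform_of (X := Alph (Fin h) (Fin m) l (l ^ e)) (by rw [card_alph]; simp) hl _
    (wreath_pgroup rfl) _ hE (Sep.smul hl ?_ (sep_hub hl h5))
  rw [Int.natCast_dvd_natCast, Fintype.card_fin, hl.dvd_mul]
  exact fun h => h.elim hm (Nat.not_dvd_of_pos_of_lt hN0 hN)

theorem hub_one {l e m c : ℕ} [NeZero l] (hl : l.Prime) (h5 : 5 ≤ l) (hm : ¬ l ∣ m)
    (hR : PureHyp l) (hc : 4 ≤ c) (W : RatXY) : ¬ Uniform c (1 + l * l ^ e * m) W :=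
  hub_gen hl h5 hm one_pos (by norm_num) hR hc
    (fun _ _ hκ => tame_one (by simp) (mem_tys.1 hκ).2.2) W

theorem hub_two {l e m c : ℕ} [NeZero l] (hl : l.Prime) (h5 : 5 ≤ l) (hm : ¬ l ∣ m)
    (hR : PureHyp l) (hc : 4 ≤ c) (h7' : c ≤ 7) (W : RatXY) :
    ¬ Uniform c (2 + l * l ^ e * m) W :=
  hub_gen hl h5 hm two_pos le_rfl hR hc
    (fun _ _ hκ => h7 (mem_tys.1 hκ).2.2 fun j α hα =>
      (mem_tys.1 hκ).2.1 j α (lt_of_le_of_lt h7' hα)) W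

end Pool.Agent.P.MP_8598be_al.Z
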