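import Pool.Agent.P.MP_8598be_al.Z.Sh
import Pool.Agent.P.MP_8598be_al.Z.Ren

/-!
Chains without nodes that involve two fibres are families of extensions of a chain on the hubs.
-/

namespace Pool.Agent.P.MP_8598be_al.Z

variable {H B : Type} {l q : ℕ} [Fintype H] [DecidableEq H] [Fintype B] [DecidableEq B] [NeZero l]
  [NeZero q] {F : Type} [Field F]

omit [Fintype H] [DecidableEq H] [Fintype B] [DecidableEq B] [NeZero l] [NeZero q] in
theorem emb_inj (i : ZMod q × B) : Function.Injective (emb H i : H ⊕ ZMod l → Alph H B l q) := by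
  exact Function.Injective.sumMap Function.injective_id fun _ _ h => (Prod.ext_iff.1 h).1

omit [Fintype B] [NeZero q] in
theorem supp_Glue {i i' : ZMod q × B} {β : H ⊕ ZMod l → ℕ} {z : ZMod l}
    (h : push (emb H i) β (.inr (z, i') : Alph H B l q) ≠ 0) : i' = i := by
  by_contra e
  refine h (push_apply_of_not β fun x hx => ?_)
  rcases x with x | x
  · exact Sum.inl_ne_inr hx
  · exact e (Prod.ext_iff.1 (Sum.inr_injective hx)).2.symm

theorem comap_self_Glue {X : Type} [Fintype X] [DecidableEq X] {S : Set (Equiv.Perm X)}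
    {J : Chain F X} (h : Inv S J) {g : Equiv.Perm X} (hg : g ∈ S) : J.comap g = J := by
  refine Chain.ext (funext₂ fun j α => ?_)
  change mp F α ⊓ (J.J j (push g α)).comap _ = _
  rw [← h.map_eq (Subgroup.subset_closure hg), Submodule.comap_map_eq_of_injective
    (f := (ren F g : FL F X →ₗ[F] FL F X)) (ren_inj g.injective), inf_eq_right.2 (J.le j α)]

theorem not_cross_iff [Nonempty B] {α : Alph H B l q → ℕ} :
    ¬ Cross α ↔ ∃ i β, push (emb H i) β = α := by
  constructor
  · intro h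
    obtain ⟨i, hi⟩ : ∃ i, ∀ z i', α (.inr (z, i')) ≠ 0 → i' = i := by
      by_cases e : ∃ z i, α (.inr (z, i)) ≠ 0
      · obtain ⟨z, i, e⟩ := e
        exact ⟨i, fun z' i' e' => by_contra fun n => h ⟨z', z, i', i, n, e', e⟩⟩
      · exact ⟨(0, Classical.arbitrary B), fun z i' e' => absurd ⟨z, i', e'⟩ e⟩
    refine ⟨i, _, push_comp_self (emb_inj i) fun y hy => ?_⟩
    rcases y with y | ⟨z, i'⟩
    · exact ⟨.inl y, rfl⟩
    · exact ⟨.inr z, by rw [hi z i' hy]; rfl⟩
  · rintro ⟨i, β, rfl⟩ ⟨z, z', i₁, i₂, n, h₁, h₂⟩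
    exact n ((supp_Glue h₁).trans (supp_Glue h₂).symm)

theorem inv_emb {J : Chain F (Alph H B l q)} (h : Inv (wreath H B l q) J) (i : ZMod q × B) :
    Inv {rot1 H l} (J.comap (emb H i)) := by
  refine h.comap fun s hs => ⟨Equiv.sumCongr (Equiv.refl H)
    (Equiv.prodCongr (Equiv.addRight 1) (Equiv.refl _)),
      ⟨fun _ => rfl, fun _ => 1, 0, fun z r b => by rw [add_zero]; rfl⟩, fun x => ?_⟩
  rw [Set.mem_singleton_iff.1 hs]
  rcases x with x | x <;> rfl

theorem comap_emb_eq {J : Chain F (Alph H B l q)} (h : Inv (wreath H B l q) J) (r : ZMod q)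
    (b : B) : J.comap (emb H (r, b)) = J.comap (emb H (0, b)) := by
  have hg : Equiv.sumCongr (Equiv.refl H) (Equiv.prodCongr (Equiv.refl (ZMod l))
      (Equiv.prodCongr (Equiv.addRight r) (Equiv.refl B))) ∈ wreath H B l q :=
    ⟨fun _ => rfl, fun _ => 0, r, fun z r b => by rw [add_zero]; rfl⟩
  conv_rhs => rw [← comap_self_Glue h hg, Chain.comap_comap]
  refine congrArg J.comap (funext fun x => ?_)
  rcases x with x | x
  · rfl
  · exact congrArg (fun s => (Sum.inr (x, s, b) : Alph H B l q)) (zero_add r).symm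

/-- Gluing: take the intersection of the extensions of the chains `f i.2` along `emb H i`. -/
theorem exists_glue [Nonempty B] (K : Chain F H) (f : B → Chain F (H ⊕ ZMod l))
    (hf : ∀ b, Inv {rot1 H l} (f b)) (hK : ∀ b, (f b).comap Sum.inl = K) :
    ∃ J : Chain F (Alph H B l q), Inv (wreath H B l q) J ∧ (∀ i, J.comap (emb H i) = f i.2) ∧
      ∀ j α, Cross α → J.ty j α = 0 := by
  choose E _ h₂ h₃ using fun i : ZMod q × B => (f i.2).exists_map (emb_inj (H := H) (l := l) i)
  obtain ⟨J, hJ⟩ := Chain.exists_iInf E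
  have hub : ∀ i j κ, (E i).J j (push Sum.inl κ) =
      (K.J j κ).map (ren F (Sum.inl : H → Alph H B l q) : FL F H →ₗ[F] FL F _) := fun i j κ => by
    have e : (Sum.inl : H → Alph H B l q) = emb H i ∘ Sum.inl := rfl
    rw [e, ← push_comp, h₂, ← Chain.map_comap _ Sum.inl_injective, hK, ← Submodule.map_comp]
    exact congrArg (Submodule.map · _) (LinearMap.ext fun u => ren_ren _ _ u)
  have key : ∀ i j β, J.J j (push (emb H i) β) = (E i).J j (push (emb H i) β) := fun i j β => by
    rw [hJ]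
    refine le_antisymm (inf_le_right.trans (iInf_le _ i)) (le_inf ((E i).le _ _) (le_iInf ?_))
    intro i'
    by_cases e : ∀ β', push (emb H i') β' ≠ push (emb H i) β
    · rw [h₃ i' j _ e]
      exact (E i).le _ _
    obtain ⟨β', e'⟩ := not_forall.1 e
    rw [not_not] at e'
    by_cases ei : i' = i
    · rw [ei]
    have e₂ : push Sum.inl (push (emb H i) β ∘ Sum.inl) = push (emb H i) β := by
      refine push_comp_self Sum.inl_injective fun y hy => ?_
      rcases y with y | ⟨z, i₁⟩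
      · exact ⟨y, rfl⟩
      · exact absurd ((supp_Glue (e' ▸ hy)).symm.trans (supp_Glue hy)) ei
    rw [← e₂, hub, hub]
  have cross : ∀ j α, Cross α → J.J j α = mp F α := fun j α hα => by
    rw [hJ]
    exact inf_eq_left.2 (le_iInf fun i =>
      (h₃ i j α fun β e => not_cross_iff.2 ⟨i, β, e⟩ hα).ge)
  refine ⟨J, ?_, fun i => Chain.ext (funext₂ fun j β => ?_),
    fun j α hα => J.ty_eq_zero.2 (cross j α hα)⟩
  · rintro g ⟨g₁, a, t, g₂⟩ j α u hu
    by_cases hα : Cross α
    · obtain ⟨z, z', ⟨r, b⟩, ⟨r', b'⟩, n, e, e'⟩ := hα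
      rw [← push_apply g.injective α, g₂] at e e'
      rw [cross j _ ⟨_, _, _, _, fun m => n ?_, e, e'⟩]
      · exact ren_mem _ (J.le j α hu)
      · exact Prod.ext (add_right_cancel (Prod.ext_iff.1 m).1) (Prod.ext_iff.1 m).2
    · obtain ⟨⟨r, b⟩, β, rfl⟩ := not_cross_iff.1 hα
      rw [key, h₂] at hu
      obtain ⟨v, hv, rfl⟩ := hu
      have e : g ∘ emb H (r, b) = emb H (r + t, b) ∘
          Equiv.sumCongr (Equiv.refl H) (Equiv.addRight (a (r, b))) := funext fun x => by
        rcases x with x | x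
        · exact g₁ x
        · exact g₂ x r b
      change ren F g (ren F (emb H (r, b)) v) ∈ _
      rw [ren_ren, push_comp, e, ← ren_ren, ← push_comp, key, h₂]
      exact ⟨_, (hf b).closure _ (mem_closure_rot1.2 ⟨_, rfl⟩) j β v hv, rfl⟩
  · change mp F β ⊓ (J.J j (push (emb H i) β)).comap _ = _
    rw [key, h₂, Submodule.comap_map_eq_of_injective, inf_eq_right.2 ((f i.2).le j β)]
    exact ren_inj (emb_inj i)

theorem glue_unique [Nonempty B] {J J' : Chain F (Alph H B l q)}
    (h : ∀ i, J.comap (emb H i) = J'.comap (emb H i)) (hJ : ∀ j α, Cross α → J.ty j α = 0)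
    (hJ' : ∀ j α, Cross α → J'.ty j α = 0) : J = J' := by
  refine Chain.ext (funext₂ fun j α => ?_)
  by_cases hα : Cross α
  · rw [J.ty_eq_zero.1 (hJ j α hα), J'.ty_eq_zero.1 (hJ' j α hα)]
  · obtain ⟨i, β, rfl⟩ := not_cross_iff.1 hα
    rw [← J.map_comap (emb_inj i), ← J'.map_comap (emb_inj i), h]

end Pool.Agent.P.MP_8598be_al.Z
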