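import Pool.Agent.P.MP_8598be_al.Z.H7R
import Pool.Agent.P.MP_8598be_al.Z.Int

/-!
Relations among the brackets with two generators in degree six.
-/

namespace Pool.Agent.P.MP_8598be_al.Z

open Module

section Aux

variable {L : Type} [LieRing L] (a b : L)

theorem jac_H7F (x : L) : ⁅x, ⁅a, b⁆⁆ = ⁅⁅x, a⁆, b⁆ - ⁅⁅x, b⁆, a⁆ := by
  rw [leibniz_lie x a b, ← lie_skew a ⁅x, b⁆, sub_eq_add_neg]

theorem rel24_H7F : ⁅⁅⁅⁅⁅a, b⁆, b⁆, b⁆, b⁆, a⁆ +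
    ⁅⁅⁅⁅⁅a, b⁆, b⁆, a⁆, b⁆ - 2 • ⁅⁅⁅⁅a, b⁆, b⁆, b⁆, a⁆, b⁆ = 0 := by
  have h := jac_H7F ⁅a, b⁆ b ⁅⁅a, b⁆, b⁆
  rw [lie_self, jac_H7F a b, jac_H7F a b] at h
  simp only [sub_lie, nsmul_lie] at h ⊢
  rw [h]
  abel

theorem rel42_H7F : ⁅⁅⁅⁅⁅a, b⁆, a⁆, b⁆, a⁆ - 2 • ⁅⁅⁅⁅a, b⁆, a⁆, a⁆, b⁆, a⁆ +
    ⁅⁅⁅⁅⁅a, b⁆, a⁆, a⁆, a⁆, b⁆ = 0 := by
  have h := jac_H7F ⁅a, b⁆ a ⁅⁅a, b⁆, a⁆
  rw [lie_self, jac_H7F a b, jac_H7F a b] at h
  simp only [sub_lie, nsmul_lie] at h ⊢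
  rw [← neg_eq_zero, h]
  abel

theorem rel33_H7F : ⁅⁅⁅⁅⁅a, b⁆, b⁆, b⁆, a⁆ - 3 • ⁅⁅⁅⁅a, b⁆, b⁆, a⁆, b⁆, a⁆ +
    ⁅3 • ⁅⁅⁅⁅a, b⁆, b⁆, a⁆, a⁆ - ⁅⁅⁅⁅a, b⁆, a⁆, a⁆, b⁆, b⁆ = 0 := by
  have e := jac_H7F a b ⁅a, b⁆
  rw [lie_self, eq_comm, sub_eq_zero] at e
  have h := lie_skew ⁅⁅a, b⁆, a⁆ ⁅⁅a, b⁆, b⁆
  rw [jac_H7F ⁅a, b⁆ a, jac_H7F ⁅a, b⁆ b, jac_H7F a b, jac_H7F a b, jac_H7F a b, jac_H7F a b,
    e, ← sub_eq_zero] at h
  simp only [sub_lie, nsmul_lie] at h ⊢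
  rw [← h]
  abel

/-- Left normed brackets that start with the first generator. -/
noncomputable def P_H7F (R : Type) [CommRing R] : List (Fin 2) → FL R (Fin 2)
  | [] => gen R 0
  | y :: l => ⁅P_H7F R l, gen R y⁆

/-- Their multidegrees. -/
def w_H7F : List (Fin 2) → Fin 2 → ℕ
  | [] => one 0
  | y :: l => w_H7F l + one y

/-- Their coefficients. -/
def c_H7F : List (Fin 2) → List (Fin 2) → ℤ
  | [], w => if w = [0] then 1 else 0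
  | y :: l, w => ∑ i ∈ Finset.range (w.length + 1),
      ((if w.drop i = [y] then c_H7F l (w.take i) else 0) -
        if w.take i = [y] then c_H7F l (w.drop i) else 0)

theorem mem_H7F (R : Type) [CommRing R] (l : List (Fin 2)) {α : Fin 2 → ℕ} (h : w_H7F l = α) :
    P_H7F R l ∈ mp R α := by
  subst h
  induction l with
  | nil => exact gen_mem_mp 0
  | cons y l ih => exact lie_gen_mem R _ y _ ih

theorem red_H7F (R : Type) [CommRing R] (l : List (Fin 2)) : red R (P_H7F ℤ l) = P_H7F R l := by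
  induction l with
  | nil => exact red_gen R 0
  | cons y l ih => rw [P_H7F, LieHom.map_lie, ih, red_gen, P_H7F]

theorem co_H7F (R : Type) [CommRing R] (w : List (Fin 2)) :
    ∃ φ : FL R (Fin 2) →ₗ[R] R, ∀ l, φ (P_H7F R l) = c_H7F l w := by
  obtain ⟨co, h1, h2⟩ := exists_co R (Fin 2)
  refine ⟨co w, fun l => ?_⟩
  induction l generalizing w with
  | nil => simp only [P_H7F, c_H7F, h1, Int.cast_ite, Int.cast_one, Int.cast_zero]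
  | cons y l ih =>
    simp only [P_H7F, c_H7F, h1, h2, ih, Int.cast_ite, Int.cast_zero, Int.cast_sum, Int.cast_sub,
      mul_ite, ite_mul, mul_one, one_mul, mul_zero, zero_mul]

variable {F : Type} [Field F] {α α₀ α₁ : Fin 2 → ℕ}

theorem thin_H7F (l w : List (Fin 2)) (hl : w_H7F l = α) (hw : (c_H7F l w).natAbs = 1)
    (h : Thin α) {u : FL F (Fin 2)} (hu : u ∈ mp F α) : ∃ t : F, u = t • P_H7F F l := by
  obtain ⟨φ, hφ⟩ := co_H7F F w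
  have h0 : P_H7F F l ≠ 0 := fun e => by
    have := hφ l
    rw [e, map_zero] at this
    rcases Int.natAbs_eq_iff.1 hw with e | e <;> simp [e] at this
  have : Module.Finite F (mp F α) := Module.Finite.span_of_finite F ((finite_wt α).image _)
  have h1 : (⟨_, mem_H7F F l hl⟩ : mp F α) ≠ 0 := fun e => h0 (congrArg Subtype.val e)
  obtain ⟨t, ht⟩ := exists_smul_eq_of_finrank_eq_one (le_antisymm (h F)
    (Module.finrank_pos_iff_exists_ne_zero.2 ⟨_, h1⟩)) h1 ⟨u, hu⟩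
  exact ⟨t, (congrArg Subtype.val ht).symm⟩

theorem split_H7F (i j : ℕ) {u : FL F (Fin 2)} (hu : u ∈ mp F ![i + 1, j + 1]) :
    ∃ u₀ ∈ mp F ![i, j + 1], ∃ u₁ ∈ mp F ![i + 1, j], u = ⁅u₀, gen F 0⁆ + ⁅u₁, gen F 1⁆ := by
  have e₀ : (![i + 1, j + 1] - one 0 : Fin 2 → ℕ) = ![i, j + 1] := by
    funext y
    fin_cases y <;> simp
  have e₁ : (![i + 1, j + 1] - one 1 : Fin 2 → ℕ) = ![i + 1, j] := by
    funext y
    fin_cases y <;> simp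
  have : mp F ![i + 1, j + 1] ≤
      (mp F ![i, j + 1]).map (adr F 0) ⊔ (mp F ![i + 1, j]).map (adr F 1) := by
    rw [mp_start (x := 0) (by simp) (by simp [tot]; omega)]
    refine iSup_le fun y => iSup_le fun _ => ?_
    fin_cases y
    · exact e₀ ▸ le_sup_left
    · exact e₁ ▸ le_sup_right
  obtain ⟨_, ⟨u₀, h₀, rfl⟩, _, ⟨u₁, h₁, rfl⟩, e⟩ := Submodule.mem_sup.1 (this hu)
  exact ⟨u₀, h₀, u₁, h₁, e.symm⟩

theorem inj_H7F {β : Fin 2 → ℕ} (hβ : tot β = 6) (h₀ : α₀ + one 0 = β) (h₁ : α₁ + one 1 = β)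
    {u v : FL F (Fin 2)} (hu : u ∈ mp F α₀) (hv : v ∈ mp F α₁)
    (h : ⁅u, gen F (0 : Fin 2)⁆ + ⁅v, gen F (1 : Fin 2)⁆ = 0) (e : u = 0 ∨ v = 0) :
    u = 0 ∧ v = 0 := by
  have b₀ : β 0 ≠ 0 := by rw [← h₀]; simp
  have b₁ : β 1 ≠ 0 := by rw [← h₁]; simp
  have key : ∀ l, β l ≠ 0 → ![u, v] l = 0 → ![u, v] = 0 := fun l =>
    inj_at F β ![u, v] (Fin.forall_fin_two.2 ⟨by rw [← h₀, add_sub_one]; exact hu,
      by rw [← h₁, add_sub_one]; exact hv⟩)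
      (Fin.forall_fin_two.2 ⟨fun e => absurd e b₀, fun e => absurd e b₁⟩) (by omega)
      (by rw [Fin.sum_univ_two]; exact h)
  have : ![u, v] = 0 := e.elim (key 0 b₀) (key 1 b₁)
  exact ⟨congrFun this 0, congrFun this 1⟩

theorem iff_H7F {β : Fin 2 → ℕ} (hβ : tot β = 6) (h₀ : α₀ + one 0 = β) (h₁ : α₁ + one 1 = β)
    {k₀ k₁ : FL ℤ (Fin 2)} (m₀ : k₀ ∈ mp ℤ α₀) (m₁ : k₁ ∈ mp ℤ α₁)
    (hk : ⁅k₀, gen ℤ (0 : Fin 2)⁆ + ⁅k₁, gen ℤ (1 : Fin 2)⁆ = 0)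
    (h : ∀ (F : Type) [Field F], ∀ u ∈ mp F α₀, ∀ v ∈ mp F α₁,
      ⁅u, gen F (0 : Fin 2)⁆ + ⁅v, gen F (1 : Fin 2)⁆ = 0 →
        ∃ t : F, u = t • red F k₀ ∨ v = t • red F k₁) :
    ∃ k₀ ∈ mp ℤ α₀, ∃ k₁ ∈ mp ℤ α₁, Ev 1 fun p _ =>
      ∀ u ∈ mp (ZMod p) α₀, ∀ v ∈ mp (ZMod p) α₁,
        ⁅u, gen (ZMod p) (0 : Fin 2)⁆ + ⁅v, gen (ZMod p) (1 : Fin 2)⁆ = 0 ↔
          ∃ t : ZMod p, u = t • red (ZMod p) k₀ ∧ v = t • red (ZMod p) k₁ := by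
  refine ⟨k₀, m₀, k₁, m₁, Ev.of_forall fun p _ u hu v hv => ?_⟩
  have hk' := congrArg (red (ZMod p)) hk
  rw [map_add, LieHom.map_lie, LieHom.map_lie, red_gen, red_gen, map_zero] at hk'
  have hs : ∀ t : ZMod p, ⁅t • red (ZMod p) k₀, gen (ZMod p) (0 : Fin 2)⁆ +
      ⁅t • red (ZMod p) k₁, gen (ZMod p) (1 : Fin 2)⁆ = 0 := fun t => by
    rw [smul_lie, smul_lie, ← smul_add, hk', smul_zero]
  refine ⟨fun e => ?_, fun ⟨t, e, e'⟩ => by rw [e, e', hs]⟩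
  obtain ⟨t, ht⟩ := h _ u hu v hv e
  have := inj_H7F hβ h₀ h₁ (sub_mem hu (Submodule.smul_mem _ t (red_mem _ m₀)))
    (sub_mem hv (Submodule.smul_mem _ t (red_mem _ m₁)))
    (by rw [sub_lie, sub_lie, sub_add_sub_comm, e, hs, sub_zero])
    (ht.imp sub_eq_zero.2 sub_eq_zero.2)
  exact ⟨t, sub_eq_zero.1 this.1, sub_eq_zero.1 this.2⟩

theorem once_H7F (x y : Fin 2) (h : ∀ z, z ≠ x → z = y) (hx : α x ≤ 1) : Thin α :=
  thin_once (x := x) (y := y) (fun z h1 h2 => absurd (h z h1) h2) hx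

theorem mid_H7F {u v : FL F (Fin 2)} (hu : u ∈ mp F ![2, 3]) (hv : v ∈ mp F ![3, 2])
    (h : ⁅u, gen F (0 : Fin 2)⁆ + ⁅v, gen F (1 : Fin 2)⁆ = 0) :
    ∃ t : F, u = t • (P_H7F F [0, 1, 1, 1] - 3 • P_H7F F [1, 0, 1, 1]) := by
  obtain ⟨u₀, a₀, u₁, a₁, rfl⟩ := split_H7F 1 2 hu
  obtain ⟨v₀, b₀, v₁, b₁, rfl⟩ := split_H7F 2 1 hv
  have th : ∀ α : Fin 2 → ℕ, tot α ≤ 4 → Thin α := fun α => thin_of_card (by simp)
  obtain ⟨x₀, rfl⟩ := thin_H7F [1, 1, 1] [0, 1, 1, 1] (by decide) (by decide) (th _ (by decide)) a₀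
  obtain ⟨x₁, rfl⟩ := thin_H7F [0, 1, 1] [0, 0, 1, 1] (by decide) (by decide) (th _ (by decide)) a₁
  obtain ⟨y₀, rfl⟩ := thin_H7F [0, 1, 1] [0, 0, 1, 1] (by decide) (by decide) (th _ (by decide)) b₀
  obtain ⟨y₁, rfl⟩ := thin_H7F [0, 0, 1] [0, 0, 0, 1] (by decide) (by decide) (th _ (by decide)) b₁
  obtain ⟨φ, hφ⟩ := co_H7F F [0, 1, 1, 1, 0, 0]
  simp only [add_lie, smul_lie] at h ⊢
  have e := congrArg φ h
  change φ (x₀ • P_H7F F [0, 0, 1, 1, 1] + x₁ • P_H7F F [0, 1, 0, 1, 1] +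
    (y₀ • P_H7F F [1, 0, 0, 1, 1] + y₁ • P_H7F F [1, 1, 0, 0, 1])) = φ 0 at e
  simp only [map_add, map_smul, map_zero, hφ, smul_eq_mul,
    show c_H7F [0, 0, 1, 1, 1] [0, 1, 1, 1, 0, 0] = 3 by decide,
    show c_H7F [0, 1, 0, 1, 1] [0, 1, 1, 1, 0, 0] = 1 by decide,
    show c_H7F [1, 0, 0, 1, 1] [0, 1, 1, 1, 0, 0] = 0 by decide,
    show c_H7F [1, 1, 0, 0, 1] [0, 1, 1, 1, 0, 0] = 0 by decide] at e
  have e' : x₁ = -(3 * x₀) := by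
    push_cast at e
    linear_combination e
  refine ⟨x₀, ?_⟩
  change x₀ • P_H7F F [0, 1, 1, 1] + x₁ • P_H7F F [1, 0, 1, 1] = _
  rw [e']
  module

end Aux

/-- In degree six the space of relations has dimension three in total: it is zero for `(1, 5)` and
`(5, 1)` (`inj_at`), at most a line for `(2, 4)` and `(4, 2)` (`inj_at`, `thin_once`), hence at
most a line for `(3, 3)` as soon as nonzero relations for `(2, 4)` and `(4, 2)` are known.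
With left normed brackets, `a = gen 0`, `b = gen 1`, `s = [a b b]`, `t = [a b a]`:
`(2, 4)`: `k₀ = [s b b]`, `k₁ = ⁅s, [a b]⁆ - [s b a]` (expand `⁅s, s⁆ = 0`);
`(3, 3)`: `k₀ = [t b b] + ⁅s, [a b]⁆ + [s a b]`, `k₁ = ⁅t, [a b]⁆ - [t b a] - [s a a]`
(expand `⁅t, s⁆ + ⁅s, t⁆ = 0`). They are nonzero by `exists_co`. -/
theorem rel_six {β α₀ α₁ : Fin 2 → ℕ} (hβ : tot β = 6) (h₀ : α₀ + one 0 = β)
    (h₁ : α₁ + one 1 = β) : ∃ k₀ ∈ mp ℤ α₀, ∃ k₁ ∈ mp ℤ α₁, Ev 1 fun p _ =>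
      ∀ u ∈ mp (ZMod p) α₀, ∀ v ∈ mp (ZMod p) α₁,
        ⁅u, gen (ZMod p) (0 : Fin 2)⁆ + ⁅v, gen (ZMod p) (1 : Fin 2)⁆ = 0 ↔
          ∃ t : ZMod p, u = t • red (ZMod p) k₀ ∧ v = t • red (ZMod p) k₁ := by
  obtain ⟨i, j, hij, rfl, rfl⟩ : ∃ i j, i + j = 4 ∧ α₀ = ![i, j + 1] ∧ α₁ = ![i + 1, j] := by
    have e0 := congrFun (h₀.trans h₁.symm) 0
    have e1 := congrFun (h₀.trans h₁.symm) 1
    rw [← h₀, tot_add, tot_one, tot, Fin.sum_univ_two] at hβ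
    simp only [Pi.add_apply, Pi.single_eq_same, Pi.single_eq_of_ne (zero_ne_one (α := Fin 2)),
      Pi.single_eq_of_ne (one_ne_zero (α := Fin 2))] at e0 e1
    refine ⟨α₀ 0, α₁ 1, by omega, ?_, ?_⟩ <;> funext y <;> fin_cases y <;> simp <;> omega
  obtain rfl : j = 4 - i := by omega
  have hi : i ≤ 4 := by omega
  interval_cases i
  · refine iff_H7F hβ h₀ h₁ (zero_mem _) (zero_mem _) (by simp) fun F _ u hu v _ _ =>
      ⟨0, Or.inl ?_⟩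
    rw [mp_pow F (x := 1) (by decide) (by decide)] at hu
    rw [zero_smul]
    exact hu
  · refine iff_H7F hβ h₀ h₁ (k₀ := P_H7F ℤ [1, 1, 1, 1])
      (k₁ := P_H7F ℤ [1, 0, 1, 1] - 2 • P_H7F ℤ [0, 1, 1, 1]) (mem_H7F _ _ (by decide))
      (sub_mem (mem_H7F _ _ (by decide)) (nsmul_mem (mem_H7F _ _ (by decide)) _))
      (rel24_H7F _ _) fun F _ u hu v _ _ => ?_
    rw [red_H7F]
    exact (thin_H7F _ [0, 1, 1, 1, 1] (by decide) (by decide)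
      (once_H7F 0 1 (by decide) (by decide)) hu).imp fun _ => Or.inl
  · refine iff_H7F hβ h₀ h₁ (k₀ := P_H7F ℤ [0, 1, 1, 1] - 3 • P_H7F ℤ [1, 0, 1, 1])
      (k₁ := 3 • P_H7F ℤ [0, 0, 1, 1] - P_H7F ℤ [1, 0, 0, 1])
      (sub_mem (mem_H7F _ _ (by decide)) (nsmul_mem (mem_H7F _ _ (by decide)) _))
      (sub_mem (nsmul_mem (mem_H7F _ _ (by decide)) _) (mem_H7F _ _ (by decide)))
      (rel33_H7F _ _) fun F _ u hu v hv h => ?_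
    rw [map_sub, map_nsmul, red_H7F, red_H7F]
    exact (mid_H7F hu hv h).imp fun _ => Or.inl
  · refine iff_H7F hβ h₀ h₁ (k₀ := P_H7F ℤ [0, 1, 0, 1] - 2 • P_H7F ℤ [1, 0, 0, 1])
      (k₁ := P_H7F ℤ [0, 0, 0, 1])
      (sub_mem (mem_H7F _ _ (by decide)) (nsmul_mem (mem_H7F _ _ (by decide)) _))
      (mem_H7F _ _ (by decide)) (rel42_H7F _ _) fun F _ u _ v hv _ => ?_
    rw [red_H7F]
    exact (thin_H7F _ [0, 0, 0, 0, 1] (by decide) (by decide)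
      (once_H7F 1 0 (by decide) (by decide)) hv).imp fun _ => Or.inr
  · refine iff_H7F hβ h₀ h₁ (zero_mem _) (zero_mem _) (by simp) fun F _ u _ v hv _ =>
      ⟨0, Or.inr ?_⟩
    rw [mp_pow F (x := 0) (by decide) (by decide)] at hv
    rw [zero_smul]
    exact hv

end Pool.Agent.P.MP_8598be_al.Z
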