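import Pool.Agent.P.MP_8598be_al.Z.InjAt
import Pool.Agent.P.MP_8598be_al.Z.Co
import Pool.Agent.P.MP_8598be_al.E.PosLie
import Pool.Agent.P.MP_8598be_al.N.Mp

/-!
Relations among the brackets with two generators in degree seven.
-/

namespace Pool.Agent.P.MP_8598be_al.Z

open Module

theorem lie_eq_H7R (R : Type) [CommRing R] {d : ℕ} (t : FreeMagma (Fin d)) :
    lie R t = E.lieT R t := by
  induction t using FreeMagma.rec with
  | of k => rfl
  | mul a b ha hb => rw [lie, E.lieT, ha, hb]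

theorem wt_eq_H7R {d : ℕ} (t : FreeMagma (Fin d)) : wt t = E.wtT t := by
  induction t using FreeMagma.rec with
  | of k => rfl
  | mul a b ha hb => rw [wt, E.wtT, ha, hb]

theorem mp_eq_H7R (F : Type) [Field F] {d : ℕ} (α : Fin d → ℕ) : mp F α = N.mpiece F α := by
  have h1 : lie F = E.lieT F (d := d) := funext (lie_eq_H7R F)
  have h2 : wt = E.wtT (d := d) := funext wt_eq_H7R
  rw [mp, N.mpiece, h1, h2]

theorem mp_span_H7R (F : Type) [Field F] {I : Type} [Fintype I] [DecidableEq I] {c d : ℕ}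
    {τ : I → FreeMagma (Fin d)} (h : E.IsBasis c d τ) {α : Fin d → ℕ} (hα : ∑ k, α k ≤ c) :
    mp F α = Submodule.span F
      (Set.range fun u : {u // E.wtT (τ u) = α} => E.lieT F (τ u.1)) := by
  obtain ⟨A, hA⟩ := E.exists_model h
  rw [mp_eq_H7R]
  refine le_antisymm ?_ (Submodule.span_le.2 ?_)
  · rw [← N.mT_range h hA hα]
    rintro _ ⟨v, rfl⟩
    rw [N.mT_apply, N.emb_apply]
    refine Submodule.sum_mem _ fun u _ => ?_
    rw [N.prj_apply]
    split_ifs with e
    · exact Submodule.smul_mem _ _ (Submodule.subset_span ⟨⟨u, e⟩, rfl⟩)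
    · rw [zero_smul]; exact zero_mem _
  · rintro _ ⟨u, rfl⟩
    exact Submodule.subset_span ⟨τ u.1, u.2, rfl⟩

theorem rank_mp_H7R (F : Type) [Field F] {I : Type} [Fintype I] [DecidableEq I] {c d : ℕ}
    {τ : I → FreeMagma (Fin d)} (h : E.IsBasis c d τ) {α : Fin d → ℕ} (hα : ∑ k, α k ≤ c) :
    finrank F (mp F α) = (Finset.univ.filter fun u => E.wtT (τ u) = α).card := by
  have h1 : LinearIndependent F fun u : {u // E.wtT (τ u) = α} => E.lieT F (τ u.1) :=
    (E.model_indep h F).comp _ Subtype.val_injective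
  rw [mp_span_H7R F h hα, finrank_span_eq_card h1, Fintype.card_subtype]

theorem sum_rank_H7R (F : Type) [Field F] (n : ℕ) :
    ∑ i ∈ Finset.range (n + 1 + 1), finrank F (mp F ![i, n + 1 - i]) =
      finrank F (piece F 2 n) := by
  obtain ⟨τ, h⟩ := E.exists_basis (n + 1) 2
  rw [E.poslie_rank h F (Nat.lt_succ_self n), Fintype.card_subtype,
    Finset.card_eq_sum_card_fiberwise (t := Finset.range (n + 1 + 1))
      (f := fun u => E.wtT (τ u) 0) (fun u _ => by
        have a1 := E.sum_wtT (τ u)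
        have a2 := h.1 u
        rw [Fin.sum_univ_two] at a1
        exact Finset.mem_coe.2 (Finset.mem_range.2 (by simp only; omega)))]
  refine Finset.sum_congr rfl fun i hi => ?_
  have hi' := Finset.mem_range.1 hi
  rw [rank_mp_H7R F h (by simp only [Fin.sum_univ_two, Matrix.cons_val_zero,
    Matrix.cons_val_one]; omega), Finset.filter_filter]
  congr 1
  refine Finset.filter_congr fun u _ => ?_
  have a1 := E.sum_wtT (τ u)
  rw [Fin.sum_univ_two] at a1
  rw [funext_iff, Fin.forall_fin_two]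
  simp only [Matrix.cons_val_zero, Matrix.cons_val_one]
  omega

theorem rk_five_H7R : rk 5 2 = rk 4 2 + 6 := by
  have e5 : Nat.divisors 5 = {1, 5} := rfl
  rw [rk, rk, Finset.sum_Icc_succ_top (by norm_num)]
  simp [e5, ArithmeticFunction.moebius_apply_prime Nat.prime_five]

theorem rank_piece_H7R (F : Type) [Field F] : finrank F (piece F 2 4) = 6 ∧
    finrank F (piece F 2 5) = 9 ∧ finrank F (piece F 2 6) = 18 := by
  have r4 := E.poslie_rk F 4 2
  have r5 := E.poslie_rk F 5 2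
  have r6 := E.poslie_rk F 6 2
  have r7 := E.poslie_rk F 7 2
  rw [Finset.sum_range_succ] at r5 r6 r7
  rw [Finset.sum_range_succ] at r6 r7
  rw [Finset.sum_range_succ] at r7
  obtain ⟨a1, a2⟩ := E.poslie_vals
  have a3 := rk_five_H7R
  omega

theorem indep_H7R (F : Type) [Field F] {I : Type} [Fintype I] {τ : I → FreeMagma (Fin 2)}
    (h : E.IsBasis 7 2 τ) :
    LinearIndependent F fun p : Fin 2 × {u // (τ u).length = 5 + 1} =>
      ⁅E.lieT F (τ p.2.1), FreeLieAlgebra.of F p.1⁆ := by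
  obtain ⟨-, a1, a2⟩ := rank_piece_H7R F
  have c5 := E.poslie_rank h F (i := 5) (by norm_num)
  rw [linearIndependent_iff_card_le_finrank_span, Fintype.card_prod, Fintype.card_fin, ← c5]
  have hle : piece F 2 6 ≤ Submodule.span F (Set.range
      fun p : Fin 2 × {u // (τ u).length = 5 + 1} =>
        ⁅E.lieT F (τ p.2.1), FreeLieAlgebra.of F p.1⁆) := by
    refine Submodule.span_le.2 ?_
    rintro _ ⟨x, hx, y, hy, rfl⟩
    rw [(h.2 F).1 5 (by norm_num)] at hx
    refine E.laza_lie_right ?_ hy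
    rintro _ ⟨k, rfl⟩
    refine E.laza_lie_left ?_ hx
    rintro _ ⟨u, hu, rfl⟩
    exact Submodule.subset_span ⟨(k, ⟨u, hu⟩), rfl⟩
  have := FiniteDimensional.span_of_finite F (Set.finite_range
    fun p : Fin 2 × {u // (τ u).length = 5 + 1} => ⁅E.lieT F (τ p.2.1), FreeLieAlgebra.of F p.1⁆)
  have h4 := Submodule.finrank_mono hle
  rw [Set.finrank]
  omega

theorem coord_H7R (F : Type) [Field F] {I : Type} [Fintype I] [DecidableEq I]
    {τ : I → FreeMagma (Fin 2)} (h : E.IsBasis 7 2 τ) {α : Fin 2 → ℕ} (hα : tot α = 6)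
    {u : FL F (Fin 2)} (hu : u ∈ mp F α) :
    ∃ a : {u // (τ u).length = 5 + 1} → F, ∑ w, a w • E.lieT F (τ w.1) = u := by
  have hα' : ∑ k, α k = 6 := hα
  rw [← Submodule.mem_span_range_iff_exists_fun]
  rw [mp_span_H7R F h (hα'.trans_le (by norm_num))] at hu
  refine Submodule.span_mono ?_ hu
  rintro _ ⟨w, rfl⟩
  exact ⟨⟨w.1, by rw [← E.sum_wtT, w.2, hα']⟩, rfl⟩

/-- The dimension of the homogeneous part is the sum of the dimensions of the multihomogeneous
parts; with `E.poslie_rk`, `E.poslie_vals` the dimensions are `6, 9, 18` in degrees `5, 6, 7`. -/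
theorem rank_deg (F : Type) [Field F] :
    (∑ i ∈ Finset.range 6, finrank F (mp F ![i, 5 - i]) = 6) ∧
    (∑ i ∈ Finset.range 7, finrank F (mp F ![i, 6 - i]) = 9) ∧
    ∑ i ∈ Finset.range 8, finrank F (mp F ![i, 7 - i]) = 18 := by
  obtain ⟨a1, a2, a3⟩ := rank_piece_H7R F
  exact ⟨(sum_rank_H7R F 4).trans a1, (sum_rank_H7R F 5).trans a2, (sum_rank_H7R F 6).trans a3⟩

/-- In degree seven the surjection from two copies of degree six is bijective. -/
theorem rel_seven (F : Type) [Field F] {β α₀ α₁ : Fin 2 → ℕ} (hβ : tot β = 7)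
    (h₀ : α₀ + one 0 = β) (h₁ : α₁ + one 1 = β) {u v : FL F (Fin 2)} (hu : u ∈ mp F α₀)
    (hv : v ∈ mp F α₁) (h : ⁅u, gen F (0 : Fin 2)⁆ + ⁅v, gen F (1 : Fin 2)⁆ = 0) : u = 0 ∧ v = 0 := by
  obtain ⟨τ, hτ⟩ := E.exists_basis 7 2
  have t0 : tot α₀ = 6 := by
    have := tot_add α₀ (one 0)
    rw [h₀, tot_one] at this
    omega
  have t1 : tot α₁ = 6 := by
    have := tot_add α₁ (one 1)
    rw [h₁, tot_one] at this
    omega
  obtain ⟨a, rfl⟩ := coord_H7R F hτ t0 hu
  obtain ⟨b, rfl⟩ := coord_H7R F hτ t1 hv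
  have h4 := Fintype.linearIndependent_iff.1 (indep_H7R F hτ) (fun p => ![a, b] p.1 p.2) (by
    rw [← h, Fintype.sum_prod_type, Fin.sum_univ_two, sum_lie, sum_lie]
    simp only [Matrix.cons_val_zero, Matrix.cons_val_one, smul_lie])
  constructor
  · exact Finset.sum_eq_zero fun w _ => by rw [show a w = 0 from h4 (0, w), zero_smul]
  · exact Finset.sum_eq_zero fun w _ => by rw [show b w = 0 from h4 (1, w), zero_smul]

end Pool.Agent.P.MP_8598be_al.Z
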