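import Pool.Agent.P.MP_8598be_al.Z.Ren
import Pool.Agent.P.MP_8598be_al.E.PosLie

/-!
Relations among the brackets with the generators.
-/

namespace Pool.Agent.P.MP_8598be_al.Z

open Module

theorem lie_eq_InjAt (R : Type) [CommRing R] {d : ℕ} (t : FreeMagma (Fin d)) :
    lie R t = E.lieT R t := by
  induction t using FreeMagma.rec with
  | of k => rfl
  | mul a b ha hb => rw [lie, E.lieT, ha, hb]

theorem wt_eq_InjAt {d : ℕ} (t : FreeMagma (Fin d)) : wt t = E.wtT t := by
  induction t using FreeMagma.rec with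
  | of k => rfl
  | mul a b ha hb => rw [wt, E.wtT, ha, hb]

attribute [local instance 100] LieRing.ofAssociativeRing in
theorem psi_InjAt (F : Type) [Field F] (d : ℕ) :
    ∃ ψ : FL F (Fin d) →ₗ[F] FreeAlgebra F (Fin d),
      (∀ u k, ψ ⁅u, gen F k⁆ = ψ u * FreeAlgebra.ι F k - FreeAlgebra.ι F k * ψ u) ∧
      (∀ α, ∀ u ∈ mp F α, ψ u = 0 → u = 0) ∧
      ∀ α l, α l ≠ 0 → ∀ u ∈ mp F α, E.poslieKill F l (ψ u) = 0 := by
  let φ := FreeLieAlgebra.lift F (FreeAlgebra.ι F (X := Fin d))
  have h1 : ∀ t, φ (E.lieT F t) = E.ascT F t := fun t => by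
    induction t using FreeMagma.rec with
    | of k => exact FreeLieAlgebra.lift_of_apply _ _
    | mul a b ha hb =>
      rw [E.lieT, E.ascT, ← ha, ← hb]
      exact LieHom.map_lie _ _ _
  refine ⟨φ.toLinearMap, fun u k => ?_, fun α u hu h0 => ?_, fun α l hl u hu => ?_⟩
  · change φ ⁅u, gen F k⁆ = φ u * _ - _ * φ u
    rw [LieHom.map_lie, FreeLieAlgebra.lift_of_apply]
    rfl
  · obtain ⟨τ, h⟩ := E.exists_basis (tot α) d
    have h2 : mp F α ≤ Submodule.span F (Set.range fun i => E.lieT F (τ i)) := by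
      refine Submodule.span_le.2 ?_
      rintro _ ⟨t, ht, rfl⟩
      have e1 : t.length = tot α := by
        rw [← E.sum_wtT, ← wt_eq_InjAt, show wt t = α from ht, tot]
      have e2 := FreeMagma.length_pos t
      have e3 := E.laza_mem_piece (R := F) t
      rw [(h.2 F).1 _ (by omega)] at e3
      rw [lie_eq_InjAt]
      exact Submodule.span_mono (Set.image_subset_range _ _) e3
    obtain ⟨c, rfl⟩ := (Submodule.mem_span_range_iff_exists_fun F).1 (h2 hu)
    have h3 : ∑ i, c i • E.ascT F (τ i) = 0 := by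
      rw [← h0, map_sum]
      exact Finset.sum_congr rfl fun i _ => by rw [map_smul, ← h1]; rfl
    simp [Fintype.linearIndependent_iff.1 (h.2 F).2 c h3]
  · induction hu using Submodule.span_induction with
    | mem x hx =>
      obtain ⟨t, ht, rfl⟩ := hx
      change E.poslieKill F l (φ (lie F t)) = 0
      rw [lie_eq_InjAt, h1]
      exact E.poslie_kill_asc l t (by rw [← wt_eq_InjAt, show wt t = α from ht]; exact hl)
    | zero => rw [map_zero, map_zero]
    | add a b _ _ ha hb => rw [map_add, map_add, ha, hb, add_zero]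
    | smul c a _ ha => rw [map_smul, map_smul, ha, smul_zero]

theorem fin_InjAt (F : Type) [Field F] {d : ℕ} (β : Fin d → ℕ) (v : Fin d → FL F (Fin d))
    (hv : ∀ y, v y ∈ mp F (β - one y)) (h : ∑ y, ⁅v y, gen F y⁆ = 0) {l : Fin d} (hl : β l ≠ 0)
    (hvl : v l = 0) (k : Fin d) : v k = 0 := by
  obtain ⟨ψ, h1, h2, h3⟩ := psi_InjAt F d
  refine h2 _ _ (hv k) (E.poslie_cyc (fun k => ψ (v k)) l (by rw [hvl, map_zero]) (fun k => ?_) ?_ k)
  · by_cases e : k = l
    · rw [e, hvl, map_zero, map_zero]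
    · exact h3 _ l (by rwa [Pi.sub_apply, one, Pi.single_eq_of_ne (Ne.symm e), Nat.sub_zero]) _
        (hv k)
  · rw [← Finset.sum_congr rfl fun k _ => h1 (v k) k, ← map_sum, h, map_zero]

variable {X : Type} [DecidableEq X] [Fintype X]

/-- A relation among the brackets with the generators is zero if one component is zero. -/
theorem inj_at (F : Type) [Field F] (β : X → ℕ) (v : X → FL F X)
    (hv : ∀ y, v y ∈ mp F (β - one y)) (h0 : ∀ y, β y = 0 → v y = 0)
    (h2 : 2 ≤ tot β) (h : ∑ y, ⁅v y, gen F y⁆ = 0) {l : X} (hl : β l ≠ 0) (hvl : v l = 0) :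
    v = 0 := by
  let e := Fintype.equivFin X
  funext k
  refine ren_inj (R := F) e.injective ?_
  have h1 := fin_InjAt F (β ∘ e.symm) (fun y => ren F e (v (e.symm y))) (fun y => ?_) ?_
    (l := e l) (by simpa using hl) (by simp [hvl]) (e k)
  · simpa using h1
  · have h3 := ren_mem e (hv (e.symm y))
    rw [push_equiv] at h3
    convert h3 using 2
    funext z
    simp [one, Pi.single_apply]
  · have h3 := congrArg (ren F e) h
    rw [map_sum, map_zero] at h3
    rw [← h3, ← e.symm.sum_comp]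
    exact Finset.sum_congr rfl fun y _ => by rw [LieHom.map_lie, ren_gen, e.apply_symm_apply]

end Pool.Agent.P.MP_8598be_al.Z
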