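import Pool.Agent.P.MP_8598be_al.Z.Push
import Pool.Agent.P.MP_8598be_al.Z.ECc

/-!
Families of subspaces that are defined over the integers.
-/

namespace Pool.Agent.P.MP_8598be_al.Z

open Module

variable {X : Type} {V W : ∀ (p : ℕ) [Fact p.Prime], Submodule (ZMod p) (FL (ZMod p) X)}

theorem red_gen (R : Type) [CommRing R] (x : X) : red R (gen ℤ x) = gen R x := by
  exact FreeLieAlgebra.lift_of_apply _ x

theorem red_lie (R : Type) [CommRing R] (t : FreeMagma X) : red R (lie ℤ t) = lie R t := by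
  induction t with
  | ih1 x => exact red_gen R x
  | ih2 a b ha hb =>
    change red R ⁅lie ℤ a, lie ℤ b⁆ = ⁅lie R a, lie R b⁆
    rw [LieHom.map_lie, ha, hb]

theorem red_mem (R : Type) [CommRing R] [DecidableEq X] {α : X → ℕ} {u : FL ℤ X}
    (hu : u ∈ mp ℤ α) : red R u ∈ mp R α := by
  induction hu using Submodule.span_induction with
  | mem x hx =>
    obtain ⟨t, ht, rfl⟩ := hx
    rw [red_lie]
    exact (show wt t = α from ht) ▸ lie_mem_mp t
  | zero => rw [map_zero]; exact zero_mem _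
  | add a b _ _ ha hb => rw [map_add]; exact add_mem ha hb
  | smul c a _ ha => rw [map_smul]; exact zsmul_mem ha c

theorem of_finite_IntA {s : Set (FL ℤ X)} (hs : s.Finite)
    (h : Ev 1 fun p _ => V p = Submodule.span (ZMod p) (red (ZMod p) '' s)) : IsInt V :=
  ⟨hs.toFinset, by rw [hs.coe_toFinset]; exact h⟩

theorem red_ren_IntA (R : Type) [CommRing R] {Y : Type} (g : X → Y) (u : FL ℤ X) :
    red R (ren ℤ g u) = ren R g (red R u) := by
  let φ : FL R X →ₗ⁅ℤ⁆ FL R Y :=
    { (ren R g : FL R X →ₗ[R] FL R Y).toAddMonoidHom.toIntLinearMap with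
      map_lie' := fun {a b} => (ren R g).map_lie a b }
  have : (red R).comp (ren ℤ g) = φ.comp (red R) :=
    FreeLieAlgebra.hom_ext fun x => by
      change red R (ren ℤ g (gen ℤ x)) = ren R g (red R (gen ℤ x))
      rw [ren_gen, red_gen, red_gen, ren_gen]
  exact LieHom.congr_fun this u

theorem IsInt.congr (h : IsInt V) (e : Ev 1 fun p _ => V p = W p) : IsInt W := by
  obtain ⟨s, hs⟩ := h
  exact ⟨s, (hs.and e).mono fun p _ h => h.2.symm.trans h.1⟩

theorem IsInt.bot : IsInt fun p _ => (⊥ : Submodule (ZMod p) (FL (ZMod p) X)) := by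
  exact of_finite_IntA Set.finite_empty (Ev.of_forall fun p _ => by
    rw [Set.image_empty, Submodule.span_empty])

theorem IsInt.span (u : FL ℤ X) :
    IsInt fun p _ => Submodule.span (ZMod p) {red (ZMod p) u} := by
  exact of_finite_IntA (Set.finite_singleton u) (Ev.of_forall fun p _ => by
    rw [Set.image_singleton])

theorem IsInt.mp [Fintype X] [DecidableEq X] (α : X → ℕ) : IsInt fun p _ => mp (ZMod p) α := by
  refine of_finite_IntA ((finite_wt α).image (lie ℤ)) (Ev.of_forall fun p _ => ?_)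
  rw [Set.image_image]
  simp only [red_lie]
  rfl

theorem IsInt.sup (h : IsInt V) (h' : IsInt W) : IsInt fun p _ => V p ⊔ W p := by
  obtain ⟨s, hs⟩ := h
  obtain ⟨t, ht⟩ := h'
  refine of_finite_IntA (s.finite_toSet.union t.finite_toSet) ((hs.and ht).mono fun p _ h => ?_)
  rw [Set.image_union, Submodule.span_union, h.1, h.2]

theorem IsInt.iSup {ι : Type} [Finite ι]
    {V : ι → ∀ (p : ℕ) [Fact p.Prime], Submodule (ZMod p) (FL (ZMod p) X)}
    (h : ∀ i, IsInt (V i)) : IsInt fun p _ => ⨆ i, V i p := by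
  choose s hs using h
  refine of_finite_IntA (Set.finite_iUnion fun i => (s i).finite_toSet)
    ((Ev.all hs).mono fun p _ h => ?_)
  rw [Set.image_iUnion, Submodule.span_iUnion]
  exact iSup_congr h

theorem IsInt.iSup_prop {Q : Prop}
    {V : Q → ∀ (p : ℕ) [Fact p.Prime], Submodule (ZMod p) (FL (ZMod p) X)}
    (h : ∀ i, IsInt (V i)) : IsInt fun p _ => ⨆ i, V i p := by
  exact (IsInt.iSup (ι := PLift Q) (V := fun i => V i.down) fun i => h i.down).congr
    (Ev.of_forall fun p _ => iSup_plift_down fun i => V i p)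

theorem IsInt.biSup {ι : Type} {s : Set ι} (hs : s.Finite)
    {V : ι → ∀ (p : ℕ) [Fact p.Prime], Submodule (ZMod p) (FL (ZMod p) X)}
    (h : ∀ i ∈ s, IsInt (V i)) : IsInt fun p _ => ⨆ i ∈ s, V i p := by
  have := hs.to_subtype
  exact (IsInt.iSup (ι := s) (V := fun i => V i.1) fun i => h i.1 i.2).congr
    (Ev.of_forall fun p _ => iSup_subtype'' s fun i => V i p)

theorem IsInt.map_adr (h : IsInt V) (y : X) : IsInt fun p _ => (V p).map (adr (ZMod p) y) := by
  obtain ⟨s, hs⟩ := h
  refine of_finite_IntA (s.finite_toSet.image (adr ℤ y)) (hs.mono fun p _ h => ?_)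
  rw [h, Submodule.map_span, Set.image_image, Set.image_image]
  refine congrArg _ (Set.image_congr fun u _ => ?_)
  change ⁅red (ZMod p) u, gen (ZMod p) y⁆ = red (ZMod p) ⁅u, gen ℤ y⁆
  rw [LieHom.map_lie, red_gen]

theorem IsInt.map_ren {Y : Type} (h : IsInt V) (g : X → Y) :
    IsInt fun p _ => (V p).map (ren (ZMod p) g : FL (ZMod p) X →ₗ[ZMod p] FL (ZMod p) Y) := by
  obtain ⟨s, hs⟩ := h
  refine of_finite_IntA (s.finite_toSet.image (ren ℤ g)) (hs.mono fun p _ h => ?_)
  rw [h, Submodule.map_span, Set.image_image, Set.image_image]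
  exact congrArg _ (Set.image_congr fun u _ => (red_ren_IntA _ g u).symm)

end Pool.Agent.P.MP_8598be_al.Z
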