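import Pool.Agent.P.MP_8598be_al.Z.Gen
import Pool.Agent.P.MP_8598be_al.N.FiveThree

/-!
The cases that do not need an enumeration.
-/

namespace Pool.Agent.P.MP_8598be_al.Z

theorem exists_pow_mul {l n : ℕ} (hl : l.Prime) (hn : n ≠ 0) (h : l ∣ n) :
    ∃ e m, ¬ l ∣ m ∧ n = l * l ^ e * m := by
  obtain ⟨e, m, hm, rfl⟩ := Nat.exists_eq_pow_mul_and_not_dvd hn l hl.ne_one
  cases e with
  | zero => exact absurd (by simpa using h) hm
  | succ e => exact ⟨e, m, hm, by rw [pow_succ']⟩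

theorem not_uniform_one {c d l : ℕ} (hc : 4 ≤ c) (hd : 2 ≤ d) (hl : l.Prime) (h7 : 7 ≤ l)
    (h : l ∣ d - 1) (W : RatXY) : ¬ Uniform c d W := by
  have : NeZero l := ⟨hl.ne_zero⟩
  obtain ⟨e, m, hm, h1⟩ := exists_pow_mul hl (by omega) h
  rw [show d = 1 + l * l ^ e * m by omega]
  exact hub_one hl (by omega) hm (pureHyp_of_ne (by omega)) hc W

theorem not_uniform_two {c d l : ℕ} (hc : 4 ≤ c) (hc' : c ≤ 7) (hd : 3 ≤ d) (hl : l.Prime)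
    (h7 : 7 ≤ l) (h : l ∣ d - 2) (W : RatXY) : ¬ Uniform c d W := by
  have : NeZero l := ⟨hl.ne_zero⟩
  obtain ⟨e, m, hm, h1⟩ := exists_pow_mul hl (by omega) h
  rw [show d = 2 + l * l ^ e * m by omega]
  exact hub_two hl (by omega) hm (pureHyp_of_ne (by omega)) hc hc' W

theorem most {c d : ℕ} (hd : 2 ≤ d) (h : c ≤ 4 ∨ (d = 2 ∧ c ≤ 7) ∨ (c = 5 ∧ d = 3) ∨
      ∃ l : ℕ, l.Prime ∧ 7 ≤ l ∧ (l ∣ d - 1 ∨ (c ≤ 7 ∧ l ∣ d - 2)))
    {W : RatXY} (hW : Uniform c d W) : ∃ v : ℚ, 0 < v ∧ BothValues (rk c d) W v := by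
  by_cases h1 : c ≤ 4 ∨ d = 2 ∧ c ≤ 7
  · exact E.low_class h1 hW
  rcases h with h | h | ⟨rfl, rfl⟩ | ⟨l, hl, h7, h | ⟨hc, h⟩⟩
  · exact absurd (Or.inl h) h1
  · exact absurd (Or.inr h) h1
  · exact N.five_three hW
  · exact absurd hW (not_uniform_one (by omega) hd hl h7 h W)
  · exact absurd hW (not_uniform_two (by omega) hc (by omega) hl h7 h W)

end Pool.Agent.P.MP_8598be_al.Z
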