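import Pool.Agent.P.MP_8598be_al.Z.Orb

/-!
The exotic types.
-/

namespace Pool.Agent.P.MP_8598be_al.Z

variable {H : Type} {l : ℕ} [Fintype H] [DecidableEq H] [NeZero l]

/-- The five nodes with fibre letters of an exotic type. -/
def ndNsp (h : H) (s : ZMod l) : Fin 5 → H ⊕ ZMod l → ℕ :=
  ![fb H 0, hb l h + fb H 0, fb H 0 + fb H s, hb l h + fb H 0 + fb H s,
    hb l h + fb H 0 + fb H s + fb H (2 * s)]

theorem le_one_nsp (h : H) (s : ZMod l) (j : ℕ) (α : H ⊕ ZMod l → ℕ) : sp h s j α ≤ 1 := by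
  unfold sp dl1 oty
  split_ifs <;> omega

theorem ne_nsp {h : H} {s : ZMod l} {j : ℕ} {α : H ⊕ ZMod l → ℕ} :
    sp h s j α ≠ 0 ↔ j = 0 ∧ (α = hb l h ∨ ∃ i t, α = sh t (ndNsp h s i)) := by
  unfold sp dl1
  rw [(oty_rot1 _ j α).2]
  simp only [List.mem_cons, List.not_mem_nil, or_false, exists_eq_or_imp, exists_eq_left, sh_hb,
    exists_const, Fin.exists_fin_succ, ndNsp, Matrix.cons_val_zero, Matrix.cons_val_succ,
    IsEmpty.exists_iff]

theorem ne'_nsp {h : H} {s : ZMod l} {j : ℕ} {α : H ⊕ ZMod l → ℕ} :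
    sp h s j α ≠ 0 ↔ j = 0 ∧ (α = hb l h ∨ (∃ t, α = fb H t) ∨ (∃ t, α = hb l h + fb H t) ∨
      (∃ t, α = fb H t + fb H (s + t)) ∨ (∃ t, α = hb l h + fb H t + fb H (s + t)) ∨
      ∃ t, α = hb l h + fb H t + fb H (s + t) + fb H (2 * s + t)) := by
  unfold sp dl1
  rw [(oty_rot1 _ j α).2]
  simp only [List.mem_cons, List.not_mem_nil, or_false, exists_eq_or_imp, exists_eq_left, sh_hb,
    exists_const, sh_add, sh_fb, zero_add]

theorem deg_nsp (h : H) (s : ZMod l) (i : Fin 5) :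
    tot (ndNsp h s i) = ![1, 2, 2, 3, 4] i ∧ fdeg (ndNsp h s i) = ![1, 1, 2, 2, 3] i := by
  fin_cases i <;> simp [ndNsp, tot_add, tot_one, fdeg_add, fdeg_hb, fdeg_fb]

theorem deg'_nsp (h : H) (s : ZMod l) (i : Fin 5) :
    1 ≤ tot (ndNsp h s i) ∧ tot (ndNsp h s i) ≤ 4 ∧ 1 ≤ fdeg (ndNsp h s i) ∧
      fdeg (ndNsp h s i) ≤ 3 := by
  rw [(deg_nsp h s i).1, (deg_nsp h s i).2]
  fin_cases i <;> simp

theorem below_nsp {X : Type} [Fintype X] [DecidableEq X] {γ : Ty X} {j : ℕ} {β : X → ℕ} {x : X}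
    (y : X) (hx : β x ≠ 0) (hβ : γ j β ≠ 0) : 1 ≤ below γ j (β + one y) x := by
  unfold below
  refine le_trans ?_ (Finset.single_le_sum (f := fun z =>
    if (β + one y : X → ℕ) z ≠ 0 ∧ (β + one y - one z : X → ℕ) x ≠ 0 then
      γ j (β + one y - one z) else 0) (fun _ _ => Nat.zero_le _) (Finset.mem_univ y))
  simp only [add_sub_one]
  rw [if_pos ⟨by simp, hx⟩]
  omega

theorem below2_nsp {X : Type} [Fintype X] [DecidableEq X] {γ : Ty X} {j : ℕ} {A B : X → ℕ}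
    {x y y' : X} (e : A + one y = B + one y') (hA : γ j A ≠ 0) (hB : γ j B ≠ 0) (hy : B y ≠ 0)
    (hx : (A + one y : X → ℕ) x ≠ 0) : 1 ≤ below γ j (A + one y) x := by
  by_cases h0 : A x = 0
  · have : x = y := by
      by_contra h1
      simp [h0, h1] at hx
    rw [e, this]
    exact below_nsp y' hy hB
  · exact below_nsp y h0 hA

theorem neg_nsp {h : H} {s : ZMod l} {j : ℕ} {α : H ⊕ ZMod l → ℕ} (hα : sp h (-s) j α ≠ 0) :
    sp h s j α ≠ 0 := by
  rw [ne'_nsp] at hα ⊢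
  refine ⟨hα.1, ?_⟩
  rcases hα.2 with e | e | e | ⟨t, e⟩ | ⟨t, e⟩ | ⟨t, e⟩
  · exact .inl e
  · exact .inr (.inl e)
  · exact .inr (.inr (.inl e))
  · refine .inr (.inr (.inr (.inl ⟨-s + t, ?_⟩)))
    rw [e, add_neg_cancel_left, add_comm]
  · refine .inr (.inr (.inr (.inr (.inl ⟨-s + t, ?_⟩))))
    rw [e, add_neg_cancel_left, add_right_comm]
  · refine .inr (.inr (.inr (.inr (.inr ⟨2 * -s + t, ?_⟩))))
    rw [e, show s + (2 * -s + t) = -s + t by ring, show 2 * s + (2 * -s + t) = t by ring]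
    abel

theorem sp_adm (hl : l.Prime) (h5 : 5 ≤ l) (h : H) {s : ZMod l} (hs : s ≠ 0) :
    Adm {rot1 H l} (sp h s) := by
  refine ⟨fun j => ?_, fun j x => le_one_nsp h s j _, fun j x => ?_, fun j α => ?_,
    fun j α x h2 hx => ?_, oty_inv _⟩
  · by_contra h0
    rcases (ne_nsp.1 h0).2 with e | ⟨i, t, e⟩
    · have := congrArg tot e
      rw [tot_one, tot_eq_zero.2 rfl] at this
      omega
    · have := congrArg tot e
      rw [tot_sh, tot_eq_zero.2 rfl] at this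
      have := (deg'_nsp h s i).1
      omega
  · by_contra h0
    have two : ∀ z, (one x + one x : H ⊕ ZMod l → ℕ) z ≠ 1 := fun z => by
      by_cases e : z = x <;> simp [e]
    rcases (ne'_nsp.1 h0).2 with e | ⟨t, e⟩ | ⟨t, e⟩ | ⟨t, e⟩ | ⟨t, e⟩ | ⟨t, e⟩
    · exact two (.inl h) (by rw [e]; simp)
    · exact two (.inr t) (by rw [e]; simp)
    · exact two (.inl h) (by rw [e]; simp)
    · exact two (.inr t) (by rw [e]; simp [hs])
    · exact two (.inl h) (by rw [e]; simp)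
    · exact two (.inl h) (by rw [e]; simp)
  · have : sp h s (j + 1) α = 0 := by
      by_contra h0
      exact absurd (ne_nsp.1 h0).1 (by omega)
    omega
  · by_cases h0 : sp h s j α = 0
    · omega
    refine (le_one_nsp h s j α).trans ?_
    obtain ⟨hj, h1⟩ := ne'_nsp.1 h0
    have a0 : sp h s j (hb l h) ≠ 0 := ne'_nsp.2 ⟨hj, .inl rfl⟩
    have a1 : ∀ t, sp h s j (fb H t) ≠ 0 := fun t => ne'_nsp.2 ⟨hj, .inr (.inl ⟨t, rfl⟩)⟩
    have a2 : ∀ t, sp h s j (hb l h + fb H t) ≠ 0 := fun t =>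
      ne'_nsp.2 ⟨hj, .inr (.inr (.inl ⟨t, rfl⟩))⟩
    have a4 : ∀ t, sp h s j (hb l h + fb H t + fb H (s + t)) ≠ 0 := fun t =>
      ne'_nsp.2 ⟨hj, .inr (.inr (.inr (.inr (.inl ⟨t, rfl⟩))))⟩
    rcases h1 with rfl | ⟨t, rfl⟩ | ⟨t, rfl⟩ | ⟨t, rfl⟩ | ⟨t, rfl⟩ | ⟨t, rfl⟩
    · rw [tot_one] at h2
      omega
    · rw [tot_one] at h2
      omega
    · exact below2_nsp (add_comm _ _) a0 (a1 t) (by simp) hx
    · exact below2_nsp (add_comm _ _) (a1 t) (a1 (s + t)) (by simp) hx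
    · exact below2_nsp (add_right_comm _ _ _) (a2 t) (a2 (s + t)) (by simp) hx
    · refine below2_nsp (y' := .inr t) ?_ (a4 t) (a4 (s + t)) ?_ hx
      · rw [show s + (s + t) = 2 * s + t by ring]
        abel
      · rw [show s + (s + t) = 2 * s + t by ring]
        simp

theorem sp_cls (h : H) (s : ZMod l) {c : ℕ} (hc : 4 ≤ c) : Cls (sp h s) c := by
  intro j α hα
  by_contra h0
  rcases (ne_nsp.1 h0).2 with rfl | ⟨i, t, rfl⟩
  · rw [tot_one] at hα
    omega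
  · rw [tot_sh] at hα
    have := (deg'_nsp h s i).2.1
    omega

theorem sp_cost (hl : l.Prime) (h5 : 5 ≤ l) (h : H) {s : ZMod l} (hs : s ≠ 0) :
    HasCost ((sp h s).on Fib) (5 * l) := by
  classical
  have hf : ∀ i, Fib (ndNsp h s i) := fun i => fib_iff.2 (by have := deg'_nsp h s i; omega)
  have hn : ∀ i, ¬ Sym (ndNsp h s i) := fun i e => by
    have := e.le_fdeg
    have := deg'_nsp h s i
    omega
  refine ⟨Finset.univ.image fun p : Fin 5 × ZMod l => (0, sh p.2 (ndNsp h s p.1)),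
    fun j α hj => ?_, ?_⟩
  · by_cases hα : Fib α
    · rw [Ty.on_pos _ hα]
      by_contra h0
      obtain ⟨rfl, rfl | ⟨i, t, rfl⟩⟩ := ne_nsp.1 h0
      · exact fib_iff.1 hα (fdeg_hb h)
      · exact hj (Finset.mem_image.2 ⟨(i, t), Finset.mem_univ _, rfl⟩)
    · exact Ty.on_neg _ hα j
  · rw [Finset.sum_image]
    · have : ∀ p : Fin 5 × ZMod l, (sp h s).on Fib 0 (sh p.2 (ndNsp h s p.1)) = 1 := fun p => by
        rw [Ty.on_pos _ (fib_sh.2 (hf _))]
        have h1 := le_one_nsp h s 0 (sh p.2 (ndNsp h s p.1))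
        have h2 : sp h s 0 (sh p.2 (ndNsp h s p.1)) ≠ 0 := ne_nsp.2 ⟨rfl, .inr ⟨_, _, rfl⟩⟩
        omega
      simp [this, ZMod.card]
    · rintro ⟨i, t⟩ - ⟨i', t'⟩ - e
      have e1 : sh t (ndNsp h s i) = sh t' (ndNsp h s i') := (Prod.ext_iff.1 e).2
      have e2 := congrArg tot e1
      have e3 := congrArg fdeg e1
      rw [tot_sh, tot_sh, (deg_nsp h s i).1, (deg_nsp h s i').1] at e2
      rw [fdeg_sh, fdeg_sh, (deg_nsp h s i).2, (deg_nsp h s i').2] at e3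
      have e4 : i = i' := by
        revert e2 e3
        clear e e1
        revert i i'
        decide
      subst e4
      rw [sh_inj hl (hf i) (hn i) e1]

theorem sp_hub (h : H) (s : ZMod l) (j : ℕ) (α : H → ℕ) :
    (sp h s).comap Sum.inl j α = if j = 0 ∧ α = one h then 1 else 0 := by
  change sp h s j (push Sum.inl α) = _
  split_ifs with hc
  · obtain ⟨rfl, rfl⟩ := hc
    rw [push_one]
    have h1 := le_one_nsp h s 0 (hb l h)
    have h2 : sp h s 0 (hb l h) ≠ 0 := ne_nsp.2 ⟨rfl, .inl rfl⟩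
    change sp h s 0 (hb l h) = 1
    omega
  · by_contra h0
    obtain ⟨hj, e | ⟨i, t, e⟩⟩ := ne_nsp.1 h0
    · refine hc ⟨hj, push_inj (g := (Sum.inl : H → H ⊕ ZMod l)) Sum.inl_injective ?_⟩
      rw [e, push_one]
    · refine not_fib_iff.2 ⟨α, e⟩ (fib_sh.2 (fib_iff.2 ?_))
      have := deg'_nsp h s i
      omega

theorem sp_hub_cost (h : H) (s : ZMod l) : HasCost ((sp h s).comap Sum.inl) 1 := by
  refine ⟨{(0, one h)}, fun j α hj => ?_, ?_⟩
  · rw [sp_hub, if_neg]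
    rintro ⟨rfl, rfl⟩
    exact hj (Finset.mem_singleton_self _)
  · rw [Finset.sum_singleton, sp_hub, if_pos ⟨rfl, rfl⟩]

theorem sp_neg (h : H) (s : ZMod l) : sp h (-s) = sp h s := by
  funext j α
  have h1 := le_one_nsp h s j α
  have h2 := le_one_nsp h (-s) j α
  have h3 : sp h (-s) j α ≠ 0 → sp h s j α ≠ 0 := neg_nsp
  have h4 : sp h (- -s) j α ≠ 0 → sp h (-s) j α ≠ 0 := neg_nsp
  rw [neg_neg] at h4
  omega

theorem sp_not_sym (h5 : 5 ≤ l) (h : H) (s : ZMod l) (j : ℕ) (α : H ⊕ ZMod l → ℕ) (hα : Sym α) :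
    sp h s j α = 0 := by
  by_contra h0
  have h1 := hα.le_fdeg
  rcases (ne_nsp.1 h0).2 with rfl | ⟨i, t, rfl⟩
  · rw [fdeg_hb] at h1
    omega
  · rw [fdeg_sh] at h1
    have := deg'_nsp h s i
    omega

theorem nsp_zero {κ : Ty H} {k : ℕ} (hk : HasCost κ k) (h1 : k ≠ 1) : nsp l κ = 0 := by
  unfold nsp
  have : IsEmpty {γ : Ty (H ⊕ ZMod l) // IsSp γ ∧ γ.comap Sum.inl = κ} := ⟨by
    rintro ⟨γ, ⟨h, s, -, rfl⟩, rfl⟩
    exact h1 (hk.unique (sp_hub_cost h s))⟩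
  exact Nat.card_of_isEmpty

/-- There are at most `(l - 1) / 2` exotic types for each hub. -/
theorem nsp_sum (hl : l.Prime) (h5 : 5 ≤ l) (h0 : 0 < Fintype.card H) (h2 : Fintype.card H ≤ 2)
    {c : ℕ} (hc : 1 ≤ c) :
    0 < ∑ κ ∈ tys (∅ : Set (Equiv.Perm H)) c 1, nsp l κ ∧
      ∑ κ ∈ tys (∅ : Set (Equiv.Perm H)) c 1, nsp l κ < l := by
  classical
  let A : Finset (Ty (H ⊕ ZMod l)) :=
    (Finset.univ ×ˢ Finset.Icc 1 (l / 2)).image fun p : H × ℕ => sp p.1 (p.2 : ZMod l)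
  have hA : ∀ γ, IsSp γ → γ ∈ A := by
    rintro _ ⟨h, s, hs, rfl⟩
    have v0 : s.val ≠ 0 := fun e => hs ((ZMod.val_eq_zero s).1 e)
    have v1 := ZMod.val_lt s
    by_cases hv : s.val ≤ l / 2
    · exact Finset.mem_image.2 ⟨(h, s.val), Finset.mem_product.2 ⟨Finset.mem_univ _,
        Finset.mem_Icc.2 ⟨by omega, hv⟩⟩, by simp⟩
    · refine Finset.mem_image.2 ⟨(h, l - s.val), Finset.mem_product.2 ⟨Finset.mem_univ _,
        Finset.mem_Icc.2 ⟨by omega, by omega⟩⟩, ?_⟩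
      rw [← sp_neg h s]
      simp [Nat.cast_sub v1.le]
  have hsub : ∀ κ : Ty H, {γ : Ty (H ⊕ ZMod l) | IsSp γ ∧ γ.comap Sum.inl = κ} ⊆
      ((A.filter fun γ => γ.comap Sum.inl = κ : Finset _) : Set _) := fun κ γ hγ =>
    Finset.mem_coe.2 (Finset.mem_filter.2 ⟨hA γ hγ.1, hγ.2⟩)
  have hn : ∀ κ : Ty H,
      nsp l κ = {γ : Ty (H ⊕ ZMod l) | IsSp γ ∧ γ.comap Sum.inl = κ}.ncard := fun κ => rfl
  constructor
  · obtain ⟨h⟩ := Fintype.card_pos_iff.1 h0
    have : Fact l.Prime := ⟨hl⟩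
    have s1 : (1 : ZMod l) ≠ 0 := one_ne_zero
    have hm : (sp h (1 : ZMod l)).comap Sum.inl ∈ tys (∅ : Set (Equiv.Perm H)) c 1 := by
      refine mem_tys.2 ⟨(sp_adm hl h5 h s1).comap Sum.inl_injective (by simp), fun j α hα => ?_,
        sp_hub_cost h 1⟩
      rw [sp_hub, if_neg]
      rintro ⟨-, rfl⟩
      rw [tot_one] at hα
      omega
    refine lt_of_lt_of_le ?_ (Finset.single_le_sum (fun _ _ => Nat.zero_le _) hm)
    rw [hn, Set.ncard_pos ((Finset.finite_toSet _).subset (hsub _))]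
    exact ⟨sp h 1, ⟨h, 1, s1, rfl⟩, rfl⟩
  · have b1 : ∑ κ ∈ tys (∅ : Set (Equiv.Perm H)) c 1, nsp l κ ≤
        ∑ κ ∈ tys (∅ : Set (Equiv.Perm H)) c 1, (A.filter fun γ => γ.comap Sum.inl = κ).card :=
      Finset.sum_le_sum fun κ _ => by
        rw [hn, ← Set.ncard_coe_finset]
        exact Set.ncard_le_ncard (hsub κ) (Finset.finite_toSet _)
    have b0 : ∑ κ ∈ tys (∅ : Set (Equiv.Perm H)) c 1,
        (A.filter fun γ => γ.comap Sum.inl = κ).card ≤ A.card := by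
      rw [← Finset.card_biUnion]
      · exact Finset.card_le_card (Finset.biUnion_subset.2 fun _ _ => Finset.filter_subset _ _)
      · intro a _ b _ hab
        exact Finset.disjoint_filter.2 fun γ _ e e' => hab (e.symm.trans e')
    have b2 : A.card ≤ Fintype.card H * (l / 2) := Finset.card_image_le.trans (by simp)
    have b3 : Fintype.card H * (l / 2) ≤ 2 * (l / 2) := Nat.mul_le_mul_right _ h2
    have b4 := hl.eq_two_or_odd
    have b5 := b1.trans b0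
    omega

end Pool.Agent.P.MP_8598be_al.Z
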