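import Pool.Agent.P.MP_8598be_al.Z.Tys

/-!
Removing the orbit of a node without living successors.
-/

namespace Pool.Agent.P.MP_8598be_al.Z

open Module

variable {F X : Type} [Field F] [Fintype X] [DecidableEq X] {S : Set (Equiv.Perm X)} {γ : Ty X}
  {α : X → ℕ}

theorem kill_pos {β : X → ℕ} (h : Orb S α β) (j : ℕ) : γ.kill S α j β = 0 :=
  Ty.on_neg γ (Q := fun β => ¬ Orb S α β) (not_not.2 h) j

theorem kill_neg {β : X → ℕ} (h : ¬ Orb S α β) (j : ℕ) : γ.kill S α j β = γ j β :=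
  Ty.on_pos γ (Q := fun β => ¬ Orb S α β) h j

theorem orb_push_peel {g : Equiv.Perm X} (hg : g ∈ Subgroup.closure S) {β : X → ℕ} :
    Orb S α (push g β) ↔ Orb S α β :=
  ⟨fun o => o.trans (Orb.symm ⟨g, hg, rfl⟩), fun o => o.trans ⟨g, hg, rfl⟩⟩

theorem not_orb_succ_peel {β : X → ℕ} (o : Orb S α β) (y : X) : ¬ Orb S α (β + one y) := by
  intro o'
  have h1 := o.tot_eq
  have h2 := o'.tot_eq
  rw [tot_add, tot_one] at h2
  omega

theorem kill_inv (hinv : ∀ g ∈ S, ∀ j β, γ j (push g β) = γ j β) :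
    ∀ g ∈ S, ∀ j β, γ.kill S α j (push g β) = γ.kill S α j β := by
  intro g hg j β
  have hg' : g ∈ Subgroup.closure S := Subgroup.subset_closure hg
  by_cases o : Orb S α β
  · rw [kill_pos o, kill_pos ((orb_push_peel hg').2 o)]
  · rw [kill_neg o, kill_neg fun o' => o ((orb_push_peel hg').1 o'), hinv g hg]

theorem IsTop.orb (hinv : ∀ g ∈ S, ∀ j β, γ j (push g β) = γ j β) (h : IsTop γ α) {β : X → ℕ}
    (o : Orb S α β) : IsTop γ β := by
  obtain ⟨g, hg, rfl⟩ := o
  intro j y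
  obtain ⟨x, rfl⟩ := g.surjective y
  rw [← push_add_one, inv_closure_ty hinv g hg]
  exact h j x

/-- Invariant chains that agree at `α` and outside the orbit of `α` are equal. -/
theorem ext_orb {J J' : Chain F X} (h : Inv S J) (h' : Inv S J')
    (e : ∀ j β, ¬ Orb S α β → J.J j β = J'.J j β) (e' : ∀ j, J.J j α = J'.J j α) : J = J' := by
  refine Chain.ext (funext fun j => funext fun β => ?_)
  by_cases o : Orb S α β
  · obtain ⟨g, hg, rfl⟩ := o
    rw [← h.map_eq hg, ← h'.map_eq hg, e']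
  · exact e j β o

theorem exists_restrict {J : Chain F X} (h : Inv S J) (htop : IsTop J.ty α) :
    ∃ J' : Chain F X, Inv S J' ∧ J'.ty = J.ty.kill S α ∧
      ∀ j β, ¬ Orb S α β → J'.J j β = J.J j β := by
  classical
  let K : ℕ → (X → ℕ) → Submodule F (FL F X) := fun j β => if Orb S α β then mp F β else J.J j β
  have K1 : ∀ j β, Orb S α β → K j β = mp F β := fun j β o => if_pos o
  have K2 : ∀ j β, ¬ Orb S α β → K j β = J.J j β := fun j β o => if_neg o
  have K3 : ∀ j β, J.J j β ≤ K j β := fun j β => by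
    by_cases o : Orb S α β
    · rw [K1 j β o]; exact J.le j β
    · rw [K2 j β o]
  refine ⟨⟨K, fun j β => ?_, fun j β => ?_, fun j β y u hu => ?_⟩, fun g hg j β u hu => ?_,
    funext fun j => funext fun β => ?_, K2⟩
  · by_cases o : Orb S α β
    · rw [K1 j β o]
    · rw [K2 j β o]; exact J.le j β
  · by_cases o : Orb S α β
    · rw [K1 j β o, K1 _ β o]
    · rw [K2 j β o, K2 _ β o]; exact J.mono j β
  · by_cases o : Orb S α β
    · rw [K1 j β o] at hu
      refine K3 j _ ?_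
      rw [J.ty_eq_zero.1 (IsTop.orb h.adm.inv htop o j y)]
      exact lie_gen_mem F β y u hu
    · rw [K2 j β o] at hu
      exact K3 j _ (J.br j β y u hu)
  · change u ∈ K j β at hu
    change ren F g u ∈ K j (push g β)
    by_cases o : Orb S α β
    · rw [K1 j β o] at hu
      rw [K1 j _ ((orb_push_peel (Subgroup.subset_closure hg)).2 o)]
      exact ren_mem g hu
    · rw [K2 j β o] at hu
      exact K3 j _ (h g hg j β u hu)
  · change finrank F (mp F β) - finrank F (K j β) = _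
    by_cases o : Orb S α β
    · rw [K1 j β o, kill_pos o, Nat.sub_self]
    · rw [K2 j β o, kill_neg o]
      rfl

theorem map_congr_peel (hT : Triv S α) {V : Submodule F (FL F X)} (hV : V ≤ mp F α)
    {g g' : Equiv.Perm X} (hg : g ∈ Subgroup.closure S) (hg' : g' ∈ Subgroup.closure S)
    (e : push g α = push g' α) :
    V.map (ren F g : FL F X →ₗ[F] FL F X) = V.map (ren F g' : FL F X →ₗ[F] FL F X) := by
  have h1 : push (g'⁻¹ * g : Equiv.Perm X) α = α := by
    rw [Equiv.Perm.coe_mul, ← push_comp, e, push_comp, ← Equiv.Perm.coe_mul, inv_mul_cancel]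
    exact push_id α
  have h2 : ∀ x, α x ≠ 0 → g x = g' x := fun x hx => by
    have h3 := hT _ (mul_mem (inv_mem hg') hg) h1 x hx
    rw [Equiv.Perm.mul_apply, Equiv.Perm.inv_eq_iff_eq] at h3
    exact h3
  ext v
  constructor
  · rintro ⟨u, hu, rfl⟩
    exact ⟨u, hu, (ren_congr h2 (hV hu)).symm⟩
  · rintro ⟨u, hu, rfl⟩
    exact ⟨u, hu, ren_congr h2 (hV hu)⟩

/-- Sketch: at `β` in the orbit take the supremum of the images of `G j` under all `g` with
`push g α = β`; by `Triv` and `ren_congr` these images coincide. -/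
theorem exists_extend (hT : Triv S α) (htop : IsTop γ α)
    (hinv : ∀ g ∈ S, ∀ j β, γ j (push g β) = γ j β) {J' : Chain F X} (h : Inv S J')
    (hty : J'.ty = γ.kill S α) (G : Above (mp F α) (fun j => J'.low j α) fun j => γ j α) :
    ∃ J : Chain F X, Inv S J ∧ J.ty = γ ∧ (∀ j β, ¬ Orb S α β → J.J j β = J'.J j β) ∧
      ∀ j, J.J j α = G.1 j := by
  classical
  obtain ⟨G, hG1, hG2⟩ := G
  let K : ℕ → (X → ℕ) → Submodule F (FL F X) := fun j β =>
    if o : Orb S α β then (G j).map (ren F o.choose : FL F X →ₗ[F] FL F X) else J'.J j β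
  have K1 : ∀ j, ∀ g ∈ Subgroup.closure S,
      K j (push g α) = (G j).map (ren F g : FL F X →ₗ[F] FL F X) := fun j g hg => by
    have o : Orb S α (push g α) := ⟨g, hg, rfl⟩
    exact (dif_pos o).trans (map_congr_peel hT (hG2 j).2.1 o.choose_spec.1 hg o.choose_spec.2)
  have K2 : ∀ j β, ¬ Orb S α β → K j β = J'.J j β := fun j β o => dif_neg o
  have K3 : ∀ j β, K j β ≤ mp F β := fun j β => by
    by_cases o : Orb S α β
    · obtain ⟨g, hg, rfl⟩ := o
      rw [K1 j g hg]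
      rintro _ ⟨u, hu, rfl⟩
      exact ren_mem g ((hG2 j).2.1 hu)
    · rw [K2 j β o]; exact J'.le j β
  refine ⟨⟨K, K3, fun j β => ?_, fun j β y u hu => ?_⟩, fun s hs j β u hu => ?_,
    funext fun j => funext fun β => ?_, K2, fun j => ?_⟩
  · by_cases o : Orb S α β
    · obtain ⟨g, hg, rfl⟩ := o
      rw [K1 j g hg, K1 _ g hg]
      exact Submodule.map_mono (hG1 j)
    · rw [K2 j β o, K2 _ β o]; exact J'.mono j β
  · by_cases o : Orb S α β
    · have o' := not_orb_succ_peel o y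
      have h0 : J'.ty j (β + one y) = 0 := by
        rw [hty, kill_neg o']
        exact IsTop.orb hinv htop o j y
      rw [K2 j _ o', J'.ty_eq_zero.1 h0]
      exact lie_gen_mem F β y u (K3 j β hu)
    · rw [K2 j β o] at hu
      by_cases o' : Orb S α (β + one y)
      · obtain ⟨g, hg, e⟩ := o'
        have h1 : ⁅u, gen F y⁆ ∈ J'.low j (β + one y) :=
          (le_iSup_of_le β (le_iSup_of_le y (le_iSup_of_le rfl le_rfl)) :
            (J'.J j β).map (adr F y) ≤ J'.low j (β + one y)) ⟨u, hu, rfl⟩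
        rw [← e] at h1 ⊢
        rw [← h.low_eq hg] at h1
        rw [K1 j g hg]
        exact Submodule.map_mono (hG2 j).1 h1
      · rw [K2 j _ o']
        exact J'.br j β y u hu
  · change u ∈ K j β at hu
    change ren F s u ∈ K j (push s β)
    have hs' : s ∈ Subgroup.closure S := Subgroup.subset_closure hs
    by_cases o : Orb S α β
    · obtain ⟨g, hg, rfl⟩ := o
      rw [K1 j g hg] at hu
      obtain ⟨v, hv, rfl⟩ := hu
      rw [push_comp, ← Equiv.Perm.coe_mul, K1 j _ (mul_mem hs' hg)]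
      exact ⟨v, hv, (ren_ren g s v).symm⟩
    · rw [K2 j β o] at hu
      rw [K2 j _ fun o' => o ((orb_push_peel hs').1 o')]
      exact h s hs j β u hu
  · change finrank F (mp F β) - finrank F (K j β) = _
    by_cases o : Orb S α β
    · obtain ⟨g, hg, rfl⟩ := o
      rw [K1 j g hg, rank_map_ren g.injective, rank_mp_push g.injective,
        inv_closure_ty hinv g hg]
      exact (hG2 j).2.2
    · rw [K2 j β o, ← kill_neg (γ := γ) o, ← hty]
      rfl
  · change K j α = G j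
    have h1 := K1 j 1 (one_mem _)
    rw [Equiv.Perm.coe_one, push_id] at h1
    rw [h1]
    ext v
    constructor
    · rintro ⟨u, hu, rfl⟩
      change ren F id u ∈ G j
      rw [ren_id]
      exact hu
    · exact fun hv => ⟨v, hv, ren_id v⟩

theorem low_congr {J J' : Chain F X} (e : ∀ j β, ¬ Orb S α β → J.J j β = J'.J j β) (j : ℕ) :
    J.low j α = J'.low j α := by
  refine iSup_congr fun β => iSup_congr fun y => iSup_congr fun h => ?_
  rw [e j β fun o => not_orb_succ_peel o y (h ▸ Orb.refl S α)]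

theorem sigma_ext_peel {P : Chain F X → Prop} {V : Submodule F (FL F X)}
    {D : Chain F X → ℕ → Submodule F (FL F X)} {g : ℕ → ℕ}
    {a b : Σ J' : {J' : Chain F X // P J'}, Above V (D J'.1) g}
    (h1 : a.1.1 = b.1.1) (h2 : a.2.1 = b.2.1) : a = b := by
  obtain ⟨⟨a1, ha⟩, ⟨a2, ha2⟩⟩ := a
  obtain ⟨⟨b1, hb⟩, ⟨b2, hb2⟩⟩ := b
  change a1 = b1 at h1
  change a2 = b2 at h2
  subst h1
  subst h2
  rfl

theorem eq_of_kill_peel {J J' : Chain F X} (h : J.ty = γ.kill S α) (h' : J'.ty = γ.kill S α)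
    (e : ∀ j β, ¬ Orb S α β → J.J j β = J'.J j β) : J = J' := by
  refine Chain.ext (funext fun j => funext fun β => ?_)
  by_cases o : Orb S α β
  · rw [J.ty_eq_zero.1 (by rw [h, kill_pos o]), J'.ty_eq_zero.1 (by rw [h', kill_pos o])]
  · exact e j β o

theorem peel_equiv (hT : Triv S α) (htop : IsTop γ α)
    (hinv : ∀ g ∈ S, ∀ j β, γ j (push g β) = γ j β) :
    ∃ e : {J : Chain F X // Inv S J ∧ J.ty = γ} ≃
      Σ J' : {J' : Chain F X // Inv S J' ∧ J'.ty = γ.kill S α},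
        Above (mp F α) (fun j => J'.1.low j α) fun j => γ j α,
      ∀ J, (∀ j β, ¬ Orb S α β → (e J).1.1.J j β = J.1.J j β) ∧ ∀ j, (e J).2.1 j = J.1.J j α := by
  have hr : ∀ J : {J : Chain F X // Inv S J ∧ J.ty = γ}, ∃ J' : Chain F X, Inv S J' ∧
      J'.ty = γ.kill S α ∧ ∀ j β, ¬ Orb S α β → J'.J j β = J.1.J j β := fun J => by
    have h := exists_restrict (α := α) J.2.1 (J.2.2.symm ▸ htop)
    rwa [J.2.2] at h
  choose r r1 r2 r3 using hr
  let f : {J : Chain F X // Inv S J ∧ J.ty = γ} →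
      Σ J' : {J' : Chain F X // Inv S J' ∧ J'.ty = γ.kill S α},
        Above (mp F α) (fun j => J'.1.low j α) fun j => γ j α := fun J =>
    ⟨⟨r J, r1 J, r2 J⟩, fun j => J.1.J j α, fun j => J.1.mono j α, fun j =>
      ⟨(low_congr (r3 J) j).trans_le (J.1.low_le j α), J.1.le j α, congrFun (congrFun J.2.2 j) α⟩⟩
  refine ⟨Equiv.ofBijective f ⟨fun J₁ J₂ e => ?_, fun a => ?_⟩, fun J => ⟨r3 J, fun _ => rfl⟩⟩
  · have e1 : r J₁ = r J₂ := congrArg (fun a => a.1.1) e
    have e2 : (fun j => J₁.1.J j α) = fun j => J₂.1.J j α := congrArg (fun a => a.2.1) e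
    refine Subtype.ext (ext_orb (α := α) J₁.2.1 J₂.2.1 (fun j β o => ?_) (congrFun e2))
    rw [← r3 J₁ j β o, e1, r3 J₂ j β o]
  · obtain ⟨J, h1, h2, h3, h4⟩ := exists_extend hT htop hinv a.1.2.1 a.1.2.2 a.2
    refine ⟨⟨J, h1, h2⟩, sigma_ext_peel (D := fun J' j => J'.low j α) ?_ (funext h4)⟩
    exact eq_of_kill_peel (r2 _) a.1.2.2 fun j β o => (r3 _ j β o).trans (h3 j β o)

theorem closure_peel {E : ℕ → (X → ℕ) → Submodule F (FL F X)}
    (hE : ∀ g ∈ S, ∀ j β, ∀ u ∈ E j β, ren F g u ∈ E j (push g β)) :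
    ∀ g ∈ Subgroup.closure S, ∀ j β, ∀ u ∈ E j β, ren F g u ∈ E j (push g β) := by
  intro g hg
  have hg' : g ∈ Submonoid.closure S := by
    rw [← Subgroup.closure_toSubmonoid_of_finite]
    exact hg
  clear hg
  induction hg' using Submonoid.closure_induction with
  | mem g hg => exact hE g hg
  | one =>
    intro j β u hu
    rw [Equiv.Perm.coe_one, push_id, ren_id]
    exact hu
  | mul g g' _ _ hg hg' =>
    intro j β u hu
    rw [Equiv.Perm.coe_mul, ← push_comp, ← ren_ren]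
    exact hg j _ _ (hg' j β u hu)

/-- The same with prescribed subspaces. -/
theorem peel_cntE (hT : Triv S α) (htop : IsTop γ α)
    (hinv : ∀ g ∈ S, ∀ j β, γ j (push g β) = γ j β) (E : ℕ → (X → ℕ) → Submodule F (FL F X))
    (hle : ∀ j β, E j β ≤ mp F β)
    (hE : ∀ g ∈ S, ∀ j β, ∀ u ∈ E j β, ren F g u ∈ E j (push g β)) :
    cntE F S γ E = Nat.card
      (Σ J' : {J' : Chain F X // Inv S J' ∧ J'.ty = γ.kill S α ∧ ∀ j β, E j β ≤ J'.J j β},
        Above (mp F α) (fun j => J'.1.low j α ⊔ E j α) fun j => γ j α) := by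
  have hr : ∀ J : {J : Chain F X // Inv S J ∧ J.ty = γ ∧ ∀ j β, E j β ≤ J.J j β},
      ∃ J' : Chain F X, Inv S J' ∧
      J'.ty = γ.kill S α ∧ ∀ j β, ¬ Orb S α β → J'.J j β = J.1.J j β := fun J => by
    have h := exists_restrict (α := α) J.2.1 (J.2.2.1.symm ▸ htop)
    rwa [J.2.2.1] at h
  choose r r1 r2 r3 using hr
  have r4 : ∀ J j β, E j β ≤ (r J).J j β := fun J j β => by
    by_cases o : Orb S α β
    · rw [(r J).ty_eq_zero.1 (by rw [r2, kill_pos o])]
      exact hle j β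
    · rw [r3 J j β o]
      exact J.2.2.2 j β
  let f : {J : Chain F X // Inv S J ∧ J.ty = γ ∧ ∀ j β, E j β ≤ J.J j β} →
      Σ J' : {J' : Chain F X // Inv S J' ∧ J'.ty = γ.kill S α ∧ ∀ j β, E j β ≤ J'.J j β},
        Above (mp F α) (fun j => J'.1.low j α ⊔ E j α) fun j => γ j α := fun J =>
    ⟨⟨r J, r1 J, r2 J, r4 J⟩, fun j => J.1.J j α, fun j => J.1.mono j α, fun j =>
      ⟨sup_le ((low_congr (r3 J) j).trans_le (J.1.low_le j α)) (J.2.2.2 j α), J.1.le j α,
        congrFun (congrFun J.2.2.1 j) α⟩⟩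
  refine Nat.card_congr (Equiv.ofBijective f ⟨fun J₁ J₂ e => ?_, fun a => ?_⟩)
  · have e1 : r J₁ = r J₂ := congrArg (fun a => a.1.1) e
    have e2 : (fun j => J₁.1.J j α) = fun j => J₂.1.J j α := congrArg (fun a => a.2.1) e
    refine Subtype.ext (ext_orb (α := α) J₁.2.1 J₂.2.1 (fun j β o => ?_) (congrFun e2))
    rw [← r3 J₁ j β o, e1, r3 J₂ j β o]
  · obtain ⟨J, h1, h2, h3, h4⟩ := exists_extend hT htop hinv a.1.2.1 a.1.2.2.1
      ⟨a.2.1, a.2.2.1, fun j => ⟨le_sup_left.trans (a.2.2.2 j).1, (a.2.2.2 j).2⟩⟩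
    have h5 : ∀ j β, E j β ≤ J.J j β := fun j β => by
      by_cases o : Orb S α β
      · obtain ⟨g, hg, rfl⟩ := o
        intro u hu
        have h6 := closure_peel hE _ (inv_mem hg) j _ u hu
        rw [push_comp, ← Equiv.Perm.coe_mul, inv_mul_cancel, Equiv.Perm.coe_one, push_id] at h6
        have h7 : E j α ≤ J.J j α := by
          rw [h4]
          exact le_sup_right.trans (a.2.2.2 j).1
        have h8 := h1.closure g hg j α _ (h7 h6)
        rw [ren_ren, ← Equiv.Perm.coe_mul, mul_inv_cancel, Equiv.Perm.coe_one, ren_id] at h8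
        exact h8
      · rw [h3 j β o]
        exact a.1.2.2.2 j β
    refine ⟨⟨J, h1, h2, h5⟩, sigma_ext_peel (D := fun J' j => J'.low j α ⊔ E j α) ?_ (funext h4)⟩
    exact eq_of_kill_peel (r2 _) a.1.2.2.1 fun j β o => (r3 _ j β o).trans (h3 j β o)

theorem exists_top {n : ℕ} (hn : HasCost γ n) (h : γ ≠ 0) :
    ∃ j α, γ j α ≠ 0 ∧ IsTop γ α ∧ ∀ i β, γ i β ≠ 0 → tot β ≤ tot α := by
  have hne : {q : ℕ × (X → ℕ) | γ q.1 q.2 ≠ 0}.Nonempty := by
    by_contra h'
    exact h (funext fun j => funext fun β => not_not.1 fun h0 => h' ⟨(j, β), h0⟩)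
  obtain ⟨q, hq, hmax⟩ := Set.exists_max_image _ (fun q : ℕ × (X → ℕ) => tot q.2) hn.finite hne
  refine ⟨q.1, q.2, hq, fun j y => not_not.1 fun h0 => ?_, fun i β h0 => hmax (i, β) h0⟩
  have h1 : tot (q.2 + one y) ≤ tot q.2 := hmax (j, q.2 + one y) h0
  rw [tot_add, tot_one] at h1
  omega

end Pool.Agent.P.MP_8598be_al.Z
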