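import Pool.Agent.P.MP_8598be_al.Z.Basic

/-!
Images of multidegrees and of Lie elements under a renaming of the generators.
-/

namespace Pool.Agent.P.MP_8598be_al.Z

open Module

section Push

variable {X Y Z : Type} [Fintype X] [DecidableEq X] [DecidableEq Y]

omit [DecidableEq X] in
theorem push_add (g : X → Y) (α β : X → ℕ) : push g (α + β) = push g α + push g β := by
  funext y
  simp only [push, Pi.add_apply, ← Finset.sum_add_distrib]
  exact Finset.sum_congr rfl fun x _ => by split_ifs <;> rfl

omit [DecidableEq X] in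
theorem push_zero (g : X → Y) : push g (0 : X → ℕ) = 0 := by
  funext y
  simp [push]

theorem push_one (g : X → Y) (x : X) : push g (one x) = one (g x) := by
  have := push_add_one g 0 x
  rwa [zero_add, push_zero, zero_add] at this

theorem push_id (α : X → ℕ) : push id α = α := by
  funext y
  simp [push]

omit [DecidableEq X] in
theorem push_comp [Fintype Y] [DecidableEq Z] (g : X → Y) (g' : Y → Z) (α : X → ℕ) :
    push g' (push g α) = push (g' ∘ g) α := by
  funext z
  have h : ∀ y, (if g' y = z then push g α y else 0) =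
      ∑ x, if g x = y then (if g' (g x) = z then α x else 0) else 0 := fun y => by
    split_ifs with e
    · exact Finset.sum_congr rfl fun x _ => by
        by_cases e' : g x = y
        · simp [e, e']
        · simp [e']
    · exact (Finset.sum_eq_zero fun x _ => by
        by_cases e' : g x = y
        · simp [e, e']
        · simp [e']).symm
  change ∑ y, (if g' y = z then push g α y else 0) = ∑ x, if g' (g x) = z then α x else 0
  rw [Finset.sum_congr rfl fun y _ => h y, Finset.sum_comm]
  simp

omit [DecidableEq X] in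
theorem tot_push [Fintype Y] (g : X → Y) (α : X → ℕ) : tot (push g α) = tot α := by
  simp only [tot, push]
  rw [Finset.sum_comm]
  simp

omit [DecidableEq X] in
theorem push_apply {g : X → Y} (hg : Function.Injective g) (α : X → ℕ) (x : X) :
    push g α (g x) = α x := by
  classical
  simp [push, hg.eq_iff]

omit [DecidableEq X] in
theorem push_apply_of_not {g : X → Y} (α : X → ℕ) {y : Y} (hy : ∀ x, g x ≠ y) :
    push g α y = 0 := by
  simp [push, hy]

omit [DecidableEq X] in
theorem push_equiv (e : X ≃ Y) (α : X → ℕ) : push e α = α ∘ e.symm := by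
  funext y
  obtain ⟨x, rfl⟩ := e.surjective y
  rw [push_apply e.injective, Function.comp_apply, e.symm_apply_apply]

omit [DecidableEq X] in
theorem push_inj {g : X → Y} (hg : Function.Injective g) : Function.Injective (push g) := by
  intro α β h
  funext x
  rw [← push_apply hg α, h, push_apply hg]

omit [DecidableEq X] in
/-- A multidegree supported on the image of an injective map is a push forward. -/
theorem push_comp_self {g : X → Y} (hg : Function.Injective g) {β : Y → ℕ}
    (h : ∀ y, β y ≠ 0 → ∃ x, g x = y) : push g (β ∘ g) = β := by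
  funext y
  by_cases e : ∃ x, g x = y
  · obtain ⟨x, rfl⟩ := e
    exact push_apply hg _ x
  · rw [push_apply_of_not _ fun x hx => e ⟨x, hx⟩]
    exact (not_not.1 fun h' => e (h y h')).symm

theorem Orb.refl (S : Set (Equiv.Perm X)) (α : X → ℕ) : Orb S α α := by
  exact ⟨1, one_mem _, push_id α⟩

theorem Orb.symm {S : Set (Equiv.Perm X)} {α β : X → ℕ} (h : Orb S α β) : Orb S β α := by
  obtain ⟨g, hg, rfl⟩ := h
  refine ⟨g⁻¹, inv_mem hg, ?_⟩
  rw [push_comp, ← Equiv.Perm.coe_mul, inv_mul_cancel]
  exact push_id α

theorem Orb.trans {S : Set (Equiv.Perm X)} {α β δ : X → ℕ} (h : Orb S α β) (h' : Orb S β δ) :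
    Orb S α δ := by
  obtain ⟨g, hg, rfl⟩ := h
  obtain ⟨g', hg', rfl⟩ := h'
  exact ⟨g' * g, mul_mem hg' hg, (push_comp g g' α).symm⟩

theorem Orb.tot_eq {S : Set (Equiv.Perm X)} {α β : X → ℕ} (h : Orb S α β) : tot α = tot β := by
  obtain ⟨g, -, rfl⟩ := h
  exact (tot_push g α).symm

theorem orb_empty {α β : X → ℕ} : Orb ∅ α β ↔ α = β := by
  refine ⟨?_, fun h => h ▸ Orb.refl _ _⟩
  rintro ⟨g, hg, rfl⟩
  rw [Subgroup.closure_empty, Subgroup.mem_bot] at hg
  rw [hg]
  exact (push_id α).symm

theorem triv_empty (α : X → ℕ) : Triv ∅ α := by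
  intro g hg _ x _
  rw [Subgroup.closure_empty, Subgroup.mem_bot] at hg
  rw [hg]
  rfl

/-- A type that is invariant under `S` is invariant under the generated group. -/
theorem inv_closure_ty {S : Set (Equiv.Perm X)} {γ : Ty X}
    (h : ∀ g ∈ S, ∀ j α, γ j (push g α) = γ j α) :
    ∀ g ∈ Subgroup.closure S, ∀ j α, γ j (push g α) = γ j α := by
  intro g hg
  induction hg using Subgroup.closure_induction with
  | mem g hg => exact h g hg
  | one => exact fun j α => congrArg (γ j) (push_id α)
  | mul g g' _ _ hg hg' =>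
    intro j α
    rw [Equiv.Perm.coe_mul, ← push_comp, hg, hg']
  | inv g _ hg =>
    intro j α
    rw [← hg, push_comp, ← Equiv.Perm.coe_mul, mul_inv_cancel]
    exact congrArg (γ j) (push_id α)

theorem Adm.orb {S : Set (Equiv.Perm X)} {γ : Ty X} (h : Adm S γ) {α β : X → ℕ} (o : Orb S α β)
    (j : ℕ) : γ j α = γ j β := by
  obtain ⟨g, hg, rfl⟩ := o
  exact (inv_closure_ty h.inv g hg j α).symm

end Push

section Ren

variable {R : Type} [CommRing R] {X Y Z : Type}

theorem ren_gen (g : X → Y) (x : X) : ren R g (gen R x) = gen R (g x) := by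
  exact FreeLieAlgebra.lift_of_apply _ x

theorem ren_ren (g : X → Y) (g' : Y → Z) (u : FL R X) :
    ren R g' (ren R g u) = ren R (g' ∘ g) u := by
  have : (ren R g').comp (ren R g) = ren R (g' ∘ g) :=
    FreeLieAlgebra.hom_ext fun x => by
      change ren R g' (ren R g (gen R x)) = ren R (g' ∘ g) (gen R x)
      rw [ren_gen, ren_gen, ren_gen, Function.comp_apply]
  exact LieHom.congr_fun this u

theorem ren_id (u : FL R X) : ren R id u = u := by
  have : ren R (id : X → X) = LieHom.id := FreeLieAlgebra.hom_ext fun x => ren_gen id x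
  exact LieHom.congr_fun this u

theorem ren_inj {g : X → Y} (hg : Function.Injective g) : Function.Injective (ren R g) := by
  have : (FreeLieAlgebra.lift R (Function.extend g (gen R) 0)).comp (ren R g) = LieHom.id :=
    FreeLieAlgebra.hom_ext fun x => by
      change FreeLieAlgebra.lift R (Function.extend g (gen R) 0) (ren R g (gen R x)) = gen R x
      rw [ren_gen, FreeLieAlgebra.lift_of_apply, hg.extend_apply]
  exact Function.LeftInverse.injective (g := FreeLieAlgebra.lift R (Function.extend g (gen R) 0))
    fun u => LieHom.congr_fun this u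

theorem ren_adr (g : X → Y) (y : X) (u : FL R X) :
    ren R g (adr R y u) = adr R (g y) (ren R g u) := by
  change ren R g ⁅u, gen R y⁆ = ⁅ren R g u, gen R (g y)⁆
  rw [LieHom.map_lie, ren_gen]

variable [Fintype X] [DecidableEq X] [DecidableEq Y]

theorem ren_mem (g : X → Y) {α : X → ℕ} {u : FL R X} (hu : u ∈ mp R α) :
    ren R g u ∈ mp R (push g α) := by
  have key : ∀ t : FreeMagma X, ren R g (lie R t) ∈ mp R (push g (wt t)) := fun t => by
    induction t with
    | ih1 x =>
      change ren R g (gen R x) ∈ mp R (push g (one x))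
      rw [ren_gen, push_one]
      exact gen_mem_mp _
    | ih2 a b ha hb =>
      change ren R g ⁅lie R a, lie R b⁆ ∈ mp R (push g (wt a + wt b))
      rw [LieHom.map_lie, push_add]
      exact mp_lie ha hb
  induction hu using Submodule.span_induction with
  | mem x hx =>
    obtain ⟨t, ht, rfl⟩ := hx
    exact (show wt t = α from ht) ▸ key t
  | zero => rw [map_zero]; exact zero_mem _
  | add a b _ _ ha hb => rw [map_add]; exact add_mem ha hb
  | smul c a _ ha => rw [map_smul]; exact Submodule.smul_mem _ _ ha

/-- The renaming of an element only depends on the letters that occur. -/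
theorem ren_congr {g g' : X → Y} {α : X → ℕ} (h : ∀ x, α x ≠ 0 → g x = g' x) {u : FL R X}
    (hu : u ∈ mp R α) : ren R g u = ren R g' u := by
  have key : ∀ t : FreeMagma X, (∀ x, wt t x ≠ 0 → g x = g' x) →
      ren R g (lie R t) = ren R g' (lie R t) := fun t => by
    induction t with
    | ih1 x =>
      intro e
      change ren R g (gen R x) = ren R g' (gen R x)
      rw [ren_gen, ren_gen, e x (by simp [wt])]
    | ih2 a b ha hb =>
      intro e
      change ren R g ⁅lie R a, lie R b⁆ = ren R g' ⁅lie R a, lie R b⁆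
      rw [LieHom.map_lie, LieHom.map_lie,
        ha fun x hx => e x fun h0 => hx (Nat.add_eq_zero_iff.1 h0).1,
        hb fun x hx => e x fun h0 => hx (Nat.add_eq_zero_iff.1 h0).2]
  induction hu using Submodule.span_induction with
  | mem x hx =>
    obtain ⟨t, ht, rfl⟩ := hx
    exact key t ((show wt t = α from ht) ▸ h)
  | zero => rw [map_zero, map_zero]
  | add a b _ _ ha hb => rw [map_add, map_add, ha, hb]
  | smul c a _ ha => rw [map_smul, map_smul, ha]

theorem map_ren_mp {g : X → Y} (hg : Function.Injective g) (α : X → ℕ) :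
    (mp R α).map (ren R g : FL R X →ₗ[R] FL R Y) = mp R (push g α) := by
  have key : ∀ t : FreeMagma Y, (∀ y, wt t y ≠ 0 → ∃ x, g x = y) →
      ∃ t' : FreeMagma X, ren R g (lie R t') = lie R t ∧ push g (wt t') = wt t := fun t => by
    induction t with
    | ih1 y =>
      intro e
      obtain ⟨x, rfl⟩ := e y (by simp [wt])
      exact ⟨.of x, ren_gen g x, push_one g x⟩
    | ih2 a b ha hb =>
      intro e
      obtain ⟨a', a1, a2⟩ := ha fun x hx => e x fun h0 => hx (Nat.add_eq_zero_iff.1 h0).1
      obtain ⟨b', b1, b2⟩ := hb fun x hx => e x fun h0 => hx (Nat.add_eq_zero_iff.1 h0).2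
      refine ⟨.mul a' b', ?_, ?_⟩
      · change ren R g ⁅lie R a', lie R b'⁆ = ⁅lie R a, lie R b⁆
        rw [LieHom.map_lie, a1, b1]
      · change push g (wt a' + wt b') = wt a + wt b
        rw [push_add, a2, b2]
  refine le_antisymm ?_ (Submodule.span_le.2 ?_)
  · rintro _ ⟨u, hu, rfl⟩
    exact ren_mem g hu
  · rintro _ ⟨t, ht, rfl⟩
    have ht' : wt t = push g α := ht
    obtain ⟨t', h1, h2⟩ := key t fun y hy => by_contra fun e =>
      hy (ht' ▸ push_apply_of_not α fun x hx => e ⟨x, hx⟩)
    exact ⟨lie R t', push_inj hg (h2.trans ht') ▸ lie_mem_mp t', h1⟩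

end Ren

end Pool.Agent.P.MP_8598be_al.Z
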