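import Pool.Agent.P.MP_8598be_al.Z.Orb
import Pool.Agent.P.MP_8598be_al.Z.Co
import Pool.Agent.P.MP_8598be_al.Z.Tys

/-!
Extensions of a given chain on the hubs to one fibre.
-/

namespace Pool.Agent.P.MP_8598be_al.Z

variable {H : Type} {l : ℕ} [Fintype H] [DecidableEq H] [NeZero l] {F : Type} [Field F]

section Aux

variable {X Y : Type} [Fintype X] [DecidableEq X] [Fintype Y] [DecidableEq Y]

/-- The intersection of two chains. -/
noncomputable def inf_Rel (A B : Chain F Y) : Chain F Y where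
  J j α := A.J j α ⊓ B.J j α
  le j α := inf_le_left.trans (A.le j α)
  mono j α := inf_le_inf (A.mono j α) (B.mono j α)
  br j α y u hu := ⟨A.br j α y u hu.1, B.br j α y u hu.2⟩

theorem inv_inf_Rel {S : Set (Equiv.Perm Y)} {A B : Chain F Y} (hA : Inv S A) (hB : Inv S B) :
    Inv S (inf_Rel A B) := fun g hg j α u hu => ⟨hA g hg j α u hu.1, hB g hg j α u hu.2⟩

omit [Fintype Y] in
theorem ty_congr_Rel {A B : Chain F Y} {j : ℕ} {β : Y → ℕ} (h : A.J j β = B.J j β) :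
    A.ty j β = B.ty j β := by
  unfold Chain.ty
  rw [h]

omit [Fintype Y] in
theorem comap_congr_Rel {A B : Chain F Y} {g : X → Y}
    (h : ∀ j α, A.J j (push g α) = B.J j (push g α)) : A.comap g = B.comap g := by
  ext j α : 3
  simp only [Chain.comap, h]

omit [Fintype Y] in
theorem of_comap_Rel {A B : Chain F Y} {g : X → Y} (hg : Function.Injective g)
    (h : A.comap g = B.comap g) (j : ℕ) (α : X → ℕ) : A.J j (push g α) = B.J j (push g α) := by
  rw [← A.map_comap hg, h, B.map_comap hg]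

theorem ext_Rel (K : Chain F X) {g : X → Y} (hg : Function.Injective g) {s : Equiv.Perm X}
    {t : Equiv.Perm Y} (h : t ∘ g = g ∘ s) (hK : Inv {s} K) : ∃ A : Chain F Y, Inv {t} A ∧
      A.comap g = K ∧ ∀ j β, (∀ α, push g α ≠ β) → A.J j β = mp F β := by
  obtain ⟨A, h1, h2, h3⟩ := K.exists_map hg
  refine ⟨A, ?_, h1, h3⟩
  rintro t rfl j β u hu
  by_cases hβ : ∃ α, push g α = β
  · obtain ⟨α, rfl⟩ := hβ
    rw [h2] at hu
    obtain ⟨v, hv, rfl⟩ := hu
    rw [push_comp, h, ← push_comp, h2]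
    refine ⟨_, hK s rfl j α v hv, ?_⟩
    change ren F g (ren F s v) = ren F t (ren F g v)
    rw [ren_ren, ren_ren, h]
  · rw [h3]
    · exact ren_mem _ (A.le j β hu)
    · refine fun α e => hβ ⟨push s.symm α, push_inj t.injective ?_⟩
      rw [push_comp, h, ← push_comp, push_comp s.symm, s.self_comp_symm, push_id, e]

end Aux

theorem inl_Rel (K : Chain F H) : ∃ A : Chain F (H ⊕ ZMod l), Inv {rot1 H l} A ∧
    A.comap Sum.inl = K ∧ ∀ j β, Fib β → A.J j β = mp F β := by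
  obtain ⟨A, h1, h2, h3⟩ := ext_Rel K (g := Sum.inl) Sum.inl_injective (s := Equiv.refl H)
    (t := rot1 H l) rfl (by
      rintro s rfl j α u hu
      rwa [Equiv.coe_refl, ren_id, push_id])
  exact ⟨A, h1, h2, fun j β hβ => h3 j β fun α e => not_fib_iff.2 ⟨α, e⟩ hβ⟩

omit [Fintype H] in
theorem inr_Rel {β : H ⊕ ZMod l → ℕ} (hf : Fib β) (hm : ¬ Mixed β) :
    ∃ α : ZMod l → ℕ, push Sum.inr α = β := by
  refine ⟨_, push_comp_self Sum.inr_injective ?_⟩
  rintro (h | z) e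
  · exact absurd ⟨hf, h, e⟩ hm
  · exact ⟨z, rfl⟩

omit [Fintype H] in
theorem zero_Rel {α : ZMod l → ℕ} (hf : ¬ Fib (push Sum.inr α : H ⊕ ZMod l → ℕ)) : α = 0 := by
  funext z
  by_contra e
  exact hf ⟨z, by rwa [push_apply Sum.inr_injective]⟩

/-- Sketch: kill the nodes without fibre letters of degree larger than three; conversely replace
the part without fibre letters by the image of `K`. In degree at most three the hub part is thin
(`thin_of_card`, `Chain.thin_eq`). -/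
theorem cntK_trunc (hH : Fintype.card H ≤ 2) {γ : Ty (H ⊕ ZMod l)}
    (hγ : ∀ j (α : H → ℕ) z, 3 < tot α →
      γ j (push Sum.inl α) = 0 ∨ γ j (push Sum.inl α + fb H z) = 0)
    {K : Chain F H} (hK : K.ty = γ.comap Sum.inl) :
    cntK γ K = cntT F {rot1 H l} (trunc γ) := by
  classical
  obtain ⟨A, a1, a2, a3⟩ := inl_Rel (l := l) K
  have a4 : ∀ j β, ¬ Fib β → A.ty j β = γ j β := fun j β hβ => by
    obtain ⟨α, rfl⟩ := not_fib_iff.1 hβ
    exact congrFun (congrFun ((A.ty_comap Sum.inl_injective).symm.trans (a2 ▸ hK)) j) α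
  have th : ∀ β : H ⊕ ZMod l → ℕ, ¬ Fib β → tot β ≤ 3 → Thin β := fun β hβ h3 => by
    obtain ⟨α, rfl⟩ := not_fib_iff.1 hβ
    rw [tot_push] at h3
    exact (thin_of_card hH (h3.trans (by norm_num))).push Sum.inl_injective
  have tp : ∀ j β, Fib β ∨ tot β ≤ 3 → trunc γ j β = γ j β := fun j β h => γ.on_pos h j
  have tn : ∀ j β, ¬ (Fib β ∨ tot β ≤ 3) → trunc γ j β = 0 := fun j β h => γ.on_neg h j
  have dead : ∀ J : Chain F (H ⊕ ZMod l), J.ty = trunc γ → ∀ j β, ¬ (Fib β ∨ tot β ≤ 3) →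
      J.J j β = mp F β := fun J hJ j β h => J.ty_eq_zero.1 (hJ ▸ tn j β h)
  have e1 : ∀ (J : Chain F (H ⊕ ZMod l)) j β, Fib β → (inf_Rel J A).J j β = J.J j β :=
    fun J j β hβ => inf_eq_left.2 (a3 j β hβ ▸ J.le j β)
  have e2 : ∀ J : Chain F (H ⊕ ZMod l), J.ty = trunc γ → ∀ j β, ¬ Fib β →
      (inf_Rel J A).J j β = A.J j β := fun J hJ j β hβ => by
    refine inf_eq_right.2 ?_
    by_cases h3 : tot β ≤ 3
    · exact (Chain.thin_eq (th β hβ h3) ((a4 j β hβ).trans (hJ ▸ (tp j β (.inr h3)).symm))).le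
    · exact dead J hJ j β (not_or.2 ⟨hβ, h3⟩) ▸ A.le j β
  refine (Nat.card_eq_of_bijective (fun J : {J : Chain F (H ⊕ ZMod l) // Inv {rot1 H l} J ∧
    J.ty = trunc γ} => (⟨inf_Rel J.1 A, inv_inf_Rel J.2.1 a1, ?_, ?_⟩ :
      {J : Chain F (H ⊕ ZMod l) // Inv {rot1 H l} J ∧ J.ty = γ ∧ J.comap Sum.inl = K}))
        ⟨fun J J' e => ?_, fun J => ?_⟩).symm
  · funext j β
    by_cases hβ : Fib β
    · exact (ty_congr_Rel (e1 _ j β hβ)).trans (by rw [J.2.2, tp j β (.inl hβ)])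
    · exact (ty_congr_Rel (e2 _ J.2.2 j β hβ)).trans (a4 j β hβ)
  · exact (comap_congr_Rel fun j α => e2 _ J.2.2 j _ (not_fib_iff.2 ⟨α, rfl⟩)).trans a2
  · refine Subtype.ext (Chain.ext (funext fun j => funext fun β => ?_))
    by_cases hβ : Fib β
    · rw [← e1 J.1 j β hβ, ← e1 J'.1 j β hβ, show inf_Rel J.1 A = inf_Rel J'.1 A from
        congrArg Subtype.val e]
    · by_cases h3 : tot β ≤ 3
      · exact Chain.thin_eq (th β hβ h3) (by rw [J.2.2, J'.2.2])
      · rw [dead _ J.2.2 j β (not_or.2 ⟨hβ, h3⟩), dead _ J'.2.2 j β (not_or.2 ⟨hβ, h3⟩)]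
  · obtain ⟨J, h1, h2, h3⟩ := J
    have hT : ∃ T : Chain F (H ⊕ ZMod l), ∀ j β,
        T.J j β = if Fib β ∨ tot β ≤ 3 then J.J j β else mp F β := by
      refine ⟨⟨fun j β => if Fib β ∨ tot β ≤ 3 then J.J j β else mp F β, fun j β => ?_,
        fun j β => ?_, fun j β y u hu => ?_⟩, fun _ _ => rfl⟩
      · split_ifs
        exacts [J.le j β, le_rfl]
      · split_ifs
        exacts [J.mono j β, le_rfl]
      · split_ifs at hu ⊢ with c2 c1 c1
        · exact J.br j β y u hu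
        · obtain ⟨α, rfl⟩ := not_fib_iff.1 (not_or.1 c1).1
          have c3 := not_le.1 (not_or.1 c1).2
          obtain h | z := y
          · rw [tot_add, ← push_add_one] at c2
            exact absurd c2 (not_or.2 ⟨not_fib_iff.2 ⟨_, rfl⟩, by omega⟩)
          · rcases hγ j α z (by rwa [tot_push] at c3) with e | e
            · exact J.br j _ _ u ((J.ty_eq_zero.1 (h2 ▸ e)).symm ▸ hu)
            · exact (J.ty_eq_zero.1 (h2 ▸ e)).symm ▸ lie_gen_mem F _ _ u hu
        · exact lie_gen_mem F β y u (J.le j β hu)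
        · exact lie_gen_mem F β y u hu
    obtain ⟨T, hT⟩ := hT
    have t1 : Inv {rot1 H l} T := by
      rintro g rfl j β u hu
      rw [hT] at hu ⊢
      rw [tot_push, show Fib (push (rot1 H l) β) ↔ Fib β by rw [push_rot1, fib_sh]]
      split_ifs at hu ⊢
      exacts [h1 _ rfl j β u hu, ren_mem _ hu]
    have t2 : T.ty = trunc γ := by
      funext j β
      by_cases c : Fib β ∨ tot β ≤ 3
      · exact (ty_congr_Rel ((hT j β).trans (if_pos c))).trans (h2 ▸ (tp j β c).symm)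
      · exact (T.ty_eq_zero.2 ((hT j β).trans (if_neg c))).trans (tn j β c).symm
    refine ⟨⟨T, t1, t2⟩, Subtype.ext (Chain.ext (funext fun j => funext fun β => ?_))⟩
    by_cases hβ : Fib β
    · exact (e1 T j β hβ).trans ((hT j β).trans (if_pos (.inl hβ)))
    · obtain ⟨α, rfl⟩ := not_fib_iff.1 hβ
      exact (e2 T t2 j _ hβ).trans (of_comap_Rel Sum.inl_injective (a2.trans h3.symm) j α)

/-- Without mixed nodes the chain is the intersection of the extensions of a chain on the hubs and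
a chain on the fibre (`Chain.exists_map`, `Chain.exists_iInf`). -/
theorem cntK_pure {γ : Ty (H ⊕ ZMod l)} (hγ : ∀ j β, Mixed β → γ j β = 0) {K : Chain F H}
    (hK : K.ty = γ.comap Sum.inl) :
    cntK γ K = cntT F {Equiv.addRight (1 : ZMod l)} (γ.comap Sum.inr) := by
  refine Nat.card_eq_of_bijective (fun J : {J : Chain F (H ⊕ ZMod l) // Inv {rot1 H l} J ∧
    J.ty = γ ∧ J.comap Sum.inl = K} => (⟨J.1.comap Sum.inr, J.2.1.comap ?_, ?_⟩ :
      {M : Chain F (ZMod l) // Inv {Equiv.addRight (1 : ZMod l)} M ∧ M.ty = γ.comap Sum.inr}))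
        ⟨fun J J' e => ?_, fun M => ?_⟩
  · rintro s rfl
    exact ⟨_, rfl, fun _ => rfl⟩
  · rw [J.1.ty_comap Sum.inr_injective, J.2.2.1]
  · refine Subtype.ext (Chain.ext (funext fun j => funext fun β => ?_))
    by_cases hβ : Fib β
    · by_cases hm : Mixed β
      · rw [J.1.ty_eq_zero.1 (J.2.2.1.symm ▸ hγ j β hm),
          J'.1.ty_eq_zero.1 (J'.2.2.1.symm ▸ hγ j β hm)]
      · obtain ⟨α, rfl⟩ := inr_Rel hβ hm
        exact of_comap_Rel Sum.inr_injective (congrArg Subtype.val e) j α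
    · obtain ⟨α, rfl⟩ := not_fib_iff.1 hβ
      exact of_comap_Rel Sum.inl_injective (J.2.2.2.trans J'.2.2.2.symm) j α
  · obtain ⟨M, m1, m2⟩ := M
    obtain ⟨A, a1, a2, a3⟩ := inl_Rel (l := l) K
    obtain ⟨B, b1, b2, b3⟩ := ext_Rel M (g := Sum.inr) Sum.inr_injective (t := rot1 H l) rfl m1
    have e0 : ∀ (J J' : Chain F (H ⊕ ZMod l)) j, J.J j 0 ≤ J'.J j 0 := fun J J' j =>
      (J.le j 0).trans (mp_zero.le.trans bot_le)
    have e1 : ∀ j β, ¬ Fib β → (inf_Rel A B).J j β = A.J j β := fun j β hβ => by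
      refine inf_eq_left.2 ?_
      by_cases c : ∃ α, push Sum.inr α = β
      · obtain ⟨α, rfl⟩ := c
        rw [zero_Rel hβ, push_zero]
        exact e0 A B j
      · exact b3 j β (not_exists.1 c) ▸ A.le j β
    have e2 : ∀ j β, Fib β → (inf_Rel A B).J j β = B.J j β := fun j β hβ =>
      inf_eq_right.2 (a3 j β hβ ▸ B.le j β)
    have c1 : (inf_Rel A B).comap Sum.inl = K :=
      (comap_congr_Rel fun j α => e1 j _ (not_fib_iff.2 ⟨α, rfl⟩)).trans a2
    have c2 : (inf_Rel A B).comap Sum.inr = M := by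
      refine (comap_congr_Rel fun j α => ?_).trans b2
      by_cases hβ : Fib (push Sum.inr α : H ⊕ ZMod l → ℕ)
      · exact e2 j _ hβ
      · rw [zero_Rel hβ, push_zero]
        exact le_antisymm (e0 _ _ j) (e0 _ _ j)
    refine ⟨⟨inf_Rel A B, inv_inf_Rel a1 b1, funext fun j => funext fun β => ?_, c1⟩,
      Subtype.ext c2⟩
    by_cases hβ : Fib β
    · by_cases hm : Mixed β
      · rw [hγ j β hm, Chain.ty_eq_zero, e2 j β hβ, b3]
        rintro α rfl
        obtain ⟨-, h, e⟩ := hm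
        exact e (push_apply_of_not α fun _ => Sum.inr_ne_inl)
      · obtain ⟨α, rfl⟩ := inr_Rel hβ hm
        exact congrFun (congrFun
          ((Chain.ty_comap _ Sum.inr_injective).symm.trans (c2.symm ▸ m2)) j) α
    · obtain ⟨α, rfl⟩ := not_fib_iff.1 hβ
      exact congrFun (congrFun
        ((Chain.ty_comap _ Sum.inl_injective).symm.trans (c1.symm ▸ hK)) j) α

theorem cost_pure {γ : Ty (H ⊕ ZMod l)} (h0 : ∀ j, γ j 0 = 0) (hγ : ∀ j β, Mixed β → γ j β = 0)
    {a : ℕ} (ha : HasCost (γ.on Fib) a) : HasCost (γ.comap Sum.inr) a := by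
  have e : (γ.on fun β => ∃ α, push Sum.inr α = β) = γ.on Fib := by
    funext j β
    by_cases c : ∃ α, push Sum.inr α = β <;> by_cases hβ : Fib β
    · rw [γ.on_pos c, γ.on_pos hβ]
    · rw [γ.on_pos c, γ.on_neg hβ]
      obtain ⟨α, rfl⟩ := c
      rw [zero_Rel hβ, push_zero, h0]
    · rw [γ.on_neg c, γ.on_pos hβ, hγ j β (not_not.1 fun hm => c (inr_Rel hβ hm))]
    · rw [γ.on_neg c, γ.on_neg hβ]
  rwa [hasCost_comap Sum.inr_injective, e]

open Classical in
theorem cntN_eq_sum [Finite F] (c a : ℕ) {k : ℕ} {K : Chain F H} (hk : HasCost K.ty k) :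
    cntN l c a K = ∑ γ ∈ (tys {rot1 H l} c (k + a)).filter fun γ => γ.comap Sum.inl = K.ty,
      cntK γ K := by
  have hc : ∀ J : Chain F (H ⊕ ZMod l), J.comap Sum.inl = K → J.ty.comap Sum.inl = K.ty :=
    fun J e => by rw [← J.ty_comap Sum.inl_injective, e]
  rw [cntN, Nat.subtype_card ((chains F {rot1 H l} c (k + a)).filter fun J => J.comap Sum.inl = K),
    Finset.card_eq_sum_card_fiberwise (f := Chain.ty)]
  · refine Finset.sum_congr rfl fun γ hγ => (Nat.subtype_card _ fun J => ?_).symm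
    obtain ⟨-, h1, h2⟩ := mem_tys.1 (Finset.mem_filter.1 hγ).1
    simp only [Finset.mem_filter, mem_chains]
    exact ⟨fun h => ⟨h.1.1.1, h.2, h.1.2⟩, fun h => ⟨⟨⟨h.1, h.2.1 ▸ h1, h.2.1 ▸ h2⟩, h.2.2⟩, h.2.1⟩⟩
  · intro J hJ
    obtain ⟨h1, h2⟩ := Finset.mem_filter.1 hJ
    obtain ⟨h3, h4, h5⟩ := mem_chains.1 h1
    exact Finset.mem_filter.2 ⟨mem_tys.2 ⟨h3.adm, h4, h5⟩, hc J h2⟩
  · intro J
    rw [Finset.mem_filter, mem_chains]
    refine ⟨fun h => ⟨h.1.1, h.1.2.1, h.2, ?_⟩, fun h =>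
      ⟨⟨h.1, h.2.1, cost_hub_fib h.2.2.2 (hc J h.2.2.1 ▸ hk)⟩, h.2.2.1⟩⟩
    exact Nat.add_sub_cancel_left k a ▸ (cost_fib h.1.2.2 (hc J h.2 ▸ hk)).2

theorem cntN_zero {c : ℕ} {K : Chain F H} (hc : Cls K.ty c) : cntN l c 0 K = 1 := by
  obtain ⟨A, a1, a2, a3⟩ := inl_Rel (l := l) K
  refine Nat.card_eq_one_iff_exists.2 ⟨⟨A, a1, fun j β h => ?_, a2, hasCost_zero.2 ?_⟩,
    fun J => Subtype.ext (Chain.ext (funext fun j => funext fun β => ?_))⟩
  · by_cases hβ : Fib β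
    · exact A.ty_eq_zero.2 (a3 j β hβ)
    · obtain ⟨α, rfl⟩ := not_fib_iff.1 hβ
      rw [tot_push] at h
      rw [← hc j α h, ← a2, A.ty_comap Sum.inl_injective]
      rfl
  · funext j β
    by_cases hβ : Fib β
    · exact (A.ty.on_pos hβ j).trans (A.ty_eq_zero.2 (a3 j β hβ))
    · exact A.ty.on_neg hβ j
  · by_cases hβ : Fib β
    · rw [a3 j β hβ, ← Chain.ty_eq_zero, ← J.1.ty.on_pos hβ, hasCost_zero.1 J.2.2.2.2]
      rfl
    · obtain ⟨α, rfl⟩ := not_fib_iff.1 hβ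
      exact of_comap_Rel Sum.inl_injective (J.2.2.2.1.trans a2.symm) j α

theorem cntN_small {c a : ℕ} (K : Chain F H) (h0 : 0 < a) (hl : a < l) : cntN l c a K = 0 := by
  exact Nat.card_eq_zero.2 (.inl ⟨fun J => h0.ne' (small_cost J.2.1.adm J.2.2.2.2 hl)⟩)

/-- Without hubs. -/
theorem cntN_empty (c a : ℕ) (K : Chain F Empty) :
    cntN l c a K = cntC F {Equiv.addRight (1 : ZMod l)} c a := by
  have e1 : (Equiv.emptySum Empty (ZMod l)).symm.permCongr (Equiv.addRight 1) = rot1 Empty l := by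
    ext (x | x)
    exacts [x.elim, rfl]
  have e2 : ∀ K' : Chain F Empty, K' = K := fun K' => by
    refine Chain.ext (funext fun j => funext fun α => ?_)
    obtain rfl : α = 0 := Subsingleton.elim _ _
    exact (le_bot_iff.1 ((K'.le j 0).trans mp_zero.le)).trans
      (le_bot_iff.1 ((K.le j 0).trans mp_zero.le)).symm
  have e3 : ∀ J : Chain F (Empty ⊕ ZMod l), J.ty.on Fib = J.ty := fun J => by
    funext j β
    by_cases hβ : Fib β
    · exact J.ty.on_pos hβ j
    · obtain ⟨α, rfl⟩ := not_fib_iff.1 hβ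
      rw [J.ty.on_neg hβ, Subsingleton.elim α 0, push_zero, J.adm_empty.zero]
  rw [← cntC_equiv (Equiv.emptySum Empty (ZMod l)).symm, Set.image_singleton, e1]
  simp only [cntN, cntC, e3, e2, true_and]

end Pool.Agent.P.MP_8598be_al.Z
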