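import Pool.Agent.P.MP_8598be_al.Z.Rel
import Pool.Agent.P.MP_8598be_al.Z.Class
import Pool.Agent.P.MP_8598be_al.Z.Del
import Pool.Agent.P.MP_8598be_al.Z.Nsp
import Pool.Agent.P.MP_8598be_al.Z.Tame

/-!
The number of extensions of a chain on the hubs to one fibre.
-/

namespace Pool.Agent.P.MP_8598be_al.Z

variable {H : Type} {l : ℕ} [Fintype H] [DecidableEq H] [NeZero l]

theorem below_mono_SF {X : Type} [Fintype X] [DecidableEq X] {γ γ' : Ty X}
    (h : ∀ j α, γ' j α ≤ γ j α) (j : ℕ) (α : X → ℕ) (x : X) : below γ' j α x ≤ below γ j α x :=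
  Finset.sum_le_sum fun y _ => by
    split_ifs
    · exact h _ _
    · exact le_rfl

theorem adm_hub_SF {γ : Ty (H ⊕ ZMod l)} (h : Adm {rot1 H l} γ) :
    Adm (∅ : Set (Equiv.Perm H)) (γ.comap Sum.inl) :=
  h.comap Sum.inl_injective fun _ ht => absurd ht (Set.notMem_empty _)

theorem trunc_eq_SF {γ : Ty (H ⊕ ZMod l)} {k : ℕ} (h : Adm {rot1 H l} γ)
    (hk : HasCost (γ.comap Sum.inl) k) (h3 : k ≤ 3) : trunc γ = γ := by
  funext j β
  by_cases e : Fib β ∨ tot β ≤ 3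
  · exact Ty.on_pos γ e j
  · rw [trunc, Ty.on_neg γ e j]
    rw [not_or] at e
    obtain ⟨α, rfl⟩ := not_fib_iff.1 e.1
    by_contra h0
    have h1 := ((adm_hub_SF h).tot_le hk (j := j) (α := α) (Ne.symm h0)).1
    have h2 := e.2
    rw [tot_push] at h2
    omega

omit [Fintype H] [NeZero l] in
theorem fib_add_SF (α : H ⊕ ZMod l → ℕ) (z : ZMod l) : Fib (α + fb H z) :=
  ⟨z, by simp⟩

theorem cntK_trunc_SF (hl : l.Prime) (hH : Fintype.card H ≤ 2) {γ : Ty (H ⊕ ZMod l)} {a k : ℕ}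
    (h : Adm {rot1 H l} γ) (hs : ∀ j α, Sym α → γ j α = 0) (ha : HasCost (γ.on Fib) a)
    (hk : HasCost (γ.comap Sum.inl) k) (hak : a < 5 * l ∨ a + k ≤ 5 * l + 1) {F : Type} [Field F]
    {K : Chain F H} (hK : K.ty = γ.comap Sum.inl) :
    cntK γ K = cntT F {rot1 H l} (trunc γ) := by
  refine cntK_trunc hH (fun j α z hα => ?_) hK
  by_contra h0
  rw [not_or] at h0
  have h1 := deg_le hl h hs ha (fib_add_SF _ z) h0.2
  have h2 := ((adm_hub_SF h).tot_le hk (j := j) (α := α) h0.1).1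
  rw [tot_add, tot_push, tot_one] at h1
  have h3 : l * 5 ≤ l * (tot α + 1) := Nat.mul_le_mul_left l (by omega)
  omega

theorem tame_trunc_SF (hl : l.Prime) (hH : Fintype.card H ≤ 2) {γ : Ty (H ⊕ ZMod l)} {n : ℕ}
    (hs : ∀ j α, Sym α → γ j α = 0) (hn : HasCost γ n)
    (hf : ∀ j α, Fib α → Forced γ j α ∨ IsTop γ α) :
    EC 1 fun p _ => cntT (ZMod p) {rot1 H l} (trunc γ) := by
  have hle : ∀ j α, trunc γ j α ≤ γ j α := fun j α => Ty.on_le γ _ j α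
  obtain ⟨m, -, hm⟩ := hn.mono hle
  refine tame hm (fun j α hα => triv_of_not_sym hl fun e => hα ?_) fun j α => ?_
  · exact Nat.eq_zero_of_le_zero ((hle j α).trans (hs j α e).le)
  by_cases e : Fib α
  · have e1 : trunc γ j α = γ j α := Ty.on_pos γ (Or.inl e) j
    rcases hf j α e with (h1 | h1 | ⟨x, hx, h1⟩) | h1
    · exact Or.inl (Or.inl (e1.trans h1))
    · exact Or.inl (Or.inr (Or.inl h1))
    · exact Or.inl (Or.inr (Or.inr ⟨x, hx, e1 ▸ (below_mono_SF hle j α x).trans h1⟩))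
    · exact Or.inr fun i y => Nat.eq_zero_of_le_zero ((hle i _).trans (h1 i y).le)
  · by_cases e3 : tot α ≤ 3
    · obtain ⟨β, rfl⟩ := not_fib_iff.1 e
      rw [tot_push] at e3
      exact Or.inl (Or.inr (Or.inl ((thin_of_card hH (by omega)).push Sum.inl_injective)))
    · exact Or.inl (Or.inl (Ty.on_neg γ (not_or.2 ⟨e, e3⟩) j))

theorem oty_hub_SF {s : List (H ⊕ ZMod l → ℕ)} (hs : ∀ β ∈ s, Fib β ∨ tot β ≤ 3) :
    trunc (oty {rot1 H l} s) = oty {rot1 H l} s := by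
  funext j β
  by_cases e : Fib β ∨ tot β ≤ 3
  · exact Ty.on_pos _ e j
  · rw [trunc, Ty.on_neg _ e j]
    by_contra h0
    obtain ⟨-, α, hα, t, rfl⟩ := (oty_rot1 s j β).2.1 (Ne.symm h0)
    rw [fib_sh, tot_sh] at e
    exact e (hs α hα)

theorem desc_type (hl : l.Prime) (h5 : 5 ≤ l) (hH : Fintype.card H ≤ 2) (hR : PureHyp l)
    {γ : Ty (H ⊕ ZMod l)} {a k : ℕ} (h : Adm {rot1 H l} γ) (ha : HasCost (γ.on Fib) a)
    (hk : HasCost (γ.comap Sum.inl) k) (hak : a < 5 * l ∨ a + k ≤ 5 * l + 1) :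
    ∃ ν : PF, (IsSp γ → ∀ (p : ℕ) [Fact p.Prime], ν p = roots [1, 1, 1] p) ∧
      (¬ IsSp γ → EC l ν) ∧ ∀ (p : ℕ) [Fact p.Prime] (K : Chain (ZMod p) H),
        K.ty = γ.comap Sum.inl → (cntK γ K : ℤ) = ν p := by
  by_cases hs : ∀ j α, Sym α → γ j α = 0
  · refine ⟨fun p _ => cntT (ZMod p) {rot1 H l} (trunc γ), ?_, fun hn => ?_, fun p _ K hK => ?_⟩
    · rintro ⟨x, s, hs0, rfl⟩ p _
      rw [trunc_eq_SF h (sp_hub_cost x s) (by norm_num)]
      exact sp_cnt hl h5 x hs0 p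
    · refine EC.of_dvd ?_ (one_dvd l)
      rcases classify hl h5 h hs ha hk hak with hf | ⟨s, ε, hs0, h4, hε, ⟨x, rfl⟩ | ⟨o, rfl⟩⟩
      · exact tame_trunc_SF hl hH hs (cost_hub_fib ha hk) hf
      · rw [dl1, oty_hub_SF]
        · exact dl1_lin hl h5 x hs0 h4 fun e => hn ⟨x, s, hs0, e⟩
        · simp [hε, tot_add, tot_one]
      · rw [dl2, oty_hub_SF]
        · exact dl2_ec hl h5 o hs0 h4
        · cases o <;> simp [hε, tot_add, tot_one]
    · exact congrArg _ (cntK_trunc_SF hl hH h hs ha hk hak hK)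
  · push Not at hs
    obtain ⟨j, α, hα, h0⟩ := hs
    obtain ⟨e5, h21, hm⟩ := pure_comb hl h5 h ha hk hak hα h0
    refine ⟨fun p _ => cntT (ZMod p) {Equiv.addRight (1 : ZMod l)} (γ.comap Sum.inr), ?_,
      fun _ => hR _ a e5 (by omega) (cost_pure h.zero hm ha),
      fun p _ K hK => congrArg _ (cntK_pure hm hK)⟩
    rintro ⟨x, s, -, rfl⟩
    exact absurd (sp_not_sym h5 x s j α hα) h0

theorem desc (hl : l.Prime) (h5 : 5 ≤ l) (hH : Fintype.card H ≤ 2) (hR : PureHyp l) {c a k : ℕ}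
    (hc : 4 ≤ c) {κ : Ty H} (hk : HasCost κ k) (hak : a < 5 * l ∨ a + k ≤ 5 * l + 1) :
    Desc l c a κ fun p _ => if a = 5 * l then nsp l κ * roots [1, 1, 1] p else 0 := by
  classical
  set T := (tys {rot1 H l} c (k + a)).filter fun γ => γ.comap Sum.inl = κ with hT
  have hmem : ∀ γ ∈ T, Adm {rot1 H l} γ ∧ HasCost (γ.on Fib) a ∧ γ.comap Sum.inl = κ := by
    intro γ hγ
    obtain ⟨h1, h2⟩ := Finset.mem_filter.1 hγ
    obtain ⟨h3, -, h4⟩ := mem_tys.1 h1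
    have h5 := (cost_fib h4 (h2 ▸ hk)).2
    rw [Nat.add_sub_cancel_left] at h5
    exact ⟨h3, h5, h2⟩
  have h1 : ∀ γ : Ty (H ⊕ ZMod l), ∃ ν : PF, γ ∈ T →
      (IsSp γ → ∀ (p : ℕ) [Fact p.Prime], ν p = roots [1, 1, 1] p) ∧
      (¬ IsSp γ → EC l ν) ∧ ∀ (p : ℕ) [Fact p.Prime] (K : Chain (ZMod p) H),
        K.ty = γ.comap Sum.inl → (cntK γ K : ℤ) = ν p := fun γ => by
    by_cases hγ : γ ∈ T
    · obtain ⟨a1, a2, a3⟩ := hmem γ hγ
      obtain ⟨ν, hν⟩ := desc_type hl h5 hH hR a1 a2 (a3 ▸ hk) hak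
      exact ⟨ν, fun _ => hν⟩
    · exact ⟨fun _ _ => 0, fun e => absurd e hγ⟩
  choose ν hν using h1
  have hcard : ((T.filter IsSp).card : ℤ) = if a = 5 * l then (nsp l κ : ℤ) else 0 := by
    split_ifs with e
    · rw [nsp, Nat.cast_inj, ← Nat.card_eq_finsetCard]
      refine Nat.card_congr (Equiv.subtypeEquivRight fun γ => ?_)
      rw [Finset.mem_filter]
      refine ⟨fun h => ⟨h.2, (hmem γ h.1).2.2⟩, fun h => ⟨?_, h.1⟩⟩
      obtain ⟨⟨x, s, hs, rfl⟩, h2⟩ := h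
      refine Finset.mem_filter.2 ⟨mem_tys.2 ⟨sp_adm hl h5 x hs, sp_cls x s hc, ?_⟩, h2⟩
      exact cost_hub_fib (e ▸ sp_cost hl h5 x hs) (h2 ▸ hk)
    · rw [Nat.cast_eq_zero, Finset.card_eq_zero, Finset.filter_eq_empty_iff]
      rintro γ hγ ⟨x, s, hs, rfl⟩
      exact e ((hmem _ hγ).2.1.unique (sp_cost hl h5 x hs))
  refine ⟨fun p _ => ∑ γ ∈ T, ν γ p, ?_, Ev.of_forall fun p _ K hK => ?_⟩
  · refine (EC.sum (T.filter fun γ => ¬ IsSp γ) (f := ν) fun γ hγ => ?_).congr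
      (Ev.of_forall fun p _ => ?_)
    · exact (hν γ (Finset.mem_filter.1 hγ).1).2.1 (Finset.mem_filter.1 hγ).2
    · have h2 : ∑ γ ∈ T.filter IsSp, ν γ p = (T.filter IsSp).card * roots [1, 1, 1] p := by
        rw [Finset.sum_congr rfl fun γ hγ =>
          (hν γ (Finset.mem_filter.1 hγ).1).1 (Finset.mem_filter.1 hγ).2 p, Finset.sum_const,
          nsmul_eq_mul]
      beta_reduce
      rw [← Finset.sum_filter_add_sum_filter_not T IsSp, h2, hcard]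
      split_ifs <;> simp
  · subst hK
    have := cntN_eq_sum (F := ZMod p) (l := l) c a hk
    rw [this, Nat.cast_sum]
    refine Finset.sum_congr (by convert hT.symm) fun γ hγ => ?_
    exact (hν γ hγ).2.2 p K (hmem γ hγ).2.2.symm

theorem pureHyp_of_ne (h : l ≠ 5) : PureHyp l := fun _ _ e => absurd e h

end Pool.Agent.P.MP_8598be_al.Z
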