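import Pool.Agent.P.MP_8598be_al.Z.Adm

/-!
Translates of multidegrees.
-/

namespace Pool.Agent.P.MP_8598be_al.Z

variable {H : Type} {l : ℕ} [Fintype H] [DecidableEq H] [NeZero l]

section Shift

omit [Fintype H] [DecidableEq H] [NeZero l] in
theorem sh_inl (t : ZMod l) (α : H ⊕ ZMod l → ℕ) (h : H) : sh t α (.inl h) = α (.inl h) := rfl

omit [Fintype H] [DecidableEq H] [NeZero l] in
theorem sh_inr (t : ZMod l) (α : H ⊕ ZMod l → ℕ) (z : ZMod l) :
    sh t α (.inr z) = α (.inr (z - t)) := rfl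

omit [Fintype H] [DecidableEq H] [NeZero l] in
theorem sh_add (t : ZMod l) (α β : H ⊕ ZMod l → ℕ) : sh t (α + β) = sh t α + sh t β := rfl

omit [Fintype H] [DecidableEq H] [NeZero l] in
theorem sh_zero (α : H ⊕ ZMod l → ℕ) : sh 0 α = α := by
  funext x
  cases x <;> simp [sh]

omit [Fintype H] [DecidableEq H] [NeZero l] in
theorem sh_sh (s t : ZMod l) (α : H ⊕ ZMod l → ℕ) : sh s (sh t α) = sh (s + t) α := by
  funext x
  cases x <;> simp [sh, sub_sub]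

omit [Fintype H] [NeZero l] in
theorem sh_hb (t : ZMod l) (h : H) : sh t (hb l h) = hb l h := by
  funext x
  cases x <;> simp [sh, Pi.single_apply]

omit [Fintype H] [NeZero l] in
theorem sh_fb (t z : ZMod l) : sh t (fb H z) = fb H (z + t) := by
  funext x
  cases x <;> simp [sh, Pi.single_apply, sub_eq_iff_eq_add]

theorem push_rot1 (α : H ⊕ ZMod l → ℕ) : push (rot1 H l) α = sh 1 α := by
  rw [push_equiv]
  funext x
  cases x <;> simp [sh, rot1, sub_eq_add_neg]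

omit [Fintype H] [DecidableEq H] in
theorem mem_closure_rot1 {g : Equiv.Perm (H ⊕ ZMod l)} :
    g ∈ Subgroup.closure {rot1 H l} ↔
      ∃ t : ZMod l, g = Equiv.sumCongr (Equiv.refl H) (Equiv.addRight t) := by
  have h1 : ∀ k : ℤ, rot1 H l ^ k = Equiv.sumCongr (Equiv.refl H) (Equiv.addRight (k : ZMod l)) := by
    intro k
    have h2 : rot1 H l = Equiv.Perm.sumCongrHom H (ZMod l) (1, Equiv.addRight 1) := rfl
    rw [h2, ← map_zpow, Prod.pow_mk, one_zpow, Equiv.zsmul_addRight, zsmul_one]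
    rfl
  rw [Subgroup.mem_closure_singleton]
  refine ⟨fun ⟨k, hk⟩ => ⟨k, hk ▸ h1 k⟩, fun ⟨t, ht⟩ => ⟨(t.val : ℤ), ?_⟩⟩
  rw [h1, ht, Int.cast_natCast, ZMod.natCast_zmod_val]

theorem push_rot (t : ZMod l) (α : H ⊕ ZMod l → ℕ) :
    push (Equiv.sumCongr (Equiv.refl H) (Equiv.addRight t)) α = sh t α := by
  rw [push_equiv]
  funext x
  cases x <;> simp [sh, sub_eq_add_neg]

theorem orb_rot1 {α β : H ⊕ ZMod l → ℕ} : Orb {rot1 H l} α β ↔ ∃ t, β = sh t α := by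
  constructor
  · rintro ⟨g, hg, rfl⟩
    obtain ⟨t, rfl⟩ := mem_closure_rot1.1 hg
    exact ⟨t, push_rot t α⟩
  · rintro ⟨t, rfl⟩
    exact ⟨_, mem_closure_rot1.2 ⟨t, rfl⟩, push_rot t α⟩

omit [DecidableEq H] in
theorem tot_sh (t : ZMod l) (α : H ⊕ ZMod l → ℕ) : tot (sh t α) = tot α := by
  exact (Equiv.sumCongr (Equiv.refl H) (Equiv.subRight t)).sum_comp α

omit [Fintype H] [DecidableEq H] in
theorem fdeg_sh (t : ZMod l) (α : H ⊕ ZMod l → ℕ) : fdeg (sh t α) = fdeg α := by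
  exact (Equiv.subRight t).sum_comp fun z => α (.inr z)

omit [Fintype H] [DecidableEq H] in
theorem fdeg_add (α β : H ⊕ ZMod l → ℕ) : fdeg (α + β) = fdeg α + fdeg β := by
  exact Finset.sum_add_distrib

omit [Fintype H] in
theorem fdeg_hb (h : H) : fdeg (hb l h) = 0 := by
  simp [fdeg]

omit [Fintype H] in
theorem fdeg_fb (z : ZMod l) : fdeg (fb H z) = 1 := by
  simp [fdeg, Pi.single_apply]

omit [Fintype H] [DecidableEq H] in
theorem fib_iff {α : H ⊕ ZMod l → ℕ} : Fib α ↔ fdeg α ≠ 0 := by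
  simp [Fib, fdeg]

omit [Fintype H] [DecidableEq H] [NeZero l] in
theorem fib_sh {t : ZMod l} {α : H ⊕ ZMod l → ℕ} : Fib (sh t α) ↔ Fib α := by
  exact ⟨fun ⟨z, hz⟩ => ⟨z - t, hz⟩, fun ⟨z, hz⟩ => ⟨z + t, by rwa [sh_inr, add_sub_cancel_right]⟩⟩

theorem not_fib_iff {α : H ⊕ ZMod l → ℕ} : ¬ Fib α ↔ ∃ β : H → ℕ, push Sum.inl β = α := by
  constructor
  · intro h
    refine ⟨α ∘ Sum.inl, push_comp_self Sum.inl_injective fun y hy => ?_⟩
    cases y with
    | inl x => exact ⟨x, rfl⟩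
    | inr z => exact absurd ⟨z, hy⟩ h
  · rintro ⟨β, rfl⟩ ⟨z, hz⟩
    exact hz (push_apply_of_not β fun _ => Sum.inl_ne_inr)

omit [Fintype H] [DecidableEq H] in
theorem Sym.le_fdeg {α : H ⊕ ZMod l → ℕ} (h : Sym α) : l ≤ fdeg α := by
  obtain ⟨⟨z, hz⟩, h⟩ := h
  have h1 : ∀ k : ℕ, α (.inr (z - k)) = α (.inr z) := fun k => by
    induction k with
    | zero => rw [Nat.cast_zero, sub_zero]
    | succ k ih => rw [Nat.cast_succ, ← sub_sub, ← sh_inr 1 α, h, ih]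
  have h2 : ∀ w : ZMod l, 1 ≤ α (.inr w) := fun w => by
    have h3 := h1 (z - w).val
    rw [ZMod.natCast_zmod_val, sub_sub_cancel] at h3
    omega
  calc l = ∑ _w : ZMod l, 1 := by simp
    _ ≤ _ := Finset.sum_le_sum fun w _ => h2 w

omit [Fintype H] [DecidableEq H] in
/-- For a prime `l` a translate by a nonzero element generates all translates. -/
theorem sh_inj (hl : l.Prime) {α : H ⊕ ZMod l → ℕ} (hf : Fib α) (hs : ¬ Sym α) :
    Function.Injective fun t => sh t α := by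
  have : Fact l.Prime := ⟨hl⟩
  intro s t h
  by_contra e
  have h0 : s - t ≠ 0 := sub_ne_zero.2 e
  have h1 : sh (s - t) α = α := by
    have h2 := congrArg (sh (-t)) h
    rwa [sh_sh, sh_sh, neg_add_cancel, sh_zero, neg_add_eq_sub] at h2
  have h2 : ∀ k : ℕ, sh ((k : ZMod l) * (s - t)) α = α := fun k => by
    induction k with
    | zero => rw [Nat.cast_zero, zero_mul, sh_zero]
    | succ k ih => rw [Nat.cast_succ, add_mul, one_mul, ← sh_sh, h1, ih]
  have h3 := h2 ((s - t)⁻¹).val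
  rw [ZMod.natCast_zmod_val, inv_mul_cancel₀ h0] at h3
  exact hs ⟨hf, h3⟩

theorem triv_of_not_sym (hl : l.Prime) {α : H ⊕ ZMod l → ℕ} (hs : ¬ Sym α) :
    Triv {rot1 H l} α := by
  intro g hg h x hx
  obtain ⟨t, rfl⟩ := mem_closure_rot1.1 hg
  cases x with
  | inl y => rfl
  | inr z =>
    rw [push_rot] at h
    have h1 : t = 0 := sh_inj hl ⟨z, hx⟩ hs (h.trans (sh_zero α).symm)
    simp [h1]

theorem Adm.sh {γ : Ty (H ⊕ ZMod l)} (h : Adm {rot1 H l} γ) (t : ZMod l) (j : ℕ)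
    (α : H ⊕ ZMod l → ℕ) : γ j (sh t α) = γ j α := by
  exact (h.orb (orb_rot1.2 ⟨t, rfl⟩) j).symm

theorem oty_rot1 (s : List (H ⊕ ZMod l → ℕ)) (j : ℕ) (α : H ⊕ ZMod l → ℕ) :
    (oty {rot1 H l} s j α = 1 ↔ j = 0 ∧ ∃ β ∈ s, ∃ t, α = sh t β) ∧
      (oty {rot1 H l} s j α ≠ 0 ↔ j = 0 ∧ ∃ β ∈ s, ∃ t, α = sh t β) := by
  simp only [oty, orb_rot1]
  split_ifs with h <;> simp [h]

theorem oty_inv (s : List (H ⊕ ZMod l → ℕ)) :
    ∀ g ∈ ({rot1 H l} : Set _), ∀ j α, oty {rot1 H l} s j (push g α) = oty {rot1 H l} s j α := by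
  intro g hg j α
  have h1 : Orb {rot1 H l} α (push g α) := ⟨g, Subgroup.subset_closure hg, rfl⟩
  have h2 : ∀ β, Orb {rot1 H l} β (push g α) ↔ Orb {rot1 H l} β α := fun β =>
    ⟨fun h => h.trans h1.symm, fun h => h.trans h1⟩
  unfold oty
  congr 1
  simp only [h2]

end Shift

end Pool.Agent.P.MP_8598be_al.Z
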