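import Pool.Agent.P.MP_8598be_al.Z.Adm

/-!
The wreath product; nodes that involve two fibres are expensive.
-/

namespace Pool.Agent.P.MP_8598be_al.Z

theorem one_inj_wr {X : Type} [DecidableEq X] {x y : X} (h : one x = one y) : x = y := by
  by_contra hxy
  have := congrFun h x
  simp [hxy] at this

theorem pair_wr {X : Type} [DecidableEq X] {x y x' y' : X} (h : one x + one y = one x' + one y') :
    (x = x' ∧ y = y') ∨ (x = y' ∧ y = x') := by
  by_cases h1 : x = x'
  · subst h1
    exact Or.inl ⟨rfl, one_inj_wr (add_left_cancel h)⟩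
  · by_cases h2 : x = y'
    · subst h2
      rw [add_comm (one x')] at h
      exact Or.inr ⟨rfl, one_inj_wr (add_left_cancel h)⟩
    · have := congrFun h x
      simp [h1, h2] at this

theorem card_le_wr {X ι : Type} [Fintype ι] {γ : Ty X} {n j : ℕ} (hn : HasCost γ n)
    (f : ι → X → ℕ) (hf : Function.Injective f) (h : ∀ i, γ j (f i) ≠ 0) :
    Fintype.card ι ≤ n := by
  classical
  have h1 := hn.sum_le (Finset.univ.image fun i => (j, f i))
  rw [Finset.sum_image (fun a _ b _ e => hf (Prod.mk.inj e).2)] at h1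
  refine le_trans ?_ h1
  rw [← Finset.card_univ, Finset.card_eq_sum_ones]
  exact Finset.sum_le_sum fun i _ => Nat.one_le_iff_ne_zero.2 (h i)

variable {H B : Type} {l q : ℕ} [Fintype H] [DecidableEq H] [Fintype B] [DecidableEq B] [NeZero l]
  [NeZero q]

omit [DecidableEq H] [DecidableEq B] in
theorem card_alph : Fintype.card (Alph H B l q) = Fintype.card H + l * q * Fintype.card B := by
  simp [Fintype.card_sum, Fintype.card_prod, ZMod.card, mul_assoc]

omit [Fintype H] [DecidableEq H] [Fintype B] [DecidableEq B] [NeZero l] [NeZero q] in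
theorem closure_wreath {g : Equiv.Perm (Alph H B l q)} :
    g ∈ Subgroup.closure (wreath H B l q) ↔ g ∈ wreath H B l q := by
  let W : Subgroup (Equiv.Perm (Alph H B l q)) :=
    { carrier := wreath H B l q
      one_mem' := ⟨fun _ => rfl, fun _ => 0, 0, fun z r b => by simp⟩
      mul_mem' := by
        rintro g g' ⟨h1, a, t, h2⟩ ⟨h1', a', t', h2'⟩
        refine ⟨fun h => by rw [Equiv.Perm.mul_apply, h1', h1],
          fun i => a' i + a (i.1 + t', i.2), t' + t, fun z r b => ?_⟩
        rw [Equiv.Perm.mul_apply, h2', h2, add_assoc, add_assoc]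
      inv_mem' := by
        rintro g ⟨h1, a, t, h2⟩
        refine ⟨fun h => by rw [Equiv.Perm.inv_eq_iff_eq, h1],
          fun i => -a (i.1 + -t, i.2), -t, fun z r b => ?_⟩
        rw [Equiv.Perm.inv_eq_iff_eq, h2]
        simp }
  exact ⟨fun h => (Subgroup.closure_le W).2 (fun _ hx => hx) h,
    fun h => Subgroup.subset_closure h⟩

omit [Fintype H] [DecidableEq H] [Fintype B] [DecidableEq B] [NeZero l] [NeZero q] in
theorem exists_wreath (a : ZMod q × B → ZMod l) (t : ZMod q) :
    ∃ g ∈ wreath H B l q, ∀ z r b, g (.inr (z, r, b)) = .inr (z + a (r, b), r + t, b) := by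
  let e : ZMod l × ZMod q × B ≃ ZMod l × ZMod q × B :=
    { toFun := fun x => (x.1 + a x.2, x.2.1 + t, x.2.2)
      invFun := fun x => (x.1 - a (x.2.1 - t, x.2.2), x.2.1 - t, x.2.2)
      left_inv := fun x => by simp
      right_inv := fun x => by simp }
  exact ⟨Equiv.sumCongr (Equiv.refl H) e, ⟨fun _ => rfl, a, t, fun _ _ _ => rfl⟩,
    fun _ _ _ => rfl⟩

omit [Fintype H] [DecidableEq H] [Fintype B] [DecidableEq B] [NeZero l] [NeZero q] in
theorem wreath_pgroup {e : ℕ} (hq : q = l ^ e) :
    IsPGroup l (Subgroup.closure (wreath H B l q)) := by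
  rintro ⟨g, hg⟩
  obtain ⟨h1, a, t, h2⟩ := closure_wreath.1 hg
  have hl : ∀ (n : ℕ) h, (g ^ n) (.inl h) = .inl h := fun n h =>
    Equiv.Perm.pow_apply_eq_self_of_apply_eq_self (h1 h) n
  have hp : ∀ n : ℕ, ∃ A : ZMod q × B → ZMod l, ∀ z r b,
      (g ^ n) (.inr (z, r, b)) = .inr (z + A (r, b), r + n * t, b) := by
    intro n
    induction n with
    | zero => exact ⟨fun _ => 0, fun z r b => by simp⟩
    | succ n ih =>
      obtain ⟨A, hA⟩ := ih
      refine ⟨fun i => A i + a (i.1 + n * t, i.2), fun z r b => ?_⟩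
      rw [pow_succ', Equiv.Perm.mul_apply, hA, h2, add_assoc, add_assoc, Nat.cast_succ,
        add_mul, one_mul]
  obtain ⟨A, hA⟩ := hp q
  simp only [ZMod.natCast_self, zero_mul, add_zero] at hA
  have hp2 : ∀ (n : ℕ) z r b,
      ((g ^ q) ^ n) (.inr (z, r, b)) = .inr (z + n * A (r, b), r, b) := by
    intro n z r b
    induction n with
    | zero => simp
    | succ n ih =>
      rw [pow_succ', Equiv.Perm.mul_apply, ih, hA, add_assoc, Nat.cast_succ, add_mul, one_mul]
  refine ⟨e + 1, Subtype.ext ?_⟩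
  change g ^ l ^ (e + 1) = 1
  rw [pow_succ, ← hq, pow_mul]
  ext1 x
  rcases x with h | ⟨z, r, b⟩
  · rw [← pow_mul, hl]; rfl
  · rw [hp2]; simp

/-- A living node of minimal degree that involves two fibres has only two fibre letters: apply
`Adm.exists_pred` with a fibre letter, twice. -/
theorem exists_cross_min {S : Set (Equiv.Perm (Alph H B l q))} {γ : Ty (Alph H B l q)}
    (h : Adm S γ) {j : ℕ} {α : Alph H B l q → ℕ} (hc : Cross α) (hα : γ j α ≠ 0) :
    ∃ (β : H → ℕ) (z z' : ZMod l) (i i' : ZMod q × B), i ≠ i' ∧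
      γ j (push Sum.inl β + one (.inr (z, i)) + one (.inr (z', i'))) ≠ 0 := by
  induction hm : tot α using Nat.strong_induction_on generalizing α with
  | _ m ih =>
  obtain ⟨z, z', i, i', hi, hz, hz'⟩ := hc
  have key : ∀ (z z' : ZMod l) (i i' : ZMod q × B), i ≠ i' → α (.inr (z, i)) ≠ 0 →
      α (.inr (z', i')) ≠ 0 → (∃ (β : H → ℕ) (z z' : ZMod l) (i i' : ZMod q × B), i ≠ i' ∧
        γ j (push Sum.inl β + one (.inr (z, i)) + one (.inr (z', i'))) ≠ 0) ∨
      ∀ w k, k ≠ i → α (.inr (w, k)) =
        (one (.inr (z', i')) : Alph H B l q → ℕ) (.inr (w, k)) := by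
    intro z z' i i' hi hz hz'
    have hne : (Sum.inr (z, i) : Alph H B l q) ≠ .inr (z', i') := fun e =>
      hi (congrArg Prod.snd (Sum.inr.inj e))
    have h2 : 2 ≤ tot α := by
      have := Finset.sum_le_sum_of_subset (f := α)
        (Finset.subset_univ ({.inr (z, i), .inr (z', i')} : Finset (Alph H B l q)))
      rw [Finset.sum_pair hne] at this
      unfold tot
      omega
    obtain ⟨β, y, e, hβ, hβ'⟩ := h.exists_pred hα h2 hz
    by_cases hcβ : Cross β
    · refine Or.inl (ih (tot β) ?_ hcβ hβ' rfl)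
      rw [← hm, e, tot_add, tot_one]; omega
    · right
      have h0 : ∀ w k, k ≠ i → β (.inr (w, k)) = 0 := fun w k hk => by
        by_contra hw
        exact hcβ ⟨w, z, k, i, hk, hw, hβ⟩
      have hy : y = .inr (z', i') := by
        by_contra hy
        apply hz'
        rw [e, Pi.add_apply, h0 _ _ hi.symm, one, Pi.single_eq_of_ne' hy, add_zero]
      intro w k hk
      rw [e, Pi.add_apply, h0 _ _ hk, hy, zero_add]
  rcases key z z' i i' hi hz hz' with h1 | h1
  · exact h1
  rcases key z' z i' i hi.symm hz' hz with h2 | h2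
  · exact h2
  refine ⟨α ∘ Sum.inl, z, z', i, i', hi, ?_⟩
  have e : push Sum.inl (α ∘ Sum.inl) + one (.inr (z, i)) + one (.inr (z', i')) = α := by
    funext x
    rcases x with x | ⟨w, k⟩
    · simp [push_apply Sum.inl_injective]
    · rw [Pi.add_apply, Pi.add_apply, push_apply_of_not _ (fun _ => Sum.inl_ne_inr), zero_add]
      by_cases hk : k = i
      · subst hk
        rw [h2 w k hi]
        simp [hi]
      · rw [h1 w k hk]
        simp [hk]
  rw [e]
  exact hα

/-- The orbit of such a node has `l * l * q` elements (`q` is odd), the orbit of a fibre letter has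
`l * q` elements. -/
theorem cross_cost (hq : Odd q) {γ : Ty (Alph H B l q)} (h : Adm (wreath H B l q) γ) {n : ℕ}
    (hn : HasCost γ n) {j : ℕ} {α : Alph H B l q → ℕ} (hc : Cross α) (hα : γ j α ≠ 0) :
    l * l * q + l * q ≤ n := by
  obtain ⟨β, z, z', i, i', hi, hδ⟩ := exists_cross_min h hc hα
  have hz : γ j (one (.inr (z, i))) = 1 := h.gen_alive hδ (by simp)
  let f : (ZMod l × ZMod l × ZMod q) ⊕ (ZMod l × ZMod q) → Alph H B l q → ℕ :=
    Sum.elim (fun x => push Sum.inl β + one (.inr (x.1, i.1 + x.2.2, i.2)) +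
      one (.inr (x.2.1, i'.1 + x.2.2, i'.2))) fun x => one (.inr (x.1, i.1 + x.2, i.2))
  have hf : Function.Injective f := by
    rintro (⟨u, v, t⟩ | ⟨u, t⟩) (⟨u', v', t'⟩ | ⟨u', t'⟩) e
    · simp only [f, Sum.elim_inl, add_assoc, add_right_inj] at e
      rcases pair_wr e with ⟨e1, e2⟩ | ⟨e1, e2⟩
      · simp only [Sum.inr.injEq, Prod.mk.injEq, add_right_inj] at e1 e2
        rw [e1.1, e2.1, e1.2.1]
      · simp only [Sum.inr.injEq, Prod.mk.injEq] at e1 e2
        exfalso
        apply hi
        refine Prod.ext ?_ e1.2.2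
        have h2 : (2 : ZMod q) * (i.1 - i'.1) = 0 := by
          linear_combination e1.2.1 - e2.2.1
        have hu : IsUnit ((2 : ℕ) : ZMod q) :=
          (ZMod.isUnit_iff_coprime 2 q).2 (Nat.coprime_two_left.2 hq)
        rw [Nat.cast_ofNat] at hu
        exact sub_eq_zero.1 ((hu.mul_right_eq_zero).1 h2)
    · have := congrArg tot e
      simp only [f, Sum.elim_inl, Sum.elim_inr, tot_add, tot_one] at this
      omega
    · have := congrArg tot e
      simp only [f, Sum.elim_inl, Sum.elim_inr, tot_add, tot_one] at this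
      omega
    · simp only [f, Sum.elim_inr] at e
      have e1 := one_inj_wr e
      simp only [Sum.inr.injEq, Prod.mk.injEq, add_right_inj] at e1
      rw [e1.1, e1.2.1]
  have hal : ∀ x, γ j (f x) ≠ 0 := by
    rintro (⟨u, v, t⟩ | ⟨u, t⟩)
    · obtain ⟨g, hg, e⟩ := exists_wreath (H := H)
        (fun k : ZMod q × B => if k = i then u - z else v - z') t
      have := h.inv g hg j (push Sum.inl β + one (.inr (z, i)) + one (.inr (z', i')))
      have hc' : (g : Alph H B l q → Alph H B l q) ∘ Sum.inl = Sum.inl := funext hg.1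
      rw [push_add, push_add, push_one, push_one, push_comp, hc', e z i.1 i.2, e z' i'.1 i'.2,
        if_pos rfl, if_neg hi.symm, add_sub_cancel, add_sub_cancel] at this
      exact this ▸ hδ
    · obtain ⟨g, hg, e⟩ := exists_wreath (H := H) (fun _ : ZMod q × B => u - z) t
      have := h.inv g hg j (one (.inr (z, i)))
      rw [push_one, e z i.1 i.2, add_sub_cancel, hz] at this
      simp only [f, Sum.elim_inr]
      omega
  have := card_le_wr hn f hf hal
  simpa [Fintype.card_sum, Fintype.card_prod, ZMod.card, mul_assoc] using this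

end Pool.Agent.P.MP_8598be_al.Z
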